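import Mathlib

/-! # A gap theorem: the Cauchy transform of a function with a spectral gap -/

set_option autoImplicit false

open MeasureTheory Set Filter Topology
open Complex (I)

namespace Pool.Agent.Q85.Rig

/-- the Cauchy transform -/
noncomputable def CT (v : ℝ → ℝ) (z : ℂ) : ℂ := ∫ t : ℝ, (v t : ℂ) / ((t : ℂ) - z)

variable {v : ℝ → ℝ}

lemma CT_meas (hv : Integrable v) (z : ℂ) :
    AEStronglyMeasurable (fun t : ℝ => (v t : ℂ) / ((t : ℂ) - z)) volume := by
  have h1 : AEStronglyMeasurable (fun t : ℝ => (v t : ℂ)) volume :=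
    Complex.continuous_ofReal.comp_aestronglyMeasurable hv.1
  have h2 : Measurable fun t : ℝ => ((t : ℂ) - z)⁻¹ :=
    ((Complex.measurable_ofReal).sub_const z).inv
  simp_rw [div_eq_mul_inv]
  exact h1.mul h2.aestronglyMeasurable

lemma CT_norm {z : ℂ} {d : ℝ} (hd : 0 < d) (h : ∀ t, v t ≠ 0 → d ≤ ‖(t : ℂ) - z‖) (t : ℝ) :
    ‖(v t : ℂ) / ((t : ℂ) - z)‖ ≤ |v t| / d := by
  by_cases ht : v t = 0
  · simp [ht]
  · rw [norm_div, Complex.norm_real, Real.norm_eq_abs]
    exact div_le_div_of_nonneg_left (abs_nonneg _) hd (h t ht)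

lemma CT_int (hv : Integrable v) {z : ℂ} {d : ℝ} (hd : 0 < d)
    (h : ∀ t, v t ≠ 0 → d ≤ ‖(t : ℂ) - z‖) :
    Integrable fun t : ℝ => (v t : ℂ) / ((t : ℂ) - z) :=
  (hv.abs.div_const d).mono' (CT_meas hv z) (ae_of_all _ (CT_norm hd h))

lemma CT_le (hv : Integrable v) {z : ℂ} {d : ℝ} (hd : 0 < d)
    (h : ∀ t, v t ≠ 0 → d ≤ ‖(t : ℂ) - z‖) : ‖CT v z‖ ≤ (∫ t, |v t|) / d := by
  rw [← integral_div]
  exact norm_integral_le_of_norm_le (hv.abs.div_const d) (ae_of_all _ (CT_norm hd h))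

lemma im_le (z : ℂ) (t : ℝ) : |z.im| ≤ ‖(t : ℂ) - z‖ := by
  have := Complex.abs_im_le_norm ((t : ℂ) - z)
  simpa using this

lemma CT_diff (hv : Integrable v) {z : ℂ} {d : ℝ} (hd : 0 < d)
    (h : ∀ t, v t ≠ 0 → d ≤ ‖(t : ℂ) - z‖) : DifferentiableAt ℂ (CT v) z := by
  have h2 : ∀ w ∈ Metric.ball z (d / 2), ∀ t, v t ≠ 0 → d / 2 ≤ ‖(t : ℂ) - w‖ := by
    intro w hw t ht
    have h3 := h t ht
    have h4 : ‖(t : ℂ) - z‖ ≤ ‖(t : ℂ) - w‖ + ‖w - z‖ := by
      have := norm_add_le ((t : ℂ) - w) (w - z)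
      rwa [sub_add_sub_cancel] at this
    rw [Metric.mem_ball, dist_eq_norm] at hw
    linarith
  have hm : ∀ w : ℂ, AEStronglyMeasurable (fun t : ℝ => (v t : ℂ) / ((t : ℂ) - w)) volume :=
    CT_meas hv
  have key := hasDerivAt_integral_of_dominated_loc_of_deriv_le (μ := (volume : Measure ℝ))
    (F := fun (w : ℂ) (t : ℝ) => (v t : ℂ) / ((t : ℂ) - w))
    (F' := fun (w : ℂ) (t : ℝ) => (v t : ℂ) / ((t : ℂ) - w) ^ 2) (x₀ := z)
    (bound := fun t => |v t| / (d / 2) ^ 2) (s := Metric.ball z (d / 2))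
    (Metric.ball_mem_nhds _ (by positivity)) (Eventually.of_forall hm)
    (CT_int hv hd h) ?_ ?_ (hv.abs.div_const _) ?_
  · exact key.2.differentiableAt
  · have h1 : AEStronglyMeasurable (fun t : ℝ => (v t : ℂ)) volume :=
      Complex.continuous_ofReal.comp_aestronglyMeasurable hv.1
    have h2 : Measurable fun t : ℝ => (((t : ℂ) - z) ^ 2)⁻¹ :=
      (((Complex.measurable_ofReal).sub_const z).pow_const 2).inv
    simp_rw [div_eq_mul_inv]
    exact h1.mul h2.aestronglyMeasurable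
  · refine ae_of_all _ fun t w hw => ?_
    by_cases ht : v t = 0
    · simp [ht]
    · rw [norm_div, norm_pow, Complex.norm_real, Real.norm_eq_abs]
      exact div_le_div_of_nonneg_left (abs_nonneg _) (by positivity)
        (pow_le_pow_left₀ (by positivity) (h2 w hw t ht) 2)
  · refine ae_of_all _ fun t w hw => ?_
    by_cases ht : v t = 0
    · simpa [ht] using hasDerivAt_const w (0 : ℂ)
    · have hne : (t : ℂ) - w ≠ 0 := by
        intro h0
        have := h2 w hw t ht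
        rw [h0, norm_zero] at this
        linarith
      have d1 : HasDerivAt (fun w : ℂ => (t : ℂ) - w) (-1) w := by
        simpa using (hasDerivAt_id w).const_sub (t : ℂ)
      have d2 := (hasDerivAt_const w (v t : ℂ)).div d1 hne
      refine d2.congr_deriv ?_
      ring

/-- decay away from the real line -/
lemma CT_gap (hv : Integrable v) {η : ℝ} (hη : 0 < η)
    (h0 : ∀ ω : ℝ, |ω| < η → ∫ x, v x * Real.cos (2 * Real.pi * ω * x) = 0)
    (h1 : ∀ ω : ℝ, |ω| < η → ∫ x, v x * Real.sin (2 * Real.pi * ω * x) = 0) {z : ℂ}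
    (hz : z.im ≠ 0) :
    ‖CT v z‖ ≤ Real.exp (-(Real.pi * η * |z.im|)) * ((∫ t, |v t|) / |z.im|) := by
  have hpi := Real.pi_pos
  obtain ⟨s₀, hs₀⟩ : ∃ s₀ : ℝ, s₀ = Real.pi * η := ⟨_, rfl⟩
  have hs0 : 0 < s₀ := by rw [hs₀]; positivity
  have hzi : 0 < |z.im| := abs_pos.2 hz
  have hd : ∀ t : ℝ, |z.im| ≤ ‖(t : ℂ) - z‖ := im_le z
  have hne : ∀ t : ℝ, (t : ℂ) - z ≠ 0 := by
    intro t h
    have := hd t
    rw [h, norm_zero] at this
    linarith
  have hexp : ∀ (s t : ℝ), ‖Complex.exp (I * s * ((t : ℂ) - z))‖ = Real.exp (s * z.im) := by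
    intro s t
    rw [Complex.norm_exp]
    congr 1
    simp
  have hvm : AEStronglyMeasurable (fun t : ℝ => (v t : ℂ)) volume :=
    Complex.continuous_ofReal.comp_aestronglyMeasurable hv.1
  have hem : ∀ s : ℝ, Continuous fun t : ℝ => Complex.exp (I * s * ((t : ℂ) - z)) := by
    intro s
    fun_prop
  -- the function of s
  obtain ⟨D, hD⟩ : ∃ D : ℝ → ℂ, D = fun s : ℝ => ∫ t : ℝ, (v t : ℂ) / ((t : ℂ) - z) *
      Complex.exp (I * s * ((t : ℂ) - z)) := ⟨_, rfl⟩
  have hint : ∀ s : ℝ, Integrable fun t : ℝ => (v t : ℂ) / ((t : ℂ) - z) *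
      Complex.exp (I * s * ((t : ℂ) - z)) := by
    intro s
    refine ((hv.abs.div_const |z.im|).mul_const (Real.exp (s * z.im))).mono'
      ((CT_meas hv z).mul (hem s).aestronglyMeasurable) (ae_of_all _ fun t => ?_)
    rw [norm_mul, hexp]
    exact mul_le_mul_of_nonneg_right (CT_norm hzi (fun t _ => hd t) t) (Real.exp_pos _).le
  have hDd : ∀ s : ℝ, HasDerivAt D (∫ t : ℝ, (v t : ℂ) * I * Complex.exp (I * s * ((t : ℂ) - z))) s := by
    intro s
    rw [hD]
    have key := hasDerivAt_integral_of_dominated_loc_of_deriv_le (μ := (volume : Measure ℝ))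
      (F := fun (s : ℝ) (t : ℝ) => (v t : ℂ) / ((t : ℂ) - z) * Complex.exp (I * s * ((t : ℂ) - z)))
      (F' := fun (s : ℝ) (t : ℝ) => (v t : ℂ) * I * Complex.exp (I * s * ((t : ℂ) - z))) (x₀ := s)
      (bound := fun t => |v t| * Real.exp ((|s| + 1) * |z.im|)) (s := Metric.ball s 1)
      (Metric.ball_mem_nhds _ one_pos) (Eventually.of_forall fun s => (hint s).1)
      (hint s) ?_ ?_ (hv.abs.mul_const _) ?_
    · exact key.2
    · exact (hvm.mul_const I).mul (hem s).aestronglyMeasurable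
    · refine ae_of_all _ fun t w hw => ?_
      rw [norm_mul, norm_mul, Complex.norm_I, mul_one, Complex.norm_real, Real.norm_eq_abs, hexp]
      apply mul_le_mul_of_nonneg_left _ (abs_nonneg _)
      apply Real.exp_le_exp.2
      rw [Metric.mem_ball, Real.dist_eq] at hw
      have h2 : |w| ≤ |s| + 1 := by
        have := abs_sub_abs_le_abs_sub w s
        linarith
      calc w * z.im ≤ |w * z.im| := le_abs_self _
        _ = |w| * |z.im| := abs_mul _ _
        _ ≤ _ := mul_le_mul_of_nonneg_right h2 (abs_nonneg _)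
    · refine ae_of_all _ fun t w hw => ?_
      have d0 : HasDerivAt (fun s : ℝ => (s : ℂ)) 1 w := Complex.ofRealCLM.hasDerivAt
      have d1 : HasDerivAt (fun s : ℝ => I * (s : ℂ) * ((t : ℂ) - z)) (I * 1 * ((t : ℂ) - z)) w :=
        (d0.const_mul _).mul_const _
      have d2 := ((Complex.hasDerivAt_exp _).comp w d1).const_mul ((v t : ℂ) / ((t : ℂ) - z))
      refine d2.congr_deriv ?_
      have := hne t
      field_simp
  have hz0 : ∀ s : ℝ, |s| ≤ s₀ → ∫ t : ℝ, (v t : ℂ) * I * Complex.exp (I * s * ((t : ℂ) - z)) = 0 := by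
    intro s hs
    obtain ⟨ω, hω⟩ : ∃ ω : ℝ, ω = s / (2 * Real.pi) := ⟨_, rfl⟩
    have hω2 : 2 * Real.pi * ω = s := by rw [hω]; field_simp
    have hω3 : |ω| < η := by
      rw [hω, abs_div, abs_of_pos (by positivity : (0 : ℝ) < 2 * Real.pi), div_lt_iff₀ (by positivity)]
      rw [hs₀] at hs
      nlinarith
    have e1 := h0 ω hω3
    have e2 := h1 ω hω3
    rw [hω2] at e1 e2
    have i1 : Integrable fun x => v x * Real.cos (s * x) := by
      refine hv.mono (hv.1.mul (by fun_prop)) (ae_of_all _ fun x => ?_)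
      rw [norm_mul]
      exact mul_le_of_le_one_right (norm_nonneg _) (by rw [Real.norm_eq_abs]; exact Real.abs_cos_le_one _)
    have i2 : Integrable fun x => v x * Real.sin (s * x) := by
      refine hv.mono (hv.1.mul (by fun_prop)) (ae_of_all _ fun x => ?_)
      rw [norm_mul]
      exact mul_le_of_le_one_right (norm_nonneg _) (by rw [Real.norm_eq_abs]; exact Real.abs_sin_le_one _)
    have e3 : ∀ t : ℝ, (v t : ℂ) * I * Complex.exp (I * s * ((t : ℂ) - z)) =
        (((v t * Real.cos (s * t) : ℝ) : ℂ) + ((v t * Real.sin (s * t) : ℝ) : ℂ) * I) *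
          (I * Complex.exp (-(I * s * z))) := by
      intro t
      have : I * s * ((t : ℂ) - z) = ((s * t : ℝ) : ℂ) * I + -(I * s * z) := by push_cast; ring
      rw [this, Complex.exp_add, Complex.exp_mul_I, ← Complex.ofReal_cos, ← Complex.ofReal_sin]
      push_cast
      ring
    simp_rw [e3]
    rw [integral_mul_const, integral_add, integral_mul_const, integral_complex_ofReal, integral_complex_ofReal, e1, e2]
    · simp
    · exact i1.ofReal
    · exact i2.ofReal.mul_const I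
  have hcst : ∀ s ∈ Icc (-s₀) s₀, D s = D (-s₀) := by
    refine constant_of_has_deriv_right_zero (fun s _ => (hDd s).continuousAt.continuousWithinAt)
      fun s hs => ?_
    have h2 := hDd s
    rw [hz0 s (abs_le.2 ⟨hs.1, hs.2.le⟩)] at h2
    exact h2.hasDerivWithinAt
  have hD0 : D 0 = CT v z := by
    rw [hD]
    unfold CT
    simp
  have hb : ∀ s : ℝ, ‖D s‖ ≤ ((∫ t, |v t|) / |z.im|) * Real.exp (s * z.im) := by
    intro s
    rw [hD, ← integral_div, ← integral_mul_const]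
    refine norm_integral_le_of_norm_le ((hv.abs.div_const |z.im|).mul_const (Real.exp (s * z.im)))
      (ae_of_all _ fun t => ?_)
    rw [norm_mul, hexp]
    exact mul_le_mul_of_nonneg_right (CT_norm hzi (fun t _ => hd t) t) (Real.exp_pos _).le
  have e0 := hcst 0 ⟨by linarith, hs0.le⟩
  rcases lt_or_gt_of_ne hz with hneg | hpos
  · have e1 := hcst s₀ ⟨by linarith, le_rfl⟩
    have h3 := hb s₀
    rw [e1, ← e0, hD0] at h3
    rw [abs_of_neg hneg] at h3 ⊢
    rw [mul_comm]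
    refine h3.trans (le_of_eq ?_)
    rw [hs₀]
    congr 2
    ring
  · have h3 := hb (-s₀)
    rw [← e0, hD0] at h3
    rw [abs_of_pos hpos] at h3 ⊢
    rw [mul_comm]
    refine h3.trans (le_of_eq ?_)
    rw [hs₀]
    congr 2
    ring

/-- a maximum principle on a disc, with the product over the four rotations -/
lemma disc4 {f : ℂ → ℂ} {z₀ : ℂ} {ρ : ℝ} (hρ : 0 < ρ)
    (hf : ∀ z, ‖z - z₀‖ ≤ ρ → DifferentiableAt ℂ f z) {B : ℝ}
    (hB : ∀ w : ℂ, ‖w‖ = ρ → ‖f (z₀ + w) * f (z₀ + I * w) * f (z₀ - w) * f (z₀ - I * w)‖ ≤ B) :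
    ‖f z₀‖ ^ 4 ≤ B := by
  obtain ⟨G, hG⟩ : ∃ G : ℂ → ℂ, G = fun w => f (z₀ + w) * f (z₀ + I * w) * f (z₀ - w) *
      f (z₀ - I * w) := ⟨_, rfl⟩
  have hd : ∀ w : ℂ, ‖w‖ ≤ ρ → DifferentiableAt ℂ G w := by
    intro w hw
    rw [hG]
    have a1 : DifferentiableAt ℂ (fun w => f (z₀ + w)) w :=
      DifferentiableAt.comp w (hf (z₀ + w) (by simpa using hw)) (by fun_prop)
    have a2 : DifferentiableAt ℂ (fun w => f (z₀ + I * w)) w :=
      DifferentiableAt.comp w (hf (z₀ + I * w) (by simpa using hw)) (by fun_prop)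
    have a3 : DifferentiableAt ℂ (fun w => f (z₀ - w)) w :=
      DifferentiableAt.comp w (hf (z₀ - w) (by simpa using hw)) (by fun_prop)
    have a4 : DifferentiableAt ℂ (fun w => f (z₀ - I * w)) w :=
      DifferentiableAt.comp w (hf (z₀ - I * w) (by simpa using hw)) (by fun_prop)
    exact ((a1.mul a2).mul a3).mul a4
  have h1 : DiffContOnCl ℂ G (Metric.ball 0 ρ) := by
    refine DifferentiableOn.diffContOnCl fun w hw => ?_
    rw [closure_ball _ hρ.ne', Metric.mem_closedBall, dist_zero_right] at hw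
    exact (hd w hw).differentiableWithinAt
  have h2 := Complex.norm_le_of_forall_mem_frontier_norm_le Metric.isBounded_ball h1 (C := B)
    (z := 0) ?_ (subset_closure (Metric.mem_ball_self hρ))
  · rw [hG] at h2
    simp only [mul_zero, add_zero, sub_zero, norm_mul] at h2
    calc ‖f z₀‖ ^ 4 = ‖f z₀‖ * ‖f z₀‖ * ‖f z₀‖ * ‖f z₀‖ := by ring
      _ ≤ B := h2
  · intro w hw
    rw [frontier_ball _ hρ.ne', mem_sphere_iff_norm, sub_zero] at hw
    rw [hG]
    exact hB w hw

end Pool.Agent.Q85.Rig
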