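import Pool.Agent.Q85.Rig.Beu

/-! # A gap theorem: smallness on the real line, and the maximum principle -/

set_option autoImplicit false

open MeasureTheory Set Filter Topology
open Complex (I)

namespace Pool.Agent.Q85.Rig

variable {v : ℝ → ℝ}

lemma CT_add {z : ℂ} (hz : z.im ≠ 0) {v₀ v₁ : ℝ → ℝ} (h0 : Integrable v₀) (h1 : Integrable v₁) :
    CT (fun t => v₀ t + v₁ t) z = CT v₀ z + CT v₁ z := by
  unfold CT
  rw [← integral_add (CT_int h0 (abs_pos.2 hz) fun t _ => im_le z t)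
    (CT_int h1 (abs_pos.2 hz) fun t _ => im_le z t)]
  refine integral_congr_ae (ae_of_all _ fun t => ?_)
  simp only
  push_cast
  ring

/-- smallness near the real line -/
theorem near_real (hv : Integrable v) {η : ℝ} (hη : 0 < η)
    (h0 : ∀ ω : ℝ, |ω| < η → ∫ x, v x * Real.cos (2 * Real.pi * ω * x) = 0)
    (h1 : ∀ ω : ℝ, |ω| < η → ∫ x, v x * Real.sin (2 * Real.pi * ω * x) = 0) {c κ δ : ℝ}
    (hc : 0 < c) (hκ : 0 < κ) (hδ : 0 < δ) (hδ1 : δ ≤ 1) :
    ∃ M c₁ : ℝ, 0 ≤ M ∧ 0 < c₁ ∧ ∀ R : ℝ, 32 / c ≤ R →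
      ∫ x in {x : ℝ | R ≤ |x| ∧ |x| ≤ (1 + c) * R}, |v x| ≤ Real.exp (-(κ * R)) →
      ∀ x : ℝ, (1 + c / 4) * R ≤ |x| → |x| ≤ (1 + 3 * c / 4) * R →
        ‖CT v (x + δ * I)‖ ≤ M * Real.exp (-(c₁ * R)) := by
  have hpi := Real.pi_pos
  obtain ⟨N, hN⟩ : ∃ N : ℝ, N = ∫ t, |v t| := ⟨_, rfl⟩
  have hN0 : 0 ≤ N := by rw [hN]; exact integral_nonneg fun t => abs_nonneg _
  obtain ⟨c₂, hc₂⟩ : ∃ c₂ : ℝ, c₂ = min (Real.pi * η * c / 16) κ := ⟨_, rfl⟩
  have hc20 : 0 < c₂ := by rw [hc₂]; exact lt_min (by positivity) hκ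
  have hca : c₂ ≤ Real.pi * η * c / 16 := by rw [hc₂]; exact min_le_left _ _
  have hcb : c₂ ≤ κ := by rw [hc₂]; exact min_le_right _ _
  obtain ⟨P, hP⟩ : ∃ P : ℝ, P = N * (N * Real.exp (Real.pi * η) + 1) := ⟨_, rfl⟩
  have hP0 : 0 ≤ P := by rw [hP]; positivity
  refine ⟨Real.sqrt P + 1 / δ, c₂ / 2, by positivity, by positivity, fun R hR hA x hx1 hx2 => ?_⟩
  have hcR : 32 ≤ c * R := by rwa [div_le_iff₀ hc, mul_comm] at hR
  have hR0 : 0 < R := by
    by_contra hcon
    push Not at hcon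
    nlinarith
  obtain ⟨A, hAd⟩ : ∃ A : Set ℝ, A = {x : ℝ | R ≤ |x| ∧ |x| ≤ (1 + c) * R} := ⟨_, rfl⟩
  have hAm : MeasurableSet A := by
    rw [hAd]
    exact (measurableSet_le measurable_const continuous_abs.measurable).inter
      (measurableSet_le continuous_abs.measurable measurable_const)
  rw [← hAd] at hA
  obtain ⟨v₁, hv₁⟩ : ∃ v₁ : ℝ → ℝ, v₁ = A.indicator v := ⟨_, rfl⟩
  obtain ⟨v₀, hv₀⟩ : ∃ v₀ : ℝ → ℝ, v₀ = Aᶜ.indicator v := ⟨_, rfl⟩
  have i1 : Integrable v₁ := by rw [hv₁]; exact hv.indicator hAm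
  have i0 : Integrable v₀ := by rw [hv₀]; exact hv.indicator hAm.compl
  have hsum : v = fun t => v₀ t + v₁ t := by
    funext t
    rw [hv₀, hv₁]
    by_cases ht : t ∈ A
    · rw [indicator_of_mem ht, indicator_of_notMem (by simpa using ht), zero_add]
    · rw [indicator_of_notMem ht, indicator_of_mem (by simpa using ht), add_zero]
  have n1 : ∫ t, |v₁ t| ≤ Real.exp (-(κ * R)) := by
    have : ∀ t, |v₁ t| = A.indicator (fun t => |v t|) t := by
      intro t
      rw [hv₁]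
      by_cases ht : t ∈ A
      · rw [indicator_of_mem ht, indicator_of_mem ht]
      · rw [indicator_of_notMem ht, indicator_of_notMem ht, abs_zero]
    simp_rw [this]
    rwa [integral_indicator hAm]
  have n0 : ∫ t, |v₀ t| ≤ N := by
    rw [hN]
    refine integral_mono i0.abs hv.abs fun t => ?_
    rw [hv₀]
    by_cases ht : t ∈ A
    · rw [indicator_of_notMem (by simpa using ht), abs_zero]
      exact abs_nonneg _
    · rw [indicator_of_mem (by simpa using ht)]
  obtain ⟨z₀, hz₀⟩ : ∃ z₀ : ℂ, z₀ = x + δ * I := ⟨_, rfl⟩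
  have hre : z₀.re = x := by rw [hz₀]; simp
  have him : z₀.im = δ := by rw [hz₀]; simp
  rw [← hz₀]
  obtain ⟨ρ, hρ⟩ : ∃ ρ : ℝ, ρ = c * R / 8 := ⟨_, rfl⟩
  have hρ4 : 4 ≤ ρ := by rw [hρ]; linarith
  -- distances
  have hdist : ∀ z : ℂ, ‖z - z₀‖ ≤ ρ → ∀ t, v₀ t ≠ 0 → 1 ≤ ‖(t : ℂ) - z‖ := by
    intro z hz t ht
    have h2 : t ∉ A := by
      intro h
      apply ht
      rw [hv₀, indicator_of_notMem (by simpa using h)]
    rw [hAd] at h2
    simp only [mem_ofPred_eq, not_and_or, not_le] at h2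
    have h3 : |z.re - x| ≤ ρ := by
      have := (Complex.abs_re_le_norm (z - z₀)).trans hz
      rwa [Complex.sub_re, hre] at this
    have h4 : |t - z.re| ≤ ‖(t : ℂ) - z‖ := by
      have := Complex.abs_re_le_norm ((t : ℂ) - z)
      rwa [Complex.sub_re, Complex.ofReal_re] at this
    refine le_trans ?_ h4
    have h5 : |x| ≤ |z.re| + |z.re - x| := by
      have := abs_sub_abs_le_abs_sub x z.re
      rw [abs_sub_comm] at this
      linarith
    have h6 : |z.re| ≤ |x| + |z.re - x| := by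
      have := abs_sub_abs_le_abs_sub z.re x
      linarith
    rcases h2 with h2 | h2
    · have h7 := abs_sub_abs_le_abs_sub z.re t
      rw [abs_sub_comm z.re t] at h7
      nlinarith
    · have h7 := abs_sub_abs_le_abs_sub t z.re
      nlinarith
  have hbd1 : ∀ z : ℂ, ‖z - z₀‖ ≤ ρ → ‖CT v₀ z‖ ≤ N := by
    intro z hz
    have := CT_le i0 one_pos (hdist z hz)
    rw [div_one] at this
    exact this.trans n0
  obtain ⟨ε, hε⟩ : ∃ ε : ℝ, ε = N * Real.exp (-(Real.pi * η * (ρ / 2 - 1))) +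
    Real.exp (-(κ * R)) := ⟨_, rfl⟩
  have hε0 : 0 ≤ ε := by rw [hε]; positivity
  have hbd2 : ∀ z : ℂ, ρ / 2 - 1 ≤ |z.im| → ‖CT v₀ z‖ ≤ ε := by
    intro z hz
    have hz1 : 1 ≤ |z.im| := by linarith
    have hz0 : z.im ≠ 0 := by
      intro h
      rw [h, abs_zero] at hz1
      linarith
    have e1 := CT_add hz0 i0 i1
    rw [← hsum] at e1
    have e2 : CT v₀ z = CT v z - CT v₁ z := by rw [e1]; ring
    have e3 := CT_gap hv hη h0 h1 hz0
    have e4 := CT_le i1 (abs_pos.2 hz0) (fun t _ => im_le z t)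
    have e5 : (∫ t, |v₁ t|) / |z.im| ≤ Real.exp (-(κ * R)) := by
      have h9 : 0 ≤ ∫ t, |v₁ t| := integral_nonneg fun t => abs_nonneg _
      exact (div_le_self h9 hz1).trans n1
    have e6 : (∫ t, |v t|) / |z.im| ≤ N := by
      rw [← hN]
      exact div_le_self hN0 hz1
    have e7 : Real.exp (-(Real.pi * η * |z.im|)) ≤ Real.exp (-(Real.pi * η * (ρ / 2 - 1))) := by
      apply Real.exp_le_exp.2
      have : 0 ≤ Real.pi * η := by positivity
      nlinarith
    rw [e2, hε]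
    refine (norm_sub_le _ _).trans (add_le_add (e3.trans ?_) (e4.trans e5))
    rw [mul_comm N]
    exact mul_le_mul e7 e6 (by positivity) (Real.exp_pos _).le
  -- the disc
  have h4 := disc4 (f := CT v₀) (z₀ := z₀) (ρ := ρ) (by linarith)
    (fun z hz => CT_diff i0 one_pos (hdist z hz)) (B := (N * ε) ^ 2) (fun w hw => ?_)
  · have h5 : ‖CT v₀ z₀‖ ^ 2 ≤ N * ε := by
      have : (‖CT v₀ z₀‖ ^ 2) ^ 2 ≤ (N * ε) ^ 2 := by rw [← pow_mul]; exact h4
      exact le_of_sq_le_sq this (by positivity)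
    have h6 : ‖CT v₀ z₀‖ ≤ Real.sqrt (N * ε) := Real.le_sqrt_of_sq_le h5
    have hεb : ε ≤ (N * Real.exp (Real.pi * η) + 1) * Real.exp (-(c₂ * R)) := by
      have b1 : Real.exp (-(Real.pi * η * (ρ / 2 - 1))) ≤ Real.exp (Real.pi * η) *
          Real.exp (-(c₂ * R)) := by
        rw [← Real.exp_add]
        apply Real.exp_le_exp.2
        rw [hρ]
        nlinarith
      have b2 : Real.exp (-(κ * R)) ≤ Real.exp (-(c₂ * R)) := by
        apply Real.exp_le_exp.2
        nlinarith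
      rw [hε, add_mul, one_mul]
      refine add_le_add ?_ b2
      rw [mul_assoc N]
      exact mul_le_mul_of_nonneg_left b1 hN0
    have h7 : Real.sqrt (N * ε) ≤ Real.sqrt P * Real.exp (-(c₂ / 2 * R)) := by
      have b3 : N * ε ≤ P * (Real.exp (-(c₂ / 2 * R))) ^ 2 := by
        have : (Real.exp (-(c₂ / 2 * R))) ^ 2 = Real.exp (-(c₂ * R)) := by
          rw [← Real.exp_nat_mul]
          congr 1
          push_cast
          ring
        rw [this, hP, mul_assoc]
        exact mul_le_mul_of_nonneg_left hεb hN0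
      refine (Real.sqrt_le_sqrt b3).trans (le_of_eq ?_)
      rw [Real.sqrt_mul hP0, Real.sqrt_sq (Real.exp_pos _).le]
    have hz0 : z₀.im ≠ 0 := by rw [him]; exact hδ.ne'
    have e1 := CT_add hz0 i0 i1
    rw [← hsum] at e1
    have e4 := CT_le i1 (abs_pos.2 hz0) (fun t _ => im_le z₀ t)
    rw [him, abs_of_pos hδ] at e4
    have e5 : (∫ t, |v₁ t|) / δ ≤ 1 / δ * Real.exp (-(c₂ / 2 * R)) := by
      rw [div_eq_inv_mul, one_div]
      apply mul_le_mul_of_nonneg_left _ (by positivity)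
      refine n1.trans (Real.exp_le_exp.2 ?_)
      nlinarith
    rw [e1, add_mul]
    exact (norm_add_le _ _).trans (add_le_add (h6.trans h7) (e4.trans e5))
  · -- the four points
    have hn : ∀ a : ℂ, ‖a‖ = ρ → ‖CT v₀ (z₀ + a)‖ ≤ N := fun a ha =>
      hbd1 _ (by rw [add_sub_cancel_left]; exact ha.le)
    have hIw : ‖I * w‖ = ρ := by rw [norm_mul, Complex.norm_I, one_mul, hw]
    have hsq : w.re ^ 2 + w.im ^ 2 = ρ ^ 2 := by
      rw [← hw, Complex.sq_norm, Complex.normSq_apply]; ring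
    have a1 := hn w hw
    have a2 := hn (I * w) hIw
    have a3 := hn (-w) (by rw [norm_neg, hw])
    have a4 := hn (-(I * w)) (by rw [norm_neg, hIw])
    rw [← sub_eq_add_neg] at a3 a4
    rw [norm_mul, norm_mul, norm_mul]
    have hcase : ρ / 2 ≤ |w.im| ∨ ρ / 2 ≤ |w.re| := by
      by_contra hcon
      push Not at hcon
      have q1 : w.im ^ 2 < (ρ / 2) ^ 2 := sq_lt_sq' (by linarith [neg_abs_le w.im]) (by linarith [le_abs_self w.im])
      have q2 : w.re ^ 2 < (ρ / 2) ^ 2 := sq_lt_sq' (by linarith [neg_abs_le w.re]) (by linarith [le_abs_self w.re])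
      nlinarith
    rcases hcase with h | h
    · have b1 : ‖CT v₀ (z₀ + w)‖ ≤ ε := by
        apply hbd2
        rw [Complex.add_im, him]
        rcases abs_cases w.im with q | q <;> rcases abs_cases (δ + w.im) with q' | q' <;> linarith
      have b3 : ‖CT v₀ (z₀ - w)‖ ≤ ε := by
        apply hbd2
        rw [Complex.sub_im, him]
        rcases abs_cases w.im with q | q <;> rcases abs_cases (δ - w.im) with q' | q' <;> linarith
      calc ‖CT v₀ (z₀ + w)‖ * ‖CT v₀ (z₀ + I * w)‖ * ‖CT v₀ (z₀ - w)‖ * ‖CT v₀ (z₀ - I * w)‖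
          ≤ ε * N * ε * N := by gcongr
        _ = (N * ε) ^ 2 := by ring
    · have e1 : (I * w).im = w.re := by simp
      have b1 : ‖CT v₀ (z₀ + I * w)‖ ≤ ε := by
        apply hbd2
        rw [Complex.add_im, him, e1]
        rcases abs_cases w.re with q | q <;> rcases abs_cases (δ + w.re) with q' | q' <;> linarith
      have b3 : ‖CT v₀ (z₀ - I * w)‖ ≤ ε := by
        apply hbd2
        rw [Complex.sub_im, him, e1]
        rcases abs_cases w.re with q | q <;> rcases abs_cases (δ - w.re) with q' | q' <;> linarith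
      calc ‖CT v₀ (z₀ + w)‖ * ‖CT v₀ (z₀ + I * w)‖ * ‖CT v₀ (z₀ - w)‖ * ‖CT v₀ (z₀ - I * w)‖
          ≤ N * ε * N * ε := by gcongr
        _ = (N * ε) ^ 2 := by ring

/-! ## The maximum principle in a half annulus -/

lemma half_annulus {F : ℂ → ℂ} (hF : ∀ z : ℂ, 0 ≤ z.im → DifferentiableAt ℂ F z) {M g L r₁ r₂ : ℝ}
    (hM : 0 ≤ M) (hL : 0 ≤ L) (hr1 : 0 < r₁) (hr : r₁ < r₂)
    (h1 : ∀ z : ℂ, 0 ≤ z.im → ‖F z‖ ≤ M * Real.exp (-(g * z.im)))
    (h2 : ∀ z : ℂ, z.im = 0 → r₁ ≤ ‖z‖ → ‖z‖ ≤ r₂ → ‖F z‖ ≤ M *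
      Real.exp (-(L * Real.cosh (Real.pi / Real.log (r₂ / r₁) * (Real.pi / 2))))) {z : ℂ}
    (hz : 0 ≤ z.im) (hz2 : ‖z‖ = Real.sqrt (r₁ * r₂)) :
    ‖F z‖ ≤ M * Real.exp (-(g * z.im) - L) := by
  have hpi := Real.pi_pos
  have hr2 : 0 < r₂ := hr1.trans hr
  have hlog : 0 < Real.log (r₂ / r₁) := Real.log_pos (by rw [lt_div_iff₀ hr1]; linarith)
  obtain ⟨k, hk⟩ : ∃ k : ℝ, k = Real.pi / Real.log (r₂ / r₁) := ⟨_, rfl⟩
  have hk0 : 0 < k := by rw [hk]; positivity
  rw [← hk] at h2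
  obtain ⟨S, hS⟩ : ∃ S : ℂ → ℂ, S = fun z => Complex.sin (k * Complex.log (-I * z / r₁)) := ⟨_, rfl⟩
  have hre : ∀ z : ℂ, (-I * z / (r₁ : ℂ)).re = z.im / r₁ := by
    intro z
    rw [Complex.div_ofReal_re]
    simp
  have him : ∀ z : ℂ, (-I * z / (r₁ : ℂ)).im = -z.re / r₁ := by
    intro z
    rw [Complex.div_ofReal_im]
    simp
  have hslit : ∀ z : ℂ, 0 ≤ z.im → r₁ ≤ ‖z‖ → -I * z / (r₁ : ℂ) ∈ Complex.slitPlane := by
    intro z hz hz1
    rw [Complex.mem_slitPlane_iff, hre, him]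
    rcases hz.lt_or_eq with h | h
    · left; positivity
    · right
      intro h3
      have h4 : z.re = 0 := by
        have := (div_eq_zero_iff.1 h3).resolve_right hr1.ne'
        linarith
      have h5 : z = 0 := Complex.ext h4 h.symm
      rw [h5, norm_zero] at hz1
      linarith
  have hSd : ∀ z : ℂ, 0 ≤ z.im → r₁ ≤ ‖z‖ → DifferentiableAt ℂ S z := by
    intro z hz hz1
    rw [hS]
    have a1 : DifferentiableAt ℂ (fun z : ℂ => -I * z / (r₁ : ℂ)) z := by fun_prop
    have a2 : DifferentiableAt ℂ (fun z : ℂ => Complex.log (-I * z / (r₁ : ℂ))) z :=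
      a1.clog (hslit z hz hz1)
    exact (a2.const_mul (k : ℂ)).csin
  have hSre : ∀ z : ℂ, (S z).re = Real.sin (k * Real.log (‖z‖ / r₁)) *
      Real.cosh (k * (-I * z / (r₁ : ℂ)).arg) := by
    intro z
    rw [hS]
    simp only
    have a1 : (k * Complex.log (-I * z / r₁)).re = k * Real.log (‖z‖ / r₁) := by
      rw [Complex.re_ofReal_mul, Complex.log_re, norm_div, norm_mul, norm_neg, Complex.norm_I,
        one_mul, Complex.norm_real, Real.norm_eq_abs, abs_of_pos hr1]
    have a2 : (k * Complex.log (-I * z / r₁)).im = k * (-I * z / (r₁ : ℂ)).arg := by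
      rw [Complex.im_ofReal_mul, Complex.log_im]
    rw [Complex.sin_eq, a1, a2, ← Complex.ofReal_sin, ← Complex.ofReal_cosh, ← Complex.ofReal_cos,
      ← Complex.ofReal_sinh]
    simp only [Complex.add_re, Complex.mul_re, Complex.mul_im, Complex.ofReal_re, Complex.ofReal_im,
      Complex.I_re, Complex.I_im, mul_zero, sub_zero, mul_one, zero_mul, add_zero]
  have harg : ∀ z : ℂ, 0 ≤ z.im → |(-I * z / (r₁ : ℂ)).arg| ≤ Real.pi / 2 := by
    intro z hz
    rw [Complex.abs_arg_le_pi_div_two_iff, hre]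
    positivity
  have hcosh : ∀ z : ℂ, 0 ≤ z.im → Real.cosh (k * (-I * z / (r₁ : ℂ)).arg) ≤
      Real.cosh (k * (Real.pi / 2)) := by
    intro z hz
    rw [Real.cosh_le_cosh, abs_mul, abs_mul, abs_of_pos hk0, abs_of_pos (by positivity : 0 < Real.pi / 2)]
    exact mul_le_mul_of_nonneg_left (harg z hz) hk0.le
  -- the domain
  obtain ⟨U, hU⟩ : ∃ U : Set ℂ, U = {z : ℂ | 0 < z.im} ∩ ({z : ℂ | r₁ < ‖z‖} ∩ {z : ℂ | ‖z‖ < r₂}) :=
    ⟨_, rfl⟩
  have hUo : IsOpen U := by
    rw [hU]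
    exact (isOpen_lt continuous_const Complex.continuous_im).inter
      ((isOpen_lt continuous_const continuous_norm).inter (isOpen_lt continuous_norm continuous_const))
  have hUc : closure U ⊆ {z : ℂ | 0 ≤ z.im ∧ r₁ ≤ ‖z‖ ∧ ‖z‖ ≤ r₂} := by
    refine closure_minimal ?_ ?_
    · intro z hz
      rw [hU] at hz
      exact ⟨le_of_lt hz.1, le_of_lt hz.2.1, le_of_lt hz.2.2⟩
    · exact (isClosed_le continuous_const Complex.continuous_im).inter
        ((isClosed_le continuous_const continuous_norm).inter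
          (isClosed_le continuous_norm continuous_const))
  have hUb : Bornology.IsBounded U := by
    refine (Metric.isBounded_ball (x := (0 : ℂ)) (r := r₂)).subset fun z hz => ?_
    rw [hU] at hz
    rw [mem_ball_zero_iff]
    exact hz.2.2
  obtain ⟨H, hH⟩ : ∃ H : ℂ → ℂ, H = fun z => F z * Complex.exp (-I * g * z + L * S z) := ⟨_, rfl⟩
  have hHn : ∀ z, ‖H z‖ = ‖F z‖ * Real.exp (g * z.im + L * (S z).re) := by
    intro z
    rw [hH]
    simp only
    rw [norm_mul, Complex.norm_exp]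
    congr 2
    simp
  have hHd : DiffContOnCl ℂ H U := by
    refine DifferentiableOn.diffContOnCl fun w hw => ?_
    have hw2 := hUc hw
    refine DifferentiableAt.differentiableWithinAt ?_
    rw [hH]
    have a1 := hF w hw2.1
    have a2 := hSd w hw2.1 hw2.2.1
    have a3 : DifferentiableAt ℂ (fun z : ℂ => -I * g * z + L * S z) w :=
      (by fun_prop : DifferentiableAt ℂ (fun z : ℂ => -I * g * z) w).add (a2.const_mul (L : ℂ))
    exact a1.mul a3.cexp
  have hmax : ∀ w ∈ closure U, ‖H w‖ ≤ M := by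
    intro w hw
    refine Complex.norm_le_of_forall_mem_frontier_norm_le hUb hHd (fun y hy => ?_) hw
    rw [hUo.frontier_eq] at hy
    have hy1 := hUc hy.1
    have hy2 : y.im = 0 ∨ ‖y‖ = r₁ ∨ ‖y‖ = r₂ := by
      by_contra hcon
      push Not at hcon
      apply hy.2
      rw [hU]
      exact ⟨lt_of_le_of_ne hy1.1 (Ne.symm hcon.1), lt_of_le_of_ne hy1.2.1 (Ne.symm hcon.2.1),
        lt_of_le_of_ne hy1.2.2 hcon.2.2⟩
    rw [hHn]
    rcases hy2 with hy2 | hy2 | hy2
    · have b1 := h2 y hy2 hy1.2.1 hy1.2.2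
      have b2 : (S y).re ≤ Real.cosh (k * (Real.pi / 2)) := by
        rw [hSre]
        have e1 := hcosh y hy1.1
        have e2 := Real.sin_le_one (k * Real.log (‖y‖ / r₁))
        have e3 := Real.cosh_pos (k * (-I * y / (r₁ : ℂ)).arg)
        nlinarith
      calc ‖F y‖ * Real.exp (g * y.im + L * (S y).re)
          ≤ (M * Real.exp (-(L * Real.cosh (k * (Real.pi / 2))))) *
            Real.exp (g * y.im + L * (S y).re) := mul_le_mul_of_nonneg_right b1 (Real.exp_pos _).le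
        _ = M * Real.exp (L * ((S y).re - Real.cosh (k * (Real.pi / 2)))) := by
            rw [mul_assoc, ← Real.exp_add, hy2]
            congr 2
            ring
        _ ≤ M * 1 := by
            apply mul_le_mul_of_nonneg_left _ hM
            rw [Real.exp_le_one_iff]
            exact mul_nonpos_of_nonneg_of_nonpos hL (by linarith)
        _ = M := mul_one M
    · have b1 := h1 y hy1.1
      have b2 : (S y).re = 0 := by
        rw [hSre, hy2, div_self hr1.ne', Real.log_one, mul_zero, Real.sin_zero, zero_mul]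
      rw [b2, mul_zero, add_zero]
      calc ‖F y‖ * Real.exp (g * y.im) ≤ (M * Real.exp (-(g * y.im))) * Real.exp (g * y.im) :=
            mul_le_mul_of_nonneg_right b1 (Real.exp_pos _).le
        _ = M := by rw [mul_assoc, ← Real.exp_add, neg_add_cancel, Real.exp_zero, mul_one]
    · have b1 := h1 y hy1.1
      have b2 : (S y).re = 0 := by
        have : k * Real.log (r₂ / r₁) = Real.pi := by
          rw [hk]
          field_simp
        rw [hSre, hy2, this, Real.sin_pi, zero_mul]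
      rw [b2, mul_zero, add_zero]
      calc ‖F y‖ * Real.exp (g * y.im) ≤ (M * Real.exp (-(g * y.im))) * Real.exp (g * y.im) :=
            mul_le_mul_of_nonneg_right b1 (Real.exp_pos _).le
        _ = M := by rw [mul_assoc, ← Real.exp_add, neg_add_cancel, Real.exp_zero, mul_one]
  -- the middle circle
  have hz1 : r₁ < ‖z‖ := by
    rw [hz2]
    refine Real.lt_sqrt_of_sq_lt ?_
    nlinarith
  have hz3 : ‖z‖ < r₂ := by
    rw [hz2, Real.sqrt_lt' hr2]
    nlinarith
  have hzU : z ∈ closure U := by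
    rcases hz.lt_or_eq with h | h
    · apply subset_closure
      rw [hU]
      exact ⟨h, hz1, hz3⟩
    · -- the real points
      rw [mem_closure_iff_seq_limit]
      have hlim : Tendsto (fun n : ℕ => z + (1 / ((n : ℝ) + 1) : ℝ) * I) atTop (𝓝 z) := by
        have : Tendsto (fun n : ℕ => z + ((1 / ((n : ℝ) + 1) : ℝ) : ℂ) * I) atTop
            (𝓝 (z + ((0 : ℝ) : ℂ) * I)) :=
          ((Complex.continuous_ofReal.tendsto 0).comp tendsto_one_div_add_atTop_nhds_zero_nat).mul_const I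
            |>.const_add z
        simpa using this
      have hlim2 := hlim.norm
      have ev1 : ∀ᶠ n : ℕ in atTop, r₁ < ‖z + (1 / ((n : ℝ) + 1) : ℝ) * I‖ :=
        hlim2.eventually_const_lt hz1
      have ev2 : ∀ᶠ n : ℕ in atTop, ‖z + (1 / ((n : ℝ) + 1) : ℝ) * I‖ < r₂ :=
        hlim2.eventually_lt_const hz3
      obtain ⟨n₀, hn₀⟩ := eventually_atTop.1 (ev1.and ev2)
      refine ⟨fun n => z + (1 / (((n + n₀ : ℕ) : ℝ) + 1) : ℝ) * I, fun n => ?_,
        hlim.comp (tendsto_add_atTop_nat n₀)⟩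
      rw [hU]
      refine ⟨?_, (hn₀ _ (by omega)).1, (hn₀ _ (by omega)).2⟩
      simp only [mem_ofPred_eq, Complex.add_im, ← h, Complex.im_ofReal_mul,
        Complex.I_im, mul_one, zero_add]
      positivity
  have h5 := hmax z hzU
  rw [hHn] at h5
  have h6 : 1 ≤ (S z).re := by
    rw [hSre]
    have e1 : k * Real.log (‖z‖ / r₁) = Real.pi / 2 := by
      have e2 : ‖z‖ / r₁ = Real.sqrt (r₂ / r₁) := by
        rw [hz2]
        have : r₁ = Real.sqrt (r₁ ^ 2) := (Real.sqrt_sq hr1.le).symm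
        rw [div_eq_iff hr1.ne']
        conv_rhs => rw [this]
        rw [← Real.sqrt_mul (by positivity)]
        congr 1
        rw [Real.sqrt_sq hr1.le]
        field_simp
      rw [e2, Real.log_sqrt (by positivity), hk]
      field_simp
    rw [e1, Real.sin_pi_div_two, one_mul]
    exact Real.one_le_cosh _
  have h7 : ‖F z‖ * Real.exp (g * z.im + L) ≤ M := by
    refine le_trans (mul_le_mul_of_nonneg_left (Real.exp_le_exp.2 ?_) (norm_nonneg _)) h5
    nlinarith
  calc ‖F z‖ = ‖F z‖ * Real.exp (g * z.im + L) * Real.exp (-(g * z.im) - L) := by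
        rw [mul_assoc, ← Real.exp_add]
        have : g * z.im + L + (-(g * z.im) - L) = 0 := by ring
        rw [this, Real.exp_zero, mul_one]
    _ ≤ M * Real.exp (-(g * z.im) - L) := mul_le_mul_of_nonneg_right h7 (Real.exp_pos _).le

/-- the maximum principle in a half disc -/
lemma half_disc {F : ℂ → ℂ} (hF : ∀ z : ℂ, 0 ≤ z.im → DifferentiableAt ℂ F z) {M g r : ℝ}
    (h1 : ∀ z : ℂ, 0 ≤ z.im → ‖F z‖ ≤ M)
    (h2 : ∀ z : ℂ, 0 ≤ z.im → ‖z‖ = r → ‖F z‖ ≤ M * Real.exp (-(g * z.im))) {z : ℂ}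
    (hz : 0 < z.im) (hz2 : ‖z‖ < r) :
    ‖F z‖ ≤ M * Real.exp (-(g * z.im)) := by
  obtain ⟨U, hU⟩ : ∃ U : Set ℂ, U = {z : ℂ | 0 < z.im} ∩ {z : ℂ | ‖z‖ < r} := ⟨_, rfl⟩
  have hUo : IsOpen U := by
    rw [hU]
    exact (isOpen_lt continuous_const Complex.continuous_im).inter
      (isOpen_lt continuous_norm continuous_const)
  have hUc : closure U ⊆ {z : ℂ | 0 ≤ z.im ∧ ‖z‖ ≤ r} := by
    refine closure_minimal ?_ ?_
    · intro z hz
      rw [hU] at hz
      exact ⟨le_of_lt hz.1, le_of_lt hz.2⟩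
    · exact (isClosed_le continuous_const Complex.continuous_im).inter
        (isClosed_le continuous_norm continuous_const)
  have hUb : Bornology.IsBounded U := by
    refine (Metric.isBounded_ball (x := (0 : ℂ)) (r := r)).subset fun z hz => ?_
    rw [hU] at hz
    rw [mem_ball_zero_iff]
    exact hz.2
  obtain ⟨H, hH⟩ : ∃ H : ℂ → ℂ, H = fun z => F z * Complex.exp (-I * g * z) := ⟨_, rfl⟩
  have hHn : ∀ z, ‖H z‖ = ‖F z‖ * Real.exp (g * z.im) := by
    intro z
    rw [hH]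
    simp only
    rw [norm_mul, Complex.norm_exp]
    congr 2
    simp
  have hHd : DiffContOnCl ℂ H U := by
    refine DifferentiableOn.diffContOnCl fun w hw => ?_
    have hw2 := hUc hw
    refine DifferentiableAt.differentiableWithinAt ?_
    rw [hH]
    have a1 := hF w hw2.1
    exact a1.mul (by fun_prop : DifferentiableAt ℂ (fun z : ℂ => Complex.exp (-I * g * z)) w)
  have hmax : ‖H z‖ ≤ M := by
    refine Complex.norm_le_of_forall_mem_frontier_norm_le hUb hHd (fun y hy => ?_)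
      (subset_closure (by rw [hU]; exact ⟨hz, hz2⟩))
    rw [hUo.frontier_eq] at hy
    have hy1 := hUc hy.1
    have hy2 : y.im = 0 ∨ ‖y‖ = r := by
      by_contra hcon
      push Not at hcon
      apply hy.2
      rw [hU]
      exact ⟨lt_of_le_of_ne hy1.1 (Ne.symm hcon.1), lt_of_le_of_ne hy1.2 hcon.2⟩
    rw [hHn]
    rcases hy2 with hy2 | hy2
    · rw [hy2, mul_zero, Real.exp_zero, mul_one]
      exact h1 y hy1.1
    · have b1 := h2 y hy1.1 hy2
      calc ‖F y‖ * Real.exp (g * y.im) ≤ (M * Real.exp (-(g * y.im))) * Real.exp (g * y.im) :=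
            mul_le_mul_of_nonneg_right b1 (Real.exp_pos _).le
        _ = M := by rw [mul_assoc, ← Real.exp_add, neg_add_cancel, Real.exp_zero, mul_one]
  rw [hHn] at hmax
  calc ‖F z‖ = ‖F z‖ * Real.exp (g * z.im) * Real.exp (-(g * z.im)) := by
        rw [mul_assoc, ← Real.exp_add, add_neg_cancel, Real.exp_zero, mul_one]
    _ ≤ M * Real.exp (-(g * z.im)) := mul_le_mul_of_nonneg_right hmax (Real.exp_pos _).le

end Pool.Agent.Q85.Rig
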