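import Pool.Agent.Q85.Rig.Beu2

/-! # A gap theorem: functions with a spectral gap that are small at arbitrarily far scales -/

set_option autoImplicit false

open MeasureTheory Set Filter Topology
open Complex (I)
open scoped ContDiff

namespace Pool.Agent.Q85.Rig

variable {v : ℝ → ℝ}

/-- the Cauchy transform vanishes in the upper half plane -/
theorem CT_zero (hv : Integrable v) {η : ℝ} (hη : 0 < η)
    (h0 : ∀ u : ℝ, |u| < η → ∫ x, v x * Real.cos (2 * Real.pi * u * x) = 0)
    (h1 : ∀ u : ℝ, |u| < η → ∫ x, v x * Real.sin (2 * Real.pi * u * x) = 0) {c κ : ℝ}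
    (hc : 0 < c) (hκ : 0 < κ)
    (hs : ∃ᶠ R : ℝ in atTop, ∫ x in {x : ℝ | R ≤ |x| ∧ |x| ≤ (1 + c) * R}, |v x| ≤
      Real.exp (-(κ * R))) {z : ℂ} (hz : 0 < z.im) : CT v z = 0 := by
  have hpi := Real.pi_pos
  obtain ⟨δ, hδ⟩ : ∃ δ : ℝ, δ = min 1 (z.im / 2) := ⟨_, rfl⟩
  have hδ0 : 0 < δ := by rw [hδ]; exact lt_min one_pos (by positivity)
  have hδ1 : δ ≤ 1 := by rw [hδ]; exact min_le_left _ _
  have hδ2 : δ ≤ z.im / 2 := by rw [hδ]; exact min_le_right _ _
  obtain ⟨M₀, c₁, hM₀, hc₁, hnear⟩ := near_real hv hη h0 h1 hc hκ hδ0 hδ1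
  obtain ⟨N, hN⟩ : ∃ N : ℝ, N = ∫ t, |v t| := ⟨_, rfl⟩
  have hN0 : 0 ≤ N := by rw [hN]; exact integral_nonneg fun t => abs_nonneg _
  obtain ⟨M, hM⟩ : ∃ M : ℝ, M = M₀ + N / δ := ⟨_, rfl⟩
  have hM0 : 0 ≤ M := by rw [hM]; positivity
  obtain ⟨F, hF⟩ : ∃ F : ℂ → ℂ, F = fun z => CT v (z + δ * I) := ⟨_, rfl⟩
  have him : ∀ z : ℂ, (z + δ * I).im = z.im + δ := by intro z; simp
  have hFd : ∀ z : ℂ, 0 ≤ z.im → DifferentiableAt ℂ F z := by
    intro z hz
    rw [hF]
    refine DifferentiableAt.comp (g := CT v) (f := fun z : ℂ => z + δ * I) z ?_ (by fun_prop)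
    refine CT_diff hv hδ0 fun t _ => ?_
    refine le_trans ?_ (im_le _ t)
    rw [him, abs_of_pos (by linarith)]
    linarith
  have hFM : ∀ z : ℂ, 0 ≤ z.im → ‖F z‖ ≤ M := by
    intro z hz
    rw [hF]
    have := CT_le hv hδ0 (z := z + δ * I) fun t _ => by
      refine le_trans ?_ (im_le _ t)
      rw [him, abs_of_pos (by linarith)]
      linarith
    refine this.trans ?_
    rw [hM, hN]
    linarith
  -- the fixed gain
  obtain ⟨q, hq⟩ : ∃ q : ℝ, q = Real.cosh (Real.pi / Real.log ((1 + 3 * c / 4) / (1 + c / 4)) *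
    (Real.pi / 2)) := ⟨_, rfl⟩
  have hq0 : 0 < q := by rw [hq]; exact Real.cosh_pos _
  obtain ⟨e, he⟩ : ∃ e : ℝ, e = c₁ / q := ⟨_, rfl⟩
  have he0 : 0 < e := by rw [he]; positivity
  obtain ⟨d, hd⟩ : ∃ d : ℝ, d = e / (1 + c) := ⟨_, rfl⟩
  have hd0 : 0 < d := by rw [hd]; positivity
  -- the iteration
  have step : ∀ n : ℕ, ∀ z : ℂ, 0 ≤ z.im → ‖F z‖ ≤ M * Real.exp (-((n * d) * z.im)) := by
    intro n
    induction n with
    | zero =>
      intro z hz
      simpa using hFM z hz
    | succ n ih =>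
      intro z hz
      rcases hz.lt_or_eq with hz | hz
      swap
      · rw [← hz, mul_zero, neg_zero, Real.exp_zero, mul_one]
        exact hFM z hz.le
      obtain ⟨R, hR1, hR2⟩ := (hs.and_eventually (eventually_ge_atTop (max (32 / c) (‖z‖ + 1)))).exists
      have hR3 : 32 / c ≤ R := (le_max_left _ _).trans hR2
      have hR4 : ‖z‖ + 1 ≤ R := (le_max_right _ _).trans hR2
      have hR0 : 0 < R := by have := norm_nonneg z; linarith
      have hnr := hnear R hR3 hR1
      obtain ⟨r₁, hr₁⟩ : ∃ r₁ : ℝ, r₁ = (1 + c / 4) * R := ⟨_, rfl⟩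
      obtain ⟨r₂, hr₂⟩ : ∃ r₂ : ℝ, r₂ = (1 + 3 * c / 4) * R := ⟨_, rfl⟩
      have hr10 : 0 < r₁ := by rw [hr₁]; positivity
      have hr12 : r₁ < r₂ := by
        rw [hr₁, hr₂]
        nlinarith
      have hRr : R ≤ r₁ := by rw [hr₁]; nlinarith
      have hrR : r₂ ≤ (1 + c) * R := by rw [hr₂]; nlinarith
      have hquot : r₂ / r₁ = (1 + 3 * c / 4) / (1 + c / 4) := by
        rw [hr₁, hr₂]
        field_simp
      obtain ⟨rm, hrm⟩ : ∃ rm : ℝ, rm = Real.sqrt (r₁ * r₂) := ⟨_, rfl⟩
      have hrm1 : r₁ ≤ rm := by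
        rw [hrm]
        refine Real.le_sqrt_of_sq_le ?_
        nlinarith
      have hrm2 : rm ≤ r₂ := by
        rw [hrm]
        refine (Real.sqrt_le_left (by linarith)).2 ?_
        nlinarith
      have hmid : ∀ w : ℂ, 0 ≤ w.im → ‖w‖ = rm → ‖F w‖ ≤ M * Real.exp (-((n * d + d) * w.im)) := by
        intro w hw hwr
        have k1 := half_annulus hFd (g := n * d) (L := e * R) hM0 (by positivity) hr10 hr12 ih
          (fun y hy hy1 hy2 => ?_) hw (by rw [hwr, hrm])
        · refine k1.trans (mul_le_mul_of_nonneg_left (Real.exp_le_exp.2 ?_) hM0)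
          have k2 : w.im ≤ (1 + c) * R := by
            have := (le_abs_self _).trans (Complex.abs_im_le_norm w)
            rw [hwr] at this
            linarith
          have k3 : d * w.im ≤ e * R := by
            calc d * w.im ≤ d * ((1 + c) * R) := mul_le_mul_of_nonneg_left k2 hd0.le
              _ = e * R := by rw [hd]; field_simp
          nlinarith
        · have k4 : y = (y.re : ℂ) := Complex.ext (by simp) (by simpa using hy)
          have k5 : ‖y‖ = |y.re| := by rw [k4, Complex.norm_real, Real.norm_eq_abs, Complex.ofReal_re]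
          have k6 := hnr y.re (by rw [← k5, ← hr₁]; exact hy1) (by rw [← k5, ← hr₂]; exact hy2)
          rw [← k4] at k6
          rw [hF]
          simp only
          refine k6.trans ?_
          have k7 : c₁ * R = e * R * q := by rw [he]; field_simp
          rw [hquot, ← hq, k7]
          apply mul_le_mul_of_nonneg_right _ (Real.exp_pos _).le
          rw [hM]
          have : 0 ≤ N / δ := by positivity
          linarith
      have k8 := half_disc hFd (g := n * d + d) hFM hmid hz (by linarith)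
      refine k8.trans (le_of_eq ?_)
      congr 3
      push_cast
      ring
  -- the conclusion
  obtain ⟨w, hw⟩ : ∃ w : ℂ, w = z - δ * I := ⟨_, rfl⟩
  have hwi : 0 < w.im := by
    rw [hw]
    simp only [Complex.sub_im, Complex.im_ofReal_mul, Complex.I_im, mul_one]
    linarith
  have hFw : F w = CT v z := by
    rw [hF, hw]
    simp
  rw [← hFw, ← norm_le_zero_iff]
  have hlim : Tendsto (fun n : ℕ => M * Real.exp (-((n * d) * w.im))) atTop (𝓝 (M * 0)) := by
    apply Tendsto.const_mul
    apply Real.tendsto_exp_neg_atTop_nhds_zero.comp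
    have : Tendsto (fun n : ℕ => (n : ℝ) * (d * w.im)) atTop atTop :=
      tendsto_natCast_atTop_atTop.atTop_mul_const (by positivity)
    simpa [mul_assoc] using this
  rw [mul_zero] at hlim
  exact ge_of_tendsto' hlim fun n => step n w hwi.le

/-! ## The Poisson integral -/

lemma CT_im (hv : Integrable v) {z : ℂ} (hz : 0 < z.im) :
    (CT v z).im = ∫ t, v t * (z.im / ((t - z.re) ^ 2 + z.im ^ 2)) := by
  have h1 := CT_int hv (abs_pos.2 hz.ne') fun t _ => im_le z t
  have h2 := integral_im h1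
  unfold CT
  have h3 : (∫ t : ℝ, (v t : ℂ) / ((t : ℂ) - z)).im = ∫ t : ℝ, ((v t : ℂ) / ((t : ℂ) - z)).im := h2.symm
  rw [h3]
  refine integral_congr_ae (ae_of_all _ fun t => ?_)
  simp only
  rw [Complex.div_im]
  simp only [Complex.ofReal_im, Complex.sub_re, Complex.ofReal_re, zero_mul, zero_div, Complex.sub_im,
    zero_sub, Complex.normSq_apply]
  ring

theorem zero_of_CT (hv : Integrable v) (h : ∀ z : ℂ, 0 < z.im → CT v z = 0) : v =ᵐ[volume] 0 := by
  refine ae_eq_zero_of_integral_contDiff_smul_eq_zero hv.locallyIntegrable fun g hg hgc => ?_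
  have hgC : Continuous g := hg.continuous
  obtain ⟨B, hB⟩ := hgc.exists_bound_of_continuous hgC
  have hB0 : 0 ≤ B := (norm_nonneg _).trans (hB 0)
  have hgi : Integrable g := hgC.integrable_of_hasCompactSupport hgc
  have hin : Integrable fun s : ℝ => (1 + s ^ 2)⁻¹ := integrable_inv_one_add_sq
  -- the identity for each height
  have key : ∀ y : ℝ, 0 < y → ∫ t, v t * ∫ s : ℝ, g (t + y * s) * (1 + s ^ 2)⁻¹ = 0 := by
    intro y hy
    have e1 : ∀ x : ℝ, ∫ t, v t * (y / ((t - x) ^ 2 + y ^ 2)) = 0 := by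
      intro x
      have := CT_im hv (z := x + y * I) (by simpa using hy)
      rw [h _ (by simpa using hy)] at this
      simpa using this.symm
    have hker : Continuous fun p : ℝ × ℝ => y / ((p.2 - p.1) ^ 2 + y ^ 2) := by
      apply Continuous.div continuous_const (by fun_prop)
      intro p
      positivity
    have hkb : ∀ p : ℝ × ℝ, ‖y / ((p.2 - p.1) ^ 2 + y ^ 2)‖ ≤ 1 / y := by
      intro p
      rw [Real.norm_eq_abs, abs_of_nonneg (by positivity), div_le_div_iff₀ (by positivity) hy]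
      nlinarith [sq_nonneg (p.2 - p.1)]
    have hprod : Integrable (fun p : ℝ × ℝ => g p.1 * (v p.2 * (y / ((p.2 - p.1) ^ 2 + y ^ 2))))
        (volume.prod volume) := by
      have h3 := (hgi.mul_prod hv).mul_bdd (c := 1 / y) hker.aestronglyMeasurable (ae_of_all _ hkb)
      refine h3.congr (ae_of_all _ fun p => ?_)
      simp only
      ring
    have e2 := integral_integral_swap (f := fun x t => g x * (v t * (y / ((t - x) ^ 2 + y ^ 2)))) hprod
    have e3 : ∫ x, ∫ t, g x * (v t * (y / ((t - x) ^ 2 + y ^ 2))) = 0 := by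
      simp_rw [integral_const_mul, e1, mul_zero]
      simp
    rw [e3] at e2
    rw [e2]
    refine integral_congr_ae (ae_of_all _ fun t => ?_)
    simp only
    have e4 : ∫ x, g x * (v t * (y / ((t - x) ^ 2 + y ^ 2))) =
        v t * ∫ x, g x * (y / ((t - x) ^ 2 + y ^ 2)) := by
      rw [← integral_const_mul]
      refine integral_congr_ae (ae_of_all _ fun x => ?_)
      simp only
      ring
    rw [e4]
    congr 1
    have e5 := Measure.integral_comp_mul_left (fun s : ℝ => g (t + s) * (y ^ 2 / (s ^ 2 + y ^ 2))) y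
    have e6 : (fun s : ℝ => g (t + y * s) * (1 + s ^ 2)⁻¹) =
        fun s : ℝ => (fun s : ℝ => g (t + s) * (y ^ 2 / (s ^ 2 + y ^ 2))) (y * s) := by
      funext s
      simp only
      field_simp
      ring
    rw [e6, e5]
    have e7 := integral_add_left_eq_self (μ := volume)
      (fun x : ℝ => g x * (y ^ 2 / ((t - x) ^ 2 + y ^ 2))) t
    have e8 : (fun s : ℝ => g (t + s) * (y ^ 2 / (s ^ 2 + y ^ 2))) =
        fun s : ℝ => g (t + s) * (y ^ 2 / ((t - (t + s)) ^ 2 + y ^ 2)) := by
      funext s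
      congr 3
      ring
    rw [e8, e7, smul_eq_mul, ← integral_const_mul]
    refine integral_congr_ae (ae_of_all _ fun x => ?_)
    simp only
    rw [abs_inv, abs_of_pos hy]
    field_simp
  -- the limit
  have hlim : Tendsto (fun n : ℕ => ∫ t, v t * ∫ s : ℝ, g (t + (1 / ((n : ℝ) + 1)) * s) * (1 + s ^ 2)⁻¹)
      atTop (𝓝 (∫ t, v t * (g t * Real.pi))) := by
    refine tendsto_integral_of_dominated_convergence (fun t => |v t| * (B * Real.pi)) ?_
      (hv.abs.mul_const _) ?_ ?_
    · intro n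
      refine hv.1.mul ?_
      have : StronglyMeasurable (fun p : ℝ × ℝ => g (p.1 + (1 / ((n : ℝ) + 1)) * p.2) * (1 + p.2 ^ 2)⁻¹) := by
        apply Continuous.stronglyMeasurable
        apply Continuous.mul (by fun_prop)
        apply Continuous.inv₀ (by fun_prop)
        intro p
        positivity
      exact this.integral_prod_right'.aestronglyMeasurable
    · intro n
      refine ae_of_all _ fun t => ?_
      rw [norm_mul, Real.norm_eq_abs (v t)]
      apply mul_le_mul_of_nonneg_left _ (abs_nonneg _)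
      have : B * Real.pi = ∫ s : ℝ, B * (1 + s ^ 2)⁻¹ := by
        rw [integral_const_mul, integral_univ_inv_one_add_sq]
      rw [this]
      refine norm_integral_le_of_norm_le (hin.const_mul B) (ae_of_all _ fun s => ?_)
      rw [norm_mul]
      refine mul_le_mul (hB _) (le_of_eq ?_) (norm_nonneg _) hB0
      rw [Real.norm_eq_abs, abs_of_pos (by positivity)]
    · refine ae_of_all _ fun t => ?_
      apply Tendsto.const_mul
      have e9 : g t * Real.pi = ∫ s : ℝ, g t * (1 + s ^ 2)⁻¹ := by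
        rw [integral_const_mul, integral_univ_inv_one_add_sq]
      rw [e9]
      refine tendsto_integral_of_dominated_convergence (fun s => B * (1 + s ^ 2)⁻¹) ?_
        (hin.const_mul B) ?_ ?_
      · intro n
        apply Continuous.aestronglyMeasurable
        apply Continuous.mul (by fun_prop)
        apply Continuous.inv₀ (by fun_prop)
        intro p
        positivity
      · intro n
        refine ae_of_all _ fun s => ?_
        rw [norm_mul]
        refine mul_le_mul (hB _) (le_of_eq ?_) (norm_nonneg _) hB0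
        rw [Real.norm_eq_abs, abs_of_pos (by positivity)]
      · refine ae_of_all _ fun s => ?_
        apply Tendsto.mul_const
        have h5 : Tendsto (fun n : ℕ => t + (1 / ((n : ℝ) + 1)) * s) atTop (𝓝 (t + 0 * s)) :=
          (tendsto_one_div_add_atTop_nhds_zero_nat.mul_const s).const_add t
        rw [zero_mul, add_zero] at h5
        exact (hgC.tendsto t).comp h5
  have h6 : ∀ n : ℕ, ∫ t, v t * ∫ s : ℝ, g (t + (1 / ((n : ℝ) + 1)) * s) * (1 + s ^ 2)⁻¹ = 0 :=
    fun n => key _ (by positivity)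
  simp_rw [h6] at hlim
  have h7 := tendsto_nhds_unique hlim tendsto_const_nhds
  have h8 : ∫ t, v t * (g t * Real.pi) = (∫ t, g t • v t) * Real.pi := by
    rw [← integral_mul_const]
    refine integral_congr_ae (ae_of_all _ fun t => ?_)
    simp only [smul_eq_mul]
    ring
  rw [h8] at h7
  exact (mul_eq_zero.1 h7).resolve_right Real.pi_ne_zero

/-- **A gap theorem.**  An integrable function with a spectral gap around the origin, which is
exponentially small on arbitrarily far blocks `R ≤ |x| ≤ (1 + c) R`, is zero. -/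
theorem gap_zero (hv : Integrable v) {η : ℝ} (hη : 0 < η)
    (h0 : ∀ u : ℝ, |u| < η → ∫ x, v x * Real.cos (2 * Real.pi * u * x) = 0)
    (h1 : ∀ u : ℝ, |u| < η → ∫ x, v x * Real.sin (2 * Real.pi * u * x) = 0) {c κ : ℝ}
    (hc : 0 < c) (hκ : 0 < κ)
    (hs : ∃ᶠ R : ℝ in atTop, ∫ x in {x : ℝ | R ≤ |x| ∧ |x| ≤ (1 + c) * R}, |v x| ≤
      Real.exp (-(κ * R))) : v =ᵐ[volume] 0 :=
  zero_of_CT hv fun _ hz => CT_zero hv hη h0 h1 hc hκ hs hz

end Pool.Agent.Q85.Rig
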