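import Pool.Agent.Y749.Rig.Tst3

/-! # Smooth test functions, and test functions whose transforms are monotone -/

set_option autoImplicit false

open MeasureTheory Set Filter Topology
open Complex (I)
open scoped ContDiff

namespace Pool.Agent.Q85.Rig

open Pool.Agent.Y749.Rig

variable {κ : ℝ} {ψ : ℝ → ℝ}

lemma hcs_of_supp (hs : ∀ x, κ ≤ |x| → ψ x = 0) : HasCompactSupport ψ := by
  refine HasCompactSupport.of_support_subset_isCompact (isCompact_Icc (a := -κ) (b := κ)) ?_
  intro x hx
  by_contra hcon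
  apply hx
  apply hs
  by_contra h2
  push Not at h2
  exact hcon ⟨(abs_lt.1 h2).1.le, (abs_lt.1 h2).2.le⟩

lemma supp_le (hs : ∀ x, κ ≤ |x| → ψ x = 0) {x : ℝ} (hx : κ < |x|) : deriv ψ x = 0 := by
  have h1 : ψ =ᶠ[𝓝 x] fun _ => (0 : ℝ) := by
    have h2 : ∀ᶠ y in 𝓝 x, κ < |y| := continuous_abs.continuousAt.eventually (lt_mem_nhds hx)
    filter_upwards [h2] with y hy using hs y hy.le
  rw [h1.deriv_eq, deriv_const]

/-- integration by parts -/
lemma FL_parts (h1 : ContDiff ℝ 1 ψ) (hc : HasCompactSupport ψ) (z : ℂ) :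
    FL (deriv ψ) z = -(2 * Real.pi * I * z) * FL ψ z := by
  have hd : ∀ x, HasDerivAt ψ (deriv ψ x) x := fun x =>
    (h1.differentiable (by norm_num)).differentiableAt.hasDerivAt
  have hu : ∀ x : ℝ, HasDerivAt (fun α : ℝ => (ψ α : ℂ)) ((deriv ψ x : ℝ) : ℂ) x := fun x =>
    (hd x).ofReal_comp
  have hv : ∀ x : ℝ, HasDerivAt (fun α : ℝ => Complex.exp (2 * Real.pi * I * α * z))
      (Complex.exp (2 * Real.pi * I * x * z) * (2 * Real.pi * I * z)) x := by
    intro x
    have d0 : HasDerivAt (fun α : ℝ => (α : ℂ)) 1 x := Complex.ofRealCLM.hasDerivAt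
    have d1 : HasDerivAt (fun α : ℝ => 2 * Real.pi * I * (α : ℂ) * z)
        (2 * Real.pi * I * 1 * z) x := (d0.const_mul _).mul_const _
    refine ((Complex.hasDerivAt_exp _).comp x d1).congr_deriv ?_
    ring
  have hcd : Continuous (deriv ψ) := h1.continuous_deriv (by norm_num)
  have hcψ : Continuous ψ := h1.continuous
  have hcd' : HasCompactSupport (deriv ψ) := hc.deriv
  have key : ∀ {f : ℝ → ℝ}, Continuous f → HasCompactSupport f → ∀ {g : ℝ → ℂ}, Continuous g →
      Integrable fun x => (f x : ℂ) * g x := by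
    intro f hf hf' g hg
    refine Continuous.integrable_of_hasCompactSupport (by fun_prop) ?_
    have : HasCompactSupport fun x => (f x : ℂ) := by
      refine hf'.comp_left (g := fun r : ℝ => (r : ℂ)) ?_
      simp
    exact this.mul_right
  have i1 := key hcψ hc (g := fun x : ℝ => Complex.exp (2 * Real.pi * I * x * z) *
    (2 * Real.pi * I * z)) (by fun_prop)
  have i2 := key hcd hcd' (g := fun x : ℝ => Complex.exp (2 * Real.pi * I * x * z)) (by fun_prop)
  have i3 := key hcψ hc (g := fun x : ℝ => Complex.exp (2 * Real.pi * I * x * z)) (by fun_prop)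
  have h := integral_mul_deriv_eq_deriv_mul_of_integrable (fun x _ => hu x) (fun x _ => hv x) i1 i2 i3
  unfold FL
  have e1 : ∫ x : ℝ, (ψ x : ℂ) * (Complex.exp (2 * Real.pi * I * x * z) * (2 * Real.pi * I * z)) =
      (∫ x : ℝ, (ψ x : ℂ) * Complex.exp (2 * Real.pi * I * x * z)) * (2 * Real.pi * I * z) := by
    rw [← integral_mul_const]
    refine integral_congr_ae (ae_of_all _ fun x => ?_)
    simp only
    ring
  rw [e1] at h
  linear_combination h

lemma FL_le (hc : Continuous ψ) (hs : ∀ x, κ < |x| → ψ x = 0) (z : ℂ) :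
    ‖FL ψ z‖ ≤ (∫ x, |ψ x|) * Real.exp (2 * Real.pi * κ * |z.im|) := by
  have hcs : HasCompactSupport ψ := by
    refine HasCompactSupport.of_support_subset_isCompact (isCompact_Icc (a := -κ) (b := κ)) ?_
    intro x hx
    by_contra hcon
    apply hx
    apply hs
    by_contra h2
    push Not at h2
    exact hcon ⟨(abs_le.1 h2).1, (abs_le.1 h2).2⟩
  have hi : Integrable ψ := hc.integrable_of_hasCompactSupport hcs
  unfold FL
  rw [← integral_mul_const]
  refine norm_integral_le_of_norm_le (hi.abs.mul_const _) (ae_of_all _ fun α => ?_)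
  rw [norm_mul, Complex.norm_real, Real.norm_eq_abs]
  rcases lt_or_ge κ |α| with hα | hα
  · rw [hs α hα]; simp
  · exact mul_le_mul_of_nonneg_left (norm_exp_le hα z) (abs_nonneg _)

/-- smooth functions of compact support are admissible -/
theorem adm_of_c2 (h2 : ContDiff ℝ 2 ψ) (he : ∀ x, ψ (-x) = ψ x)
    (hs : ∀ x, κ ≤ |x| → ψ x = 0) : Adm κ ψ := by
  have hpi := Real.pi_pos
  have hcs := hcs_of_supp hs
  have h1 : ContDiff ℝ 1 ψ := h2.of_le (by norm_num)
  have h3 : ContDiff ℝ 1 (deriv ψ) := ((contDiff_succ_iff_deriv (n := 1)).1 (by exact_mod_cast h2)).2.2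
  have hs1 : ∀ x, κ < |x| → deriv ψ x = 0 := fun x hx => supp_le hs hx
  have hs2 : ∀ x, κ < |x| → deriv (deriv ψ) x = 0 := by
    intro x hx
    have h4 : deriv ψ =ᶠ[𝓝 x] fun _ => (0 : ℝ) := by
      have h2 : ∀ᶠ y in 𝓝 x, κ < |y| := continuous_abs.continuousAt.eventually (lt_mem_nhds hx)
      filter_upwards [h2] with y hy using hs1 y hy
    rw [h4.deriv_eq, deriv_const]
  have hc2 : Continuous (deriv (deriv ψ)) := h3.continuous_deriv (by norm_num)
  refine ⟨he, ?_, hs, ?_⟩
  · obtain ⟨K, hK⟩ := h1.lipschitzWith_of_hasCompactSupport hcs (by norm_num)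
    refine ⟨K, fun x y => ?_⟩
    have := hK.dist_le_mul x y
    rwa [Real.dist_eq, Real.dist_eq] at this
  · refine ⟨(∫ x, |ψ x|) + ∫ x, |deriv (deriv ψ) x|, fun x y => ?_⟩
    have him : (x + y * I : ℂ).im = y := by simp
    have a1 := FL_le (κ := κ) h2.continuous (fun x hx => hs x hx.le) (x + y * I)
    have a2 := FL_le (κ := κ) hc2 hs2 (x + y * I)
    rw [FL_parts h3 hcs.deriv, FL_parts h1 hcs, ← mul_assoc, norm_mul] at a2
    rw [him] at a1 a2
    obtain ⟨E, hE⟩ : ∃ E : ℝ, E = Real.exp (2 * Real.pi * κ * |y|) := ⟨_, rfl⟩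
    obtain ⟨P, hP⟩ : ∃ P : ℝ, P = ∫ x, |ψ x| := ⟨_, rfl⟩
    obtain ⟨Q, hQ⟩ : ∃ Q : ℝ, Q = ∫ x, |deriv (deriv ψ) x| := ⟨_, rfl⟩
    have hx : x ^ 2 ≤ ‖(-(2 * Real.pi * I * (x + y * I)) * -(2 * Real.pi * I * (x + y * I)) : ℂ)‖ := by
      rw [norm_mul, norm_neg, norm_mul, norm_mul, norm_mul, Complex.norm_I, Complex.norm_real,
        Complex.norm_ofNat, Real.norm_eq_abs, abs_of_pos hpi, mul_one]
      have h6 : x ^ 2 ≤ ‖(x + y * I : ℂ)‖ ^ 2 := by
        have := Complex.sq_norm (x + y * I)
        rw [this, Complex.normSq_apply]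
        simp
        nlinarith [sq_nonneg y]
      have h7 : 1 ≤ 2 * Real.pi := by have := Real.pi_gt_three; linarith
      have h8 : (1 : ℝ) ≤ (2 * Real.pi) * (2 * Real.pi) := by nlinarith
      nlinarith [sq_nonneg ‖(x + y * I : ℂ)‖]
    rw [← hE, ← hP] at a1
    rw [← hE, ← hQ] at a2
    rw [← hE, ← hP, ← hQ, le_div_iff₀ (by positivity)]
    have hn := norm_nonneg (FL ψ (x + y * I))
    have h9 : x ^ 2 * ‖FL ψ (x + y * I)‖ ≤ Q * E := (mul_le_mul_of_nonneg_right hx hn).trans a2
    nlinarith

/-! ## Division by the variable -/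

/-- the integrals of the derivatives -/
noncomputable def PP (f : ℝ → ℝ) (j : ℕ) (α : ℝ) : ℝ :=
  ∫ t in (0 : ℝ)..1, t ^ j * iteratedDeriv j f (t * α)

lemma iter_cont {f : ℝ → ℝ} (hf : ContDiff ℝ ∞ f) (j : ℕ) : Continuous (iteratedDeriv j f) :=
  hf.continuous_iteratedDeriv j (by exact_mod_cast le_top)

lemma iter_deriv {f : ℝ → ℝ} (hf : ContDiff ℝ ∞ f) (j : ℕ) (x : ℝ) :
    HasDerivAt (iteratedDeriv j f) (iteratedDeriv (j + 1) f x) x := by
  rw [iteratedDeriv_succ]
  exact ((hf.differentiable_iteratedDeriv j (by exact_mod_cast WithTop.coe_lt_top _)) x).hasDerivAt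

lemma iter_bdd {f : ℝ → ℝ} (hf : ContDiff ℝ ∞ f) (hc : HasCompactSupport f) (j : ℕ) :
    ∃ B : ℝ, ∀ x, |iteratedDeriv j f x| ≤ B := by
  have h1 : HasCompactSupport (iteratedDeriv j f) := by
    induction j with
    | zero => rwa [iteratedDeriv_zero]
    | succ j ih => rw [iteratedDeriv_succ]; exact ih.deriv
  obtain ⟨B, hB⟩ := h1.exists_bound_of_continuous (iter_cont hf j)
  exact ⟨B, hB⟩

lemma PP_deriv {f : ℝ → ℝ} (hf : ContDiff ℝ ∞ f) (hc : HasCompactSupport f) (j : ℕ) (α : ℝ) :
    HasDerivAt (PP f j) (PP f (j + 1) α) α := by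
  obtain ⟨B, hB⟩ := iter_bdd hf hc (j + 1)
  have hB0 : 0 ≤ B := (abs_nonneg _).trans (hB 0)
  have h := intervalIntegral.hasDerivAt_integral_of_dominated_loc_of_deriv_le
    (μ := volume) (a := (0 : ℝ)) (b := 1) (x₀ := α) (s := univ) (bound := fun _ => B)
    (F := fun x t => t ^ j * iteratedDeriv j f (t * x))
    (F' := fun x t => t ^ (j + 1) * iteratedDeriv (j + 1) f (t * x)) univ_mem ?_ ?_ ?_ ?_ ?_ ?_
  · exact h.2
  · refine Eventually.of_forall fun x => ?_
    have := iter_cont hf j
    exact (by fun_prop : Continuous fun t => t ^ j * iteratedDeriv j f (t * x)).aestronglyMeasurable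
  · have := iter_cont hf j
    exact (by fun_prop : Continuous fun t => t ^ j * iteratedDeriv j f (t * α)).intervalIntegrable _ _
  · have := iter_cont hf (j + 1)
    exact (by fun_prop : Continuous fun t => t ^ (j + 1) *
      iteratedDeriv (j + 1) f (t * α)).aestronglyMeasurable
  · refine ae_of_all _ fun t ht x _ => ?_
    rw [uIoc_of_le zero_le_one] at ht
    rw [Real.norm_eq_abs, abs_mul]
    have h1 : |t ^ (j + 1)| ≤ 1 := by
      rw [abs_of_nonneg (pow_nonneg ht.1.le _)]
      exact pow_le_one₀ ht.1.le ht.2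
    calc |t ^ (j + 1)| * |iteratedDeriv (j + 1) f (t * x)| ≤ 1 * B := by
          gcongr
          exact hB _
      _ = B := one_mul B
  · exact intervalIntegrable_const
  · refine ae_of_all _ fun t _ x _ => ?_
    have h1 : HasDerivAt (fun x : ℝ => t * x) t x := by
      simpa using (hasDerivAt_id x).const_mul t
    have h2 := ((iter_deriv hf j (t * x)).comp x h1).const_mul (t ^ j)
    refine h2.congr_deriv ?_
    ring

lemma PP_c {f : ℝ → ℝ} (hf : ContDiff ℝ ∞ f) (hc : HasCompactSupport f) (n : ℕ) :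
    ∀ j, ContDiff ℝ n (PP f j) := by
  induction n with
  | zero =>
    intro j
    have : Differentiable ℝ (PP f j) := fun α => (PP_deriv hf hc j α).differentiableAt
    exact_mod_cast contDiff_zero.2 this.continuous
  | succ n ih =>
    intro j
    have h1 : ContDiff ℝ ((n : WithTop ℕ∞) + 1) (PP f j) := by
      rw [contDiff_succ_iff_deriv]
      refine ⟨fun α => (PP_deriv hf hc j α).differentiableAt, fun h => ?_, ?_⟩
      · exact absurd h (by exact_mod_cast WithTop.natCast_ne_top n)
      · have : deriv (PP f j) = PP f (j + 1) := funext fun α => (PP_deriv hf hc j α).deriv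
        rw [this]
        exact ih (j + 1)
    exact_mod_cast h1

lemma PP_zero {g : ℝ → ℝ} (hg : ContDiff ℝ ∞ g) (α : ℝ) :
    α * PP (deriv g) 0 α = g α - g 0 := by
  have h1 : ∀ t : ℝ, HasDerivAt (fun t : ℝ => g (t * α)) (α * (t ^ 0 * iteratedDeriv 0 (deriv g) (t * α)))
      t := by
    intro t
    have h2 : HasDerivAt (fun t : ℝ => t * α) α t := by
      simpa using (hasDerivAt_id t).mul_const α
    have h3 : HasDerivAt g (deriv g (t * α)) (t * α) :=
      ((hg.differentiable (by norm_num)) _).hasDerivAt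
    refine (h3.comp t h2).congr_deriv ?_
    rw [pow_zero, iteratedDeriv_zero]
    ring
  have h4 := intervalIntegral.integral_eq_sub_of_hasDerivAt (a := (0 : ℝ)) (b := 1)
    (fun t _ => h1 t) ?_
  · unfold PP
    rw [← intervalIntegral.integral_const_mul, h4, one_mul, zero_mul]
  · have h5 : Continuous (deriv g) := hg.continuous_deriv (by norm_num)
    apply Continuous.intervalIntegrable
    simp only [iteratedDeriv_zero]
    fun_prop

/-- the test function with `- (fl ψ)' = x (fl χ)` -/
noncomputable def quo (χ : ℝ → ℝ) (α : ℝ) : ℝ := -(1 / (4 * Real.pi ^ 2)) * PP (deriv (deriv χ)) 0 α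

section

variable {χ : ℝ → ℝ}

lemma deriv_smooth {g : ℝ → ℝ} (hg : ContDiff ℝ ∞ g) : ContDiff ℝ ∞ (deriv g) :=
  (contDiff_infty_iff_deriv.1 hg).2

lemma deriv_odd (he : ∀ x, χ (-x) = χ x) (x : ℝ) : deriv χ (-x) = -deriv χ x := by
  have h1 : (fun x => χ (-x)) = χ := funext he
  have h2 := deriv_comp_neg χ x
  rw [h1] at h2
  linarith

lemma deriv_even (ho : ∀ x, χ (-x) = -χ x) (x : ℝ) : deriv χ (-x) = deriv χ x := by
  have h1 : (fun x => χ (-x)) = fun x => -χ x := funext ho
  have h2 := deriv_comp_neg χ x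
  rw [h1] at h2
  have h3 : deriv (fun x => -χ x) x = -deriv χ x := deriv.fun_neg
  rw [h3] at h2
  linarith

lemma quo_mul (hχ : ContDiff ℝ ∞ χ) (he : ∀ x, χ (-x) = χ x) (α : ℝ) :
    α * quo χ α = -(1 / (4 * Real.pi ^ 2)) * deriv χ α := by
  have h0 : deriv χ 0 = 0 := by
    have := deriv_odd he 0
    rw [neg_zero] at this
    linarith
  have h1 := PP_zero (deriv_smooth hχ) α
  rw [h0, sub_zero] at h1
  unfold quo
  rw [← h1]
  ring

lemma quo_adm (hχ : ContDiff ℝ ∞ χ) (he : ∀ x, χ (-x) = χ x) (hκ : 0 < κ)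
    (hs : ∀ x, κ ≤ |x| → χ x = 0) : Adm κ (quo χ) := by
  have hcs := hcs_of_supp hs
  have hd2 := deriv_smooth (deriv_smooth hχ)
  refine adm_of_c2 ?_ ?_ ?_
  · exact (PP_c hd2 hcs.deriv.deriv 2 0).const_smul (-(1 / (4 * Real.pi ^ 2)))
  · intro x
    unfold quo PP
    congr 1
    refine intervalIntegral.integral_congr fun t _ => ?_
    simp only [iteratedDeriv_zero]
    rw [mul_neg, deriv_even (deriv_odd he)]
  · intro x hx
    have hx0 : x ≠ 0 := by
      rintro rfl
      rw [abs_zero] at hx
      linarith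
    have h1 := quo_mul hχ he x
    have h2 : deriv χ x = 0 := by
      -- by continuity at the end points
      by_contra hne
      have hc : Continuous (deriv χ) := hχ.continuous_deriv (by norm_num)
      have h3 : ∀ᶠ y in 𝓝 x, deriv χ y ≠ 0 := hc.continuousAt.eventually_ne hne
      obtain ⟨δ, hδ, h4⟩ := Metric.eventually_nhds_iff.1 h3
      rcases abs_cases x with ⟨h5, h6⟩ | ⟨h5, h6⟩
      · apply h4 (y := x + δ / 2)
        · rw [Real.dist_eq, add_sub_cancel_left, abs_of_pos (by linarith)]
          linarith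
        · apply supp_le hs
          rw [abs_of_nonneg (by linarith)]
          linarith
      · apply h4 (y := x - δ / 2)
        · rw [Real.dist_eq, sub_sub_cancel_left, abs_neg, abs_of_pos (by linarith)]
          linarith
        · apply supp_le hs
          rw [abs_of_nonpos (by linarith)]
          linarith
    rw [h2, mul_zero] at h1
    exact (mul_eq_zero.1 h1).resolve_left hx0

lemma fl_quo_deriv (hχ : ContDiff ℝ ∞ χ) (he : ∀ x, χ (-x) = χ x) (hκ : 0 < κ)
    (hs : ∀ x, κ ≤ |x| → χ x = 0) (x : ℝ) :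
    HasDerivAt (fl (quo χ)) (-(x * fl χ x)) x := by
  have hpi := Real.pi_pos
  have hA := quo_adm hχ he hκ hs
  have hcs := hcs_of_supp hs
  have hq : Continuous (quo χ) := hA.cont
  have hχc : Continuous χ := hχ.continuous
  have hdc : Continuous (deriv χ) := hχ.continuous_deriv (by norm_num)
  -- differentiation under the integral sign
  have h1 := (hasDerivAt_integral_of_dominated_loc_of_deriv_le (μ := volume) (x₀ := x) (s := univ)
    (bound := fun α => |2 * Real.pi * α * quo χ α|)
    (F := fun x α => quo χ α * Real.cos (2 * Real.pi * α * x))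
    (F' := fun x α => quo χ α * (-Real.sin (2 * Real.pi * α * x) * (2 * Real.pi * α)))
    univ_mem ?_ ?_ ?_ ?_ ?_ ?_).2
  · have h2 : ∫ α, quo χ α * (-Real.sin (2 * Real.pi * α * x) * (2 * Real.pi * α)) =
        -(x * fl χ x) := by
      have h3 : ∀ α, quo χ α * (-Real.sin (2 * Real.pi * α * x) * (2 * Real.pi * α)) =
          (1 / (2 * Real.pi)) * (Real.sin (2 * Real.pi * α * x) * deriv χ α) := by
        intro α
        have h4 := quo_mul hχ he α
        have : quo χ α * (-Real.sin (2 * Real.pi * α * x) * (2 * Real.pi * α)) =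
            (α * quo χ α) * (-Real.sin (2 * Real.pi * α * x) * (2 * Real.pi)) := by ring
        rw [this, h4]
        field_simp
        ring
      simp_rw [h3]
      rw [integral_const_mul]
      have hu : ∀ α : ℝ, HasDerivAt (fun α : ℝ => Real.sin (2 * Real.pi * α * x))
          (Real.cos (2 * Real.pi * α * x) * (2 * Real.pi * x)) α := by
        intro α
        have d1 : HasDerivAt (fun α : ℝ => 2 * Real.pi * α * x) (2 * Real.pi * 1 * x) α :=
          ((hasDerivAt_id α).const_mul _).mul_const _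
        refine ((Real.hasDerivAt_sin _).comp α d1).congr_deriv ?_
        ring
      have hv : ∀ α : ℝ, HasDerivAt χ (deriv χ α) α := fun α =>
        ((hχ.differentiable (by norm_num)) α).hasDerivAt
      have key : ∀ {f : ℝ → ℝ}, Continuous f → HasCompactSupport f → ∀ {g : ℝ → ℝ}, Continuous g →
          Integrable fun x => g x * f x := by
        intro f hf hf' g hg
        refine Continuous.integrable_of_hasCompactSupport (by fun_prop) ?_
        exact hf'.mul_left
      have h5 := integral_mul_deriv_eq_deriv_mul_of_integrable (fun x _ => hu x) (fun x _ => hv x)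
        (key hdc hcs.deriv (g := fun α => Real.sin (2 * Real.pi * α * x)) (by fun_prop))
        (key hχc hcs (g := fun α => Real.cos (2 * Real.pi * α * x) * (2 * Real.pi * x))
          (by fun_prop))
        (key hχc hcs (g := fun α => Real.sin (2 * Real.pi * α * x)) (by fun_prop))
      rw [h5]
      unfold fl
      have h6 : ∫ α : ℝ, Real.cos (2 * Real.pi * α * x) * (2 * Real.pi * x) * χ α =
          (2 * Real.pi * x) * ∫ α : ℝ, χ α * Real.cos (2 * Real.pi * α * x) := by
        rw [← integral_const_mul]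
        refine integral_congr_ae (ae_of_all _ fun α => ?_)
        simp only
        ring
      rw [h6]
      field_simp
    rw [← h2]
    exact h1
  · refine Eventually.of_forall fun y => ?_
    exact (by fun_prop : Continuous fun α => quo χ α *
      Real.cos (2 * Real.pi * α * y)).aestronglyMeasurable
  · refine hA.int.mul_bdd (c := 1) (by fun_prop) (ae_of_all _ fun α => ?_)
    rw [Real.norm_eq_abs]
    exact Real.abs_cos_le_one _
  · exact (by fun_prop : Continuous fun α => quo χ α *
      (-Real.sin (2 * Real.pi * α * x) * (2 * Real.pi * α))).aestronglyMeasurable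
  · refine ae_of_all _ fun α y _ => ?_
    rw [Real.norm_eq_abs]
    have : quo χ α * (-Real.sin (2 * Real.pi * α * y) * (2 * Real.pi * α)) =
        -(2 * Real.pi * α * quo χ α) * Real.sin (2 * Real.pi * α * y) := by ring
    rw [this, abs_mul, abs_neg]
    exact mul_le_of_le_one_right (abs_nonneg _) (Real.abs_sin_le_one _)
  · refine Integrable.abs ?_
    refine Continuous.integrable_of_hasCompactSupport (by fun_prop) ?_
    exact hA.hcs.mul_left
  · refine ae_of_all _ fun α y _ => ?_
    have d1 : HasDerivAt (fun y : ℝ => 2 * Real.pi * α * y) (2 * Real.pi * α) y := by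
      simpa using (hasDerivAt_id y).const_mul (2 * Real.pi * α)
    exact ((Real.hasDerivAt_cos _).comp y d1).const_mul _

end

end Pool.Agent.Q85.Rig
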