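import Pool.Agent.Y749.Rig.Two
import Pool.Agent.Q85.Rig.Ker

/-! # Rigidity for symmetric windows -/

set_option autoImplicit false

open MeasureTheory Set Filter Topology
open scoped ContDiff FourierTransform Convolution

namespace Pool.Agent.Q85.Rig

open Pool.Agent.Y749.Rig

/-- kernels with nonnegative transforms -/
theorem exists_kernel {κ : ℝ} (hκ : 0 < κ) {R : ℝ} (hR : 0 < R) :
    ∃ χ : ℝ → ℝ, ContDiff ℝ ∞ χ ∧ (∀ x, χ (-x) = χ x) ∧ (∀ x, κ ≤ |x| → χ x = 0) ∧
      (∀ x, 0 ≤ fl χ x) ∧ (∃ B : ℝ, 0 ≤ B ∧ ∀ x, fl χ x ≤ B / (1 + x ^ 2) ^ 2) ∧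
      ∀ x, |x| ≤ R → 0 < fl χ x := by
  have hpi := Real.pi_pos
  obtain ⟨h, hh⟩ : ∃ h : ℝ, h = min (κ / 2) (1 / (6 * (R + 1))) := ⟨_, rfl⟩
  have hh0 : 0 < h := by rw [hh]; exact lt_min (by positivity) (by positivity)
  have hh1 : h ≤ κ / 2 := by rw [hh]; exact min_le_left _ _
  have hh2 : h * (6 * (R + 1)) ≤ 1 := by
    rw [← le_div_iff₀ (by positivity), hh]; exact min_le_right _ _
  let b : ContDiffBump (0 : ℝ) := ⟨h / 2, h, by positivity, by linarith⟩
  obtain ⟨ρ, hρ⟩ : ∃ ρ : ℝ → ℝ, ρ = b := ⟨_, rfl⟩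
  have r1 : ContDiff ℝ ∞ ρ := by rw [hρ]; exact b.contDiff
  have r2 : ∀ x, ρ (-x) = ρ x := by intro x; rw [hρ]; exact b.neg x
  have r3 : ∀ x, h ≤ |x| → ρ x = 0 := by
    intro x hx
    rw [hρ]
    exact b.zero_of_le_dist (by rw [Real.dist_eq, sub_zero]; exact hx)
  have r4 : ∀ x, 0 ≤ ρ x := by intro x; rw [hρ]; exact b.nonneg
  have r5 : 0 < ∫ x, ρ x := by rw [hρ]; exact b.integral_pos
  have hA : Adm h ρ := adm_of_c2 (by exact_mod_cast contDiff_infty.1 r1 2) r2 r3
  have hρc : Continuous ρ := r1.continuous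
  obtain ⟨χ, hχ⟩ : ∃ χ : ℝ → ℝ, χ = fun x => ∫ t, ρ t * ρ (x - t) := ⟨_, rfl⟩
  have c1 : ContDiff ℝ ∞ χ := by
    have h1 : ContDiff ℝ ∞ (ρ ⋆[ContinuousLinearMap.lsmul ℝ ℝ] ρ) :=
      hA.hcs.contDiff_convolution_right _ hA.int.locallyIntegrable r1
    have h2 : (ρ ⋆[ContinuousLinearMap.lsmul ℝ ℝ] ρ) = χ := by
      rw [hχ]
      funext x
      rw [convolution_lsmul]
      rfl
    rwa [h2] at h1
  have c2 : ∀ x, χ (-x) = χ x := by
    intro x
    rw [hχ]
    simp only
    rw [← integral_neg_eq_self (fun t => ρ t * ρ (-x - t)) volume]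
    refine integral_congr_ae (ae_of_all _ fun t => ?_)
    simp only
    rw [r2, show -x - -t = -(x - t) by ring, r2]
  have c3 : ∀ x, κ ≤ |x| → χ x = 0 := by
    intro x hx
    rw [hχ]
    simp only
    have : ∀ t, ρ t * ρ (x - t) = 0 := by
      intro t
      rcases le_or_gt h |t| with ht | ht
      · rw [r3 t ht, zero_mul]
      · rw [r3 (x - t), mul_zero]
        have := abs_sub_abs_le_abs_sub x t
        linarith
    simp_rw [this]
    simp
  have hχi : Integrable χ := c1.continuous.integrable_of_hasCompactSupport (hcs_of_supp c3)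
  have hfl : ∀ x, fl χ x = fl ρ x ^ 2 := by
    intro x
    have hi : Integrable (fun α : ℝ => (ρ α : ℂ)) := hA.int.ofReal
    have h1 := Real.fourier_mul_convolution_eq (R := ℂ) hi hi x
    rw [four_eq hA.int r2] at h1
    have h2 : ((fun α : ℝ => (ρ α : ℂ)) ⋆[ContinuousLinearMap.mul ℂ ℂ] fun α : ℝ => (ρ α : ℂ)) =
        fun α : ℝ => (χ α : ℂ) := by
      funext y
      rw [convolution_def, hχ]
      simp only [ContinuousLinearMap.mul_apply']
      rw [← integral_complex_ofReal]
      refine integral_congr_ae (ae_of_all _ fun t => ?_)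
      simp only
      push_cast
      rfl
    rw [h2, four_eq hχi c2] at h1
    rw [pow_two]
    exact_mod_cast h1
  obtain ⟨B, hB⟩ := fl_bound hA
  have hB0 : 0 ≤ B := by
    have := (abs_nonneg _).trans (hB 0)
    simpa using this
  refine ⟨χ, c1, c2, c3, fun x => by rw [hfl]; positivity, ⟨B ^ 2, by positivity, fun x => ?_⟩,
    fun x hx => ?_⟩
  · rw [hfl, ← sq_abs, ← div_pow]
    exact pow_le_pow_left₀ (abs_nonneg _) (hB x) 2
  · rw [hfl]
    have h1 : (1 / 2) * ∫ α, ρ α ≤ fl ρ x := by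
      unfold fl
      rw [← integral_const_mul]
      have i2 : Integrable fun α : ℝ => ρ α * Real.cos (2 * Real.pi * α * x) := by
        refine hA.int.mul_bdd (c := 1) (by fun_prop) (ae_of_all _ fun α => ?_)
        rw [Real.norm_eq_abs]; exact Real.abs_cos_le_one _
      refine integral_mono (hA.int.const_mul _) i2 fun α => ?_
      simp only
      rcases le_or_gt h |α| with hα | hα
      · rw [r3 α hα]; simp
      · have h2 : |2 * Real.pi * α * x| ≤ Real.pi / 3 := by
          rw [abs_mul, abs_mul, abs_of_pos (show 0 < 2 * Real.pi by positivity)]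
          have h3 : |α| * |x| ≤ 1 / 6 := by
            have h4 : |α| * |x| ≤ h * R := by gcongr
            nlinarith
          nlinarith
        have h5 : 1 / 2 ≤ Real.cos (2 * Real.pi * α * x) := by
          rw [← Real.cos_abs, ← Real.cos_pi_div_three]
          exact Real.cos_le_cos_of_nonneg_of_le_pi (abs_nonneg _) (by linarith) h2
        rw [mul_comm (1 / 2 : ℝ)]
        exact mul_le_mul_of_nonneg_left h5 (r4 α)
    have h2 : 0 < fl ρ x := by linarith
    positivity

/-- the bound for windows of length `l` -/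
lemma real_le_win {C : ℝ} (hC : 0 ≤ C) {μ : Measure ℝ} (h : Bdd C μ) {l : ℝ} (hl : 0 ≤ l) (α : ℝ) :
    μ.real (Icc α (α + l)) ≤ (l + 2) * C := by
  have h1 := h.nat α ⌈l⌉₊
  have h2 : μ (Icc α (α + l)) ≤ ENNReal.ofReal ((l + 2) * C) := by
    refine (measure_mono (Icc_subset_Icc le_rfl ?_)).trans (h1.trans ?_)
    · have := Nat.le_ceil l
      linarith
    · have h3 : (⌈l⌉₊ : ENNReal) * ENNReal.ofReal C + ENNReal.ofReal C =
          ENNReal.ofReal ((⌈l⌉₊ + 1) * C) := by
        rw [add_mul, one_mul, ENNReal.ofReal_add (by positivity) hC,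
          ENNReal.ofReal_mul (by positivity), ENNReal.ofReal_natCast]
      rw [h3]
      apply ENNReal.ofReal_le_ofReal
      have := Nat.ceil_lt_add_one hl
      nlinarith
  rw [Measure.real]
  exact ENNReal.toReal_le_of_le_ofReal (by positivity) h2

/-- the measure of the symmetric windows -/
noncomputable def cu (μ : Measure ℝ) (x : ℝ) : ℝ := μ.real (Icc (-|x|) |x|)

section

variable {C : ℝ} {μ : Measure ℝ}

lemma cu_neg (x : ℝ) : cu μ (-x) = cu μ x := by unfold cu; rw [abs_neg]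

lemma cu_nonneg (x : ℝ) : 0 ≤ cu μ x := measureReal_nonneg

lemma cu_le (hC : 0 ≤ C) (h : Bdd C μ) (x : ℝ) : cu μ x ≤ (2 * |x| + 2) * C := by
  have h1 := real_le_win hC h (l := 2 * |x|) (by positivity) (-|x|)
  rwa [show -|x| + 2 * |x| = |x| by ring] at h1

lemma cu_mono (h : Bdd C μ) {x y : ℝ} (hx : 0 ≤ x) (hxy : x ≤ y) : cu μ x ≤ cu μ y := by
  unfold cu
  rw [abs_of_nonneg hx, abs_of_nonneg (hx.trans hxy)]
  exact h.mono_real (by linarith) hxy

lemma cS_meas : MeasurableSet {p : ℝ × ℝ | |p.2| ≤ |p.1|} :=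
  measurableSet_le (continuous_abs.measurable.comp measurable_snd)
    (continuous_abs.measurable.comp measurable_fst)

lemma cu_meas [SFinite μ] : Measurable (cu μ) := by
  have h1 := (measurable_measure_prodMk_left (ν := μ) cS_meas).ennreal_toReal
  have h2 : cu μ = fun x => (μ (Prod.mk x ⁻¹' {p : ℝ × ℝ | |p.2| ≤ |p.1|})).toReal := by
    funext x
    unfold cu Measure.real
    congr 2
    ext y
    simp only [mem_preimage, mem_ofPred_eq, mem_Icc]
    exact abs_le.symm
  rw [h2]
  exact h1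

/-- Fubini for the symmetric windows -/
lemma cu_fubini [SFinite μ] (hC : 0 ≤ C) (h : Bdd C μ) {q : ℝ → ℝ} (hq : Continuous q) {B : ℝ}
    (hB : ∀ x, (2 * |x| + 2) * |q x| ≤ B / (1 + x ^ 2)) :
    Integrable (fun x => cu μ x * q x) ∧
    ∫ x, cu μ x * q x = ∫ y, (∫ x in {x : ℝ | |y| ≤ |x|}, q x) ∂μ := by
  have hS := cS_meas
  obtain ⟨f, hf⟩ : ∃ f : ℝ → ℝ → ℝ, ∀ x y, f x y = (Icc (-|x|) |x|).indicator
      (fun _ => q x) y := ⟨fun x y => (Icc (-|x|) |x|).indicator (fun _ => q x) y, fun x y => rfl⟩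
  have hf2 : Function.uncurry f = {p : ℝ × ℝ | |p.2| ≤ |p.1|}.indicator (fun p => q p.1) := by
    ext p
    simp only [Function.uncurry]
    rw [hf]
    by_cases hp : |p.2| ≤ |p.1|
    · rw [indicator_of_mem (Set.mem_Icc.2 (abs_le.1 hp)), indicator_of_mem (show p ∈ {p : ℝ × ℝ | |p.2| ≤ |p.1|}
        from hp)]
    · rw [indicator_of_notMem (fun h => hp (abs_le.2 (Set.mem_Icc.1 h))), indicator_of_notMem
        (show p ∉ {p : ℝ × ℝ | |p.2| ≤ |p.1|} from hp)]
  have hmeas : AEStronglyMeasurable (Function.uncurry f) (volume.prod μ) := by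
    rw [hf2]
    exact ((hq.comp continuous_fst).aestronglyMeasurable).indicator hS
  have h1 : ∀ x, ∫ y, f x y ∂μ = cu μ x * q x := by
    intro x
    simp_rw [hf]
    rw [integral_indicator measurableSet_Icc, setIntegral_const, smul_eq_mul]
    rfl
  have h2 : ∀ x, ∫ y, ‖f x y‖ ∂μ = cu μ x * |q x| := by
    intro x
    have : ∀ y, ‖f x y‖ = (Icc (-|x|) |x|).indicator (fun _ => |q x|) y := by
      intro y
      rw [hf, norm_indicator_eq_indicator_norm]; rfl
    simp_rw [this]
    rw [integral_indicator measurableSet_Icc, setIntegral_const, smul_eq_mul]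
    rfl
  have hqm : AEStronglyMeasurable (fun x => cu μ x * |q x|) volume :=
    cu_meas.aestronglyMeasurable.mul (by fun_prop)
  have hbd : ∀ x, cu μ x * |q x| ≤ C * B * (1 / (1 + x ^ 2)) := by
    intro x
    calc cu μ x * |q x| ≤ ((2 * |x| + 2) * C) * |q x| :=
          mul_le_mul_of_nonneg_right (cu_le hC h x) (abs_nonneg _)
      _ = C * ((2 * |x| + 2) * |q x|) := by ring
      _ ≤ C * (B / (1 + x ^ 2)) := mul_le_mul_of_nonneg_left (hB x) hC
      _ = _ := by ring
  have hint2 : Integrable (fun x => cu μ x * |q x|) := by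
    refine (int_inv.const_mul (C * B)).mono' hqm (ae_of_all _ fun x => ?_)
    rw [Real.norm_eq_abs, abs_of_nonneg (mul_nonneg (cu_nonneg _) (abs_nonneg _))]
    exact hbd x
  have hint : Integrable (Function.uncurry f) (volume.prod μ) := by
    rw [integrable_prod_iff hmeas]
    constructor
    · refine ae_of_all _ fun x => ?_
      show Integrable (fun y => f x y) μ
      simp_rw [hf]
      rw [integrable_indicator_iff measurableSet_Icc]
      exact integrableOn_const (h.lt_top _ _).ne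
    · show Integrable (fun x => ∫ y, ‖f x y‖ ∂μ) volume
      simp_rw [h2]
      exact hint2
  constructor
  · refine hint2.mono (cu_meas.aestronglyMeasurable.mul (by fun_prop)) (ae_of_all _ fun x => ?_)
    rw [norm_mul, norm_mul, Real.norm_eq_abs (|q x|), abs_abs, Real.norm_eq_abs (q x)]
  · have h3 := integral_integral_swap hint
    simp_rw [h1] at h3
    rw [h3]
    refine integral_congr_ae (ae_of_all _ fun y => ?_)
    show ∫ x, f x y = ∫ x in {x : ℝ | |y| ≤ |x|}, q x
    have h4 : ∀ x, f x y = {x : ℝ | |y| ≤ |x|}.indicator q x := by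
      intro x
      rw [hf]
      by_cases hp : |y| ≤ |x|
      · rw [indicator_of_mem (Set.mem_Icc.2 (abs_le.1 hp)), indicator_of_mem (show x ∈ {x : ℝ | |y| ≤ |x|} from hp)]
      · rw [indicator_of_notMem (fun h => hp (abs_le.2 (Set.mem_Icc.1 h))), indicator_of_notMem
          (show x ∉ {x : ℝ | |y| ≤ |x|} from hp)]
    simp_rw [h4]
    rw [integral_indicator (measurableSet_le measurable_const continuous_abs.measurable)]

/-- the tails of an even function -/
lemma int_tail {q : ℝ → ℝ} (hq : Integrable q) (he : ∀ x, q (-x) = q x) {a : ℝ} (ha : 0 ≤ a) :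
    ∫ x in {x : ℝ | a ≤ |x|}, q x = 2 * ∫ x in Ioi a, q x := by
  have h1 : {x : ℝ | a ≤ |x|} =ᵐ[volume] (Ioi a ∪ Iio (-a) : Set ℝ) := by
    have h2 : ∀ᵐ x : ℝ, x ≠ a ∧ x ≠ -a := by
      have e1 : ∀ᵐ x : ℝ, x ≠ a := by rw [ae_iff]; simp
      have e2 : ∀ᵐ x : ℝ, x ≠ -a := by rw [ae_iff]; simp
      filter_upwards [e1, e2] with x x1 x2 using ⟨x1, x2⟩
    filter_upwards [h2] with x hx
    have h3 : (x ∈ {x : ℝ | a ≤ |x|}) ↔ x ∈ (Ioi a ∪ Iio (-a) : Set ℝ) := by
      simp only [mem_ofPred_eq, mem_union, mem_Ioi, mem_Iio]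
      rw [le_abs]
      constructor
      · rintro (h | h)
        · left; exact lt_of_le_of_ne h (Ne.symm hx.1)
        · right
          have : x ≤ -a := by linarith
          exact lt_of_le_of_ne this hx.2
      · rintro (h | h)
        · left; exact h.le
        · right; linarith
    exact propext h3
  rw [setIntegral_congr_set h1, setIntegral_union ?_ measurableSet_Iio hq.integrableOn
    hq.integrableOn]
  · have h4 : ∫ x in Iio (-a), q x = ∫ x in Ioi a, q x := by
      rw [← integral_Iic_eq_integral_Iio]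
      have h5 := integral_comp_neg_Ioi (c := a) (f := q)
      rw [← h5]
      refine setIntegral_congr_fun measurableSet_Ioi fun x _ => ?_
      exact he x
    rw [h4]; ring
  · rw [Set.disjoint_left]
    intro x hx hx'
    simp only [mem_Ioi, mem_Iio] at hx hx'
    linarith

/-- the test functions of the symmetric windows -/
lemma cu_test [SFinite μ] (hC : 0 ≤ C) (h : Bdd C μ) {κ : ℝ} (hκ : 0 < κ) {χ : ℝ → ℝ}
    (c1 : ContDiff ℝ ∞ χ) (c2 : ∀ x, χ (-x) = χ x) (c3 : ∀ x, κ ≤ |x| → χ x = 0)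
    {B : ℝ} (hB : ∀ x, |fl χ x| ≤ B / (1 + x ^ 2) ^ 2) :
    Integrable (fun x => cu μ x * (|x| * fl χ x)) ∧
    ∫ x, cu μ x * (|x| * fl χ x) = 2 * ∫ y, fl (quo χ) y ∂μ := by
  have hA := adm_of_c2 (by exact_mod_cast contDiff_infty.1 c1 2) c2 c3
  have hc := fl_cont hA.int
  have hB0 : 0 ≤ B := by
    have := (abs_nonneg _).trans (hB 0)
    simpa using this
  have hq : Continuous fun x => |x| * fl χ x := by fun_prop
  have hb : ∀ x, (2 * |x| + 2) * |(|x| * fl χ x)| ≤ 3 * B / (1 + x ^ 2) := by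
    intro x
    rw [abs_mul, abs_abs]
    have h1 := hB x
    have h2 : 0 ≤ |x| := abs_nonneg _
    have h3 : (2 * |x| + 2) * |x| ≤ 3 * (1 + x ^ 2) := by
      nlinarith [sq_abs x, sq_nonneg (|x| - 1)]
    calc (2 * |x| + 2) * (|x| * |fl χ x|) = ((2 * |x| + 2) * |x|) * |fl χ x| := by ring
      _ ≤ (3 * (1 + x ^ 2)) * (B / (1 + x ^ 2) ^ 2) := by gcongr
      _ = 3 * B / (1 + x ^ 2) := by field_simp
  obtain ⟨i1, e1⟩ := cu_fubini hC h hq hb
  refine ⟨i1, ?_⟩
  rw [e1, ← integral_const_mul]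
  refine integral_congr_ae (ae_of_all _ fun y => ?_)
  simp only
  have hqi : Integrable fun x => |x| * fl χ x := by
    refine (int_inv.const_mul (3 * B)).mono' hq.aestronglyMeasurable (ae_of_all _ fun x => ?_)
    rw [Real.norm_eq_abs, mul_one_div]
    refine le_trans ?_ (hb x)
    have : (1 : ℝ) ≤ 2 * |x| + 2 := by linarith [abs_nonneg x]
    exact le_mul_of_one_le_left (abs_nonneg _) this
  rw [int_tail hqi (fun x => by rw [abs_neg, fl_even]) (abs_nonneg y)]
  congr 1
  have hQ := quo_adm c1 c2 hκ c3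
  have hlim : Tendsto (fl (quo χ)) atTop (𝓝 0) := by
    obtain ⟨B', hB'⟩ := fl_bound hQ
    have h5 : Tendsto (fun x : ℝ => B' / (1 + x ^ 2)) atTop (𝓝 0) := by
      refine Tendsto.div_atTop tendsto_const_nhds ?_
      exact tendsto_atTop_add_const_left _ _ (tendsto_pow_atTop (by norm_num))
    exact squeeze_zero_norm (fun x => by rw [Real.norm_eq_abs]; exact hB' x) h5
  have h6 := integral_Ioi_of_hasDerivAt_of_tendsto (f := fl (quo χ)) (f' := fun x => -(x * fl χ x))
    (a := |y|) (m := 0) (fl_cont hQ.int).continuousWithinAt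
    (fun x _ => fl_quo_deriv c1 c2 hκ c3 x) ?_ hlim
  · rw [integral_neg, zero_sub, neg_inj] at h6
    have h7 : fl (quo χ) |y| = fl (quo χ) y := by
      rcases abs_cases y with h8 | h8
      · rw [h8.1]
      · rw [h8.1, fl_even]
    rw [← h7, ← h6]
    refine setIntegral_congr_fun measurableSet_Ioi fun x hx => ?_
    have hx0 : 0 ≤ x := (abs_nonneg y).trans (le_of_lt hx)
    rw [abs_of_nonneg hx0]
  · have h9 : IntegrableOn (fun x => -(|x| * fl χ x)) (Ioi |y|) := hqi.neg.integrableOn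
    refine h9.congr_fun (fun x hx => ?_) measurableSet_Ioi
    have hx0 : 0 ≤ x := (abs_nonneg y).trans (le_of_lt hx)
    simp only
    rw [abs_of_nonneg hx0]

end

lemma modu_even {χ : ℝ → ℝ} (c2 : ∀ x, χ (-x) = χ x) (w x : ℝ) : modu w χ (-x) = modu w χ x := by
  unfold modu
  rw [show -x - w = -(x + w) by ring, show -x + w = -(x - w) by ring, c2, c2]
  ring

/-- **Rigidity for symmetric windows.** -/
theorem rigC {C : ℝ} {μ₁ μ₂ : Measure ℝ} [SFinite μ₁] [SFinite μ₂] (hC : 0 ≤ C) (h1 : Bdd C μ₁)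
    (h2 : Bdd C μ₂) {κ : ℝ} (hκ : 0 < κ)
    (ht : ∀ ψ, Adm κ ψ → ∫ x, fl ψ x ∂μ₁ = ∫ x, fl ψ x ∂μ₂) {C' c a₀ : ℝ} (hC' : 0 ≤ C')
    (hc : 0 < c)
    (ho : ∀ᵐ x : ℝ, a₀ ≤ x → cu μ₁ x - cu μ₂ x ≤ C' * Real.exp (-(c * x))) :
    ∀ᵐ x : ℝ, cu μ₁ x = cu μ₂ x := by
  have key : ∀ R : ℝ, 0 < R → ∀ᵐ x : ℝ, |x| ≤ R → cu μ₁ x = cu μ₂ x := by
    intro R hR
    obtain ⟨χ, c1, c2, c3, c4, ⟨B, hB0, hB⟩, c5⟩ := exists_kernel (show 0 < κ / 2 by positivity) hR
    have hA := adm_of_c2 (by exact_mod_cast contDiff_infty.1 c1 2) c2 c3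
    have hcf := fl_cont hA.int
    obtain ⟨v, hv⟩ : ∃ v : ℝ → ℝ, ∀ x, v x = (cu μ₁ x - cu μ₂ x) * (|x| * fl χ x) :=
      ⟨_, fun x => rfl⟩
    have hv' : v = fun x => cu μ₁ x * (|x| * fl χ x) - cu μ₂ x * (|x| * fl χ x) := by
      funext x; rw [hv]; ring
    have habs : ∀ x, |fl χ x| ≤ B / (1 + x ^ 2) ^ 2 := fun x => by
      rw [abs_of_nonneg (c4 x)]; exact hB x
    obtain ⟨i1, -⟩ := cu_test hC h1 (by positivity) c1 c2 c3 habs
    obtain ⟨i2, -⟩ := cu_test hC h2 (by positivity) c1 c2 c3 habs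
    have hvi : Integrable v := by rw [hv']; exact i1.sub i2
    have hve : ∀ x, v (-x) = v x := by
      intro x
      rw [hv, hv, cu_neg, cu_neg, abs_neg, fl_even]
    have hvb : ∀ x, v x ≤ 3 * C * B := by
      intro x
      rw [hv]
      have a1 := cu_le hC h1 x
      have a3 := cu_nonneg (μ := μ₂) x
      have a2 := hB x
      have a4 : 0 ≤ |x| := abs_nonneg _
      have h3 : (2 * |x| + 2) * |x| ≤ 3 * (1 + x ^ 2) := by
        nlinarith [sq_abs x, sq_nonneg (|x| - 1)]
      calc (cu μ₁ x - cu μ₂ x) * (|x| * fl χ x) ≤ ((2 * |x| + 2) * C) * (|x| * fl χ x) := by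
            apply mul_le_mul_of_nonneg_right (by linarith)
            exact mul_nonneg a4 (c4 x)
        _ = C * ((2 * |x| + 2) * |x|) * fl χ x := by ring
        _ ≤ C * (3 * (1 + x ^ 2)) * (B / (1 + x ^ 2) ^ 2) := by
            gcongr
            exact c4 x
        _ = 3 * C * B / (1 + x ^ 2) := by field_simp
        _ ≤ 3 * C * B := div_le_self (by positivity) (by nlinarith [sq_nonneg x])
    have hkb : ∀ x, |x| * fl χ x ≤ B := by
      intro x
      have a4 : 0 ≤ |x| := abs_nonneg _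
      calc |x| * fl χ x ≤ |x| * (B / (1 + x ^ 2) ^ 2) := by gcongr; exact hB x
        _ ≤ (1 + x ^ 2) ^ 2 * (B / (1 + x ^ 2) ^ 2) := by
            gcongr
            nlinarith [sq_abs x, sq_nonneg (|x| - 1), sq_nonneg x]
        _ = B := by field_simp
    have hz : v =ᵐ[volume] 0 := by
      refine lemR_ae hvi (C := 3 * C * B * Real.exp (c * a₀) + C' * B) (c := c) (by positivity) hc
        ?_ (η := κ / 2) (by positivity) ?_ ?_
      · have hk : ∀ y : ℝ, (a₀ ≤ y → cu μ₁ y - cu μ₂ y ≤ C' * Real.exp (-(c * y))) → 0 ≤ y →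
            v y ≤ (3 * C * B * Real.exp (c * a₀) + C' * B) * Real.exp (-(c * y)) := by
          intro y hyo hy
          have hE := Real.exp_pos (-(c * y))
          have k0 : 0 ≤ |y| * fl χ y := mul_nonneg (abs_nonneg _) (c4 y)
          rcases lt_or_ge y a₀ with hya | hya
          · have : 1 ≤ Real.exp (c * a₀) * Real.exp (-(c * y)) := by
              rw [← Real.exp_add]
              apply Real.one_le_exp
              nlinarith
            have b1 := hvb y
            have b2 : 0 ≤ C' * B * Real.exp (-(c * y)) := by positivity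
            have b3 : 3 * C * B ≤ 3 * C * B * (Real.exp (c * a₀) * Real.exp (-(c * y))) :=
              le_mul_of_one_le_right (by positivity) this
            nlinarith
          · have b1 := hyo hya
            have b4 : v y ≤ C' * Real.exp (-(c * y)) * B := by
              rw [hv]
              calc (cu μ₁ y - cu μ₂ y) * (|y| * fl χ y) ≤
                    (C' * Real.exp (-(c * y))) * (|y| * fl χ y) :=
                    mul_le_mul_of_nonneg_right b1 k0
                _ ≤ (C' * Real.exp (-(c * y))) * B :=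
                    mul_le_mul_of_nonneg_left (hkb y) (by positivity)
            have b2 : 0 ≤ 3 * C * B * Real.exp (c * a₀) * Real.exp (-(c * y)) := by positivity
            nlinarith
        filter_upwards [ho, ae_neg ho] with x hx1 hx2
        rcases abs_cases x with hx | hx
        · rw [hx.1]; exact hk x hx1 hx.2
        · rw [hx.1, ← hve]; exact hk (-x) hx2 (by linarith)
      · intro w hw
        obtain ⟨θ, hθ⟩ : ∃ θ, θ = modu w χ := ⟨_, rfl⟩
        have t1 : ContDiff ℝ ∞ θ := by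
          rw [hθ]
          unfold modu
          exact ((c1.comp (contDiff_id.sub contDiff_const)).add
            (c1.comp (contDiff_id.add contDiff_const))).div_const 2
        have t2 : ∀ x, θ (-x) = θ x := by rw [hθ]; exact modu_even c2 w
        have hAm := adm_modu hA w
        have t3 : ∀ x, κ ≤ |x| → θ x = 0 := by
          intro x hx
          rw [hθ]
          exact hAm.supp x (by linarith)
        have hflθ : ∀ x, fl θ x = fl χ x * Real.cos (2 * Real.pi * w * x) := by
          intro x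
          rw [hθ]
          exact fl_modu hA w x
        have t4 : ∀ x, |fl θ x| ≤ B / (1 + x ^ 2) ^ 2 := by
          intro x
          rw [hflθ, abs_mul]
          exact (mul_le_of_le_one_right (abs_nonneg _) (Real.abs_cos_le_one _)).trans (habs x)
        obtain ⟨j1, d1⟩ := cu_test hC h1 hκ t1 t2 t3 t4
        obtain ⟨j2, d2⟩ := cu_test hC h2 hκ t1 t2 t3 t4
        have e3 : ∀ x, v x * Real.cos (2 * Real.pi * w * x) =
            cu μ₁ x * (|x| * fl θ x) - cu μ₂ x * (|x| * fl θ x) := by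
          intro x
          rw [hv, hflθ]; ring
        simp_rw [e3]
        rw [integral_sub j1 j2, d1, d2, ht _ (quo_adm t1 t2 hκ t3), sub_self]
      · intro w _
        apply int_zero_of_odd
        intro x
        rw [hve, mul_neg, Real.sin_neg]; ring
    have hx0 : ∀ᵐ x : ℝ, x ≠ 0 := by rw [ae_iff]; simp
    filter_upwards [hz, hx0] with x hx hx2 hxR
    rw [hv] at hx
    have h3 : |x| * fl χ x ≠ 0 := (mul_pos (abs_pos.2 hx2) (c5 x hxR)).ne'
    have := (mul_eq_zero.1 hx).resolve_right h3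
    linarith
  have h3 : ∀ᵐ x : ℝ, ∀ n : ℕ, |x| ≤ (n : ℝ) + 1 → cu μ₁ x = cu μ₂ x :=
    ae_all_iff.2 fun n => key _ (by positivity)
  filter_upwards [h3] with x hx
  obtain ⟨n, hn⟩ := exists_nat_ge |x|
  exact hx n (by linarith)

end Pool.Agent.Q85.Rig
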