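import Pool.Agent.Q85.Rig.Cum
import Pool.Agent.Y749.Rig.Fam
import Pool.Agent.Y749.Rig.Fin

/-! # The criterion for symmetric windows, for families of measures and for the zeros -/

set_option autoImplicit false

open MeasureTheory Set Filter Topology
open scoped NNReal ENNReal

namespace Pool.Agent.Q85.Rig

open Pool.Agent.Y749.Rig

variable {C : ℝ}

lemma gF_nonneg {a : ℝ} (ha : 0 ≤ a) : 0 ≤ ∫ x in (0 : ℝ)..a, FF x :=
  intervalIntegral.integral_nonneg ha fun x _ => FF_nonneg x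

lemma gF_le {a b : ℝ} (hab : a ≤ b) :
    ∫ x in (0 : ℝ)..b, FF x ≤ (∫ x in (0 : ℝ)..a, FF x) + (b - a) := by
  rw [← intervalIntegral.integral_add_adjacent_intervals (FF_ii 0 a) (FF_ii a b)]
  have : ∫ x in a..b, FF x ≤ ∫ x in a..b, (1 : ℝ) :=
    intervalIntegral.integral_mono_on hab (FF_ii a b) (by simp) fun x _ => FF_le_one x
  rw [intervalIntegral.integral_const, smul_eq_mul, mul_one] at this
  linarith

/-- the symmetric windows of the pair correlation measure -/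
lemma mG_sym {a : ℝ} (ha : 0 ≤ a) :
    mG.real (Icc (-a) a) = 1 + 2 * ∫ x in (0 : ℝ)..a, FF x := by
  have h0 : (0 : ℝ) ∈ Icc (-a) a := ⟨by linarith, ha⟩
  have h1 : (∫⁻ x in Icc (-a) a, ENNReal.ofReal (FF x)) =
      ENNReal.ofReal (∫ x in Icc (-a) a, FF x) := by
    rw [ofReal_integral_eq_lintegral_ofReal]
    · have := (intervalIntegrable_iff_integrableOn_Icc_of_le (by linarith : -a ≤ a)).1 (FF_ii (-a) a)
      exact this
    · exact ae_of_all _ fun x => FF_nonneg x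
  have h2 : ∫ x in Icc (-a) a, FF x = 2 * ∫ x in (0 : ℝ)..a, FF x := by
    rw [integral_Icc_eq_integral_Ioc, ← intervalIntegral.integral_of_le (by linarith),
      ← intervalIntegral.integral_add_adjacent_intervals (FF_ii (-a) 0) (FF_ii 0 a)]
    have h3 : ∫ x in (-a)..0, FF x = ∫ x in (0 : ℝ)..a, FF x := by
      have := intervalIntegral.integral_comp_neg (a := (0 : ℝ)) (b := a) FF
      rw [neg_zero] at this
      rw [← this]
      exact intervalIntegral.integral_congr fun x _ => FF_even x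
    rw [h3]; ring
  rw [Measure.real, mG_apply, indicator_of_mem h0, h1, h2]
  have h4 := gF_nonneg ha
  rw [Pi.one_apply, ENNReal.toReal_add (by simp) ENNReal.ofReal_ne_top, ENNReal.toReal_one,
    ENNReal.toReal_ofReal (by positivity)]

/-- from equality almost everywhere to inequalities everywhere -/
lemma sym_le {μ₁ μ₂ : Measure ℝ} (h1 : Bdd C μ₁) (h2 : Bdd C μ₂)
    (h : ∀ᵐ x : ℝ, cu μ₁ x = cu μ₂ x) {a δ : ℝ} (ha : 0 ≤ a) (hδ : 0 < δ) :
    μ₁.real (Icc (-a) a) ≤ μ₂.real (Icc (-(a + δ)) (a + δ)) := by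
  have h3 : ∃ x ∈ Ioo a (a + δ), cu μ₁ x = cu μ₂ x := by
    by_contra hcon
    push Not at hcon
    have h4 : Ioo a (a + δ) ⊆ {x | ¬ cu μ₁ x = cu μ₂ x} := fun x hx => hcon x hx
    have h5 := measure_mono_null h4 (ae_iff.1 h)
    rw [Real.volume_Ioo, ENNReal.ofReal_eq_zero] at h5
    linarith
  obtain ⟨x, hx, hx2⟩ := h3
  have hx0 : 0 ≤ x := ha.trans hx.1.le
  unfold cu at hx2
  rw [abs_of_nonneg hx0] at hx2
  calc μ₁.real (Icc (-a) a) ≤ μ₁.real (Icc (-x) x) := h1.mono_real (by linarith [hx.1]) hx.1.le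
    _ = μ₂.real (Icc (-x) x) := hx2
    _ ≤ μ₂.real (Icc (-(a + δ)) (a + δ)) := h2.mono_real (by linarith [hx.2]) hx.2.le

section

variable {M : ℝ → Measure ℝ} {U : Ultrafilter ℝ} {μ : Measure ℝ}

theorem cum_lim (hC : 2 ≤ C) (hM : ∀ᶠ T in atTop, Bdd C (M T)) (hU : (U : Filter ℝ) ≤ atTop)
    (hμ : ∀ f : ℝ → ℝ, Continuous f → QD f →
      Integrable f μ ∧ Tendsto (fun T => ∫ x, f x ∂(M T)) U (𝓝 (∫ x, f x ∂μ)))
    (hcu : ∀ᵐ x : ℝ, cu μ x = cu mG x) {a : ℝ} (ha : 0 < a) :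
    Tendsto (fun T => (M T).real (Icc (-a) a)) U (𝓝 (1 + 2 * ∫ x in (0 : ℝ)..a, FF x)) := by
  have hC0 : 0 ≤ C := by linarith
  have b1 := bdd_limit hU hC0 hM hμ
  have b2 : Bdd (4 * C) mG := fun a => (mG_bdd a).trans (ENNReal.ofReal_le_ofReal (by linarith))
  rw [Metric.tendsto_nhds]
  intro ε hε
  obtain ⟨δ, hδ⟩ : ∃ δ : ℝ, δ = min (a / 4) (ε / 16) := ⟨_, rfl⟩
  have hδ0 : 0 < δ := by rw [hδ]; exact lt_min (by positivity) (by positivity)
  have hδ1 : δ ≤ a / 4 := by rw [hδ]; exact min_le_left _ _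
  have hδ3 : δ ≤ ε / 16 := by rw [hδ]; exact min_le_right _ _
  have u1 : ∫ x, tz (-a) a δ x ∂μ ≤ (1 + 2 * ∫ x in (0 : ℝ)..a, FF x) + 4 * δ := by
    have s1 := tz_upper (by linarith) b1 hδ0 (-a) a
    have s2 := sym_le b1 b2 hcu (a := a + δ) (δ := δ) (by linarith) hδ0
    rw [mG_sym (by linarith)] at s2
    have s3 := gF_le (a := a) (b := a + δ + δ) (by linarith)
    rw [show -a - δ = -(a + δ) by ring] at s1
    linarith
  have l1 : (1 + 2 * ∫ x in (0 : ℝ)..a, FF x) - 4 * δ ≤ ∫ x, tz (-(a - δ)) (a - δ) δ x ∂μ := by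
    have s1 := tz_lower (by linarith) b1 hδ0 (-(a - δ)) (a - δ)
    have s2 := sym_le b2 b1 (by filter_upwards [hcu] with x hx using hx.symm) (a := a - 2 * δ)
      (δ := δ) (by linarith) hδ0
    rw [mG_sym (by linarith), show a - 2 * δ + δ = a - δ by ring] at s2
    have s3 := gF_le (a := a - 2 * δ) (b := a) (by linarith)
    linarith
  have t1 := (hμ _ (tz_cont (-a) a δ) (tz_qd hδ0 (-a) a)).2
  have t2 := (hμ _ (tz_cont (-(a - δ)) (a - δ) δ) (tz_qd hδ0 (-(a - δ)) (a - δ))).2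
  filter_upwards [hU hM, t1.eventually (eventually_lt_nhds (show ∫ x, tz (-a) a δ x ∂μ <
    (1 + 2 * ∫ x in (0 : ℝ)..a, FF x) + ε by linarith)), t2.eventually (eventually_gt_nhds
    (show (1 + 2 * ∫ x in (0 : ℝ)..a, FF x) - ε < ∫ x, tz (-(a - δ)) (a - δ) δ x ∂μ by
      linarith))] with T h1 h2 h3
  rw [Real.dist_eq, abs_lt]
  have s1 := tz_lower hC0 h1 hδ0 (-a) a
  have s2 := tz_upper hC0 h1 hδ0 (-(a - δ)) (a - δ)
  rw [show -(a - δ) - δ = -a by ring, sub_add_cancel] at s2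
  constructor <;> linarith

end

/-- no atoms at the end points -/
lemma cu_ioo {μ : Measure ℝ} [SFinite μ] (h : Bdd C μ) :
    ∀ᵐ x : ℝ, 0 < x → cu μ x ≤ μ.real (Ioo (-x) x) := by
  filter_upwards [no_atom μ, ae_neg (no_atom μ)] with x h1 h2 hx
  unfold cu
  rw [abs_of_pos hx]
  have hsub : Icc (-x) x ⊆ ({-x} ∪ {x}) ∪ Ioo (-x) x := by
    intro y hy
    rcases hy.1.eq_or_lt with h3 | h3
    · left; left; exact h3.symm
    · rcases hy.2.eq_or_lt with h4 | h4
      · left; right; exact h4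
      · right; exact ⟨h3, h4⟩
  have hfin : μ (Ioo (-x) x) ≠ ⊤ :=
    ((measure_mono Ioo_subset_Icc_self).trans_lt (h.lt_top _ _)).ne
  have hle : μ (Icc (-x) x) ≤ μ (Ioo (-x) x) := by
    refine (measure_mono hsub).trans ((measure_union_le _ _).trans ?_)
    have : μ ({-x} ∪ {x}) ≤ 0 := by
      refine (measure_union_le _ _).trans ?_
      rw [h1, h2, add_zero]
    calc μ ({-x} ∪ {x}) + μ (Ioo (-x) x) ≤ 0 + μ (Ioo (-x) x) := by gcongr
      _ = _ := zero_add _
  exact ENNReal.toReal_mono hfin hle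

/-- **the criterion for families of measures**, along a filter -/
theorem cum_crit {M : ℝ → Measure ℝ} {F : Filter ℝ} (hF : F ≤ atTop) (hC : 2 ≤ C)
    (hM : ∀ᶠ T in atTop, Bdd C (M T)) {κ : ℝ} (hκ : 0 < κ) (hκ1 : κ ≤ 1)
    (ht : ∀ ψ, Adm κ ψ → Tendsto (fun T => ∫ x, fl ψ x ∂(M T)) atTop (𝓝 (cc ψ)))
    {C' c a₀ : ℝ} (hC' : 0 ≤ C') (hc : 0 < c) (ha₀ : 0 < a₀)
    (ho : (∀ a : ℝ, a₀ ≤ a → ∀ ε : ℝ, 0 < ε → ∀ᶠ T in F,
      (M T).real (Icc (-a) a) ≤ (1 + 2 * ∫ x in (0 : ℝ)..a, FF x) + C' * Real.exp (-(c * a)) + ε) ∨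
      (∀ a : ℝ, a₀ ≤ a → ∀ ε : ℝ, 0 < ε → ∀ᶠ T in F,
      (1 + 2 * ∫ x in (0 : ℝ)..a, FF x) - C' * Real.exp (-(c * a)) - ε ≤
        (M T).real (Icc (-a) a))) :
    ∀ a : ℝ, 0 < a → Tendsto (fun T => (M T).real (Icc (-a) a)) F
      (𝓝 (1 + 2 * ∫ x in (0 : ℝ)..a, FF x)) := by
  intro a ha
  rw [tendsto_iff_ultrafilter]
  intro U hU'
  have hU : (U : Filter ℝ) ≤ atTop := le_trans hU' hF
  have hC0 : 0 ≤ C := by linarith
  obtain ⟨μ, hsf, hμ⟩ := exists_limit hC0 hM U hU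
  have b1 := bdd_limit hU hC0 hM hμ
  have hsfG := mG_sf
  have b2 : Bdd (4 * C) mG := fun a => (mG_bdd a).trans (ENNReal.ofReal_le_ofReal (by linarith))
  have htest : ∀ ψ, Adm κ ψ → ∫ x, fl ψ x ∂μ = ∫ x, fl ψ x ∂mG := by
    intro ψ hψ
    rw [mG_test hψ hκ1]
    exact tendsto_nhds_unique (hμ _ (fl_cont hψ.int) (fl_qd hψ)).2 ((ht ψ hψ).mono_left hU)
  have hcG : ∀ x : ℝ, 0 ≤ x → cu mG x = 1 + 2 * ∫ y in (0 : ℝ)..x, FF y := by
    intro x hx
    unfold cu
    rw [abs_of_nonneg hx, mG_sym hx]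
  refine cum_lim hC hM hU hμ ?_ ha
  rcases ho with ho | ho
  · refine rigC (by linarith) b1 b2 hκ htest hC' hc (a₀ := a₀) ?_
    filter_upwards [cu_ioo b1] with x hx hxa
    have hx0 : 0 < x := by linarith
    have h1 := lim_upper hC0 hM hU hμ (α := -x) (β := x)
      (K := (1 + 2 * ∫ y in (0 : ℝ)..x, FF y) + C' * Real.exp (-(c * x)))
      (fun ε hε => hU' (ho x hxa ε hε))
    have h2 := hx hx0
    rw [hcG x hx0.le]
    linarith
  · have := rigC (μ₁ := mG) (μ₂ := μ) (by linarith) b2 b1 hκ (fun ψ hψ => (htest ψ hψ).symm) hC' hc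
      (a₀ := a₀) ?_
    · filter_upwards [this] with x hx using hx.symm
    refine ae_of_all _ fun x hxa => ?_
    have hx0 : 0 < x := by linarith
    have h1 := lim_lower hC0 hM hU hμ (α := -x) (β := x)
      (K := (1 + 2 * ∫ y in (0 : ℝ)..x, FF y) - C' * Real.exp (-(c * x)))
      (fun ε hε => hU' (ho x hxa ε hε))
    rw [hcG x hx0.le]
    unfold cu
    rw [abs_of_pos hx0]
    linarith

/-! ## The zeros -/

open H370 (Zf mult good_zeta mem_Zf NN zset)

/-- the lower bound for the number of zeros -/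
theorem NT_lower {ε : ℝ} (hε : 0 < ε) :
    ∀ᶠ T in atTop, (1 - ε) * nT T ≤ ∑ s ∈ ZZ T, mm s := by
  classical
  have hpi := Real.pi_pos
  obtain ⟨C, T0, hC, hT0, hNN⟩ := H370.nn_asymp good_zeta
  -- half of the zeros are in the upper half
  have step : ∀ T : ℝ, 2 * T0 ≤ T →
      (∑ s ∈ ZZ (T / 2), mm s) + (nT (T / 2) - C * (T / 2)) ≤ ∑ s ∈ ZZ T, mm s := by
    intro T hT
    have h1 : (1 : ℝ) ≤ T / 2 := by linarith
    rw [ZZ_split h1 (by linarith : T / 2 ≤ T), Finset.sum_union (ZZ_disj h1), NN_eq' h1]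
    have h2 := (abs_le.1 (hNN (T / 2) (by linarith) (T / 2) T le_rfl (by linarith) (by linarith)
      (by linarith))).1
    have h3 : nT (T / 2) = T / 2 * Real.log (T / 2) / (2 * Real.pi) := rfl
    rw [h3]
    linarith
  have key : ∀ k : ℕ, ∀ η : ℝ, 0 < η → ∀ᶠ T in atTop,
      (1 - (1 / 2) ^ k - η) * nT T ≤ ∑ s ∈ ZZ T, mm s := by
    intro k
    induction k with
    | zero =>
      intro η hη
      filter_upwards [eventually_ge_atTop 10] with T hT
      have h1 : 0 ≤ ∑ s ∈ ZZ T, mm s := Finset.sum_nonneg fun s _ => mm_nonneg s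
      have h2 := nT_pos hT
      rw [pow_zero]
      nlinarith
    | succ k ih =>
      intro η hη
      have h1 := ih η hη
      have h2 : Tendsto (fun T : ℝ => T / 2) atTop atTop :=
        tendsto_id.atTop_div_const (by norm_num)
      have h3 := h2.eventually h1
      have h4 : ∀ᶠ T : ℝ in atTop, (2 * Real.log 2 + 2 * Real.pi * C) * (2 / η) ≤ Real.log T :=
        Real.tendsto_log_atTop.eventually_ge_atTop _
      filter_upwards [h3, h4, eventually_ge_atTop (2 * T0), eventually_ge_atTop 20]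
        with T a1 a2 a3 a4
      have a5 := step T a3
      have hT : 0 < T := by linarith
      have e1 : nT (T / 2) = (1 / 2) * nT T - T * Real.log 2 / (4 * Real.pi) := by
        unfold nT
        rw [Real.log_div hT.ne' two_ne_zero]
        field_simp
        ring
      have hn := nT_pos (show 10 ≤ T by linarith)
      have hn2 := nT_pos (show 10 ≤ T / 2 by linarith)
      have hlog2 : 0 < Real.log 2 := Real.log_pos (by norm_num)
      -- the error terms
      have e2 : T * Real.log 2 / (2 * Real.pi) + C * (T / 2) ≤ (η / 2) * nT T := by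
        have h5 : (2 * Real.log 2 + 2 * Real.pi * C) ≤ Real.log T * (η / 2) := by
          have := mul_le_mul_of_nonneg_right a2 (show 0 ≤ η / 2 by positivity)
          rwa [mul_assoc, show 2 / η * (η / 2) = 1 by field_simp, mul_one] at this
        unfold nT
        have h6 : T * Real.log 2 / (2 * Real.pi) + C * (T / 2) =
            (T / (2 * Real.pi)) * (Real.log 2 + Real.pi * C) := by field_simp
        rw [h6, show η / 2 * (T * Real.log T / (2 * Real.pi)) =
          (T / (2 * Real.pi)) * (Real.log T * (η / 2)) by ring]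
        apply mul_le_mul_of_nonneg_left _ (by positivity)
        nlinarith [mul_pos hpi hC]
      have hp : (0 : ℝ) ≤ (1 / 2) ^ k := by positivity
      have hp1 : (1 / 2 : ℝ) ^ k ≤ 1 := pow_le_one₀ (by norm_num) (by norm_num)
      have e3 : (1 / 2 : ℝ) ^ (k + 1) = (1 / 2) ^ k / 2 := by rw [pow_succ]; ring
      rw [e3]
      obtain ⟨p, hpd⟩ : ∃ p : ℝ, p = (1 / 2) ^ k := ⟨_, rfl⟩
      rw [← hpd] at a1 hp hp1 ⊢
      have e4 : (1 - p - η) * nT (T / 2) + nT (T / 2) - C * (T / 2) ≤ ∑ s ∈ ZZ T, mm s := by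
        linarith
      rw [e1] at e4
      have e5 : T * Real.log 2 / (4 * Real.pi) * (2 - p - η) ≤ T * Real.log 2 / (2 * Real.pi) := by
        have h7 : T * Real.log 2 / (2 * Real.pi) = T * Real.log 2 / (4 * Real.pi) * 2 := by
          field_simp; ring
        rw [h7]
        apply mul_le_mul_of_nonneg_left _ (by positivity)
        linarith
      nlinarith
  obtain ⟨k, hk⟩ := exists_pow_lt_of_lt_one (show 0 < ε / 2 by positivity)
    (show (1 / 2 : ℝ) < 1 by norm_num)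
  filter_upwards [key k (ε / 2) (by positivity), eventually_ge_atTop 10] with T hT hT2
  have hn := nT_pos hT2
  refine le_trans ?_ hT
  apply mul_le_mul_of_nonneg_right _ hn.le
  linarith

/-- the mass of the pairs with equal ordinates -/
noncomputable def DG (T : ℝ) : ℝ := (Mp T).real {0}

/-- the mass of the pairs with difference in `(0, a]` -/
noncomputable def NS (T a : ℝ) : ℝ := (Mp T).real (Ioc 0 a)

lemma Mp_neg {T : ℝ} (hT : 10 ≤ T) {S : Set ℝ} (hS : MeasurableSet S) :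
    (Mp T).real (Neg.neg ⁻¹' S) = (Mp T).real S := by
  rw [Mp_real hT (measurable_neg hS), Mp_real hT hS]
  congr 1
  unfold RR
  rw [Finset.sum_comm]
  refine Finset.sum_congr rfl fun s _ => Finset.sum_congr rfl fun s' _ => ?_
  have h1 : (s'.im - s.im) * Real.log T / (2 * Real.pi) =
      -((s.im - s'.im) * Real.log T / (2 * Real.pi)) := by ring
  rw [h1, mul_comm (mm s') (mm s)]
  congr 1
  by_cases h : (s.im - s'.im) * Real.log T / (2 * Real.pi) ∈ S
  · rw [indicator_of_mem h, indicator_of_mem]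
    rw [mem_preimage, neg_neg]; exact h
  · rw [indicator_of_notMem h, indicator_of_notMem]
    rw [mem_preimage, neg_neg]; exact h

lemma Mp_sym {T : ℝ} (hT : 10 ≤ T) {a : ℝ} (ha : 0 ≤ a) :
    (Mp T).real (Icc (-a) a) = 2 * NS T a + DG T := by
  have hfin := Mp_fin T
  have h1 : Icc (-a) a = (Ico (-a) 0 ∪ {0}) ∪ Ioc 0 a := by
    ext x
    simp only [mem_union, mem_Icc, mem_Ico, mem_singleton_iff, mem_Ioc]
    constructor
    · rintro ⟨h1, h2⟩
      rcases lt_trichotomy x 0 with h | h | h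
      · left; left; exact ⟨h1, h⟩
      · left; right; exact h
      · right; exact ⟨h, h2⟩
    · rintro ((⟨h1, h2⟩ | h) | ⟨h1, h2⟩)
      · exact ⟨h1, by linarith⟩
      · rw [h]; exact ⟨by linarith, ha⟩
      · exact ⟨by linarith, h2⟩
  have h2 : (Mp T).real (Ico (-a) 0) = (Mp T).real (Ioc 0 a) := by
    rw [← Mp_neg hT measurableSet_Ioc]
    congr 1
    ext x
    simp only [mem_preimage, mem_Ioc, mem_Ico]
    constructor
    · rintro ⟨h1, h2⟩; exact ⟨by linarith, by linarith⟩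
    · rintro ⟨h1, h2⟩; exact ⟨by linarith, by linarith⟩
  rw [h1, measureReal_union _ measurableSet_Ioc, measureReal_union _ (measurableSet_singleton 0),
    h2]
  · unfold NS DG; ring
  · rw [Set.disjoint_left]
    rintro x ⟨-, hx⟩ hx'
    rw [mem_singleton_iff] at hx'
    linarith
  · rw [Set.disjoint_left]
    rintro x (⟨-, hx⟩ | hx) ⟨hx', -⟩
    · linarith
    · rw [mem_singleton_iff] at hx
      linarith

/-- pairs of equal zeros -/
lemma DG_lower {ε : ℝ} (hε : 0 < ε) : ∀ᶠ T in atTop, 1 - ε ≤ DG T := by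
  classical
  filter_upwards [NT_lower hε, eventually_ge_atTop 10] with T hT hT10
  have hn := nT_pos hT10
  unfold DG
  rw [Mp_real hT10 (measurableSet_singleton 0), le_div_iff₀ hn]
  refine hT.trans ?_
  unfold RR
  refine Finset.sum_le_sum fun s hs => ?_
  have h1 : mm s ≤ mm s * mm s := by
    unfold mm
    have : mult riemannZeta s ≤ mult riemannZeta s * mult riemannZeta s := Nat.le_mul_self _
    exact_mod_cast this
  refine h1.trans ?_
  have h2 : mm s * mm s = mm s * mm s * ({0} : Set ℝ).indicator (fun _ => (1 : ℝ))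
      ((s.im - s.im) * Real.log T / (2 * Real.pi)) := by
    rw [sub_self, zero_mul, zero_div, indicator_of_mem (mem_singleton _), mul_one]
  rw [h2]
  refine Finset.single_le_sum (f := fun s' => mm s * mm s' * ({0} : Set ℝ).indicator
    (fun _ => (1 : ℝ)) ((s.im - s'.im) * Real.log T / (2 * Real.pi))) (fun s' _ => ?_) hs
  refine mul_nonneg (mul_nonneg (mm_nonneg _) (mm_nonneg _)) ?_
  exact indicator_nonneg (fun _ _ => zero_le_one) _

/-- **the criterion for the zeros** -/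
theorem zeta_crit (hoff : ∀ η : ℝ, 0 < η → ∀ᶠ T : ℝ in atTop, NF T ≤ η * (T * Real.log T))
    {F : Filter ℝ} (hF : F ≤ atTop) {C' c a₀ : ℝ} (hC' : 0 ≤ C') (hc : 0 < c) (ha₀ : 0 < a₀)
    (ho : (∀ a : ℝ, a₀ ≤ a → ∀ ε : ℝ, 0 < ε → ∀ᶠ T in F,
        (∫ x in (0 : ℝ)..a, FF x) - C' * Real.exp (-(c * a)) - ε ≤ NS T a) ∨
      ((∀ ε : ℝ, 0 < ε → ∀ᶠ T in F, DG T ≤ 1 + ε) ∧ ∀ a : ℝ, a₀ ≤ a → ∀ ε : ℝ, 0 < ε → ∀ᶠ T in F,
        NS T a ≤ (∫ x in (0 : ℝ)..a, FF x) + C' * Real.exp (-(c * a)) + ε)) :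
    Tendsto DG F (𝓝 1) ∧
    ∀ a : ℝ, 0 < a → Tendsto (fun T => NS T a) F (𝓝 (∫ x in (0 : ℝ)..a, FF x)) := by
  obtain ⟨C, hC, hB⟩ := Mp_bdd
  obtain ⟨κ, hκ, hκ2, hblk⟩ := blk_main
  have hev : ∀ᶠ T in F, (10 : ℝ) ≤ T := hF (eventually_ge_atTop 10)
  have hall := cum_crit hF hC hB hκ (by linarith) (fun ψ hψ => test_lim hψ (hblk ψ hψ hoff))
    (C' := 2 * C') (c := c) (a₀ := a₀) (by positivity) hc ha₀ (by
      rcases ho with ho | ⟨ho1, ho2⟩
      · right
        intro a ha ε hε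
        filter_upwards [ho a ha (ε / 4) (by positivity), hF (DG_lower (show 0 < ε / 4 by positivity)),
          hev] with T h1 h2 h3
        rw [Mp_sym h3 (by linarith)]
        linarith
      · left
        intro a ha ε hε
        filter_upwards [ho2 a ha (ε / 4) (by positivity), ho1 (ε / 4) (by positivity), hev]
          with T h1 h2 h3
        rw [Mp_sym h3 (by linarith)]
        linarith)
  have hDG : Tendsto DG F (𝓝 1) := by
    rw [Metric.tendsto_nhds]
    intro ε hε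
    have h1 := hall (ε / 8) (by positivity)
    have h2 : 1 + 2 * ∫ x in (0 : ℝ)..(ε / 8), FF x ≤ 1 + ε / 4 := by
      have := gF_le (a := 0) (b := ε / 8) (by positivity)
      rw [intervalIntegral.integral_same] at this
      linarith
    filter_upwards [h1.eventually (eventually_lt_nhds (show 1 + 2 * ∫ x in (0 : ℝ)..(ε / 8), FF x <
      1 + ε / 2 by linarith)), hF (DG_lower (show 0 < ε / 2 by positivity)), hev] with T a1 a2 a3
    rw [Mp_sym a3 (by positivity)] at a1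
    have a4 : 0 ≤ NS T (ε / 8) := measureReal_nonneg
    rw [Real.dist_eq, abs_lt]
    constructor <;> linarith
  refine ⟨hDG, fun a ha => ?_⟩
  have h1 := ((hall a ha).sub hDG).div_const 2
  have h2 : (1 + 2 * (∫ x in (0 : ℝ)..a, FF x) - 1) / 2 = ∫ x in (0 : ℝ)..a, FF x := by ring
  rw [h2] at h1
  refine h1.congr' ?_
  filter_upwards [hev] with T hT
  rw [Mp_sym hT ha.le]
  ring

end Pool.Agent.Q85.Rig
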