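import Pool.Agent.Q85.Rig.Exist
import Pool.Agent.Q85.Rig.CumF
import Pool.Agent.Y749.Rig.FFe

/-! # The measures with the density Montgomery's function -/

set_option autoImplicit false

open MeasureTheory Set Filter Topology
open scoped NNReal ENNReal

namespace Pool.Agent.Q85.Rig

open Pool.Agent.Y749.Rig

variable {C : ℝ} {μ : Measure ℝ}

/-- the measure with the density Montgomery's function -/
noncomputable def Pf (T : ℝ) : Measure ℝ := volume.withDensity fun α => ENNReal.ofReal (Fr T α)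

lemma Pf_integral {T : ℝ} (hT : 10 ≤ T) (f : ℝ → ℝ) : ∫ α, f α ∂(Pf T) = ∫ α, f α * Fr T α := by
  unfold Pf
  rw [integral_withDensity_eq_integral_toReal_smul₀
    (Fr_cont T).measurable.ennreal_ofReal.aemeasurable (ae_of_all _ fun x => ENNReal.ofReal_lt_top)]
  refine integral_congr_ae (ae_of_all _ fun x => ?_)
  simp only [smul_eq_mul]
  rw [ENNReal.toReal_ofReal (Fr_nonneg hT x), mul_comm]

lemma Pf_icc {T : ℝ} (hT : 10 ≤ T) {a b : ℝ} (hab : a ≤ b) :
    Pf T (Icc a b) = ENNReal.ofReal (∫ α in a..b, Fr T α) := by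
  unfold Pf
  rw [withDensity_apply _ measurableSet_Icc, intervalIntegral.integral_of_le hab,
    ← integral_Icc_eq_integral_Ioc, ofReal_integral_eq_lintegral_ofReal]
  · exact ((Fr_cont T).continuousOn).integrableOn_Icc
  · exact ae_of_all _ fun x => Fr_nonneg hT x

lemma Pf_real {T : ℝ} (hT : 10 ≤ T) {a b : ℝ} (hab : a ≤ b) :
    (Pf T).real (Icc a b) = ∫ α in a..b, Fr T α := by
  rw [Measure.real, Pf_icc hT hab, ENNReal.toReal_ofReal]
  exact intervalIntegral.integral_nonneg hab fun x _ => Fr_nonneg hT x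

lemma Pf_ev {T : ℝ} (hT : 10 ≤ T) : Ev (Pf T) := by
  intro f _ _
  rw [Pf_integral hT, Pf_integral hT, ← integral_neg_eq_self (fun x => f x * Fr T x)]
  refine integral_congr_ae (ae_of_all _ fun x => ?_)
  simp only
  rw [Fr_even]

lemma int_qd_le (hC : 0 ≤ C) (h : Bdd C μ) {f : ℝ → ℝ} {B : ℝ}
    (hB : ∀ x, |f x| ≤ B / (1 + x ^ 2)) : |∫ x, f x ∂μ| ≤ B * (2 * C * DD 0) := by
  have hB0 : 0 ≤ B := by
    have := (abs_nonneg _).trans (hB 0)
    simpa using this
  have hc : Continuous fun x : ℝ => 1 / (1 + x ^ 2) := by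
    refine continuous_const.div (by fun_prop) fun x => ?_
    positivity
  have hi : Integrable (fun x : ℝ => 1 / (1 + x ^ 2)) μ :=
    h.integrable hC hc ⟨1, fun x => by rw [abs_of_nonneg (by positivity)]⟩
  have h1 : ∫ x, 1 / (1 + x ^ 2) ∂μ ≤ 2 * C * DD 0 := by
    rw [integral_eq_lintegral_of_nonneg_ae (ae_of_all _ fun x => by positivity)
      hc.aestronglyMeasurable]
    have h2 := lint_le hC h 0
    have h3 : {x : ℝ | ((0 : ℕ) : ℝ) ≤ |x|} = univ := by
      ext x; simp
    rw [h3, setLIntegral_univ] at h2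
    exact ENNReal.toReal_le_of_le_ofReal (mul_nonneg (by positivity) (DD_nonneg 0)) h2
  calc |∫ x, f x ∂μ| ≤ ∫ x, |f x| ∂μ := abs_integral_le_integral_abs
    _ ≤ ∫ x, B * (1 / (1 + x ^ 2)) ∂μ := by
        refine integral_mono_of_nonneg (ae_of_all _ fun x => abs_nonneg _) (hi.const_mul B)
          (ae_of_all _ fun x => ?_)
        simp only
        rw [mul_one_div]
        exact hB x
    _ = B * ∫ x, 1 / (1 + x ^ 2) ∂μ := integral_const_mul _ _
    _ ≤ _ := mul_le_mul_of_nonneg_left h1 hB0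

theorem Pf_bdd : ∃ C : ℝ, 0 ≤ C ∧ ∀ᶠ T in atTop, Bdd C (Pf T) := by
  obtain ⟨C, hC, hBd⟩ := Mp_bdd
  obtain ⟨B, hB⟩ := fl_bound (adm_tr one_pos)
  have hB0 : 0 ≤ B := by
    have := (abs_nonneg _).trans (hB 0)
    simpa using this
  have hDD := DD_nonneg 0
  refine ⟨4 * (B * (2 * C * DD 0)), by positivity, ?_⟩
  filter_upwards [hBd, eventually_ge_atTop 10] with T hb hT
  intro a
  rw [Pf_icc hT (by linarith)]
  apply ENNReal.ofReal_le_ofReal
  obtain ⟨m, hm⟩ : ∃ m : ℝ, m = a + 1 / 2 := ⟨_, rfl⟩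
  have hA := adm_modu (adm_tr one_pos) m
  have hi : Integrable fun α => modu m (tr 1) α * Fr T α := by
    refine Continuous.integrable_of_hasCompactSupport (hA.cont.mul (Fr_cont T)) ?_
    refine HasCompactSupport.of_support_subset_isCompact
      (isCompact_Icc (a := -(1 + |m|)) (b := 1 + |m|)) ?_
    intro x hx
    by_contra h2
    apply hx
    have : 1 + |m| ≤ |x| := by
      by_contra h3
      push Not at h3
      exact h2 (abs_le.1 h3.le)
    simp only
    rw [hA.supp x this, zero_mul]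
  have h0 : ∀ α, 0 ≤ modu m (tr 1) α * Fr T α := by
    intro α
    apply mul_nonneg _ (Fr_nonneg hT α)
    unfold modu
    have := tr_nonneg one_pos (α - m)
    have := tr_nonneg one_pos (α + m)
    linarith
  have h1 : ∫ α in a..(a + 1), Fr T α ≤ ∫ α in a..(a + 1), 4 * (modu m (tr 1) α * Fr T α) := by
    refine intervalIntegral.integral_mono_on (by linarith) ((Fr_cont T).intervalIntegrable _ _)
      ((hi.const_mul 4).intervalIntegrable) fun x hx => ?_
    have h2 : 1 ≤ 4 * modu m (tr 1) x := by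
      unfold modu
      have h3 := tr_nonneg one_pos (x + m)
      have h4 : 1 / 2 ≤ tr 1 (x - m) := by
        unfold tr
        rw [div_one, div_one]
        refine le_trans ?_ (le_max_right _ _)
        have : |x - m| ≤ 1 / 2 := by
          rw [abs_le, hm]
          constructor <;> linarith [hx.1, hx.2]
        linarith
      linarith
    have := Fr_nonneg hT x
    nlinarith
  have h2 : ∫ α in a..(a + 1), 4 * (modu m (tr 1) α * Fr T α) ≤
      4 * ∫ α, modu m (tr 1) α * Fr T α := by
    rw [intervalIntegral.integral_const_mul, intervalIntegral.integral_of_le (by linarith)]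
    apply mul_le_mul_of_nonneg_left _ (by norm_num)
    exact setIntegral_le_integral hi (ae_of_all _ h0)
  have h3 : ∫ α, modu m (tr 1) α * Fr T α ≤ B * (2 * C * DD 0) := by
    rw [Fr_pair hA.int]
    refine (le_abs_self _).trans (int_qd_le (by linarith) hb fun x => ?_)
    rw [abs_mul, fl_modu (adm_tr one_pos), abs_mul, abs_of_pos (ww_pos _)]
    have e1 := Real.abs_cos_le_one (2 * Real.pi * m * x)
    have e2 := ww_le (2 * Real.pi * x / Real.log T)
    have e3 := (ww_pos (2 * Real.pi * x / Real.log T)).le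
    calc |fl (tr 1) x| * |Real.cos (2 * Real.pi * m * x)| * ww (2 * Real.pi * x / Real.log T)
        ≤ |fl (tr 1) x| * 1 * 1 := by gcongr
      _ ≤ _ := by rw [mul_one, mul_one]; exact hB x
  linarith

/-- the pairing with transforms of test functions -/
lemma Pf_test {κ : ℝ} {ψ : ℝ → ℝ} (hψ : Adm κ ψ) {U : Ultrafilter ℝ} (hU : (U : Filter ℝ) ≤ atTop)
    (hμ : ∀ f : ℝ → ℝ, Continuous f → QD f →
      Integrable f μ ∧ Tendsto (fun T => ∫ x, f x ∂(Mp T)) U (𝓝 (∫ x, f x ∂μ)))
    (hq : QD ψ) :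
    Tendsto (fun T => ∫ x, fl ψ x ∂(Pf T)) U (𝓝 (∫ x, ψ x ∂μ)) := by
  have h1 := (ww_remove hψ.cont hq).mono_left hU
  have h2 := h1.add (hμ ψ hψ.cont hq).2
  rw [zero_add] at h2
  refine h2.congr' ?_
  filter_upwards [hU (eventually_ge_atTop 10)] with T hT
  rw [Pf_integral hT, Fr_pair (fl_int hψ), sub_add_cancel]
  refine integral_congr_ae (ae_of_all _ fun x => ?_)
  simp only
  rw [inv_four hψ]

lemma adm_qd {κ : ℝ} {ψ : ℝ → ℝ} (hψ : Adm κ ψ) : QD ψ := by
  obtain ⟨M, hM, hM2⟩ := hψ.bdd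
  refine ⟨M * (1 + κ ^ 2), fun x => ?_⟩
  rw [le_div_iff₀ (by positivity)]
  rcases le_or_gt κ |x| with h | h
  · rw [hψ.supp x h, abs_zero, zero_mul]
    positivity
  · have h1 : x ^ 2 ≤ κ ^ 2 := by
      rw [← sq_abs x]; exact pow_le_pow_left₀ (abs_nonneg _) h.le 2
    exact mul_le_mul (hM2 x) (by linarith) (by positivity) hM

/-- the target measure: `δ₀ + (min (|α|, 1) + D - 1) dα` -/
noncomputable def PD (D : ℝ) : Measure ℝ :=
  Measure.dirac 0 + volume.withDensity fun x => ENNReal.ofReal (mn x + (D - 1))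

lemma PD_sf (D : ℝ) : SFinite (PD D) := by unfold PD; infer_instance

variable {D : ℝ}

lemma md_cont : Continuous fun x => mn x + (D - 1) := mn_cont.add continuous_const

lemma md_nonneg (hD : 1 ≤ D) (x : ℝ) : 0 ≤ mn x + (D - 1) := by
  have := mn_nonneg x; linarith

lemma md_le (x : ℝ) : mn x + (D - 1) ≤ D := by
  have := mn_le x; linarith

lemma PD_integral (hD : 1 ≤ D) {f : ℝ → ℝ} (hi : Integrable f) :
    ∫ x, f x ∂(PD D) = f 0 + ∫ x, f x * (mn x + (D - 1)) := by
  have hm : Measurable fun x => ENNReal.ofReal (mn x + (D - 1)) :=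
    (md_cont (D := D)).measurable.ennreal_ofReal
  have hi2 : Integrable fun x => f x * (mn x + (D - 1)) := by
    refine hi.mul_bdd (c := D) md_cont.aestronglyMeasurable (ae_of_all _ fun x => ?_)
    rw [Real.norm_eq_abs, abs_of_nonneg (md_nonneg hD x)]
    exact md_le x
  unfold PD
  rw [integral_add_measure, integral_dirac, integral_withDensity_eq_integral_toReal_smul₀
    hm.aemeasurable (ae_of_all _ fun x => ENNReal.ofReal_lt_top)]
  · congr 1
    refine integral_congr_ae (ae_of_all _ fun x => ?_)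
    simp only [smul_eq_mul]
    rw [ENNReal.toReal_ofReal (md_nonneg hD x), mul_comm]
  · exact integrable_dirac (by simp)
  · rw [integrable_withDensity_iff_integrable_smul₀' hm.aemeasurable
      (ae_of_all _ fun x => ENNReal.ofReal_lt_top)]
    refine hi2.congr (ae_of_all _ fun x => ?_)
    simp only [smul_eq_mul]
    rw [ENNReal.toReal_ofReal (md_nonneg hD x), mul_comm]

lemma PD_ev (hD : 1 ≤ D) : Ev (PD D) := by
  intro f hf hq
  have hi := qd_int hf hq
  rw [PD_integral hD hi, PD_integral hD (qd_int (f := fun x => f (-x)) (by fun_prop) (qd_neg hq)),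
    neg_zero, ← integral_neg_eq_self (fun x => f x * (mn x + (D - 1)))]
  congr 1
  refine integral_congr_ae (ae_of_all _ fun x => ?_)
  simp only
  rw [mn_even]

lemma PD_lint (hD : 1 ≤ D) {a b : ℝ} (hab : a ≤ b) :
    ∫⁻ x in Icc a b, ENNReal.ofReal (mn x + (D - 1)) =
      ENNReal.ofReal (∫ x in a..b, (mn x + (D - 1))) := by
  rw [intervalIntegral.integral_of_le hab,
    ← integral_Icc_eq_integral_Ioc, ofReal_integral_eq_lintegral_ofReal]
  · exact (md_cont.continuousOn).integrableOn_Icc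
  · exact ae_of_all _ fun x => md_nonneg hD x

lemma PD_bdd (hD : 1 ≤ D) : Bdd (1 + D) (PD D) := by
  intro a
  unfold PD
  rw [Measure.add_apply, withDensity_apply _ measurableSet_Icc, PD_lint hD (by linarith),
    ENNReal.ofReal_add (by norm_num) (by linarith)]
  refine add_le_add ?_ (ENNReal.ofReal_le_ofReal ?_)
  · rw [ENNReal.ofReal_one]
    exact prob_le_one
  · calc ∫ x in a..(a + 1), (mn x + (D - 1)) ≤ ∫ x in a..(a + 1), D :=
          intervalIntegral.integral_mono_on (by linarith) (md_cont.intervalIntegrable _ _)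
            (continuous_const.intervalIntegrable _ _) fun x _ => md_le x
      _ = D := by rw [intervalIntegral.integral_const, smul_eq_mul]; ring

lemma PD_real (hD : 1 ≤ D) {a b : ℝ} (ha : 0 < a) (hab : a ≤ b) :
    (PD D).real (Icc a b) = ∫ x in a..b, (mn x + (D - 1)) := by
  unfold PD Measure.real
  rw [Measure.add_apply, withDensity_apply _ measurableSet_Icc, PD_lint hD hab,
    Measure.dirac_apply' _ measurableSet_Icc, indicator_of_notMem, zero_add,
    ENNReal.toReal_ofReal]
  · exact intervalIntegral.integral_nonneg hab fun x _ => md_nonneg hD x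
  · intro h
    linarith [h.1]

lemma PD_test {κ : ℝ} {ψ : ℝ → ℝ} (hψ : Adm κ ψ) (hD : 1 ≤ D) :
    ∫ x, fl ψ x ∂(PD D) = D * ψ 0 + ∫ x, ψ x * FF x := by
  have hi := fl_int hψ
  have i0 := hψ.int
  rw [PD_integral hD hi]
  have e1 : ∫ x, fl ψ x = ψ 0 := int_fl hψ
  have hi2 : Integrable fun x => fl ψ x * tr 1 x := by
    refine hi.mul_bdd (c := 1) (tr_cont 1).aestronglyMeasurable (ae_of_all _ fun x => ?_)
    rw [Real.norm_eq_abs, abs_of_nonneg (tr_nonneg one_pos x)]
    unfold tr
    rw [div_one, div_one]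
    exact max_le zero_le_one (by linarith [abs_nonneg x])
  have e2 : ∀ x, fl ψ x * (mn x + (D - 1)) = D * fl ψ x - fl ψ x * tr 1 x := by
    intro x
    have : mn x = 1 - tr 1 x := by
      unfold mn tr
      rw [div_one, div_one]
      rcases le_total |x| 1 with h | h
      · rw [min_eq_left h, max_eq_right (by linarith)]; ring
      · rw [min_eq_right h, max_eq_left (by linarith)]; ring
    rw [this]; ring
  simp_rw [e2]
  rw [integral_sub (hi.const_mul D) hi2, integral_const_mul, e1,
    parseval hψ.int (tr_int one_pos) hψ.even fun x => tr_even 1 x]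
  have e3 : ∫ x, ψ x * fl (tr 1) x = ∫ x, (ψ x - ψ x * FF x) := by
    refine integral_congr_ae ?_
    have : ∀ᵐ x : ℝ, x ≠ 0 := by
      rw [ae_iff]
      simp
    filter_upwards [this] with x hx
    rw [fl_tr one_pos hx, FF, mul_one]
    ring
  rw [e3, integral_sub i0 (int_FF i0)]
  have e4 : fl ψ 0 = ∫ x, ψ x := by
    unfold fl
    simp
  rw [e4]
  ring

end Pool.Agent.Q85.Rig
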