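import Pool.Agent.Q85.Rig.Dual

/-! # Pair correlation from Montgomery's function far out and short windows -/

set_option autoImplicit false

open MeasureTheory Set Filter Topology
open scoped NNReal ENNReal

namespace Pool.Agent.Q85.Rig

open Pool.Agent.Y749.Rig

variable {C : ℝ} {μ : Measure ℝ}

lemma map_abs_icc {a b : ℝ} (ha : 0 < a) (m : Measure ℝ) :
    (m.map fun x => |x|) (Icc a b) = m (Icc a b) + m (Icc (-b) (-a)) := by
  rw [Measure.map_apply continuous_abs.measurable measurableSet_Icc]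
  have : (fun x : ℝ => |x|) ⁻¹' Icc a b = Icc a b ∪ Icc (-b) (-a) := by
    ext x
    simp only [mem_preimage, mem_Icc, mem_union]
    constructor
    · rintro ⟨h1, h2⟩
      rcases abs_choice x with h | h
      · left; rw [h] at h1 h2; exact ⟨h1, h2⟩
      · right; rw [h] at h1 h2; exact ⟨by linarith, by linarith⟩
    · rintro (⟨h1, h2⟩ | ⟨h1, h2⟩)
      · rw [abs_of_nonneg (by linarith)]; exact ⟨h1, h2⟩
      · rw [abs_of_nonpos (by linarith)]; exact ⟨by linarith, by linarith⟩
  rw [this, measure_union _ measurableSet_Icc]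
  rw [Set.disjoint_left]
  intro x hx hx'
  linarith [hx.1, hx'.2]

/-- equality near zero -/
lemma abs_eq {C₁ C₂ : ℝ} {m₁ m₂ : Measure ℝ} (h1 : Bdd C₁ m₁) (h2 : Bdd C₂ m₂) (hC₁ : 0 ≤ C₁)
    (hC₂ : 0 ≤ C₂) (e1 : Ev m₁)
    (e2 : Ev m₂) {κ : ℝ} (hκ : 0 < κ)
    (h : ∀ a b : ℝ, 0 < a → a ≤ b → b ≤ κ → m₁.real (Icc a b) = m₂.real (Icc a b)) :
    (m₁.map fun x => |x|).restrict (Ioc 0 κ) = (m₂.map fun x => |x|).restrict (Ioc 0 κ) := by
  have hm : ∀ a b : ℝ, 0 < a → a ≤ b → b ≤ κ →
      (m₁.map fun x => |x|) (Icc a b) = (m₂.map fun x => |x|) (Icc a b) := by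
    intro a b ha hab hb
    rw [map_abs_icc ha, map_abs_icc ha]
    have k1 : m₁ (Icc a b) = m₂ (Icc a b) :=
      (ENNReal.toReal_eq_toReal_iff' (h1.lt_top _ _).ne (h2.lt_top _ _).ne).1 (h a b ha hab hb)
    have k2 : m₁ (Icc (-b) (-a)) = m₂ (Icc (-b) (-a)) := by
      have := h a b ha hab hb
      rw [← ev_eq hC₁ h1 e1 a b, ← ev_eq hC₂ h2 e2 a b] at this
      exact (ENNReal.toReal_eq_toReal_iff' (h1.lt_top _ _).ne (h2.lt_top _ _).ne).1 this
    rw [k1, k2]
  have hfin : IsFiniteMeasure ((m₁.map fun x => |x|).restrict (Ioc 0 κ)) := by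
    refine ⟨?_⟩
    rw [Measure.restrict_apply_univ, Measure.map_apply continuous_abs.measurable measurableSet_Ioc]
    refine (measure_mono (t := Icc (-κ) κ) ?_).trans_lt (h1.lt_top _ _)
    intro x hx
    exact abs_le.1 hx.2
  refine Measure.ext_of_Ici _ _ fun a => ?_
  rw [Measure.restrict_apply measurableSet_Ici, Measure.restrict_apply measurableSet_Ici]
  rcases lt_or_ge 0 a with ha | ha
  · have : Ici a ∩ Ioc 0 κ = Icc a κ := by
      ext x
      simp only [mem_inter_iff, mem_Ici, mem_Ioc, mem_Icc]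
      constructor
      · rintro ⟨h1, h2, h3⟩; exact ⟨h1, h3⟩
      · rintro ⟨h1, h2⟩; exact ⟨h1, by linarith, h2⟩
    rw [this]
    rcases le_or_gt a κ with h3 | h3
    · exact hm a κ ha h3 le_rfl
    · rw [Icc_eq_empty (not_le.2 h3), measure_empty, measure_empty]
  · have : Ici a ∩ Ioc 0 κ = ⋃ n : ℕ, Icc (κ / ((n : ℝ) + 1)) κ := by
      ext x
      simp only [mem_inter_iff, mem_Ici, mem_Ioc, mem_iUnion, mem_Icc]
      constructor
      · rintro ⟨-, h2, h3⟩
        obtain ⟨n, hn⟩ := exists_nat_gt (κ / x)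
        refine ⟨n, ?_, h3⟩
        rw [div_lt_iff₀ h2] at hn
        rw [div_le_iff₀ (by positivity)]
        nlinarith
      · rintro ⟨n, h2, h3⟩
        have : 0 < κ / ((n : ℝ) + 1) := by positivity
        exact ⟨by linarith, by linarith, h3⟩
    rw [this]
    have hmono : Monotone fun n : ℕ => Icc (κ / ((n : ℝ) + 1)) κ := by
      intro n k hnk
      apply Icc_subset_Icc _ le_rfl
      apply div_le_div_of_nonneg_left hκ.le (by positivity)
      have : (n : ℝ) ≤ k := by exact_mod_cast hnk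
      linarith
    have t1 := tendsto_measure_iUnion_atTop (μ := m₁.map fun x => |x|) hmono
    have t2 := tendsto_measure_iUnion_atTop (μ := m₂.map fun x => |x|) hmono
    refine tendsto_nhds_unique t1 (t2.congr fun n => ?_)
    simp only [Function.comp]
    refine (hm _ _ (by positivity) ?_ le_rfl).symm
    rw [div_le_iff₀ (by positivity)]
    have : (0 : ℝ) ≤ n := Nat.cast_nonneg n
    nlinarith

lemma int_near {κ : ℝ} (hκ : 0 < κ) {m : Measure ℝ} (hm : Bdd C m)
    {ψ : ℝ → ℝ} (hψ : Adm κ ψ) :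
    ∫ x, ψ x ∂m = ψ 0 * m.real {0} + ∫ x in Ioc 0 κ, ψ x ∂(m.map fun x => |x|) := by
  have hme : Measurable fun x : ℝ => |x| := continuous_abs.measurable
  obtain ⟨ρ, hρ⟩ : ∃ ρ : Measure ℝ, ρ = m.map fun x => |x| := ⟨_, rfl⟩
  rw [← hρ]
  have e0 : ∫ x, ψ x ∂m = ∫ x, ψ x ∂ρ := by
    rw [hρ, integral_map hme.aemeasurable hψ.cont.aestronglyMeasurable]
    refine integral_congr_ae (ae_of_all _ fun x => ?_)
    simp only
    rcases abs_choice x with h | h
    · rw [h]
    · rw [h, hψ.even]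
  have hneg : ρ (Iio 0) = 0 := by
    rw [hρ, Measure.map_apply hme measurableSet_Iio]
    have : (fun x : ℝ => |x|) ⁻¹' Iio 0 = ∅ := by
      ext x
      simp only [mem_preimage, mem_Iio, mem_empty_iff_false, iff_false, not_lt]
      exact abs_nonneg x
    rw [this, measure_empty]
  have hz : ρ.real {0} = m.real {0} := by
    unfold Measure.real
    rw [hρ, Measure.map_apply hme (measurableSet_singleton _)]
    congr 2
    ext x
    simp
  have hfin : IsFiniteMeasure (ρ.restrict (Icc 0 κ)) := by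
    refine ⟨?_⟩
    rw [Measure.restrict_apply_univ, hρ, Measure.map_apply hme measurableSet_Icc]
    refine (measure_mono (t := Icc (-κ) κ) ?_).trans_lt (hm.lt_top _ _)
    intro x hx
    exact abs_le.1 hx.2
  obtain ⟨M, hM, hM2⟩ := hψ.bdd
  have hint : IntegrableOn ψ (Icc 0 κ) ρ :=
    Integrable.of_bound hψ.cont.aestronglyMeasurable M (ae_of_all _ fun x => hM2 x)
  have e1 : ∫ x in Icc 0 κ, ψ x ∂ρ = ∫ x, ψ x ∂ρ := by
    refine setIntegral_eq_integral_of_ae_compl_eq_zero ?_
    have : ∀ᵐ x ∂ρ, x ∉ Iio (0 : ℝ) := by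
      rw [ae_iff]
      simp only [not_not]
      exact hneg
    filter_upwards [this] with x hx hx2
    apply hψ.supp
    have h0 : 0 ≤ x := not_lt.1 hx
    rw [abs_of_nonneg h0]
    by_contra hcon
    push Not at hcon
    exact hx2 ⟨h0, hcon.le⟩
  have hIcc : Icc 0 κ = {0} ∪ Ioc 0 κ := by
    rw [union_comm, Ioc_union_left hκ.le]
  have e2 : ∫ x in Icc 0 κ, ψ x ∂ρ = (∫ x in ({0} : Set ℝ), ψ x ∂ρ) + ∫ x in Ioc 0 κ, ψ x ∂ρ := by
    rw [hIcc] at hint ⊢
    refine setIntegral_union ?_ measurableSet_Ioc (hint.mono_set subset_union_left)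
      (hint.mono_set subset_union_right)
    rw [Set.disjoint_left]
    intro x hx hx'
    rw [mem_singleton_iff] at hx
    linarith [hx'.1]
  rw [e0, ← e1, e2, integral_singleton, smul_eq_mul, hz]
  ring

/-- test functions of small support against the limit measure -/
lemma near_test {κ : ℝ} (hκ : 0 < κ) (hC : 2 ≤ C) (hm : Bdd C μ) (he : Ev μ)
    (h : ∀ a b : ℝ, 0 < a → a ≤ b → b ≤ κ → μ.real (Icc a b) = ∫ x in a..b, FF x)
    {ψ : ℝ → ℝ} (hψ : Adm κ ψ) : ∫ x, ψ x ∂μ = μ.real {0} * ψ 0 + ∫ x, ψ x * FF x := by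
  have h1 := int_near hκ hm hψ
  have h2 := int_near hκ mG_bdd hψ
  rw [abs_eq hm mG_bdd (by linarith) (by norm_num) he mG_ev hκ (fun a b ha hab hb => by
    rw [h a b ha hab hb, mG_real ha hab])] at h1
  have h3 : mG.real {0} = 1 := by
    have := mG_sym (a := 0) le_rfl
    rw [neg_zero, Icc_self, intervalIntegral.integral_same] at this
    linarith
  rw [h3, mG_integral hψ.cont (adm_qd hψ)] at h2
  rw [h1]
  linarith

/-- **The dual theorem.** -/
theorem dual_main (hoff : ∀ η : ℝ, 0 < η → ∀ᶠ T : ℝ in atTop, NF T ≤ η * (T * Real.log T))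
    {l : Filter ℝ} (hl : l ≤ atTop) {κ : ℝ} (hκ : 0 < κ)
    (hshort : ∀ a b : ℝ, 0 < a → a < b → b < κ →
      Tendsto (fun T => (Mp T).real (Ioc a b)) l (𝓝 (∫ x in a..b, FF x)))
    {l₁ l₂ : ℝ} (hl₁ : 0 < l₁) (hl₂ : 0 < l₂) (hir : Irrational (l₁ / l₂))
    (ho : ∀ p : ℝ, (p = l₁ ∨ p = l₂) → ∃ C' c a₀ : ℝ, 0 < C' ∧ 0 < c ∧ 0 < a₀ ∧
      ∀ a : ℝ, a₀ ≤ a → ∀ ε : ℝ, 0 < ε → ∀ᶠ T in l,
        ∫ α in a..(a + p), Fr T α ≤ p + C' * Real.exp (-(c * a)) + ε) : Weak l := by
  obtain ⟨C, hC, hB⟩ := Mp_bdd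
  obtain ⟨K, hK, hPB⟩ := Pf_bdd
  have hC0 : 0 ≤ C := by linarith
  refine weak_of hl fun U hU μ hμ => ?_
  have hUt : (U : Filter ℝ) ≤ atTop := hU.trans hl
  have b1 := bdd_limit hUt hC0 hB hμ
  have e1 := ev_limit hUt ((eventually_ge_atTop 10).mono fun T hT => Mp_ev hT) hμ
  obtain ⟨Φ, hsf, hΦ⟩ := exists_limit hK hPB U hUt
  have bΦ := bdd_limit hUt hK hPB hΦ
  have eΦ := ev_limit hUt ((eventually_ge_atTop 10).mono fun T hT => Pf_ev hT) hΦ
  -- the mass at zero
  obtain ⟨D, hD⟩ : ∃ D : ℝ, D = μ.real {0} := ⟨_, rfl⟩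
  have hD1 : 1 ≤ D := by
    rw [hD, ← Icc_self]
    refine lim_lower hC0 hB hUt hμ fun ε hε => ?_
    filter_upwards [hUt (DG_lower hε)] with T hT
    rw [Icc_self]
    exact hT
  -- short windows
  have hw : ∀ a b : ℝ, 0 < a → a ≤ b → b ≤ κ / 2 → μ.real (Icc a b) = ∫ x in a..b, FF x := by
    have up : ∀ a b : ℝ, 0 < a → a < b → b < κ → μ.real (Ioo a b) ≤ ∫ x in a..b, FF x := by
      intro a b ha hab hb
      refine lim_upper' hC0 hB hUt hμ fun ε hε => ?_
      filter_upwards [hU ((hshort a b ha hab hb).eventually (eventually_lt_nhds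
        (show (∫ x in a..b, FF x) < (∫ x in a..b, FF x) + ε by linarith)))] with T hT using hT.le
    intro a b ha hab hb
    refine le_antisymm ?_ ?_
    · refine le_of_forall_pos_le_add fun ε hε => ?_
      obtain ⟨δ, hδ⟩ : ∃ δ : ℝ, δ = min (ε / 2) (min (a / 2) (κ / 4)) := ⟨_, rfl⟩
      have hδ0 : 0 < δ := by
        rw [hδ]; exact lt_min (by positivity) (lt_min (by positivity) (by positivity))
      have hδ1 : δ ≤ ε / 2 := by rw [hδ]; exact min_le_left _ _
      have hδ2 : δ ≤ a / 2 := by rw [hδ]; exact (min_le_right _ _).trans (min_le_left _ _)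
      have hδ3 : δ ≤ κ / 4 := by rw [hδ]; exact (min_le_right _ _).trans (min_le_right _ _)
      have h1 : μ.real (Icc a b) ≤ μ.real (Ioo (a - δ) (b + δ)) := by
        refine measureReal_mono ?_
          ((measure_mono Ioo_subset_Icc_self).trans_lt (b1.lt_top _ _)).ne
        intro x hx
        exact ⟨by linarith [hx.1], by linarith [hx.2]⟩
      have h2 := up (a - δ) (b + δ) (by linarith) (by linarith) (by linarith)
      have h3 : ∫ x in (a - δ)..(b + δ), FF x = (∫ x in (a - δ)..a, FF x) +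
          (∫ x in a..b, FF x) + ∫ x in b..(b + δ), FF x := by
        rw [intervalIntegral.integral_add_adjacent_intervals (FF_ii _ _) (FF_ii _ _),
          intervalIntegral.integral_add_adjacent_intervals (FF_ii _ _) (FF_ii _ _)]
      have h4 : ∀ u v : ℝ, u ≤ v → ∫ x in u..v, FF x ≤ v - u := by
        intro u v huv
        have : ∫ x in u..v, FF x ≤ ∫ x in u..v, (1 : ℝ) :=
          intervalIntegral.integral_mono_on huv (FF_ii _ _) (by simp) fun x _ => FF_le_one x
        rwa [intervalIntegral.integral_const, smul_eq_mul, mul_one] at this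
      have h5 := h4 (a - δ) a (by linarith)
      have h6 := h4 b (b + δ) (by linarith)
      linarith
    · rcases hab.eq_or_lt with h | h
      · rw [h, intervalIntegral.integral_same]
        exact measureReal_nonneg
      · refine lim_lower' hC0 hB hUt hμ fun ε hε => ?_
        filter_upwards [hU ((hshort a b ha h (by linarith)).eventually (eventually_gt_nhds
          (show (∫ x in a..b, FF x) - ε < ∫ x in a..b, FF x by linarith)))] with T hT using hT.le
  -- the common bound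
  obtain ⟨K', hK'⟩ : ∃ K' : ℝ, K' = max (4 * K) (1 + D) := ⟨_, rfl⟩
  have hK'0 : 0 ≤ K' := by
    rw [hK']; exact (show (0 : ℝ) ≤ 1 + D by linarith).trans (le_max_right _ _)
  have bΦ' : Bdd K' Φ := fun a => (bΦ a).trans (ENNReal.ofReal_le_ofReal (by
    rw [hK']; exact le_max_left _ _))
  have bP' : Bdd K' (PD D) := fun a => (PD_bdd hD1 a).trans (ENNReal.ofReal_le_ofReal (by
    rw [hK']; exact le_max_right _ _))
  have := PD_sf D
  have htest : ∀ ψ, Adm (κ / 2) ψ → ∫ x, fl ψ x ∂Φ = ∫ x, fl ψ x ∂(PD D) := by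
    intro ψ hψ
    rw [PD_test hψ hD1, hD, ← near_test (by positivity) (C := 4 * C) (by linarith) b1 e1 hw hψ]
    exact tendsto_nhds_unique (hΦ _ (fl_cont hψ.int) (fl_qd hψ)).2
      (Pf_test hψ hUt hμ (adm_qd hψ))
  have key : ∀ p : ℝ, 0 < p → (∃ C' c a₀ : ℝ, 0 < C' ∧ 0 < c ∧ 0 < a₀ ∧
      ∀ a : ℝ, a₀ ≤ a → ∀ ε : ℝ, 0 < ε → ∀ᶠ T in l,
        ∫ α in a..(a + p), Fr T α ≤ p + C' * Real.exp (-(c * a)) + ε) →
      ∀ᵐ x : ℝ, wf Φ (p / 2) x = wf (PD D) (p / 2) x := by
    rintro p hp ⟨C', c, a₀, hC', hc, ha₀, h⟩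
    obtain ⟨a₁, ha₁⟩ : ∃ a₁ : ℝ, a₁ = max a₀ 1 := ⟨_, rfl⟩
    have ha₁0 : a₀ ≤ a₁ := by rw [ha₁]; exact le_max_left _ _
    have ha₁1 : 1 ≤ a₁ := by rw [ha₁]; exact le_max_right _ _
    obtain ⟨C'', hC''⟩ : ∃ C'' : ℝ, C'' = C' + (p + 2) * K' * Real.exp (c * a₁) := ⟨_, rfl⟩
    have hC''0 : C' ≤ C'' := by
      rw [hC'']
      have : 0 ≤ (p + 2) * K' * Real.exp (c * a₁) := by positivity
      linarith
    refine rig3 hK'0 bΦ' bP' eΦ (PD_ev hD1) (show 0 < κ / 2 by positivity) htest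
      (C' := C'') (c := c) (by linarith) hc (by positivity) ?_
    filter_upwards [icc_ioo bΦ' (b := p / 2)] with y hy hby
    have hexp := Real.exp_pos (-(c * (y - p / 2)))
    rcases le_or_gt a₁ (y - p / 2) with hay | hay
    · have h1 := lim_upper hK hPB hUt hΦ (α := y - p / 2) (β := y + p / 2)
        (K := p + C' * Real.exp (-(c * (y - p / 2)))) (fun ε hε => by
          have h3 := h (y - p / 2) (by linarith) ε hε
          rw [show y - p / 2 + p = y + p / 2 by ring] at h3
          filter_upwards [hU h3, hUt (eventually_ge_atTop 10)] with T hT hT10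
          rw [Pf_real hT10 (by linarith)]
          exact hT)
      have h2 : p ≤ wf (PD D) (p / 2) y := by
        unfold wf
        rw [PD_real hD1 (by linarith) (by linarith)]
        have : ∫ x in (y - p / 2)..(y + p / 2), (1 : ℝ) ≤
            ∫ x in (y - p / 2)..(y + p / 2), (mn x + (D - 1)) := by
          refine intervalIntegral.integral_mono_on (by linarith) (by simp)
            (md_cont.intervalIntegrable _ _) fun x hx => ?_
          have : mn x = 1 := by
            unfold mn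
            apply min_eq_right
            rw [abs_of_nonneg (by linarith [hx.1])]
            linarith [hx.1]
          rw [this]
          linarith
        rw [intervalIntegral.integral_const, smul_eq_mul, mul_one] at this
        linarith
      have h3 : C' * Real.exp (-(c * (y - p / 2))) ≤ C'' * Real.exp (-(c * (y - p / 2))) :=
        mul_le_mul_of_nonneg_right hC''0 hexp.le
      linarith
    · have h1 : wf Φ (p / 2) y ≤ (p + 2) * K' := by
        have := real_le_len hK'0 bΦ' hp.le (y - p / 2)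
        rw [show y - p / 2 + p = y + p / 2 by ring] at this
        exact this
      have h2 := wf_nonneg (μ := PD D) (p / 2) y
      have h3 : (p + 2) * K' ≤ C'' * Real.exp (-(c * (y - p / 2))) := by
        have g1 : (p + 2) * K' * Real.exp (c * a₁) * Real.exp (-(c * (y - p / 2))) ≤
            C'' * Real.exp (-(c * (y - p / 2))) := by
          apply mul_le_mul_of_nonneg_right _ hexp.le
          rw [hC'']
          linarith
        refine le_trans ?_ g1
        rw [mul_assoc, ← Real.exp_add]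
        have g2 : 1 ≤ Real.exp (c * a₁ + -(c * (y - p / 2))) := by
          apply Real.one_le_exp
          nlinarith
        have : 0 ≤ (p + 2) * K' := by positivity
        nlinarith
      linarith
  have w1 := key l₁ hl₁ (ho l₁ (Or.inl rfl))
  have w2 := key l₂ hl₂ (ho l₂ (Or.inr rfl))
  have hir2 : Irrational (l₁ / 2 / (l₂ / 2)) := by
    rwa [div_div_div_cancel_right₀ two_ne_zero]
  have hΦP : Φ = PD D := by
    have hlf : IsLocallyFiniteMeasure Φ := by
      refine ⟨fun x => ⟨Icc (x - 1) (x + 1), Icc_mem_nhds (by linarith) (by linarith), ?_⟩⟩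
      exact bΦ'.lt_top _ _
    refine Measure.ext_of_Icc _ _ fun α β hab => ?_
    have := win_eq bΦ' bP' (fun b hb => two_len bΦ' bP' (by positivity) (by positivity) hir2 w1 w2 hb)
      hab
    unfold Measure.real at this
    exact (ENNReal.toReal_eq_toReal_iff' (bΦ'.lt_top _ _).ne (bP'.lt_top _ _).ne).1 this
  -- the value of `D`
  have hlimΦ : ∀ {k : ℝ} {ψ : ℝ → ℝ}, Adm k ψ →
      Tendsto (fun T => ∫ α, ψ α * Fr T α) U (𝓝 (ψ 0 + ∫ x, ψ x * (mn x + (D - 1)))) := by
    intro k ψ hψ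
    have h1 := (hΦ ψ hψ.cont (adm_qd hψ)).2
    rw [hΦP, PD_integral hD1 hψ.int] at h1
    refine h1.congr' ?_
    filter_upwards [hUt (eventually_ge_atTop 10)] with T hT
    rw [Pf_integral hT]
  have hD2 : D = 1 := by
    obtain ⟨κ₀, hκ₀, hκ2, hblk⟩ := blk_main
    have hA := adm_tr hκ₀
    have t1 := (test_lim hA (hblk _ hA hoff)).mono_left hUt
    have t2 := Fr_lim hA.int (fl_qd hA) hUt t1
    have t3 := tendsto_nhds_unique t2 (hlimΦ hA)
    unfold cc at t3
    have i1 : Integrable fun x => tr κ₀ x * mn x := by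
      refine hA.int.mul_bdd (c := 1) mn_cont.aestronglyMeasurable (ae_of_all _ fun x => ?_)
      rw [Real.norm_eq_abs, abs_of_nonneg (mn_nonneg x)]
      exact mn_le x
    have e1 : ∫ x, tr κ₀ x * (mn x + (D - 1)) = (∫ x, tr κ₀ x * mn x) + (D - 1) := by
      simp_rw [mul_add]
      rw [integral_add i1 (hA.int.mul_const _), integral_mul_const, int_tr hκ₀, one_mul]
    have e2 : ∫ x, tr κ₀ x * mn x = ∫ x, |x| * tr κ₀ x := by
      refine integral_congr_ae (ae_of_all _ fun x => ?_)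
      simp only
      rcases le_or_gt κ₀ |x| with h | h
      · rw [tr_supp hκ₀ x h]; ring
      · have : mn x = |x| := min_eq_left (by linarith)
        rw [this, mul_comm]
    rw [e1, e2] at t3
    linarith
  refine meas_eq (by linarith) b1 e1 fun k hk ψ hψ => ?_
  have h1 := Fr_lim' hψ.int (fl_qd hψ) hUt (hlimΦ hψ)
  rw [gue2 hψ]
  have h2 := tendsto_nhds_unique (hμ _ (fl_cont hψ.int) (fl_qd hψ)).2 h1
  rw [h2, hD2]
  congr 1
  refine integral_congr_ae (ae_of_all _ fun x => ?_)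
  simp only
  ring

/-- from weak convergence to distant windows -/
lemma weak_icc {l : Filter ℝ} (hl : l ≤ atTop) (hw : Weak l) {α β : ℝ} (hα : 0 < α) (hαβ : α < β) :
    Tendsto (fun T => (Mp T).real (Icc α β)) l (𝓝 (∫ x in α..β, FF x)) := by
  obtain ⟨C, hC, hB⟩ := Mp_bdd
  have := mG_sf
  rw [tendsto_iff_ultrafilter]
  intro U hU
  exact fam_end (μ := mG) hC hB (hU.trans hl) (fun f hf hq =>
    ⟨mG_bdd.integrable (by norm_num) hf hq, (hw f hf hq).mono_left hU⟩)
    (fun b _ => ae_of_all _ fun x => rfl) hα hαβ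

/-- Montgomery's function as a finite sum -/
lemma Fr_sum {T : ℝ} (hT : 10 ≤ T) (α : ℝ) : Fr T α = (∑ s ∈ ZZ T, ∑ s' ∈ ZZ T,
    mm s * mm s' * (Real.cos (α * Real.log T * (s.im - s'.im)) *
      (4 / (4 + (s.im - s'.im) ^ 2)))) / nT T := by
  have hpi := Real.pi_pos
  have hL := one_lt_log (show 3 ≤ T by linarith)
  have hL0 : Real.log T ≠ 0 := by linarith
  unfold Fr
  rw [Mp_integral hT (fun x => Real.cos (2 * Real.pi * α * x) * ww (2 * Real.pi * x / Real.log T))]
  unfold RR
  congr 1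
  refine Finset.sum_congr rfl fun s _ => Finset.sum_congr rfl fun s' _ => ?_
  have e1 : 2 * Real.pi * α * ((s.im - s'.im) * Real.log T / (2 * Real.pi)) =
      α * Real.log T * (s.im - s'.im) := by
    field_simp
  have e2 : 2 * Real.pi * ((s.im - s'.im) * Real.log T / (2 * Real.pi)) / Real.log T =
      s.im - s'.im := by
    field_simp
  simp only [e1, e2]
  rfl

end Pool.Agent.Q85.Rig
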