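import Pool.Agent.Q85.Rig.Fwd

/-! # The dual theorem along a filter, and weak convergence from the conjecture

The proof of `dual_mainF` is that of `dual_main`.
-/

set_option autoImplicit false

open MeasureTheory Set Filter Topology
open scoped ENNReal

namespace Pool.Agent.Q85.Rig

open Pool.Agent.Y749.Rig

/-- **The dual theorem.** -/
theorem dual_mainF {l : Filter ℝ} (hl : l ≤ atTop)
    (hoff : ∀ η : ℝ, 0 < η → ∀ᶠ T : ℝ in l, NF T ≤ η * (T * Real.log T)) {κ : ℝ} (hκ : 0 < κ)
    (hshort : ∀ a b : ℝ, 0 < a → a < b → b < κ →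
      Tendsto (fun T => (Mp T).real (Ioc a b)) l (𝓝 (∫ x in a..b, FF x)))
    {l₁ l₂ : ℝ} (hl₁ : 0 < l₁) (hl₂ : 0 < l₂) (hir : Irrational (l₁ / l₂))
    (ho : ∀ p : ℝ, (p = l₁ ∨ p = l₂) → ∃ C' c a₀ : ℝ, 0 < C' ∧ 0 < c ∧ 0 < a₀ ∧
      ∀ a : ℝ, a₀ ≤ a → ∀ ε : ℝ, 0 < ε → ∀ᶠ T in l,
        ∫ α in a..(a + p), Fr T α ≤ p + C' * Real.exp (-(c * a)) + ε) : Weak l := by
  obtain ⟨C, hC, hB⟩ := Mp_bdd
  obtain ⟨K, hK, hPB⟩ := Pf_bdd
  have hC0 : 0 ≤ C := by linarith
  refine weak_of hl fun U hU μ hμ => ?_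
  have hUt : (U : Filter ℝ) ≤ atTop := hU.trans hl
  have b1 := bdd_limit hUt hC0 hB hμ
  have e1 := ev_limit hUt ((eventually_ge_atTop 10).mono fun T hT => Mp_ev hT) hμ
  obtain ⟨Φ, hsf, hΦ⟩ := exists_limit hK hPB U hUt
  have bΦ := bdd_limit hUt hK hPB hΦ
  have eΦ := ev_limit hUt ((eventually_ge_atTop 10).mono fun T hT => Pf_ev hT) hΦ
  -- the mass at zero
  obtain ⟨D, hD⟩ : ∃ D : ℝ, D = μ.real {0} := ⟨_, rfl⟩
  have hD1 : 1 ≤ D := by
    rw [hD, ← Icc_self]
    refine lim_lower hC0 hB hUt hμ fun ε hε => ?_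
    filter_upwards [hUt (DG_lower hε)] with T hT
    rw [Icc_self]
    exact hT
  -- short windows
  have hw : ∀ a b : ℝ, 0 < a → a ≤ b → b ≤ κ / 2 → μ.real (Icc a b) = ∫ x in a..b, FF x := by
    have up : ∀ a b : ℝ, 0 < a → a < b → b < κ → μ.real (Ioo a b) ≤ ∫ x in a..b, FF x := by
      intro a b ha hab hb
      refine lim_upper' hC0 hB hUt hμ fun ε hε => ?_
      filter_upwards [hU ((hshort a b ha hab hb).eventually (eventually_lt_nhds
        (show (∫ x in a..b, FF x) < (∫ x in a..b, FF x) + ε by linarith)))] with T hT using hT.le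
    intro a b ha hab hb
    refine le_antisymm ?_ ?_
    · refine le_of_forall_pos_le_add fun ε hε => ?_
      obtain ⟨δ, hδ⟩ : ∃ δ : ℝ, δ = min (ε / 2) (min (a / 2) (κ / 4)) := ⟨_, rfl⟩
      have hδ0 : 0 < δ := by
        rw [hδ]; exact lt_min (by positivity) (lt_min (by positivity) (by positivity))
      have hδ1 : δ ≤ ε / 2 := by rw [hδ]; exact min_le_left _ _
      have hδ2 : δ ≤ a / 2 := by rw [hδ]; exact (min_le_right _ _).trans (min_le_left _ _)
      have hδ3 : δ ≤ κ / 4 := by rw [hδ]; exact (min_le_right _ _).trans (min_le_right _ _)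
      have h1 : μ.real (Icc a b) ≤ μ.real (Ioo (a - δ) (b + δ)) := by
        refine measureReal_mono ?_
          ((measure_mono Ioo_subset_Icc_self).trans_lt (b1.lt_top _ _)).ne
        intro x hx
        exact ⟨by linarith [hx.1], by linarith [hx.2]⟩
      have h2 := up (a - δ) (b + δ) (by linarith) (by linarith) (by linarith)
      have h3 : ∫ x in (a - δ)..(b + δ), FF x = (∫ x in (a - δ)..a, FF x) +
          (∫ x in a..b, FF x) + ∫ x in b..(b + δ), FF x := by
        rw [intervalIntegral.integral_add_adjacent_intervals (FF_ii _ _) (FF_ii _ _),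
          intervalIntegral.integral_add_adjacent_intervals (FF_ii _ _) (FF_ii _ _)]
      have h4 : ∀ u v : ℝ, u ≤ v → ∫ x in u..v, FF x ≤ v - u := by
        intro u v huv
        have : ∫ x in u..v, FF x ≤ ∫ x in u..v, (1 : ℝ) :=
          intervalIntegral.integral_mono_on huv (FF_ii _ _) (by simp) fun x _ => FF_le_one x
        rwa [intervalIntegral.integral_const, smul_eq_mul, mul_one] at this
      have h5 := h4 (a - δ) a (by linarith)
      have h6 := h4 b (b + δ) (by linarith)
      linarith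
    · rcases hab.eq_or_lt with h | h
      · rw [h, intervalIntegral.integral_same]
        exact measureReal_nonneg
      · refine lim_lower' hC0 hB hUt hμ fun ε hε => ?_
        filter_upwards [hU ((hshort a b ha h (by linarith)).eventually (eventually_gt_nhds
          (show (∫ x in a..b, FF x) - ε < ∫ x in a..b, FF x by linarith)))] with T hT using hT.le
  -- the common bound
  obtain ⟨K', hK'⟩ : ∃ K' : ℝ, K' = max (4 * K) (1 + D) := ⟨_, rfl⟩
  have hK'0 : 0 ≤ K' := by
    rw [hK']; exact (show (0 : ℝ) ≤ 1 + D by linarith).trans (le_max_right _ _)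
  have bΦ' : Bdd K' Φ := fun a => (bΦ a).trans (ENNReal.ofReal_le_ofReal (by
    rw [hK']; exact le_max_left _ _))
  have bP' : Bdd K' (PD D) := fun a => (PD_bdd hD1 a).trans (ENNReal.ofReal_le_ofReal (by
    rw [hK']; exact le_max_right _ _))
  have := PD_sf D
  have htest : ∀ ψ, Adm (κ / 2) ψ → ∫ x, fl ψ x ∂Φ = ∫ x, fl ψ x ∂(PD D) := by
    intro ψ hψ
    rw [PD_test hψ hD1, hD, ← near_test (by positivity) (C := 4 * C) (by linarith) b1 e1 hw hψ]
    exact tendsto_nhds_unique (hΦ _ (fl_cont hψ.int) (fl_qd hψ)).2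
      (Pf_test hψ hUt hμ (adm_qd hψ))
  have key : ∀ p : ℝ, 0 < p → (∃ C' c a₀ : ℝ, 0 < C' ∧ 0 < c ∧ 0 < a₀ ∧
      ∀ a : ℝ, a₀ ≤ a → ∀ ε : ℝ, 0 < ε → ∀ᶠ T in l,
        ∫ α in a..(a + p), Fr T α ≤ p + C' * Real.exp (-(c * a)) + ε) →
      ∀ᵐ x : ℝ, wf Φ (p / 2) x = wf (PD D) (p / 2) x := by
    rintro p hp ⟨C', c, a₀, hC', hc, ha₀, h⟩
    obtain ⟨a₁, ha₁⟩ : ∃ a₁ : ℝ, a₁ = max a₀ 1 := ⟨_, rfl⟩
    have ha₁0 : a₀ ≤ a₁ := by rw [ha₁]; exact le_max_left _ _
    have ha₁1 : 1 ≤ a₁ := by rw [ha₁]; exact le_max_right _ _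
    obtain ⟨C'', hC''⟩ : ∃ C'' : ℝ, C'' = C' + (p + 2) * K' * Real.exp (c * a₁) := ⟨_, rfl⟩
    have hC''0 : C' ≤ C'' := by
      rw [hC'']
      have : 0 ≤ (p + 2) * K' * Real.exp (c * a₁) := by positivity
      linarith
    refine rig3 hK'0 bΦ' bP' eΦ (PD_ev hD1) (show 0 < κ / 2 by positivity) htest
      (C' := C'') (c := c) (by linarith) hc (by positivity) ?_
    filter_upwards [icc_ioo bΦ' (b := p / 2)] with y hy hby
    have hexp := Real.exp_pos (-(c * (y - p / 2)))
    rcases le_or_gt a₁ (y - p / 2) with hay | hay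
    · have h1 := lim_upper hK hPB hUt hΦ (α := y - p / 2) (β := y + p / 2)
        (K := p + C' * Real.exp (-(c * (y - p / 2)))) (fun ε hε => by
          have h3 := h (y - p / 2) (by linarith) ε hε
          rw [show y - p / 2 + p = y + p / 2 by ring] at h3
          filter_upwards [hU h3, hUt (eventually_ge_atTop 10)] with T hT hT10
          rw [Pf_real hT10 (by linarith)]
          exact hT)
      have h2 : p ≤ wf (PD D) (p / 2) y := by
        unfold wf
        rw [PD_real hD1 (by linarith) (by linarith)]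
        have : ∫ x in (y - p / 2)..(y + p / 2), (1 : ℝ) ≤
            ∫ x in (y - p / 2)..(y + p / 2), (mn x + (D - 1)) := by
          refine intervalIntegral.integral_mono_on (by linarith) (by simp)
            (md_cont.intervalIntegrable _ _) fun x hx => ?_
          have : mn x = 1 := by
            unfold mn
            apply min_eq_right
            rw [abs_of_nonneg (by linarith [hx.1])]
            linarith [hx.1]
          rw [this]
          linarith
        rw [intervalIntegral.integral_const, smul_eq_mul, mul_one] at this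
        linarith
      have h3 : C' * Real.exp (-(c * (y - p / 2))) ≤ C'' * Real.exp (-(c * (y - p / 2))) :=
        mul_le_mul_of_nonneg_right hC''0 hexp.le
      linarith
    · have h1 : wf Φ (p / 2) y ≤ (p + 2) * K' := by
        have := real_le_len hK'0 bΦ' hp.le (y - p / 2)
        rw [show y - p / 2 + p = y + p / 2 by ring] at this
        exact this
      have h2 := wf_nonneg (μ := PD D) (p / 2) y
      have h3 : (p + 2) * K' ≤ C'' * Real.exp (-(c * (y - p / 2))) := by
        have g1 : (p + 2) * K' * Real.exp (c * a₁) * Real.exp (-(c * (y - p / 2))) ≤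
            C'' * Real.exp (-(c * (y - p / 2))) := by
          apply mul_le_mul_of_nonneg_right _ hexp.le
          rw [hC'']
          linarith
        refine le_trans ?_ g1
        rw [mul_assoc, ← Real.exp_add]
        have g2 : 1 ≤ Real.exp (c * a₁ + -(c * (y - p / 2))) := by
          apply Real.one_le_exp
          nlinarith
        have : 0 ≤ (p + 2) * K' := by positivity
        nlinarith
      linarith
  have w1 := key l₁ hl₁ (ho l₁ (Or.inl rfl))
  have w2 := key l₂ hl₂ (ho l₂ (Or.inr rfl))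
  have hir2 : Irrational (l₁ / 2 / (l₂ / 2)) := by
    rwa [div_div_div_cancel_right₀ two_ne_zero]
  have hΦP : Φ = PD D := by
    have hlf : IsLocallyFiniteMeasure Φ := by
      refine ⟨fun x => ⟨Icc (x - 1) (x + 1), Icc_mem_nhds (by linarith) (by linarith), ?_⟩⟩
      exact bΦ'.lt_top _ _
    refine Measure.ext_of_Icc _ _ fun α β hab => ?_
    have := win_eq bΦ' bP' (fun b hb => two_len bΦ' bP' (by positivity) (by positivity) hir2 w1 w2 hb)
      hab
    unfold Measure.real at this
    exact (ENNReal.toReal_eq_toReal_iff' (bΦ'.lt_top _ _).ne (bP'.lt_top _ _).ne).1 this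
  -- the value of `D`
  have hlimΦ : ∀ {k : ℝ} {ψ : ℝ → ℝ}, Adm k ψ →
      Tendsto (fun T => ∫ α, ψ α * Fr T α) U (𝓝 (ψ 0 + ∫ x, ψ x * (mn x + (D - 1)))) := by
    intro k ψ hψ
    have h1 := (hΦ ψ hψ.cont (adm_qd hψ)).2
    rw [hΦP, PD_integral hD1 hψ.int] at h1
    refine h1.congr' ?_
    filter_upwards [hUt (eventually_ge_atTop 10)] with T hT
    rw [Pf_integral hT]
  have hD2 : D = 1 := by
    obtain ⟨κ₀, hκ₀, hκ2, hblk⟩ := test_F
    have hA := adm_tr hκ₀
    have t1 := (hblk _ hA l hl hoff).mono_left hU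
    have t2 := Fr_lim hA.int (fl_qd hA) hUt t1
    have t3 := tendsto_nhds_unique t2 (hlimΦ hA)
    unfold cc at t3
    have i1 : Integrable fun x => tr κ₀ x * mn x := by
      refine hA.int.mul_bdd (c := 1) mn_cont.aestronglyMeasurable (ae_of_all _ fun x => ?_)
      rw [Real.norm_eq_abs, abs_of_nonneg (mn_nonneg x)]
      exact mn_le x
    have e1 : ∫ x, tr κ₀ x * (mn x + (D - 1)) = (∫ x, tr κ₀ x * mn x) + (D - 1) := by
      simp_rw [mul_add]
      rw [integral_add i1 (hA.int.mul_const _), integral_mul_const, int_tr hκ₀, one_mul]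
    have e2 : ∫ x, tr κ₀ x * mn x = ∫ x, |x| * tr κ₀ x := by
      refine integral_congr_ae (ae_of_all _ fun x => ?_)
      simp only
      rcases le_or_gt κ₀ |x| with h | h
      · rw [tr_supp hκ₀ x h]; ring
      · have : mn x = |x| := min_eq_left (by linarith)
        rw [this, mul_comm]
    rw [e1, e2] at t3
    linarith
  refine meas_eq (by linarith) b1 e1 fun k hk ψ hψ => ?_
  have h1 := Fr_lim' hψ.int (fl_qd hψ) hUt (hlimΦ hψ)
  rw [gue2 hψ]
  have h2 := tendsto_nhds_unique (hμ _ (fl_cont hψ.int) (fl_qd hψ)).2 h1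
  rw [h2, hD2]
  congr 1
  refine integral_congr_ae (ae_of_all _ fun x => ?_)
  simp only
  ring


/-- windows at positive distances from the cumulative masses -/
lemma win_of_NS {l : Filter ℝ}
    (hN : ∀ a : ℝ, 0 < a → Tendsto (fun T => NS T a) l (𝓝 (∫ x in (0 : ℝ)..a, FF x)))
    {α β : ℝ} (hα : 0 < α) (hαβ : α < β) :
    Tendsto (fun T => (Mp T).real (Icc α β)) l (𝓝 (∫ x in α..β, FF x)) := by
  have hadd : ∀ u v : ℝ, ∫ x in u..v, FF x = (∫ x in (0 : ℝ)..v, FF x) - ∫ x in (0 : ℝ)..u, FF x := by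
    intro u v
    rw [← intervalIntegral.integral_add_adjacent_intervals (FF_ii 0 u) (FF_ii u v)]
    ring
  have hIoc : ∀ T u v : ℝ, 0 ≤ u → u ≤ v → (Mp T).real (Ioc u v) = NS T v - NS T u := by
    intro T u v hu huv
    have := Mp_fin T
    unfold NS
    have h3 : (Mp T).real (Ioc 0 v) = (Mp T).real (Ioc 0 u) + (Mp T).real (Ioc u v) := by
      rw [← Set.Ioc_union_Ioc_eq_Ioc hu huv, measureReal_union _ measurableSet_Ioc]
      rw [Set.disjoint_left]
      intro x hx hx'
      exact absurd hx.2 (not_le.2 hx'.1)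
    linarith
  rw [Metric.tendsto_nhds]
  intro ε hε
  obtain ⟨δ, hδ⟩ : ∃ δ : ℝ, δ = min (α / 2) (ε / 4) := ⟨_, rfl⟩
  have hδ0 : 0 < δ := by rw [hδ]; exact lt_min (by positivity) (by positivity)
  have hδ1 : δ ≤ α / 2 := by rw [hδ]; exact min_le_left _ _
  have hδ2 : δ ≤ ε / 4 := by rw [hδ]; exact min_le_right _ _
  have t1 := hN α hα
  have t2 := hN β (by linarith)
  have t3 := hN (α - δ) (by linarith)
  rw [Metric.tendsto_nhds] at t1 t2 t3
  filter_upwards [t1 (ε / 8) (by positivity), t2 (ε / 8) (by positivity),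
    t3 (ε / 8) (by positivity)] with T h1 h2 h3
  rw [Real.dist_eq, abs_lt] at h1 h2 h3
  have hfin := Mp_fin T
  have up : (Mp T).real (Icc α β) ≤ NS T β - NS T (α - δ) := by
    rw [← hIoc T (α - δ) β (by linarith) (by linarith)]
    refine measureReal_mono (fun x hx => ⟨by linarith [hx.1], hx.2⟩) (measure_ne_top _ _)
  have lo : NS T β - NS T α ≤ (Mp T).real (Icc α β) := by
    rw [← hIoc T α β hα.le hαβ.le]
    exact measureReal_mono Ioc_subset_Icc_self (measure_ne_top _ _)
  have h4 := gF_le (show α - δ ≤ α by linarith)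
  rw [Real.dist_eq, hadd α β, abs_lt]
  constructor <;> linarith [h1.1, h1.2, h2.1, h2.2, h3.1, h3.2]

/-- the conjecture implies weak convergence -/
theorem weak_fwd {l : Filter ℝ} (hl : l ≤ atTop) (hD : Tendsto DG l (𝓝 1))
    (hN : ∀ a : ℝ, 0 < a → Tendsto (fun T => NS T a) l (𝓝 (∫ x in (0 : ℝ)..a, FF x))) :
    Weak l := by
  obtain ⟨C, hC, hB⟩ := Mp_bdd
  have hC0 : 0 ≤ C := by linarith
  refine weak_of hl fun U hU μ hμ => ?_
  have hUt : (U : Filter ℝ) ≤ atTop := hU.trans hl
  have b1 := bdd_limit hUt hC0 hB hμ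
  have e1 := ev_limit hUt ((eventually_ge_atTop 10).mono fun T hT => Mp_ev hT) hμ
  have b2 : Bdd (4 * C) mG := fun a => (mG_bdd a).trans (ENNReal.ofReal_le_ofReal (by linarith))
  have hC4 : 0 ≤ 4 * C := by linarith
  -- positive windows
  have hpos : ∀ a b : ℝ, 0 < a → a ≤ b → μ.real (Icc a b) = ∫ x in a..b, FF x := by
    have hlow : ∀ a b : ℝ, 0 < a → a < b → ∫ x in a..b, FF x ≤ μ.real (Icc a b) := by
      intro a b ha hab
      refine lim_lower hC0 hB hUt hμ fun ε hε => ?_
      exact hU ((win_of_NS hN ha hab).eventually (le_mem_nhds (by linarith)))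
    intro a b ha hab
    refine le_antisymm ?_ ?_
    · refine le_of_forall_pos_le_add fun ε hε => ?_
      obtain ⟨δ, hδ⟩ : ∃ δ : ℝ, δ = min (a / 2) (ε / 4) := ⟨_, rfl⟩
      have hδ0 : 0 < δ := by rw [hδ]; exact lt_min (by positivity) (by positivity)
      have hδ1 : δ ≤ a / 2 := by rw [hδ]; exact min_le_left _ _
      have hδ2 : δ ≤ ε / 4 := by rw [hδ]; exact min_le_right _ _
      have h1 : μ.real (Ioo (a - δ) (b + δ)) ≤ ∫ x in (a - δ)..(b + δ), FF x :=
        lim_upper hC0 hB hUt hμ fun ε' hε' => hU ((win_of_NS hN (show 0 < a - δ by linarith)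
          (show a - δ < b + δ by linarith)).eventually (ge_mem_nhds (by linarith)))
      have h2 : μ.real (Icc a b) ≤ μ.real (Ioo (a - δ) (b + δ)) := by
        refine measureReal_mono (fun x hx => ⟨by linarith [hx.1], by linarith [hx.2]⟩) ?_
        exact ((measure_mono Ioo_subset_Icc_self).trans_lt (b1.lt_top _ _)).ne
      have h3 : ∫ x in (a - δ)..(b + δ), FF x ≤ (∫ x in a..b, FF x) + 2 * δ := by
        have g1 := intervalIntegral.integral_add_adjacent_intervals (FF_ii (a - δ) a) (FF_ii a b)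
        have g2 := intervalIntegral.integral_add_adjacent_intervals (FF_ii (a - δ) b)
          (FF_ii b (b + δ))
        have g3 := gF_le (show a - δ ≤ a by linarith)
        have g4 := gF_le (show b ≤ b + δ by linarith)
        have g5 := intervalIntegral.integral_add_adjacent_intervals (FF_ii 0 (a - δ))
          (FF_ii (a - δ) a)
        have g6 := intervalIntegral.integral_add_adjacent_intervals (FF_ii 0 b) (FF_ii b (b + δ))
        linarith
      linarith
    · rcases hab.eq_or_lt with h | h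
      · rw [h, intervalIntegral.integral_same]
        exact measureReal_nonneg
      · exact hlow a b ha h
  -- symmetric windows
  have hsymT : ∀ a : ℝ, 0 < a → Tendsto (fun T => (Mp T).real (Icc (-a) a)) l
      (𝓝 (1 + 2 * ∫ x in (0 : ℝ)..a, FF x)) := by
    intro a ha
    refine ((hD.add ((hN a ha).const_mul 2))).congr' ?_
    filter_upwards [hl (eventually_ge_atTop 10)] with T hT
    rw [Mp_sym hT ha.le]
    ring
  have hsym : ∀ a : ℝ, 0 < a → μ.real (Icc (-a) a) = 1 + 2 * ∫ x in (0 : ℝ)..a, FF x := by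
    intro a ha
    refine le_antisymm ?_ ?_
    · refine le_of_forall_pos_le_add fun ε hε => ?_
      obtain ⟨δ, hδ⟩ : ∃ δ : ℝ, δ = ε / 4 := ⟨_, rfl⟩
      have hδ0 : 0 < δ := by rw [hδ]; positivity
      have h1 : μ.real (Ioo (-(a + δ)) (a + δ)) ≤ 1 + 2 * ∫ x in (0 : ℝ)..(a + δ), FF x :=
        lim_upper hC0 hB hUt hμ fun ε' hε' => hU ((hsymT (a + δ) (by linarith)).eventually
          (ge_mem_nhds (by linarith)))
      have h2 : μ.real (Icc (-a) a) ≤ μ.real (Ioo (-(a + δ)) (a + δ)) := by
        refine measureReal_mono (fun x hx => ⟨by linarith [hx.1], by linarith [hx.2]⟩) ?_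
        exact ((measure_mono Ioo_subset_Icc_self).trans_lt (b1.lt_top _ _)).ne
      have h3 := gF_le (show a ≤ a + δ by linarith)
      linarith
    · refine lim_lower hC0 hB hUt hμ fun ε hε => ?_
      exact hU ((hsymT a ha).eventually (le_mem_nhds (by linarith)))
  -- all windows
  have hwf : ∀ b : ℝ, 0 < b → ∀ᵐ x : ℝ, wf μ b x = wf mG b x := by
    intro b hb
    have hp : ∀ x : ℝ, 0 < x → x ≠ b → wf μ b x = wf mG b x := by
      intro x hx hxb
      rcases lt_or_gt_of_ne hxb with h | h
      · -- the window contains zero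
        have key : ∀ ν : Measure ℝ, Bdd (4 * C) ν → (∀ a b : ℝ, 0 < a → a ≤ b →
            ν.real (Icc a b) = ∫ x in a..b, FF x) → (∀ a : ℝ, 0 < a →
            ν.real (Icc (-a) a) = 1 + 2 * ∫ x in (0 : ℝ)..a, FF x) →
            wf ν b x = (1 + 2 * ∫ x in (0 : ℝ)..(b - x), FF x) + ∫ y in (b - x)..(x + b), FF y := by
          intro ν hν h1 h2
          have e : Icc (x - b) (x + b) = Icc (-(b - x)) (b - x) ∪ Ioc (b - x) (x + b) := by
            ext y
            simp only [mem_union, mem_Icc, mem_Ioc]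
            constructor
            · rintro ⟨h3, h4⟩
              rcases le_or_gt y (b - x) with h5 | h5
              · left; exact ⟨by linarith, h5⟩
              · right; exact ⟨h5, h4⟩
            · rintro (⟨h3, h4⟩ | ⟨h3, h4⟩)
              · exact ⟨by linarith, by linarith⟩
              · exact ⟨by linarith, h4⟩
          have hs : ν.real {b - x} = 0 := by
            have := h1 (b - x) (b - x) (by linarith) le_rfl
            rwa [Icc_self, intervalIntegral.integral_same] at this
          have hm : ν (Ioc (b - x) (x + b)) ≠ ⊤ :=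
            ((measure_mono Ioc_subset_Icc_self).trans_lt (hν.lt_top _ _)).ne
          have hI : ν.real (Ioc (b - x) (x + b)) = ∫ y in (b - x)..(x + b), FF y := by
            rw [← h1 (b - x) (x + b) (by linarith) (by linarith)]
            have e2 : Icc (b - x) (x + b) = {b - x} ∪ Ioc (b - x) (x + b) := by
              rw [union_comm, Ioc_union_left (by linarith)]
            rw [e2, measureReal_union _ measurableSet_Ioc (measure_ne_top_of_subset
              (Set.singleton_subset_iff.2 (left_mem_Icc.2 (show b - x ≤ x + b by linarith)))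
              (hν.lt_top _ _).ne) hm, hs, zero_add]
            rw [Set.disjoint_left]
            intro y hy hy'
            rw [mem_singleton_iff] at hy
            linarith [hy'.1]
          unfold wf
          rw [e, measureReal_union _ measurableSet_Ioc (hν.lt_top _ _).ne hm,
            h2 (b - x) (by linarith), hI]
          rw [Set.disjoint_left]
          intro y hy hy'
          linarith [hy.2, hy'.1]
        rw [key μ b1 hpos hsym, key mG b2 (fun a b ha hab => mG_real ha hab)
          (fun a ha => mG_sym ha.le)]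
      · unfold wf
        rw [hpos (x - b) (x + b) (by linarith) (by linarith), mG_real (by linarith) (by linarith)]
    filter_upwards [Measure.ae_ne volume (0 : ℝ), Measure.ae_ne volume b,
      Measure.ae_ne volume (-b)] with x h0 h1 h2
    rcases lt_or_gt_of_ne h0 with h | h
    · have h3 := hp (-x) (by linarith) (fun h4 => h2 (by linarith))
      rwa [wf_even hC4 b1 e1, wf_even hC4 b2 mG_ev] at h3
    · exact hp x h h1
  have key : ∀ a b : ℝ, a ≤ b → μ.real (Icc a b) = mG.real (Icc a b) := fun a b hab =>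
    win_eq b1 b2 hwf hab
  refine Measure.ext_of_Icc' μ mG (fun a b _ => (b1.lt_top a b).ne) fun a b hab => ?_
  have h1 := key a b hab
  exact (ENNReal.toReal_eq_toReal_iff' (b1.lt_top a b).ne (b2.lt_top a b).ne).1 h1

end Pool.Agent.Q85.Rig
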