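import Pool.Agent.Q85.Rig.Scale

/-! # Existence of the limit measure from windows at arbitrarily far scales -/

set_option autoImplicit false

open MeasureTheory Set Filter Topology
open scoped NNReal ENNReal

namespace Pool.Agent.Q85.Rig

open Pool.Agent.Y749.Rig

variable {C : ℝ} {M : ℝ → Measure ℝ} {U : Ultrafilter ℝ} {μ : Measure ℝ}

/-- windows of the limit, upper bound from half open windows -/
lemma lim_upper' (hC : 0 ≤ C) (hM : ∀ᶠ T in atTop, Bdd C (M T)) (hU : (U : Filter ℝ) ≤ atTop)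
    (hμ : ∀ f : ℝ → ℝ, Continuous f → QD f →
      Integrable f μ ∧ Tendsto (fun T => ∫ x, f x ∂(M T)) U (𝓝 (∫ x, f x ∂μ))) {α β K : ℝ}
    (ho : ∀ ε : ℝ, 0 < ε → ∀ᶠ T in U, (M T).real (Ioc α β) ≤ K + ε) :
    μ.real (Ioo α β) ≤ K := by
  have b1 := bdd_limit hU hC hM hμ
  refine le_of_tendsto' (ioo_lim b1 α β) fun n => ?_
  have hδ : (0 : ℝ) < 1 / ((n : ℝ) + 1) := by positivity
  obtain ⟨δ, hδd⟩ : ∃ δ : ℝ, δ = 1 / ((n : ℝ) + 1) := ⟨_, rfl⟩
  rw [← hδd] at hδ ⊢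
  have h1 := lim_upper hC hM hU hμ (α := α + δ / 2) (β := β) (K := K) (fun ε hε => by
    filter_upwards [ho ε hε, hU hM] with T h1 h2
    refine le_trans ?_ h1
    refine measureReal_mono ?_ ?_
    · intro x hx
      exact ⟨by linarith [hx.1], hx.2⟩
    · exact ((measure_mono Ioc_subset_Icc_self).trans_lt (h2.lt_top _ _)).ne)
  refine le_trans (measureReal_mono ?_ ?_) h1
  · intro x hx
    exact ⟨by linarith [hx.1], by linarith [hx.2]⟩
  · exact ((measure_mono Ioo_subset_Icc_self).trans_lt (b1.lt_top _ _)).ne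

lemma lim_lower' (hC : 0 ≤ C) (hM : ∀ᶠ T in atTop, Bdd C (M T)) (hU : (U : Filter ℝ) ≤ atTop)
    (hμ : ∀ f : ℝ → ℝ, Continuous f → QD f →
      Integrable f μ ∧ Tendsto (fun T => ∫ x, f x ∂(M T)) U (𝓝 (∫ x, f x ∂μ))) {α β K : ℝ}
    (ho : ∀ ε : ℝ, 0 < ε → ∀ᶠ T in U, K - ε ≤ (M T).real (Ioc α β)) :
    K ≤ μ.real (Icc α β) := by
  refine lim_lower hC hM hU hμ fun ε hε => ?_
  filter_upwards [ho ε hε, hU hM] with T h1 h2
  exact h1.trans (measureReal_mono Ioc_subset_Icc_self (h2.lt_top _ _).ne)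

/-- equality of the windows -/
lemma win_eq {C' : ℝ} {μ₁ μ₂ : Measure ℝ} (h1 : Bdd C μ₁) (h2 : Bdd C' μ₂)
    (h : ∀ b : ℝ, 0 < b → ∀ᵐ x : ℝ, wf μ₁ b x = wf μ₂ b x) {α β : ℝ} (hab : α ≤ β) :
    μ₁.real (Icc α β) = μ₂.real (Icc α β) := by
  have key : ∀ {C C' : ℝ} {μ₁ μ₂ : Measure ℝ}, Bdd C μ₁ → Bdd C' μ₂ →
      (∀ b : ℝ, 0 < b → ∀ᵐ x : ℝ, wf μ₁ b x = wf μ₂ b x) →
      μ₁.real (Icc α β) ≤ μ₂.real (Icc α β) := by
    intro C C' μ₁ μ₂ h1 h2 h
    refine ge_of_tendsto' (icc_lim h2 α β) fun n => ?_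
    have k1 : Bdd (max C C') μ₁ := fun a => (h1 a).trans (ENNReal.ofReal_le_ofReal (le_max_left _ _))
    have k2 : Bdd (max C C') μ₂ := fun a => (h2 a).trans (ENNReal.ofReal_le_ofReal (le_max_right _ _))
    exact win_le k1 k2 h (by positivity) hab
  refine le_antisymm (key h1 h2 h) (key h2 h1 fun b hb => ?_)
  filter_upwards [h b hb] with x hx using hx.symm

/-- convergence of the windows with no mass at the end points -/
lemma win_tendsto (hC : 0 ≤ C) (hM : ∀ᶠ T in atTop, Bdd C (M T)) (hU : (U : Filter ℝ) ≤ atTop)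
    (hμ : ∀ f : ℝ → ℝ, Continuous f → QD f →
      Integrable f μ ∧ Tendsto (fun T => ∫ x, f x ∂(M T)) U (𝓝 (∫ x, f x ∂μ))) {α β : ℝ}
    (hα : μ {α} = 0) (hβ : μ {β} = 0) (hab : α < β) :
    Tendsto (fun T => (M T).real (Ioc α β)) U (𝓝 (μ.real (Ioc α β))) := by
  have b1 := bdd_limit hU hC hM hμ
  have e1 : μ.real (Icc α β) = μ.real (Ioc α β) := by
    have : Icc α β = {α} ∪ Ioc α β := by
      rw [union_comm, Ioc_union_left hab.le]
    rw [this, Measure.real, Measure.real]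
    congr 1
    refine le_antisymm ((measure_union_le _ _).trans ?_) (measure_mono subset_union_right)
    rw [hα, zero_add]
  have e2 : μ.real (Ioc α β) = μ.real (Ioo α β) := by
    have : Ioc α β = {β} ∪ Ioo α β := by
      rw [union_comm, Ioo_union_right hab]
    rw [this, Measure.real, Measure.real]
    congr 1
    refine le_antisymm ((measure_union_le _ _).trans ?_) (measure_mono subset_union_right)
    rw [hβ, zero_add]
  rw [Metric.tendsto_nhds]
  intro ε hε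
  have t1 := (icc_lim b1 α β).eventually (eventually_lt_nhds
    (show μ.real (Icc α β) < μ.real (Icc α β) + ε / 2 by linarith))
  have t2 := (ioo_lim b1 α β).eventually (eventually_gt_nhds
    (show μ.real (Ioo α β) - ε / 2 < μ.real (Ioo α β) by linarith))
  obtain ⟨n, hn1, hn2⟩ := (t1.and t2).exists
  have hδ : (0 : ℝ) < 1 / ((n : ℝ) + 1) := by positivity
  obtain ⟨δ, hδd⟩ : ∃ δ : ℝ, δ = 1 / ((n : ℝ) + 1) := ⟨_, rfl⟩
  rw [← hδd] at hδ hn1 hn2
  have s1 := tz_upper (by linarith) b1 hδ α β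
  have s2 := tz_lower (by linarith) b1 (show 0 < δ / 2 by positivity) (α + δ) (β - δ)
  have u1 := (hμ _ (tz_cont α β δ) (tz_qd hδ α β)).2.eventually (eventually_lt_nhds
    (show ∫ x, tz α β δ x ∂μ < μ.real (Icc α β) + ε by linarith))
  have u2 := (hμ _ (tz_cont (α + δ) (β - δ) (δ / 2)) (tz_qd (show 0 < δ / 2 by positivity)
    (α + δ) (β - δ))).2.eventually (eventually_gt_nhds
    (show μ.real (Ioo α β) - ε < ∫ x, tz (α + δ) (β - δ) (δ / 2) x ∂μ by linarith))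
  filter_upwards [hU hM, u1, u2] with T h1 h2 h3
  have s3 := tz_lower hC h1 hδ α β
  have s4 := tz_upper hC h1 (show 0 < δ / 2 by positivity) (α + δ) (β - δ)
  have s5 : (M T).real (Ioc α β) ≤ (M T).real (Icc α β) :=
    measureReal_mono Ioc_subset_Icc_self (h1.lt_top _ _).ne
  have s6 : (M T).real (Icc (α + δ - δ / 2) (β - δ + δ / 2)) ≤ (M T).real (Ioc α β) := by
    refine measureReal_mono ?_ ((measure_mono Ioc_subset_Icc_self).trans_lt (h1.lt_top _ _)).ne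
    intro x hx
    exact ⟨by linarith [hx.1], by linarith [hx.2]⟩
  rw [Real.dist_eq, abs_lt]
  constructor <;> linarith

/-- **Existence of the limit measure.** -/
theorem exists_pc {F : Filter ℝ} (hF : F ≤ atTop) (hC : 0 ≤ C)
    (hM : ∀ᶠ T in atTop, Bdd C (M T))
    (hE : ∀ᶠ T in atTop, Ev (M T)) {κ : ℝ} (hκ : 0 < κ)
    (ht : ∀ ψ, Adm κ ψ → Tendsto (fun T => ∫ x, fl ψ x ∂(M T)) atTop (𝓝 (cc ψ)))
    {l₁ l₂ : ℝ} (hl₁ : 0 < l₁) (hl₂ : 0 < l₂) (hir : Irrational (l₁ / l₂))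
    (ho : ∀ l : ℝ, (l = l₁ ∨ l = l₂) → ∃ κ' c : ℝ, 0 < κ' ∧ 0 < c ∧
      ∃ᶠ R : ℝ in atTop, ∀ α : ℝ, R ≤ α → α ≤ (1 + c) * R → ∃ D : ℝ, ∀ ε : ℝ, 0 < ε →
        ∀ᶠ T in F, |(M T).real (Ioc α (α + l)) - D| ≤ Real.exp (-(κ' * R)) + ε) :
    ∃ μ : Measure ℝ, Bdd (4 * C) μ ∧ ∀ α β : ℝ, α < β → μ {α} = 0 → μ {β} = 0 →
      Tendsto (fun T => (M T).real (Ioc α β)) F (𝓝 (μ.real (Ioc α β))) := by
  rcases F.eq_or_neBot with hbot | hne
  · refine ⟨0, fun a => by simp, fun α β _ _ _ => ?_⟩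
    rw [hbot]
    exact tendsto_bot
  obtain ⟨U₀, hU₀'⟩ : ∃ U₀ : Ultrafilter ℝ, (U₀ : Filter ℝ) ≤ F := ⟨Ultrafilter.of F, Ultrafilter.of_le F⟩
  have hU₀ : (U₀ : Filter ℝ) ≤ atTop := hU₀'.trans hF
  obtain ⟨μ₀, hsf₀, hμ₀⟩ := exists_limit hC hM U₀ hU₀
  have b₀ := bdd_limit hU₀ hC hM hμ₀
  have e₀ := ev_limit hU₀ hE hμ₀
  refine ⟨μ₀, b₀, fun α β hαβ hα hβ => ?_⟩
  rw [tendsto_iff_ultrafilter]
  intro U hU'
  have hU : (U : Filter ℝ) ≤ atTop := le_trans hU' hF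
  obtain ⟨μ, hsf, hμ⟩ := exists_limit hC hM U hU
  have b1 := bdd_limit hU hC hM hμ
  have e1 := ev_limit hU hE hμ
  have htest : ∀ ψ, Adm κ ψ → ∫ x, fl ψ x ∂μ = ∫ x, fl ψ x ∂μ₀ := by
    intro ψ hψ
    have t1 := tendsto_nhds_unique (hμ _ (fl_cont hψ.int) (fl_qd hψ)).2 ((ht ψ hψ).mono_left hU)
    have t2 := tendsto_nhds_unique (hμ₀ _ (fl_cont hψ.int) (fl_qd hψ)).2 ((ht ψ hψ).mono_left hU₀)
    rw [t1, t2]
  have key : ∀ l, (l = l₁ ∨ l = l₂) → 0 < l → ∀ᵐ x : ℝ, wf μ (l / 2) x = wf μ₀ (l / 2) x := by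
    intro l hl hl0
    obtain ⟨κ', c, hκ', hc, h⟩ := ho l hl
    refine rig3G (C := 4 * C) (by positivity) b1 b₀ e1 e₀ hκ htest (κ' := κ' / 4) (c := c / 2)
      (by positivity) (by positivity) (by positivity : 0 < l / 2) ?_
    have hfr := h.and_eventually ((eventually_ge_atTop l).and
      (eventually_ge_atTop (2 / (κ' / 2))))
    refine (tendsto_atTop_add_const_right atTop (l / 2) tendsto_id).frequently (hfr.mono ?_)
    rintro R ⟨hR, hRl, hRκ⟩
    simp only [id]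
    have hR0 : 0 < R := by linarith
    filter_upwards [icc_ioo b1 (b := l / 2), icc_ioo b₀ (b := l / 2)] with y hy hy₀ hy1 hy2
    have k1 : R ≤ y - l / 2 := by linarith
    have k2 : y - l / 2 ≤ (1 + c) * R := by nlinarith
    obtain ⟨D, k3⟩ := hR (y - l / 2) k1 k2
    rw [show y - l / 2 + l = y + l / 2 by ring] at k3
    have u1 := lim_upper' hC hM hU hμ (α := y - l / 2) (β := y + l / 2)
      (K := D + Real.exp (-(κ' * R))) (fun ε hε => by
        filter_upwards [hU' (k3 ε hε)] with T hT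
        have := (abs_le.1 hT).2
        linarith)
    have u2 := lim_lower' hC hM hU hμ (α := y - l / 2) (β := y + l / 2)
      (K := D - Real.exp (-(κ' * R))) (fun ε hε => by
        filter_upwards [hU' (k3 ε hε)] with T hT
        have := (abs_le.1 hT).1
        linarith)
    have v1 := lim_upper' hC hM hU₀ hμ₀ (α := y - l / 2) (β := y + l / 2)
      (K := D + Real.exp (-(κ' * R))) (fun ε hε => by
        filter_upwards [hU₀' (k3 ε hε)] with T hT
        have := (abs_le.1 hT).2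
        linarith)
    have v2 := lim_lower' hC hM hU₀ hμ₀ (α := y - l / 2) (β := y + l / 2)
      (K := D - Real.exp (-(κ' * R))) (fun ε hε => by
        filter_upwards [hU₀' (k3 ε hε)] with T hT
        have := (abs_le.1 hT).1
        linarith)
    have w1 : wf μ (l / 2) y ≤ D + Real.exp (-(κ' * R)) := hy.trans u1
    have w2 : D - Real.exp (-(κ' * R)) ≤ wf μ (l / 2) y := u2
    have w3 : wf μ₀ (l / 2) y ≤ D + Real.exp (-(κ' * R)) := hy₀.trans v1
    have w4 : D - Real.exp (-(κ' * R)) ≤ wf μ₀ (l / 2) y := v2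
    have hE2 : 2 * Real.exp (-(κ' * R)) ≤ Real.exp (-(κ' / 4 * (R + l / 2))) := by
      have g1 : (2 : ℝ) ≤ Real.exp (κ' / 2 * R) := by
        have : 2 ≤ κ' / 2 * R := by
          rw [div_le_iff₀ (by positivity)] at hRκ
          linarith
        have := Real.add_one_le_exp (κ' / 2 * R)
        linarith
      calc 2 * Real.exp (-(κ' * R)) ≤ Real.exp (κ' / 2 * R) * Real.exp (-(κ' * R)) :=
            mul_le_mul_of_nonneg_right g1 (Real.exp_pos _).le
        _ = Real.exp (-(κ' / 2 * R)) := by rw [← Real.exp_add]; congr 1; ring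
        _ ≤ _ := by
            apply Real.exp_le_exp.2
            nlinarith
    rw [abs_le]
    constructor <;> linarith
  have w1 := key l₁ (Or.inl rfl) hl₁
  have w2 := key l₂ (Or.inr rfl) hl₂
  have hir2 : Irrational (l₁ / 2 / (l₂ / 2)) := by
    rwa [div_div_div_cancel_right₀ two_ne_zero]
  have hall : ∀ b : ℝ, 0 < b → ∀ᵐ x : ℝ, wf μ b x = wf μ₀ b x := fun b hb =>
    two_len b1 b₀ (by positivity) (by positivity) hir2 w1 w2 hb
  -- the atoms and the windows of the two limits agree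
  have hreal : ∀ a b : ℝ, a ≤ b → μ (Icc a b) = μ₀ (Icc a b) := by
    intro a b hab
    have := win_eq b1 b₀ hall hab
    unfold Measure.real at this
    exact (ENNReal.toReal_eq_toReal_iff' (b1.lt_top _ _).ne (b₀.lt_top _ _).ne).1 this
  have hatom : ∀ a : ℝ, μ {a} = μ₀ {a} := by
    intro a
    have := hreal a a le_rfl
    rwa [Icc_self] at this
  have hwin := win_tendsto hC hM hU hμ (by rw [hatom, hα]) (by rw [hatom, hβ]) hαβ
  have e3 : μ.real (Ioc α β) = μ₀.real (Ioc α β) := by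
    have g1 : ∀ (m : Measure ℝ), m {α} = 0 → m.real (Icc α β) = m.real (Ioc α β) := by
      intro m hm
      have : Icc α β = {α} ∪ Ioc α β := by
        rw [union_comm, Ioc_union_left hαβ.le]
      rw [this, Measure.real, Measure.real]
      congr 1
      refine le_antisymm ((measure_union_le _ _).trans ?_) (measure_mono subset_union_right)
      rw [hm, zero_add]
    rw [← g1 μ (by rw [hatom, hα]), ← g1 μ₀ hα]
    exact win_eq b1 b₀ hall hαβ.le
  rw [← e3]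
  exact hwin

/-- existence of the pair correlation measure of the zeros -/
theorem zeta_exists (hoff : ∀ η : ℝ, 0 < η → ∀ᶠ T : ℝ in atTop, NF T ≤ η * (T * Real.log T))
    {F : Filter ℝ} (hF : F ≤ atTop) {l₁ l₂ : ℝ} (hl₁ : 0 < l₁) (hl₂ : 0 < l₂)
    (hir : Irrational (l₁ / l₂))
    (ho : ∀ l : ℝ, (l = l₁ ∨ l = l₂) → ∃ κ' c : ℝ, 0 < κ' ∧ 0 < c ∧
      ∃ᶠ R : ℝ in atTop, ∀ α : ℝ, R ≤ α → α ≤ (1 + c) * R → ∃ D : ℝ, ∀ ε : ℝ, 0 < ε →
        ∀ᶠ T in F, |(Mp T).real (Ioc α (α + l)) - D| ≤ Real.exp (-(κ' * R)) + ε) :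
    ∃ (μ : Measure ℝ) (C : ℝ), Bdd C μ ∧ ∀ α β : ℝ, α < β → μ {α} = 0 → μ {β} = 0 →
      Tendsto (fun T => (Mp T).real (Ioc α β)) F (𝓝 (μ.real (Ioc α β))) := by
  obtain ⟨C, hC, hB⟩ := Mp_bdd
  obtain ⟨κ, hκ, hκ2, hblk⟩ := blk_main
  obtain ⟨μ, h1, h2⟩ := exists_pc hF (by linarith) hB (by
    filter_upwards [eventually_ge_atTop 10] with T hT using Mp_ev hT) hκ
    (fun ψ hψ => test_lim hψ (hblk ψ hψ hoff)) hl₁ hl₂ hir ho
  exact ⟨μ, 4 * C, h1, h2⟩

end Pool.Agent.Q85.Rig
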