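import Pool.Agent.Y749.Rig.Fam
import Pool.Agent.Y749.Rig.Fin

/-! # Rigidity from windows of two lengths along a filter -/

set_option autoImplicit false

open MeasureTheory Set Filter Topology
open scoped NNReal ENNReal

namespace Pool.Agent.Q85.Rig

open Pool.Agent.Y749.Rig

variable {C : ℝ}

/-- one length, for an ultrafilter -/
theorem one_lenU {M : ℝ → Measure ℝ} {U : Ultrafilter ℝ} {μ : Measure ℝ}
    [SFinite μ] (hC : 2 ≤ C) (hM : ∀ᶠ T in atTop, Bdd C (M T))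
    (hE : ∀ᶠ T in atTop, Ev (M T)) (hU : (U : Filter ℝ) ≤ atTop)
    (hμ : ∀ f : ℝ → ℝ, Continuous f → QD f →
      Integrable f μ ∧ Tendsto (fun T => ∫ x, f x ∂(M T)) U (𝓝 (∫ x, f x ∂μ)))
    {κ : ℝ} (hκ : 0 < κ) (hκ1 : κ ≤ 1)
    (ht : ∀ ψ, Adm κ ψ → Tendsto (fun T => ∫ x, fl ψ x ∂(M T)) atTop (𝓝 (cc ψ)))
    {C' c : ℝ} (hC' : 0 ≤ C') (hc : 0 < c) {l : ℝ} (hl : 0 < l)
    (ho : (∀ α : ℝ, 0 < α → ∀ ε : ℝ, 0 < ε → ∀ᶠ T in U,
      (M T).real (Icc α (α + l)) ≤ (∫ x in α..(α + l), FF x) + C' * Real.exp (-(c * α)) + ε) ∨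
      (∀ α : ℝ, 0 < α → ∀ ε : ℝ, 0 < ε → ∀ᶠ T in U,
      (∫ x in α..(α + l), FF x) - C' * Real.exp (-(c * α)) - ε ≤ (M T).real (Icc α (α + l)))) :
    ∀ᵐ x : ℝ, wf μ (l / 2) x = wf mG (l / 2) x := by
  have hC0 : 0 ≤ C := by linarith
  have b1 := bdd_limit hU hC0 hM hμ
  have e1 := ev_limit hU hE hμ
  have hsfG := mG_sf
  have b2 : Bdd (4 * C) mG := fun a => (mG_bdd a).trans (ENNReal.ofReal_le_ofReal (by linarith))
  have htest : ∀ ψ, Adm κ ψ → ∫ x, fl ψ x ∂μ = ∫ x, fl ψ x ∂mG := by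
    intro ψ hψ
    rw [mG_test hψ hκ1]
    exact tendsto_nhds_unique (hμ _ (fl_cont hψ.int) (fl_qd hψ)).2 ((ht ψ hψ).mono_left hU)
  have hb : 0 < l / 2 := by positivity
  rcases ho with ho | ho
  · refine rig3 (by linarith) b1 b2 e1 mG_ev hκ htest hC' hc hb ?_
    filter_upwards [icc_ioo b1 (b := l / 2)] with y hy hby
    have h1 := lim_upper hC0 hM hU hμ (α := y - l / 2) (β := y + l / 2)
      (K := (∫ x in (y - l / 2)..(y + l / 2), FF x) + C' * Real.exp (-(c * (y - l / 2)))) ?_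
    · have h2 : wf mG (l / 2) y = ∫ x in (y - l / 2)..(y + l / 2), FF x :=
        mG_real (by linarith) (by linarith)
      rw [h2]
      linarith
    · intro ε hε
      have h3 := ho (y - l / 2) (by linarith) ε hε
      rw [show y - l / 2 + l = y + l / 2 by ring] at h3
      exact h3
  · have := rig3 (μ₁ := mG) (μ₂ := μ) (by linarith) b2 b1 mG_ev e1 hκ
      (fun ψ hψ => (htest ψ hψ).symm) hC' hc hb ?_
    · filter_upwards [this] with x hx using hx.symm
    refine ae_of_all _ fun y hby => ?_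
    have h1 := lim_lower hC0 hM hU hμ (α := y - l / 2) (β := y + l / 2)
      (K := (∫ x in (y - l / 2)..(y + l / 2), FF x) - C' * Real.exp (-(c * (y - l / 2)))) ?_
    · have h2 : wf mG (l / 2) y = ∫ x in (y - l / 2)..(y + l / 2), FF x :=
        mG_real (by linarith) (by linarith)
      rw [h2]
      unfold wf
      linarith
    · intro ε hε
      have h3 := ho (y - l / 2) (by linarith) ε hε
      rw [show y - l / 2 + l = y + l / 2 by ring] at h3
      exact h3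

/-- rigidity from windows of two incommensurable lengths, along a filter -/
theorem rigid2F {M : ℝ → Measure ℝ} {F : Filter ℝ} (hF : F ≤ atTop) (hC : 2 ≤ C)
    (hM : ∀ᶠ T in atTop, Bdd C (M T))
    (hE : ∀ᶠ T in atTop, Ev (M T)) {κ : ℝ} (hκ : 0 < κ) (hκ1 : κ ≤ 1)
    (ht : ∀ ψ, Adm κ ψ → Tendsto (fun T => ∫ x, fl ψ x ∂(M T)) atTop (𝓝 (cc ψ)))
    {C' c : ℝ} (hC' : 0 ≤ C') (hc : 0 < c) {l₁ l₂ : ℝ} (hl₁ : 0 < l₁) (hl₂ : 0 < l₂)
    (hir : Irrational (l₁ / l₂))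
    (ho : ∀ l : ℝ, (l = l₁ ∨ l = l₂) → ((∀ α : ℝ, 0 < α → ∀ ε : ℝ, 0 < ε → ∀ᶠ T in F,
      (M T).real (Icc α (α + l)) ≤ (∫ x in α..(α + l), FF x) + C' * Real.exp (-(c * α)) + ε) ∨
      (∀ α : ℝ, 0 < α → ∀ ε : ℝ, 0 < ε → ∀ᶠ T in F,
      (∫ x in α..(α + l), FF x) - C' * Real.exp (-(c * α)) - ε ≤ (M T).real (Icc α (α + l))))) :
    ∀ α β : ℝ, 0 < α → α < β →
      Tendsto (fun T => (M T).real (Icc α β)) F (𝓝 (∫ x in α..β, FF x)) := by
  intro α β hα hαβ
  rw [tendsto_iff_ultrafilter]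
  intro U hU'
  have hU : (U : Filter ℝ) ≤ atTop := le_trans hU' hF
  have hC0 : 0 ≤ C := by linarith
  obtain ⟨μ, hsf, hμ⟩ := exists_limit hC0 hM U hU
  have b1 := bdd_limit hU hC0 hM hμ
  have hsfG := mG_sf
  have b2 : Bdd (4 * C) mG := fun a => (mG_bdd a).trans (ENNReal.ofReal_le_ofReal (by linarith))
  have key : ∀ l, (l = l₁ ∨ l = l₂) → 0 < l → ∀ᵐ x : ℝ, wf μ (l / 2) x = wf mG (l / 2) x := by
    intro l hl hl0
    refine one_lenU hC hM hE hU hμ hκ hκ1 ht hC' hc hl0 ?_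
    rcases ho l hl with h | h
    · exact Or.inl fun α hα ε hε => hU' (h α hα ε hε)
    · exact Or.inr fun α hα ε hε => hU' (h α hα ε hε)
  have w1 := key l₁ (Or.inl rfl) hl₁
  have w2 := key l₂ (Or.inr rfl) hl₂
  have hir2 : Irrational (l₁ / 2 / (l₂ / 2)) := by
    rwa [div_div_div_cancel_right₀ two_ne_zero]
  exact fam_end hC hM hU hμ (fun b hb => two_len b1 b2 (by positivity) (by positivity) hir2 w1 w2 hb)
    hα hαβ

/-- the bound for windows of length `l` -/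
lemma real_le_len {C : ℝ} (hC : 0 ≤ C) {μ : Measure ℝ} (h : Bdd C μ) {l : ℝ} (hl : 0 ≤ l) (α : ℝ) :
    μ.real (Icc α (α + l)) ≤ (l + 2) * C := by
  have h1 := h.nat α ⌈l⌉₊
  have h2 : μ (Icc α (α + l)) ≤ ENNReal.ofReal ((l + 2) * C) := by
    refine (measure_mono (Icc_subset_Icc le_rfl ?_)).trans (h1.trans ?_)
    · have := Nat.le_ceil l
      linarith
    · have h3 : (⌈l⌉₊ : ENNReal) * ENNReal.ofReal C + ENNReal.ofReal C =
          ENNReal.ofReal ((⌈l⌉₊ + 1) * C) := by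
        rw [add_mul, one_mul, ENNReal.ofReal_add (by positivity) hC,
          ENNReal.ofReal_mul (by positivity), ENNReal.ofReal_natCast]
      rw [h3]
      apply ENNReal.ofReal_le_ofReal
      have := Nat.ceil_lt_add_one hl
      nlinarith
  rw [Measure.real]
  exact ENNReal.toReal_le_of_le_ofReal (by positivity) h2

/-- the rigidity theorem for the zeros, for windows of two lengths and along a filter -/
theorem rig_zeta2 (hoff : ∀ η : ℝ, 0 < η → ∀ᶠ T : ℝ in atTop, NF T ≤ η * (T * Real.log T))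
    {F : Filter ℝ} (hF : F ≤ atTop) {l₁ l₂ : ℝ} (hl₁ : 0 < l₁) (hl₂ : 0 < l₂)
    (hir : Irrational (l₁ / l₂))
    (ho : ∀ l : ℝ, (l = l₁ ∨ l = l₂) → ∃ C' c a₀ : ℝ, 0 < C' ∧ 0 < c ∧ 0 < a₀ ∧
      ((∀ α : ℝ, a₀ ≤ α → ∀ ε : ℝ, 0 < ε → ∀ᶠ T in F,
      (Mp T).real (Icc α (α + l)) ≤ (∫ x in α..(α + l), FF x) + C' * Real.exp (-(c * α)) + ε) ∨
      (∀ α : ℝ, a₀ ≤ α → ∀ ε : ℝ, 0 < ε → ∀ᶠ T in F,
      (∫ x in α..(α + l), FF x) - C' * Real.exp (-(c * α)) - ε ≤ (Mp T).real (Icc α (α + l))))) :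
    ∀ α β : ℝ, 0 < α → α < β →
      Tendsto (fun T => (Mp T).real (Icc α β)) F (𝓝 (∫ x in α..β, FF x)) := by
  obtain ⟨C, hC, hB⟩ := Mp_bdd
  obtain ⟨κ, hκ, hκ2, hblk⟩ := blk_main
  obtain ⟨C₁, c₁, a₁, hC₁, hc₁, ha₁, h₁⟩ := ho l₁ (Or.inl rfl)
  obtain ⟨C₂, c₂, a₂, hC₂, hc₂, ha₂, h₂⟩ := ho l₂ (Or.inr rfl)
  -- common constants
  obtain ⟨c, hcd⟩ : ∃ c : ℝ, c = min c₁ c₂ := ⟨_, rfl⟩
  have hc : 0 < c := by rw [hcd]; exact lt_min hc₁ hc₂
  obtain ⟨K, hK⟩ : ∃ K : ℝ, K = (l₁ + l₂ + 2) * C * (Real.exp (c * a₁) + Real.exp (c * a₂)) +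
    C₁ + C₂ := ⟨_, rfl⟩
  have hC0 : 0 < C := by linarith
  have hK0 : 0 ≤ K := by rw [hK]; positivity
  -- the extension to all windows
  have key : ∀ l : ℝ, (l = l₁ ∨ l = l₂) → ∀ C' c' a₀ : ℝ, 0 < C' → C' ≤ C₁ + C₂ → c ≤ c' →
      0 < a₀ → (a₀ = a₁ ∨ a₀ = a₂) →
      ((∀ α : ℝ, a₀ ≤ α → ∀ ε : ℝ, 0 < ε → ∀ᶠ T in F,
      (Mp T).real (Icc α (α + l)) ≤ (∫ x in α..(α + l), FF x) + C' * Real.exp (-(c' * α)) + ε) ∨
      (∀ α : ℝ, a₀ ≤ α → ∀ ε : ℝ, 0 < ε → ∀ᶠ T in F,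
      (∫ x in α..(α + l), FF x) - C' * Real.exp (-(c' * α)) - ε ≤ (Mp T).real (Icc α (α + l)))) →
      ((∀ α : ℝ, 0 < α → ∀ ε : ℝ, 0 < ε → ∀ᶠ T in F,
      (Mp T).real (Icc α (α + l)) ≤ (∫ x in α..(α + l), FF x) + K * Real.exp (-(c * α)) + ε) ∨
      (∀ α : ℝ, 0 < α → ∀ ε : ℝ, 0 < ε → ∀ᶠ T in F,
      (∫ x in α..(α + l), FF x) - K * Real.exp (-(c * α)) - ε ≤ (Mp T).real (Icc α (α + l)))) := by
    intro l hl C' c' a₀ hC' hC'' hcc ha₀ haa h
    have hl0 : 0 < l := by rcases hl with rfl | rfl <;> assumption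
    have hll : l ≤ l₁ + l₂ := by rcases hl with rfl | rfl <;> linarith
    -- far windows
    have hfar : ∀ α : ℝ, 0 < α → C' * Real.exp (-(c' * α)) ≤ K * Real.exp (-(c * α)) := by
      intro α hα
      have e1 : Real.exp (-(c' * α)) ≤ Real.exp (-(c * α)) := by
        apply Real.exp_le_exp.2
        nlinarith
      have e2 : C' ≤ K := by
        rw [hK]
        have : 0 ≤ (l₁ + l₂ + 2) * C * (Real.exp (c * a₁) + Real.exp (c * a₂)) := by positivity
        linarith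
      exact mul_le_mul e2 e1 (Real.exp_pos _).le hK0
    -- near windows
    have hnear : ∀ α : ℝ, 0 < α → α < a₀ → (l + 2) * C ≤ K * Real.exp (-(c * α)) := by
      intro α hα hαa
      have e1 : Real.exp (c * a₀) ≤ Real.exp (c * a₁) + Real.exp (c * a₂) := by
        rcases haa with rfl | rfl
        · have := Real.exp_pos (c * a₂); linarith
        · have := Real.exp_pos (c * a₁); linarith
      have e2 : (l + 2) * C * Real.exp (c * a₀) ≤ K := by
        rw [hK]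
        have h3 : (l + 2) * C * Real.exp (c * a₀) ≤
            (l₁ + l₂ + 2) * C * (Real.exp (c * a₁) + Real.exp (c * a₂)) := by
          apply mul_le_mul _ e1 (Real.exp_pos _).le (by positivity)
          exact mul_le_mul_of_nonneg_right (by linarith) hC0.le
        linarith
      have e3 : (l + 2) * C = (l + 2) * C * Real.exp (c * α) * Real.exp (-(c * α)) := by
        rw [mul_assoc ((l + 2) * C), ← Real.exp_add, add_neg_cancel, Real.exp_zero, mul_one]
      rw [e3]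
      apply mul_le_mul_of_nonneg_right _ (Real.exp_pos _).le
      refine le_trans ?_ e2
      apply mul_le_mul_of_nonneg_left _ (by positivity)
      apply Real.exp_le_exp.2
      nlinarith
    rcases h with h | h
    · left
      intro α hα ε hε
      by_cases hαa : a₀ ≤ α
      · filter_upwards [h α hαa ε hε] with T hT
        have := hfar α hα
        linarith
      · push Not at hαa
        filter_upwards [hF hB] with T hT
        have h3 := real_le_len hC0.le hT hl0.le α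
        have h4 := hnear α hα hαa
        have h5 : 0 ≤ ∫ x in α..(α + l), FF x :=
          intervalIntegral.integral_nonneg (by linarith) fun x _ => FF_nonneg x
        linarith
    · right
      intro α hα ε hε
      by_cases hαa : a₀ ≤ α
      · filter_upwards [h α hαa ε hε] with T hT
        have := hfar α hα
        linarith
      · push Not at hαa
        filter_upwards with T
        have h4 := hnear α hα hαa
        have h5 : ∫ x in α..(α + l), FF x ≤ ∫ x in α..(α + l), (1 : ℝ) :=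
          intervalIntegral.integral_mono_on (by linarith) (FF_ii _ _)
            (intervalIntegrable_const) fun x _ => FF_le_one x
        rw [intervalIntegral.integral_const, smul_eq_mul, mul_one] at h5
        have h6 : 0 ≤ (Mp T).real (Icc α (α + l)) := measureReal_nonneg
        nlinarith
  refine rigid2F hF hC hB ?_ hκ (by linarith) (fun ψ hψ => test_lim hψ (hblk ψ hψ hoff)) hK0 hc
    hl₁ hl₂ hir ?_
  · filter_upwards [eventually_ge_atTop 10] with T hT using Mp_ev hT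
  · intro l hl
    rcases hl with rfl | rfl
    · exact key _ (Or.inl rfl) C₁ c₁ a₁ hC₁ (by linarith) (by rw [hcd]; exact min_le_left _ _)
        ha₁ (Or.inl rfl) h₁
    · exact key _ (Or.inr rfl) C₂ c₂ a₂ hC₂ (by linarith) (by rw [hcd]; exact min_le_right _ _)
        ha₂ (Or.inr rfl) h₂

end Pool.Agent.Q85.Rig
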