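import Pool.Agent.Q85.Rig.Beu3
import Pool.Agent.Q85.Rig.Filt

/-! # Rigidity from windows at arbitrarily far scales -/

set_option autoImplicit false

open MeasureTheory Set Filter Topology
open scoped NNReal ENNReal

namespace Pool.Agent.Q85.Rig

open Pool.Agent.Y749.Rig

variable {C : ℝ}

theorem rig3G {μ₁ μ₂ : Measure ℝ} [SFinite μ₁] [SFinite μ₂] (hC : 0 ≤ C) (h1 : Bdd C μ₁)
    (h2 : Bdd C μ₂) (e1 : Ev μ₁) (e2 : Ev μ₂) {κ : ℝ} (hκ : 0 < κ)
    (ht : ∀ ψ, Adm κ ψ → ∫ x, fl ψ x ∂μ₁ = ∫ x, fl ψ x ∂μ₂) {κ' c : ℝ} (hκ' : 0 < κ') (hc : 0 < c)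
    {b : ℝ} (hb : 0 < b)
    (ho : ∃ᶠ R : ℝ in atTop, ∀ᵐ y : ℝ, R ≤ y → y ≤ (1 + c) * R →
      |wf μ₁ b y - wf μ₂ b y| ≤ Real.exp (-(κ' * R))) :
    ∀ᵐ x : ℝ, wf μ₁ b x = wf μ₂ b x := by
  have hh : 0 < κ / 2 := by positivity
  have hk := adm_tr hh
  obtain ⟨R, hR⟩ : ∃ R : ℝ, R = ((⌈2 * b⌉₊ : ℕ) + 1) * C := ⟨_, rfl⟩
  have hR0 : 0 ≤ R := by rw [hR]; positivity
  have hu : ∀ x, |wf μ₁ b x - wf μ₂ b x| ≤ R := by
    intro x
    rw [abs_le]
    have a1 := wf_le hC h1 b x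
    have a2 := wf_le hC h2 b x
    have a3 := wf_nonneg (μ := μ₁) b x
    have a4 := wf_nonneg (μ := μ₂) b x
    rw [← hR] at a1 a2
    constructor <;> linarith
  have hum : Measurable fun x => wf μ₁ b x - wf μ₂ b x := (wf_meas b).sub (wf_meas b)
  obtain ⟨v, hv⟩ : ∃ v : ℝ → ℝ, ∀ x, v x = (wf μ₁ b x - wf μ₂ b x) * fl (tr (κ / 2)) x :=
    ⟨_, fun x => rfl⟩
  have hv' : v = fun x => (wf μ₁ b x - wf μ₂ b x) * fl (tr (κ / 2)) x := funext hv
  have hvi : Integrable v := by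
    rw [hv']
    refine (fl_int hk).bdd_mul (c := R) hum.aestronglyMeasurable (ae_of_all _ fun x => ?_)
    exact hu x
  have hve : ∀ x, v (-x) = v x := by
    intro x
    rw [hv, hv, wf_even hC h1 e1, wf_even hC h2 e2, fl_even]
  have hz : v =ᵐ[volume] 0 := by
    refine gap_zero hvi (η := κ / 2) hh ?_ ?_ hc (κ := κ' / 2) (by positivity) ?_
    · intro ω hω
      obtain ⟨ψ, hψ⟩ : ∃ ψ, ψ = modu ω (tr (κ / 2)) := ⟨_, rfl⟩
      have hA : Adm κ ψ := by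
        rw [hψ]
        exact (adm_modu hk ω).mono (by linarith)
      have hW := adm_win hA hb.le
      have e3 : ∀ x, v x * Real.cos (2 * Real.pi * ω * x) =
          wf μ₁ b x * fl ψ x - wf μ₂ b x * fl ψ x := by
        intro x
        rw [hv, hψ, fl_modu hk]; ring
      have hi : ∀ {μ : Measure ℝ} [SFinite μ], Bdd C μ → Integrable fun x => wf μ b x * fl ψ x := by
        intro μ _ hμ
        refine (fl_int hA).bdd_mul (c := R) (wf_meas b).aestronglyMeasurable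
          (ae_of_all _ fun x => ?_)
        rw [Real.norm_eq_abs, abs_of_nonneg (wf_nonneg _ _), hR]
        exact wf_le hC hμ b x
      simp_rw [e3]
      rw [integral_sub (hi h1) (hi h2), wf_fubini hC h1 hb.le (fl_cont hA.int) (fl_qd hA),
        wf_fubini hC h2 hb.le (fl_cont hA.int) (fl_qd hA)]
      simp_rw [← fl_win hA hb.le]
      rw [ht _ hW, sub_self]
    · intro ω _
      apply int_zero_of_odd
      intro x
      rw [hve, mul_neg, Real.sin_neg]; ring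
    · obtain ⟨K, hK⟩ : ∃ K : ℝ, K = ∫ x, |fl (tr (κ / 2)) x| := ⟨_, rfl⟩
      have hev : ∀ᶠ S : ℝ in atTop, K ≤ Real.exp (κ' / 2 * S) :=
        (Real.tendsto_exp_atTop.comp (tendsto_id.const_mul_atTop (by positivity))).eventually_ge_atTop K
      refine (ho.and_eventually (hev.and (eventually_gt_atTop 0))).mono ?_
      rintro S ⟨hS, hSK, hS0⟩
      have hA : MeasurableSet {x : ℝ | S ≤ |x| ∧ |x| ≤ (1 + c) * S} :=
        (measurableSet_le measurable_const continuous_abs.measurable).inter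
          (measurableSet_le continuous_abs.measurable measurable_const)
      have hE := Real.exp_pos (-(κ' * S))
      have hb1 : ∀ᵐ x : ℝ, x ∈ {x : ℝ | S ≤ |x| ∧ |x| ≤ (1 + c) * S} →
          |v x| ≤ Real.exp (-(κ' * S)) * |fl (tr (κ / 2)) x| := by
        filter_upwards [hS, ae_neg hS] with x hx1 hx2 hx
        rw [hv, abs_mul]
        apply mul_le_mul_of_nonneg_right _ (abs_nonneg _)
        rcases abs_cases x with hx3 | hx3
        · rw [hx3.1] at hx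
          exact hx1 hx.1 hx.2
        · rw [hx3.1] at hx
          rw [← wf_even hC h1 e1, ← wf_even hC h2 e2]
          exact hx2 hx.1 hx.2
      calc ∫ x in {x : ℝ | S ≤ |x| ∧ |x| ≤ (1 + c) * S}, |v x|
          ≤ ∫ x in {x : ℝ | S ≤ |x| ∧ |x| ≤ (1 + c) * S},
            Real.exp (-(κ' * S)) * |fl (tr (κ / 2)) x| :=
            setIntegral_mono_on_ae hvi.abs.integrableOn
              ((fl_int hk).abs.const_mul _).integrableOn hA hb1
        _ ≤ ∫ x, Real.exp (-(κ' * S)) * |fl (tr (κ / 2)) x| :=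
            setIntegral_le_integral ((fl_int hk).abs.const_mul _) (ae_of_all _ fun x => by positivity)
        _ = Real.exp (-(κ' * S)) * K := by rw [integral_const_mul, hK]
        _ ≤ Real.exp (-(κ' * S)) * Real.exp (κ' / 2 * S) := mul_le_mul_of_nonneg_left hSK hE.le
        _ = Real.exp (-(κ' / 2 * S)) := by
            rw [← Real.exp_add]; congr 1; ring
  filter_upwards [hz, fl_tr_ne hh] with x hx hx2
  rw [hv] at hx
  have := (mul_eq_zero.1 hx).resolve_right hx2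
  linarith

/-- one length, for an ultrafilter -/
theorem one_lenG {M : ℝ → Measure ℝ} {U : Ultrafilter ℝ} {μ : Measure ℝ}
    [SFinite μ] (hC : 2 ≤ C) (hM : ∀ᶠ T in atTop, Bdd C (M T))
    (hE : ∀ᶠ T in atTop, Ev (M T)) (hU : (U : Filter ℝ) ≤ atTop)
    (hμ : ∀ f : ℝ → ℝ, Continuous f → QD f →
      Integrable f μ ∧ Tendsto (fun T => ∫ x, f x ∂(M T)) U (𝓝 (∫ x, f x ∂μ)))
    {κ : ℝ} (hκ : 0 < κ) (hκ1 : κ ≤ 1)
    (ht : ∀ ψ, Adm κ ψ → Tendsto (fun T => ∫ x, fl ψ x ∂(M T)) atTop (𝓝 (cc ψ)))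
    {κ' c : ℝ} (hκ' : 0 < κ') (hc : 0 < c) {l : ℝ} (hl : 0 < l)
    (ho : ∃ᶠ R : ℝ in atTop, ∀ α : ℝ, R ≤ α → α ≤ (1 + c) * R → ∀ ε : ℝ, 0 < ε → ∀ᶠ T in U,
      |(M T).real (Icc α (α + l)) - ∫ x in α..(α + l), FF x| ≤ Real.exp (-(κ' * R)) + ε) :
    ∀ᵐ x : ℝ, wf μ (l / 2) x = wf mG (l / 2) x := by
  have hC0 : 0 ≤ C := by linarith
  have b1 := bdd_limit hU hC0 hM hμ
  have e1 := ev_limit hU hE hμ
  have hsfG := mG_sf
  have b2 : Bdd (4 * C) mG := fun a => (mG_bdd a).trans (ENNReal.ofReal_le_ofReal (by linarith))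
  have htest : ∀ ψ, Adm κ ψ → ∫ x, fl ψ x ∂μ = ∫ x, fl ψ x ∂mG := by
    intro ψ hψ
    rw [mG_test hψ hκ1]
    exact tendsto_nhds_unique (hμ _ (fl_cont hψ.int) (fl_qd hψ)).2 ((ht ψ hψ).mono_left hU)
  have hb : 0 < l / 2 := by positivity
  refine rig3G (by linarith) b1 b2 e1 mG_ev hκ htest (κ' := κ' / 2) (c := c / 2) (by positivity)
    (by positivity) hb ?_
  have hfr : ∃ᶠ R : ℝ in atTop, (∀ α : ℝ, R ≤ α → α ≤ (1 + c) * R → ∀ ε : ℝ, 0 < ε → ∀ᶠ T in U,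
      |(M T).real (Icc α (α + l)) - ∫ x in α..(α + l), FF x| ≤ Real.exp (-(κ' * R)) + ε) ∧ l ≤ R :=
    ho.and_eventually (eventually_ge_atTop l)
  refine (tendsto_atTop_add_const_right atTop (l / 2) tendsto_id).frequently (hfr.mono ?_)
  rintro R ⟨hR, hRl⟩
  simp only [id]
  have hR0 : 0 < R := by linarith
  filter_upwards [icc_ioo b1 (b := l / 2)] with y hy hy1 hy2
  have k1 : R ≤ y - l / 2 := by linarith
  have k2 : y - l / 2 ≤ (1 + c) * R := by nlinarith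
  have k3 := hR (y - l / 2) k1 k2
  rw [show y - l / 2 + l = y + l / 2 by ring] at k3
  have hE : Real.exp (-(κ' * R)) ≤ Real.exp (-(κ' / 2 * (R + l / 2))) := by
    apply Real.exp_le_exp.2
    nlinarith
  have h2 : wf mG (l / 2) y = ∫ x in (y - l / 2)..(y + l / 2), FF x :=
    mG_real (by linarith) (by linarith)
  have u1 := lim_upper hC0 hM hU hμ (α := y - l / 2) (β := y + l / 2)
    (K := (∫ x in (y - l / 2)..(y + l / 2), FF x) + Real.exp (-(κ' * R))) (fun ε hε => by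
      filter_upwards [k3 ε hε] with T hT
      have := (abs_le.1 hT).2
      linarith)
  have u2 := lim_lower hC0 hM hU hμ (α := y - l / 2) (β := y + l / 2)
    (K := (∫ x in (y - l / 2)..(y + l / 2), FF x) - Real.exp (-(κ' * R))) (fun ε hε => by
      filter_upwards [k3 ε hε] with T hT
      have := (abs_le.1 hT).1
      linarith)
  have u3 : wf μ (l / 2) y ≤ (∫ x in (y - l / 2)..(y + l / 2), FF x) + Real.exp (-(κ' * R)) :=
    hy.trans u1
  have u4 : (∫ x in (y - l / 2)..(y + l / 2), FF x) - Real.exp (-(κ' * R)) ≤ wf μ (l / 2) y := u2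
  rw [h2, abs_le]
  constructor <;> linarith

/-- rigidity from windows of two incommensurable lengths at arbitrarily far scales -/
theorem rigid2G {M : ℝ → Measure ℝ} {F : Filter ℝ} (hF : F ≤ atTop) (hC : 2 ≤ C)
    (hM : ∀ᶠ T in atTop, Bdd C (M T))
    (hE : ∀ᶠ T in atTop, Ev (M T)) {κ : ℝ} (hκ : 0 < κ) (hκ1 : κ ≤ 1)
    (ht : ∀ ψ, Adm κ ψ → Tendsto (fun T => ∫ x, fl ψ x ∂(M T)) atTop (𝓝 (cc ψ)))
    {l₁ l₂ : ℝ} (hl₁ : 0 < l₁) (hl₂ : 0 < l₂) (hir : Irrational (l₁ / l₂))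
    (ho : ∀ l : ℝ, (l = l₁ ∨ l = l₂) → ∃ κ' c : ℝ, 0 < κ' ∧ 0 < c ∧
      ∃ᶠ R : ℝ in atTop, ∀ α : ℝ, R ≤ α → α ≤ (1 + c) * R → ∀ ε : ℝ, 0 < ε → ∀ᶠ T in F,
        |(M T).real (Icc α (α + l)) - ∫ x in α..(α + l), FF x| ≤ Real.exp (-(κ' * R)) + ε) :
    ∀ α β : ℝ, 0 < α → α < β →
      Tendsto (fun T => (M T).real (Icc α β)) F (𝓝 (∫ x in α..β, FF x)) := by
  intro α β hα hαβ
  rw [tendsto_iff_ultrafilter]
  intro U hU'
  have hU : (U : Filter ℝ) ≤ atTop := le_trans hU' hF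
  have hC0 : 0 ≤ C := by linarith
  obtain ⟨μ, hsf, hμ⟩ := exists_limit hC0 hM U hU
  have b1 := bdd_limit hU hC0 hM hμ
  have hsfG := mG_sf
  have b2 : Bdd (4 * C) mG := fun a => (mG_bdd a).trans (ENNReal.ofReal_le_ofReal (by linarith))
  have key : ∀ l, (l = l₁ ∨ l = l₂) → 0 < l → ∀ᵐ x : ℝ, wf μ (l / 2) x = wf mG (l / 2) x := by
    intro l hl hl0
    obtain ⟨κ', c, hκ', hc, h⟩ := ho l hl
    refine one_lenG hC hM hE hU hμ hκ hκ1 ht hκ' hc hl0 (h.mono fun R hR α hα hα2 ε hε => ?_)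
    exact hU' (hR α hα hα2 ε hε)
  have w1 := key l₁ (Or.inl rfl) hl₁
  have w2 := key l₂ (Or.inr rfl) hl₂
  have hir2 : Irrational (l₁ / 2 / (l₂ / 2)) := by
    rwa [div_div_div_cancel_right₀ two_ne_zero]
  exact fam_end hC hM hU hμ (fun b hb => two_len b1 b2 (by positivity) (by positivity) hir2 w1 w2 hb)
    hα hαβ

/-- the rigidity theorem for the zeros, for windows at arbitrarily far scales -/
theorem rig_zeta2G (hoff : ∀ η : ℝ, 0 < η → ∀ᶠ T : ℝ in atTop, NF T ≤ η * (T * Real.log T))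
    {F : Filter ℝ} (hF : F ≤ atTop) {l₁ l₂ : ℝ} (hl₁ : 0 < l₁) (hl₂ : 0 < l₂)
    (hir : Irrational (l₁ / l₂))
    (ho : ∀ l : ℝ, (l = l₁ ∨ l = l₂) → ∃ κ' c : ℝ, 0 < κ' ∧ 0 < c ∧
      ∃ᶠ R : ℝ in atTop, ∀ α : ℝ, R ≤ α → α ≤ (1 + c) * R → ∀ ε : ℝ, 0 < ε → ∀ᶠ T in F,
        |(Mp T).real (Icc α (α + l)) - ∫ x in α..(α + l), FF x| ≤ Real.exp (-(κ' * R)) + ε) :
    ∀ α β : ℝ, 0 < α → α < β →
      Tendsto (fun T => (Mp T).real (Icc α β)) F (𝓝 (∫ x in α..β, FF x)) := by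
  obtain ⟨C, hC, hB⟩ := Mp_bdd
  obtain ⟨κ, hκ, hκ2, hblk⟩ := blk_main
  refine rigid2G hF hC hB ?_ hκ (by linarith) (fun ψ hψ => test_lim hψ (hblk ψ hψ hoff)) hl₁ hl₂
    hir ho
  filter_upwards [eventually_ge_atTop 10] with T hT using Mp_ev hT

end Pool.Agent.Q85.Rig
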