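import Pool.Agent.Q85.Rig.Exist

/-! # Rigidity from second moments at arbitrarily far scales -/

set_option autoImplicit false

open MeasureTheory Set Filter Topology
open scoped NNReal ENNReal

namespace Pool.Agent.Q85.Rig

open Pool.Agent.Y749.Rig

variable {C : ℝ} {μ : Measure ℝ}

/-- the integral of the triangle function -/
noncomputable def mo (μ : Measure ℝ) (L : ℝ) : ℝ := ∫ x, max (L - |x|) 0 ∂μ

lemma tri_cont (L : ℝ) : Continuous fun x : ℝ => max (L - |x|) 0 := by fun_prop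

lemma tri_qd (L : ℝ) : QD fun x : ℝ => max (L - |x|) 0 := by
  refine ⟨|L| * (1 + L ^ 2), fun x => ?_⟩
  rw [abs_of_nonneg (le_max_right _ _), le_div_iff₀ (by positivity)]
  change max (L - |x|) 0 * (1 + x ^ 2) ≤ _
  have hL := le_abs_self L
  have hL0 := abs_nonneg L
  rcases le_or_gt L |x| with h | h
  · rw [max_eq_right (by linarith), zero_mul]
    positivity
  · have h0 := abs_nonneg x
    rw [max_eq_left (by linarith)]
    have h1 : x ^ 2 ≤ L ^ 2 := by
      rw [← sq_abs x]; exact pow_le_pow_left₀ h0 h.le 2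
    calc (L - |x|) * (1 + x ^ 2) ≤ |L| * (1 + x ^ 2) :=
          mul_le_mul_of_nonneg_right (by linarith) (by positivity)
      _ ≤ |L| * (1 + L ^ 2) := mul_le_mul_of_nonneg_left (by linarith) hL0

/-- the trapezoid -/
noncomputable def tp (b b' y z : ℝ) : ℝ := max (min (y + b') (z + b) - max (y - b') (z - b)) 0

lemma tp_cont (b b' y : ℝ) : Continuous (tp b b' y) := by unfold tp; fun_prop

lemma tp_zero {b b' y z : ℝ} (h : z ∉ Icc (y - b - b') (y + b + b')) : tp b b' y z = 0 := by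
  unfold tp
  apply max_eq_right
  rw [mem_Icc, not_and_or, not_le, not_le] at h
  rcases h with h | h
  · have h1 := min_le_right (y + b') (z + b)
    have h2 := le_max_left (y - b') (z - b)
    linarith
  · have h1 := min_le_left (y + b') (z + b)
    have h2 := le_max_right (y - b') (z - b)
    linarith

lemma tp_eq {b b' y : ℝ} (hb : 0 < b) (hb' : 0 < b') (hy : b + b' ≤ y) (z : ℝ) :
    tp b b' y z + tp b b' y (-z) = max (y + b + b' - |z|) 0 - max (y + b - b' - |z|) 0 -
      max (y - b + b' - |z|) 0 + max (y - b - b' - |z|) 0 := by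
  have key : ∀ z : ℝ, 0 ≤ z → tp b b' y z + tp b b' y (-z) =
      max (y + b + b' - |z|) 0 - max (y + b - b' - |z|) 0 -
      max (y - b + b' - |z|) 0 + max (y - b - b' - |z|) 0 := by
    intro z hz
    have h2 : tp b b' y (-z) = 0 := by
      unfold tp
      apply max_eq_right
      have h1 := min_le_right (y + b') (-z + b)
      have h2 := le_max_left (y - b') (-z - b)
      linarith
    rw [h2, abs_of_nonneg hz, add_zero]
    unfold tp
    rcases le_total (y + b') (z + b) with h3 | h3 <;> rcases le_total (y - b') (z - b) with h4 | h4 <;>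
    [rw [min_eq_left h3, max_eq_right h4]; rw [min_eq_left h3, max_eq_left h4];
      rw [min_eq_right h3, max_eq_right h4]; rw [min_eq_right h3, max_eq_left h4]] <;>
    rcases le_total 0 (y + b + b' - z) with h5 | h5 <;>
    rcases le_total 0 (y + b - b' - z) with h6 | h6 <;>
    rcases le_total 0 (y - b + b' - z) with h7 | h7 <;>
    rcases le_total 0 (y - b - b' - z) with h8 | h8 <;>
    simp only [max_eq_left, max_eq_right, h5, h6, h7, h8] <;>
    first
      | (rw [max_eq_left (by linarith)]; linarith)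
      | (rw [max_eq_right (by linarith)]; linarith)
  rcases le_total 0 z with h | h
  · exact key z h
  · have := key (-z) (by linarith)
    rw [neg_neg, abs_neg, add_comm] at this
    exact this

lemma tp_nonneg (b b' y z : ℝ) : 0 ≤ tp b b' y z := le_max_right _ _

lemma tp_le {b b' y z : ℝ} (hb : 0 < b) : tp b b' y z ≤ 2 * b := by
  unfold tp
  apply max_le _ (by linarith)
  have h1 := min_le_right (y + b') (z + b)
  have h2 := le_max_right (y - b') (z - b)
  linarith

lemma tp_qd {b : ℝ} (hb : 0 < b) (b' y : ℝ) : QD (tp b b' y) := by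
  obtain ⟨K, hK⟩ : ∃ K : ℝ, K = |y - b - b'| + |y + b + b'| := ⟨_, rfl⟩
  have hK0 : 0 ≤ K := by rw [hK]; positivity
  refine ⟨2 * b * (1 + K ^ 2), fun z => ?_⟩
  rw [abs_of_nonneg (tp_nonneg _ _ _ _), le_div_iff₀ (by positivity)]
  by_cases hz : z ∈ Icc (y - b - b') (y + b + b')
  · have h1 : |z| ≤ K := by
      rw [hK, abs_le]
      have := neg_abs_le (y - b - b')
      have := le_abs_self (y + b + b')
      have := abs_nonneg (y - b - b')
      have := abs_nonneg (y + b + b')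
      constructor <;> linarith [hz.1, hz.2]
    have h2 : z ^ 2 ≤ K ^ 2 := by
      rw [← sq_abs z]; exact pow_le_pow_left₀ (abs_nonneg _) h1 2
    have h3 : tp b b' y z ≤ 2 * b := tp_le hb
    have h4 := tp_nonneg b b' y z
    nlinarith [sq_nonneg z]
  · rw [tp_zero hz, zero_mul]
    positivity

/-- integrals of windows -/
lemma wf_int [SFinite μ] (h : Bdd C μ) {b b' : ℝ} (hb' : 0 < b') (y : ℝ) :
    ∫ x in (y - b')..(y + b'), wf μ b x = ∫ z, tp b b' y z ∂μ := by
  obtain ⟨K, hK⟩ : ∃ K : Set ℝ, K = Icc (y - b - b') (y + b + b') := ⟨_, rfl⟩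
  obtain ⟨J, hJ⟩ : ∃ J : Set ℝ, J = Icc (y - b') (y + b') := ⟨_, rfl⟩
  have hfin : IsFiniteMeasure (μ.restrict K) := by
    refine ⟨?_⟩
    rw [Measure.restrict_apply_univ, hK]
    exact h.lt_top _ _
  have hfinJ : IsFiniteMeasure ((volume : Measure ℝ).restrict J) := by
    refine ⟨?_⟩
    rw [Measure.restrict_apply_univ, hJ]
    exact measure_Icc_lt_top
  have hS := wS_meas b
  obtain ⟨f, hf⟩ : ∃ f : ℝ → ℝ → ℝ, ∀ x z, f x z = (Icc (x - b) (x + b)).indicator
      (fun _ => (1 : ℝ)) z := ⟨_, fun x z => rfl⟩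
  have hf2 : Function.uncurry f = {p : ℝ × ℝ | p.1 - b ≤ p.2 ∧ p.2 ≤ p.1 + b}.indicator
      (fun _ => (1 : ℝ)) := by
    ext p
    rw [Function.uncurry, hf]
    by_cases hp : p.2 ∈ Icc (p.1 - b) (p.1 + b)
    · rw [indicator_of_mem hp, indicator_of_mem (show p ∈ {p : ℝ × ℝ | p.1 - b ≤ p.2 ∧
        p.2 ≤ p.1 + b} from hp)]
    · rw [indicator_of_notMem hp, indicator_of_notMem (show p ∉ {p : ℝ × ℝ | p.1 - b ≤ p.2 ∧
        p.2 ≤ p.1 + b} from hp)]
  have hint : Integrable (Function.uncurry f) ((volume.restrict J).prod (μ.restrict K)) := by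
    rw [hf2, integrable_indicator_iff hS]
    exact integrableOn_const (measure_ne_top _ _)
  have e1 : ∀ x ∈ J, wf μ b x = ∫ z, f x z ∂(μ.restrict K) := by
    intro x hx
    rw [hJ] at hx
    have : Icc (x - b) (x + b) ⊆ K := by
      rw [hK]
      exact Icc_subset_Icc (by linarith [hx.1]) (by linarith [hx.2])
    simp_rw [hf]
    rw [integral_indicator measurableSet_Icc, setIntegral_const, smul_eq_mul, mul_one]
    unfold wf Measure.real
    rw [Measure.restrict_apply measurableSet_Icc, inter_eq_left.2 this]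
  have e2 : ∀ z, ∫ x in J, f x z = tp b b' y z := by
    intro z
    have : ∀ x, f x z = (Icc (z - b) (z + b)).indicator (fun _ => (1 : ℝ)) x := by
      intro x
      rw [hf]
      by_cases hx : z ∈ Icc (x - b) (x + b)
      · rw [indicator_of_mem hx, indicator_of_mem]
        exact ⟨by linarith [hx.2], by linarith [hx.1]⟩
      · rw [indicator_of_notMem hx, indicator_of_notMem]
        intro hx'
        exact hx ⟨by linarith [hx'.2], by linarith [hx'.1]⟩
    simp_rw [this]
    rw [integral_indicator measurableSet_Icc, setIntegral_const, smul_eq_mul, mul_one]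
    unfold Measure.real tp
    rw [Measure.restrict_apply measurableSet_Icc, hJ, Icc_inter_Icc, Real.volume_Icc, max_comm,
      min_comm]
    rw [show max (y - b') (z - b) = (y - b') ⊔ (z - b) from rfl]
    rcases le_total 0 (min (y + b') (z + b) - max (y - b') (z - b)) with h3 | h3
    · rw [ENNReal.toReal_ofReal h3, max_eq_left h3]
    · rw [ENNReal.ofReal_eq_zero.2 h3, max_eq_right h3]
      rfl
  calc ∫ x in (y - b')..(y + b'), wf μ b x = ∫ x in J, wf μ b x := by
        rw [intervalIntegral.integral_of_le (by linarith), hJ, integral_Icc_eq_integral_Ioc]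
    _ = ∫ x in J, ∫ z, f x z ∂(μ.restrict K) := by
        refine setIntegral_congr_fun (by rw [hJ]; exact measurableSet_Icc) fun x hx => e1 x hx
    _ = ∫ z, (∫ x in J, f x z) ∂(μ.restrict K) := integral_integral_swap hint
    _ = ∫ z in K, tp b b' y z ∂μ := by simp_rw [e2]
    _ = ∫ z, tp b b' y z ∂μ := by
        refine setIntegral_eq_integral_of_forall_compl_eq_zero fun z hz => ?_
        rw [hK] at hz
        exact tp_zero hz

/-- integrals of windows and second moments -/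
lemma wf_mo [SFinite μ] (hC : 0 ≤ C) (h : Bdd C μ) (he : Ev μ) {b b' y : ℝ} (hb : 0 < b)
    (hb' : 0 < b') (hy : b + b' ≤ y) :
    2 * ∫ x in (y - b')..(y + b'), wf μ b x =
      mo μ (y + b + b') - mo μ (y + b - b') - mo μ (y - b + b') + mo μ (y - b - b') := by
  have hi := h.integrable hC (tp_cont b b' y) (tp_qd hb b' y)
  have hi' : Integrable (fun z => tp b b' y (-z)) μ :=
    h.integrable hC ((tp_cont b b' y).comp continuous_neg) (qd_neg (tp_qd hb b' y))
  have ht : ∀ L : ℝ, Integrable (fun x : ℝ => max (L - |x|) 0) μ := fun L =>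
    h.integrable hC (tri_cont L) (tri_qd L)
  rw [wf_int h hb', two_mul]
  nth_rewrite 2 [← he _ (tp_cont b b' y) (tp_qd hb b' y)]
  rw [← integral_add hi hi']
  simp_rw [tp_eq hb hb' hy]
  unfold mo
  rw [integral_add, integral_sub, integral_sub]
  · exact ht _
  · exact ht _
  · exact (ht _).sub (ht _)
  · exact ht _
  · exact ((ht _).sub (ht _)).sub (ht _)
  · exact ht _

/-- the measure with the density of the windows -/
noncomputable def wm (μ : Measure ℝ) (b : ℝ) : Measure ℝ :=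
  volume.withDensity fun x => ENNReal.ofReal (wf μ b x)

lemma wm_sf (b : ℝ) : SFinite (wm μ b) := by unfold wm; infer_instance

lemma wf_ii [SFinite μ] (hC : 0 ≤ C) (h : Bdd C μ) (b α β : ℝ) :
    IntervalIntegrable (wf μ b) volume α β := by
  refine (intervalIntegrable_const (c := (((⌈2 * b⌉₊ : ℕ) + 1) * C : ℝ))).mono_fun
    (wf_meas b).aestronglyMeasurable (ae_of_all _ fun x => ?_)
  simp only [Real.norm_eq_abs]
  rw [abs_of_nonneg (wf_nonneg _ _), abs_of_nonneg ((wf_nonneg b x).trans (wf_le hC h b x))]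
  exact wf_le hC h b x

lemma wm_icc [SFinite μ] (hC : 0 ≤ C) (h : Bdd C μ) (b : ℝ) {α β : ℝ} (hab : α ≤ β) :
    wm μ b (Icc α β) = ENNReal.ofReal (∫ x in α..β, wf μ b x) := by
  unfold wm
  rw [withDensity_apply _ measurableSet_Icc, intervalIntegral.integral_of_le hab,
    ← integral_Icc_eq_integral_Ioc, ofReal_integral_eq_lintegral_ofReal]
  · have := wf_ii hC h b α β
    rw [intervalIntegrable_iff_integrableOn_Icc_of_le hab] at this
    exact this
  · exact ae_of_all _ fun x => wf_nonneg _ _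

lemma wm_real [SFinite μ] (hC : 0 ≤ C) (h : Bdd C μ) (b : ℝ) {α β : ℝ} (hab : α ≤ β) :
    (wm μ b).real (Icc α β) = ∫ x in α..β, wf μ b x := by
  rw [Measure.real, wm_icc hC h b hab, ENNReal.toReal_ofReal]
  exact intervalIntegral.integral_nonneg hab fun x _ => wf_nonneg _ _

lemma wm_bdd [SFinite μ] (hC : 0 ≤ C) (h : Bdd C μ) (b : ℝ) :
    Bdd (((⌈2 * b⌉₊ : ℕ) + 1) * C) (wm μ b) := by
  intro a
  rw [wm_icc hC h b (by linarith)]
  apply ENNReal.ofReal_le_ofReal
  calc ∫ x in a..(a + 1), wf μ b x ≤ ∫ x in a..(a + 1), (((⌈2 * b⌉₊ : ℕ) + 1) * C : ℝ) :=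
        intervalIntegral.integral_mono_on (by linarith) (wf_ii hC h b _ _)
          intervalIntegrable_const fun x _ => wf_le hC h b x
    _ = _ := by rw [intervalIntegral.integral_const, smul_eq_mul]; ring

lemma wm_integral [SFinite μ] (b : ℝ) (f : ℝ → ℝ) :
    ∫ x, f x ∂(wm μ b) = ∫ x, wf μ b x * f x := by
  unfold wm
  rw [integral_withDensity_eq_integral_toReal_smul₀
    ((wf_meas b).ennreal_ofReal.aemeasurable) (ae_of_all _ fun x => ENNReal.ofReal_lt_top)]
  refine integral_congr_ae (ae_of_all _ fun x => ?_)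
  simp only [smul_eq_mul]
  rw [ENNReal.toReal_ofReal (wf_nonneg _ _)]

lemma wm_ev [SFinite μ] (hC : 0 ≤ C) (h : Bdd C μ) (he : Ev μ) (b : ℝ) : Ev (wm μ b) := by
  intro f _ _
  rw [wm_integral, wm_integral, ← integral_neg_eq_self (fun x => wf μ b x * f x)]
  refine integral_congr_ae (ae_of_all _ fun x => ?_)
  simp only
  rw [wf_even hC h he]

lemma wm_test [SFinite μ] (hC : 0 ≤ C) (h : Bdd C μ) {κ : ℝ} {ψ : ℝ → ℝ} (hψ : Adm κ ψ) {b : ℝ}
    (hb : 0 ≤ b) : ∫ x, fl ψ x ∂(wm μ b) = ∫ x, fl (win b ψ) x ∂μ := by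
  rw [wm_integral, wf_fubini hC h hb (fl_cont hψ.int) (fl_qd hψ)]
  simp_rw [← fl_win hψ hb]

/-- the windows are determined by the measures with densities -/
lemma wf_of_wm {μ₁ μ₂ : Measure ℝ} [SFinite μ₁] [SFinite μ₂] (hC : 0 ≤ C) (h1 : Bdd C μ₁)
    (h2 : Bdd C μ₂) {b : ℝ} (h : ∀ b' : ℝ, 0 < b' → ∀ᵐ x : ℝ, wf (wm μ₁ b) b' x = wf (wm μ₂ b) b' x) :
    ∀ᵐ x : ℝ, wf μ₁ b x = wf μ₂ b x := by
  have k1 := wm_bdd hC h1 b
  have k2 := wm_bdd hC h2 b
  have hlf : IsLocallyFiniteMeasure (wm μ₁ b) := by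
    refine ⟨fun x => ⟨Icc (x - 1) (x + 1), Icc_mem_nhds (by linarith) (by linarith), ?_⟩⟩
    exact k1.lt_top _ _
  have e1 : wm μ₁ b = wm μ₂ b := by
    refine Measure.ext_of_Icc _ _ fun α β hab => ?_
    have := win_eq k1 k2 h hab
    unfold Measure.real at this
    exact (ENNReal.toReal_eq_toReal_iff' (k1.lt_top _ _).ne (k2.lt_top _ _).ne).1 this
  unfold wm at e1
  rw [withDensity_eq_iff_of_sigmaFinite (wf_meas b).ennreal_ofReal.aemeasurable
    (wf_meas b).ennreal_ofReal.aemeasurable] at e1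
  filter_upwards [e1] with x hx
  exact (ENNReal.ofReal_eq_ofReal_iff (wf_nonneg _ _) (wf_nonneg _ _)).1 hx

/-- limits of second moments -/
lemma mo_lim {M : ℝ → Measure ℝ} {U : Ultrafilter ℝ} (hμ : ∀ f : ℝ → ℝ, Continuous f → QD f →
      Integrable f μ ∧ Tendsto (fun T => ∫ x, f x ∂(M T)) U (𝓝 (∫ x, f x ∂μ))) (L : ℝ) :
    Tendsto (fun T => mo (M T) L) U (𝓝 (mo μ L)) := (hμ _ (tri_cont L) (tri_qd L)).2

/-- rigidity from second moments at arbitrarily far scales -/
theorem rigV {M : ℝ → Measure ℝ} {F : Filter ℝ} (hF : F ≤ atTop) (hC : 2 ≤ C)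
    (hM : ∀ᶠ T in atTop, Bdd C (M T))
    (hE : ∀ᶠ T in atTop, Ev (M T)) {κ : ℝ} (hκ : 0 < κ) (hκ1 : κ ≤ 1)
    (ht : ∀ ψ, Adm κ ψ → Tendsto (fun T => ∫ x, fl ψ x ∂(M T)) atTop (𝓝 (cc ψ)))
    {κ' c : ℝ} (hκ' : 0 < κ') (hc : 0 < c)
    (ho : ∃ᶠ R : ℝ in atTop, ∃ A B : ℝ, ∀ L : ℝ, R ≤ L → L ≤ (1 + c) * R → ∀ ε : ℝ, 0 < ε →
      ∀ᶠ T in F, |mo (M T) L - mo mG L - A - B * L| ≤ Real.exp (-(κ' * R)) + ε) :
    ∀ α β : ℝ, 0 < α → α < β →
      Tendsto (fun T => (M T).real (Icc α β)) F (𝓝 (∫ x in α..β, FF x)) := by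
  intro α β hα hαβ
  rw [tendsto_iff_ultrafilter]
  intro U hU'
  have hU : (U : Filter ℝ) ≤ atTop := le_trans hU' hF
  have hC0 : 0 ≤ C := by linarith
  obtain ⟨μ, hsf, hμ⟩ := exists_limit hC0 hM U hU
  have b1 := bdd_limit hU hC0 hM hμ
  have e1 := ev_limit hU hE hμ
  have hsfG := mG_sf
  have b2 : Bdd (4 * C) mG := fun a => (mG_bdd a).trans (ENNReal.ofReal_le_ofReal (by linarith))
  have hC4 : 0 ≤ 4 * C := by linarith
  have htest : ∀ ψ, Adm κ ψ → ∫ x, fl ψ x ∂μ = ∫ x, fl ψ x ∂mG := by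
    intro ψ hψ
    rw [mG_test hψ hκ1]
    exact tendsto_nhds_unique (hμ _ (fl_cont hψ.int) (fl_qd hψ)).2 ((ht ψ hψ).mono_left hU)
  -- the bound for the limit
  have hlim : ∃ᶠ R : ℝ in atTop, ∃ A B : ℝ, ∀ L : ℝ, R ≤ L → L ≤ (1 + c) * R →
      |mo μ L - mo mG L - A - B * L| ≤ Real.exp (-(κ' * R)) := by
    refine ho.mono ?_
    rintro R ⟨A, B, hR⟩
    refine ⟨A, B, fun L h1 h2 => ?_⟩
    refine le_of_forall_pos_le_add fun ε hε => ?_
    have k1 : Tendsto (fun T => |mo (M T) L - mo mG L - A - B * L|) U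
        (𝓝 |mo μ L - mo mG L - A - B * L|) :=
      ((((mo_lim hμ L).sub_const _).sub_const _).sub_const _).abs
    exact le_of_tendsto k1 (hU' (hR L h1 h2 ε hε))
  refine fam_end hC hM hU hμ (fun b hb => ?_) hα hαβ
  refine wf_of_wm hC4 b1 b2 fun b' hb' => ?_
  obtain ⟨K, hK⟩ : ∃ K : ℝ, K = ((⌈2 * b⌉₊ : ℕ) + 1) * (4 * C) := ⟨_, rfl⟩
  have k1 : Bdd K (wm μ b) := by rw [hK]; exact wm_bdd hC4 b1 b
  have k2 : Bdd K (wm mG b) := by rw [hK]; exact wm_bdd hC4 b2 b
  have hK0 : 0 ≤ K := by rw [hK]; positivity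
  have := wm_sf (μ := μ) b
  have := wm_sf (μ := mG) b
  refine rig3G hK0 k1 k2 (wm_ev hC4 b1 e1 b) (wm_ev hC4 b2 mG_ev b) hκ (fun ψ hψ => ?_)
    (κ' := κ' / 4) (c := c / 2) (by positivity) (by positivity) hb' ?_
  · rw [wm_test hC4 b1 hψ hb.le, wm_test hC4 b2 hψ hb.le]
    exact htest _ (adm_win hψ hb.le)
  have hfr := hlim.and_eventually ((eventually_ge_atTop (b + b')).and
    ((eventually_ge_atTop (2 / (κ' / 2))).and (eventually_ge_atTop (4 * (b + b') / c + (b + b')))))
  refine (tendsto_atTop_add_const_right atTop (b + b') tendsto_id).frequently (hfr.mono ?_)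
  rintro R ⟨⟨A, B, hR⟩, hRb, hRκ, hRc⟩
  simp only [id]
  have hR0 : 0 < R := by linarith
  have hRc' : 4 * (b + b') ≤ c * (R - (b + b')) := by
    have : 4 * (b + b') / c ≤ R - (b + b') := by linarith
    rw [div_le_iff₀ hc] at this
    linarith
  refine ae_of_all _ fun y hy1 hy2 => ?_
  have hy3 : y + b + b' ≤ (1 + c) * R := by nlinarith
  have m1 := wf_mo hC4 b1 e1 hb hb' (show b + b' ≤ y by linarith)
  have m2 := wf_mo hC4 b2 mG_ev hb hb' (show b + b' ≤ y by linarith)
  have w1 : wf (wm μ b) b' y = ∫ x in (y - b')..(y + b'), wf μ b x :=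
    wm_real hC4 b1 b (by linarith)
  have w2 : wf (wm mG b) b' y = ∫ x in (y - b')..(y + b'), wf mG b x :=
    wm_real hC4 b2 b (by linarith)
  have n1 := abs_le.1 (hR (y + b + b') (by linarith) hy3)
  have n2 := abs_le.1 (hR (y + b - b') (by linarith) (by linarith))
  have n3 := abs_le.1 (hR (y - b + b') (by linarith) (by linarith))
  have n4 := abs_le.1 (hR (y - b - b') (by linarith) (by linarith))
  rw [w1, w2]
  have hE2 : 2 * Real.exp (-(κ' * R)) ≤ Real.exp (-(κ' / 4 * (R + (b + b')))) := by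
    have g1 : (2 : ℝ) ≤ Real.exp (κ' / 2 * R) := by
      have : 2 ≤ κ' / 2 * R := by
        rw [div_le_iff₀ (by positivity)] at hRκ
        linarith
      have := Real.add_one_le_exp (κ' / 2 * R)
      linarith
    calc 2 * Real.exp (-(κ' * R)) ≤ Real.exp (κ' / 2 * R) * Real.exp (-(κ' * R)) :=
          mul_le_mul_of_nonneg_right g1 (Real.exp_pos _).le
      _ = Real.exp (-(κ' / 2 * R)) := by rw [← Real.exp_add]; congr 1; ring
      _ ≤ _ := by
          apply Real.exp_le_exp.2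
          nlinarith
  have g2 : |(∫ x in (y - b')..(y + b'), wf μ b x) - ∫ x in (y - b')..(y + b'), wf mG b x| ≤
      2 * Real.exp (-(κ' * R)) := by
    rw [abs_le]
    constructor <;> linarith [n1.1, n1.2, n2.1, n2.2, n3.1, n3.2, n4.1, n4.2]
  exact g2.trans hE2

end Pool.Agent.Q85.Rig
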