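import Pool.Agent.Q85.Rig.Tr
import Pool.Agent.Q85.Rig.Scale
import Pool.Agent.Q85.Rig.Exist
import Pool.Agent.Q85.Rig.Var

/-! # The rigidity theorems along a filter, with the zeros off the line controlled along the filter

The proofs follow those of `rig_zeta2`, `rig_zeta2G`, `zeta_crit`, `zeta_exists`.
-/

set_option autoImplicit false

open MeasureTheory Set Filter Topology

namespace Pool.Agent.Q85.Rig

open Pool.Agent.Y749.Rig

variable {C : ℝ}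

/-- the test function formula along a filter -/
theorem test_F : ∃ κ : ℝ, 0 < κ ∧ κ ≤ 1 / 2 ∧ ∀ ψ : ℝ → ℝ, Adm κ ψ → ∀ F : Filter ℝ, F ≤ atTop →
    (∀ η : ℝ, 0 < η → ∀ᶠ T : ℝ in F, NF T ≤ η * (T * Real.log T)) →
    Tendsto (fun T => ∫ x, fl ψ x ∂(Mp T)) F (𝓝 (cc ψ)) := by
  obtain ⟨κ, hκ, hκ2, ht⟩ := test_pt
  refine ⟨κ, hκ, hκ2, fun ψ hψ F hF hoff => ?_⟩
  rw [Metric.tendsto_nhds]
  intro ε hε
  obtain ⟨η, hη, hev⟩ := ht ψ hψ (ε / 2) (by positivity)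
  filter_upwards [hF hev, hoff η hη] with T h1 h2
  rw [Real.dist_eq]
  have := h1 h2
  linarith

/-- the rigidity theorem for the zeros, for windows of two lengths and along a filter -/
theorem rig_zeta2F {F : Filter ℝ} (hF : F ≤ atTop)
    (hoff : ∀ η : ℝ, 0 < η → ∀ᶠ T : ℝ in F, NF T ≤ η * (T * Real.log T)) {l₁ l₂ : ℝ} (hl₁ : 0 < l₁) (hl₂ : 0 < l₂)
    (hir : Irrational (l₁ / l₂))
    (ho : ∀ l : ℝ, (l = l₁ ∨ l = l₂) → ∃ C' c a₀ : ℝ, 0 < C' ∧ 0 < c ∧ 0 < a₀ ∧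
      ((∀ α : ℝ, a₀ ≤ α → ∀ ε : ℝ, 0 < ε → ∀ᶠ T in F,
      (Mp T).real (Icc α (α + l)) ≤ (∫ x in α..(α + l), FF x) + C' * Real.exp (-(c * α)) + ε) ∨
      (∀ α : ℝ, a₀ ≤ α → ∀ ε : ℝ, 0 < ε → ∀ᶠ T in F,
      (∫ x in α..(α + l), FF x) - C' * Real.exp (-(c * α)) - ε ≤ (Mp T).real (Icc α (α + l))))) :
    ∀ α β : ℝ, 0 < α → α < β →
      Tendsto (fun T => (Mp T).real (Icc α β)) F (𝓝 (∫ x in α..β, FF x)) := by
  obtain ⟨κ, C, hκ, hκ2, hC, hB, hB', hE', ht'⟩ := transfer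
  obtain ⟨C₁, c₁, a₁, hC₁, hc₁, ha₁, h₁⟩ := ho l₁ (Or.inl rfl)
  obtain ⟨C₂, c₂, a₂, hC₂, hc₂, ha₂, h₂⟩ := ho l₂ (Or.inr rfl)
  -- common constants
  obtain ⟨c, hcd⟩ : ∃ c : ℝ, c = min c₁ c₂ := ⟨_, rfl⟩
  have hc : 0 < c := by rw [hcd]; exact lt_min hc₁ hc₂
  obtain ⟨K, hK⟩ : ∃ K : ℝ, K = (l₁ + l₂ + 2) * C * (Real.exp (c * a₁) + Real.exp (c * a₂)) +
    C₁ + C₂ := ⟨_, rfl⟩
  have hC0 : 0 < C := by linarith
  have hK0 : 0 ≤ K := by rw [hK]; positivity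
  -- the extension to all windows
  have key : ∀ l : ℝ, (l = l₁ ∨ l = l₂) → ∀ C' c' a₀ : ℝ, 0 < C' → C' ≤ C₁ + C₂ → c ≤ c' →
      0 < a₀ → (a₀ = a₁ ∨ a₀ = a₂) →
      ((∀ α : ℝ, a₀ ≤ α → ∀ ε : ℝ, 0 < ε → ∀ᶠ T in F,
      (Mp T).real (Icc α (α + l)) ≤ (∫ x in α..(α + l), FF x) + C' * Real.exp (-(c' * α)) + ε) ∨
      (∀ α : ℝ, a₀ ≤ α → ∀ ε : ℝ, 0 < ε → ∀ᶠ T in F,
      (∫ x in α..(α + l), FF x) - C' * Real.exp (-(c' * α)) - ε ≤ (Mp T).real (Icc α (α + l)))) →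
      ((∀ α : ℝ, 0 < α → ∀ ε : ℝ, 0 < ε → ∀ᶠ T in F,
      (Mp T).real (Icc α (α + l)) ≤ (∫ x in α..(α + l), FF x) + K * Real.exp (-(c * α)) + ε) ∨
      (∀ α : ℝ, 0 < α → ∀ ε : ℝ, 0 < ε → ∀ᶠ T in F,
      (∫ x in α..(α + l), FF x) - K * Real.exp (-(c * α)) - ε ≤ (Mp T).real (Icc α (α + l)))) := by
    intro l hl C' c' a₀ hC' hC'' hcc ha₀ haa h
    have hl0 : 0 < l := by rcases hl with rfl | rfl <;> assumption
    have hll : l ≤ l₁ + l₂ := by rcases hl with rfl | rfl <;> linarith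
    -- far windows
    have hfar : ∀ α : ℝ, 0 < α → C' * Real.exp (-(c' * α)) ≤ K * Real.exp (-(c * α)) := by
      intro α hα
      have e1 : Real.exp (-(c' * α)) ≤ Real.exp (-(c * α)) := by
        apply Real.exp_le_exp.2
        nlinarith
      have e2 : C' ≤ K := by
        rw [hK]
        have : 0 ≤ (l₁ + l₂ + 2) * C * (Real.exp (c * a₁) + Real.exp (c * a₂)) := by positivity
        linarith
      exact mul_le_mul e2 e1 (Real.exp_pos _).le hK0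
    -- near windows
    have hnear : ∀ α : ℝ, 0 < α → α < a₀ → (l + 2) * C ≤ K * Real.exp (-(c * α)) := by
      intro α hα hαa
      have e1 : Real.exp (c * a₀) ≤ Real.exp (c * a₁) + Real.exp (c * a₂) := by
        rcases haa with rfl | rfl
        · have := Real.exp_pos (c * a₂); linarith
        · have := Real.exp_pos (c * a₁); linarith
      have e2 : (l + 2) * C * Real.exp (c * a₀) ≤ K := by
        rw [hK]
        have h3 : (l + 2) * C * Real.exp (c * a₀) ≤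
            (l₁ + l₂ + 2) * C * (Real.exp (c * a₁) + Real.exp (c * a₂)) := by
          apply mul_le_mul _ e1 (Real.exp_pos _).le (by positivity)
          exact mul_le_mul_of_nonneg_right (by linarith) hC0.le
        linarith
      have e3 : (l + 2) * C = (l + 2) * C * Real.exp (c * α) * Real.exp (-(c * α)) := by
        rw [mul_assoc ((l + 2) * C), ← Real.exp_add, add_neg_cancel, Real.exp_zero, mul_one]
      rw [e3]
      apply mul_le_mul_of_nonneg_right _ (Real.exp_pos _).le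
      refine le_trans ?_ e2
      apply mul_le_mul_of_nonneg_left _ (by positivity)
      apply Real.exp_le_exp.2
      nlinarith
    rcases h with h | h
    · left
      intro α hα ε hε
      by_cases hαa : a₀ ≤ α
      · filter_upwards [h α hαa ε hε] with T hT
        have := hfar α hα
        linarith
      · push Not at hαa
        filter_upwards [hF hB] with T hT
        have h3 := real_le_len hC0.le hT hl0.le α
        have h4 := hnear α hα hαa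
        have h5 : 0 ≤ ∫ x in α..(α + l), FF x :=
          intervalIntegral.integral_nonneg (by linarith) fun x _ => FF_nonneg x
        linarith
    · right
      intro α hα ε hε
      by_cases hαa : a₀ ≤ α
      · filter_upwards [h α hαa ε hε] with T hT
        have := hfar α hα
        linarith
      · push Not at hαa
        filter_upwards with T
        have h4 := hnear α hα hαa
        have h5 : ∫ x in α..(α + l), FF x ≤ ∫ x in α..(α + l), (1 : ℝ) :=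
          intervalIntegral.integral_mono_on (by linarith) (FF_ii _ _)
            (intervalIntegrable_const) fun x _ => FF_le_one x
        rw [intervalIntegral.integral_const, smul_eq_mul, mul_one] at h5
        have h6 : 0 ≤ (Mp T).real (Icc α (α + l)) := measureReal_nonneg
        nlinarith
  have hu := uT_tend hF hoff
  intro α β hα hαβ
  refine (tend_map hF (f := fun m => m.real (Icc α β))).1 ?_
  refine rigid2F hu hC hB' hE' hκ (by linarith) ht' hK0 hc hl₁ hl₂ hir ?_ α β hα hαβ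
  intro l hl
  have hk : ((∀ α : ℝ, 0 < α → ∀ ε : ℝ, 0 < ε → ∀ᶠ T in F,
      (Mp T).real (Icc α (α + l)) ≤ (∫ x in α..(α + l), FF x) + K * Real.exp (-(c * α)) + ε) ∨
      (∀ α : ℝ, 0 < α → ∀ ε : ℝ, 0 < ε → ∀ᶠ T in F,
      (∫ x in α..(α + l), FF x) - K * Real.exp (-(c * α)) - ε ≤
        (Mp T).real (Icc α (α + l)))) := by
    rcases hl with rfl | rfl
    · exact key _ (Or.inl rfl) C₁ c₁ a₁ hC₁ (by linarith) (by rw [hcd]; exact min_le_left _ _)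
        ha₁ (Or.inl rfl) h₁
    · exact key _ (Or.inr rfl) C₂ c₂ a₂ hC₂ (by linarith) (by rw [hcd]; exact min_le_right _ _)
        ha₂ (Or.inr rfl) h₂
  rcases hk with hk | hk
  · exact Or.inl fun α hα ε hε => (ev_map hF (P := fun m => m.real (Icc α (α + l)) ≤
      (∫ x in α..(α + l), FF x) + K * Real.exp (-(c * α)) + ε)).2 (hk α hα ε hε)
  · exact Or.inr fun α hα ε hε => (ev_map hF (P := fun m => (∫ x in α..(α + l), FF x) -
      K * Real.exp (-(c * α)) - ε ≤ m.real (Icc α (α + l)))).2 (hk α hα ε hε)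


/-- the rigidity theorem for the zeros, for windows at arbitrarily far scales -/
theorem rig_zeta2GF {F : Filter ℝ} (hF : F ≤ atTop)
    (hoff : ∀ η : ℝ, 0 < η → ∀ᶠ T : ℝ in F, NF T ≤ η * (T * Real.log T))
    {l₁ l₂ : ℝ} (hl₁ : 0 < l₁) (hl₂ : 0 < l₂)
    (hir : Irrational (l₁ / l₂))
    (ho : ∀ l : ℝ, (l = l₁ ∨ l = l₂) → ∃ κ' c : ℝ, 0 < κ' ∧ 0 < c ∧
      ∃ᶠ R : ℝ in atTop, ∀ α : ℝ, R ≤ α → α ≤ (1 + c) * R → ∀ ε : ℝ, 0 < ε → ∀ᶠ T in F,
        |(Mp T).real (Icc α (α + l)) - ∫ x in α..(α + l), FF x| ≤ Real.exp (-(κ' * R)) + ε) :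
    ∀ α β : ℝ, 0 < α → α < β →
      Tendsto (fun T => (Mp T).real (Icc α β)) F (𝓝 (∫ x in α..β, FF x)) := by
  obtain ⟨κ, C, hκ, hκ2, hC, hB, hB', hE', ht'⟩ := transfer
  have hu := uT_tend hF hoff
  intro α β hα hαβ
  refine (tend_map hF (f := fun m => m.real (Icc α β))).1 ?_
  refine rigid2G hu hC hB' hE' hκ (by linarith) ht' hl₁ hl₂ hir ?_ α β hα hαβ
  intro l hl
  obtain ⟨κ', c, hκ', hc, h⟩ := ho l hl
  refine ⟨κ', c, hκ', hc, h.mono fun R hR α h1 h2 ε hε => ?_⟩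
  exact (ev_map hF (P := fun m => |m.real (Icc α (α + l)) - ∫ x in α..(α + l), FF x| ≤
    Real.exp (-(κ' * R)) + ε)).2 (hR α h1 h2 ε hε)

/-- rigidity by the second moments, along a filter -/
theorem rigVF {F : Filter ℝ} (hF : F ≤ atTop)
    (hoff : ∀ η : ℝ, 0 < η → ∀ᶠ T : ℝ in F, NF T ≤ η * (T * Real.log T))
    {κ' c : ℝ} (hκ' : 0 < κ') (hc : 0 < c)
    (ho : ∃ᶠ R : ℝ in atTop, ∃ A B : ℝ, ∀ L : ℝ, R ≤ L → L ≤ (1 + c) * R → ∀ ε : ℝ, 0 < ε →
      ∀ᶠ T in F, |mo (Mp T) L - mo mG L - A - B * L| ≤ Real.exp (-(κ' * R)) + ε) :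
    ∀ α β : ℝ, 0 < α → α < β →
      Tendsto (fun T => (Mp T).real (Icc α β)) F (𝓝 (∫ x in α..β, FF x)) := by
  obtain ⟨κ, C, hκ, hκ2, hC, hB, hB', hE', ht'⟩ := transfer
  have hu := uT_tend hF hoff
  intro α β hα hαβ
  refine (tend_map hF (f := fun m => m.real (Icc α β))).1 ?_
  refine rigV hu hC hB' hE' hκ (by linarith) ht' hκ' hc ?_ α β hα hαβ
  refine ho.mono fun R hR => ?_
  obtain ⟨A, B, h⟩ := hR
  refine ⟨A, B, fun L h1 h2 ε hε => ?_⟩
  exact (ev_map hF (P := fun m => |mo m L - mo mG L - A - B * L| ≤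
    Real.exp (-(κ' * R)) + ε)).2 (h L h1 h2 ε hε)

/-- existence of the pair correlation measure of the zeros -/
theorem zeta_existsF {F : Filter ℝ} (hF : F ≤ atTop)
    (hoff : ∀ η : ℝ, 0 < η → ∀ᶠ T : ℝ in F, NF T ≤ η * (T * Real.log T))
    {l₁ l₂ : ℝ} (hl₁ : 0 < l₁) (hl₂ : 0 < l₂)
    (hir : Irrational (l₁ / l₂))
    (ho : ∀ l : ℝ, (l = l₁ ∨ l = l₂) → ∃ κ' c : ℝ, 0 < κ' ∧ 0 < c ∧
      ∃ᶠ R : ℝ in atTop, ∀ α : ℝ, R ≤ α → α ≤ (1 + c) * R → ∃ D : ℝ, ∀ ε : ℝ, 0 < ε →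
        ∀ᶠ T in F, |(Mp T).real (Ioc α (α + l)) - D| ≤ Real.exp (-(κ' * R)) + ε) :
    ∃ (μ : Measure ℝ) (C : ℝ), Bdd C μ ∧ ∀ α β : ℝ, α < β → μ {α} = 0 → μ {β} = 0 →
      Tendsto (fun T => (Mp T).real (Ioc α β)) F (𝓝 (μ.real (Ioc α β))) := by
  obtain ⟨κ, C, hκ, hκ2, hC, hB, hB', hE', ht'⟩ := transfer
  have hu := uT_tend hF hoff
  obtain ⟨μ, h1, h2⟩ := exists_pc hu (by linarith) hB' hE' hκ ht' hl₁ hl₂ hir (by
    intro l hl
    obtain ⟨κ', c, hκ', hc, h⟩ := ho l hl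
    refine ⟨κ', c, hκ', hc, h.mono fun R hR α h1 h2 => ?_⟩
    obtain ⟨D, hD⟩ := hR α h1 h2
    exact ⟨D, fun ε hε => (ev_map hF (P := fun m => |m.real (Ioc α (α + l)) - D| ≤
      Real.exp (-(κ' * R)) + ε)).2 (hD ε hε)⟩)
  exact ⟨μ, 4 * C, h1, fun α β hαβ hα hβ => (tend_map hF (f := fun m => m.real (Ioc α β))).1
    (h2 α β hαβ hα hβ)⟩

/-- **the criterion for the zeros** -/
theorem zeta_critF {F : Filter ℝ} (hF : F ≤ atTop) {C' c a₀ : ℝ} (hC' : 0 ≤ C') (hc : 0 < c) (ha₀ : 0 < a₀)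
    (ho : (∀ a : ℝ, a₀ ≤ a → ∀ ε : ℝ, 0 < ε → ∀ᶠ T in F,
        (∫ x in (0 : ℝ)..a, FF x) - C' * Real.exp (-(c * a)) - ε ≤ NS T a) ∨
      ((∀ ε : ℝ, 0 < ε → ∀ᶠ T in F, DG T ≤ 1 + ε) ∧ ∀ a : ℝ, a₀ ≤ a → ∀ ε : ℝ, 0 < ε → ∀ᶠ T in F,
        NS T a ≤ (∫ x in (0 : ℝ)..a, FF x) + C' * Real.exp (-(c * a)) + ε)) :
    Tendsto DG F (𝓝 1) ∧
    ∀ a : ℝ, 0 < a → Tendsto (fun T => NS T a) F (𝓝 (∫ x in (0 : ℝ)..a, FF x)) := by
  have hoff : ∀ η : ℝ, 0 < η → ∀ᶠ T : ℝ in F, NF T ≤ η * (T * Real.log T) := by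
    rcases ho with ho | ho
    · exact off_of_DG hF (DG_of_lower hF hc ho)
    · exact off_of_DG hF ho.1
  obtain ⟨κ, C, hκ, hκ2, hC, hB, hB', hE', ht'⟩ := transfer
  have hu := uT_tend hF hoff
  have hev : ∀ᶠ T in F, (10 : ℝ) ≤ T := hF (eventually_ge_atTop 10)
  have hos : (∀ a : ℝ, a₀ ≤ a → ∀ ε : ℝ, 0 < ε → ∀ᶠ T in F,
      (Mp T).real (Icc (-a) a) ≤ (1 + 2 * ∫ x in (0 : ℝ)..a, FF x) +
        2 * C' * Real.exp (-(c * a)) + ε) ∨
      (∀ a : ℝ, a₀ ≤ a → ∀ ε : ℝ, 0 < ε → ∀ᶠ T in F,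
      (1 + 2 * ∫ x in (0 : ℝ)..a, FF x) - 2 * C' * Real.exp (-(c * a)) - ε ≤
        (Mp T).real (Icc (-a) a)) := (by
      rcases ho with ho | ⟨ho1, ho2⟩
      · right
        intro a ha ε hε
        filter_upwards [ho a ha (ε / 4) (by positivity), hF (DG_lower (show 0 < ε / 4 by positivity)),
          hev] with T h1 h2 h3
        rw [Mp_sym h3 (by linarith)]
        linarith
      · left
        intro a ha ε hε
        filter_upwards [ho2 a ha (ε / 4) (by positivity), ho1 (ε / 4) (by positivity), hev]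
          with T h1 h2 h3
        rw [Mp_sym h3 (by linarith)]
        linarith)
  have hall : ∀ a : ℝ, 0 < a → Tendsto (fun T => (Mp T).real (Icc (-a) a)) F
      (𝓝 (1 + 2 * ∫ x in (0 : ℝ)..a, FF x)) := by
    intro a ha
    refine (tend_map hF (f := fun m => m.real (Icc (-a) a))).1 ?_
    refine cum_crit hu hC hB' hκ (by linarith) ht' (C' := 2 * C') (c := c) (a₀ := a₀)
      (by positivity) hc ha₀ ?_ a ha
    rcases hos with hk | hk
    · exact Or.inl fun a ha ε hε => (ev_map hF (P := fun m => m.real (Icc (-a) a) ≤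
        (1 + 2 * ∫ x in (0 : ℝ)..a, FF x) + 2 * C' * Real.exp (-(c * a)) + ε)).2 (hk a ha ε hε)
    · exact Or.inr fun a ha ε hε => (ev_map hF (P := fun m => (1 + 2 * ∫ x in (0 : ℝ)..a, FF x) -
        2 * C' * Real.exp (-(c * a)) - ε ≤ m.real (Icc (-a) a))).2 (hk a ha ε hε)
  have hDG : Tendsto DG F (𝓝 1) := by
    rw [Metric.tendsto_nhds]
    intro ε hε
    have h1 := hall (ε / 8) (by positivity)
    have h2 : 1 + 2 * ∫ x in (0 : ℝ)..(ε / 8), FF x ≤ 1 + ε / 4 := by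
      have := gF_le (a := 0) (b := ε / 8) (by positivity)
      rw [intervalIntegral.integral_same] at this
      linarith
    filter_upwards [h1.eventually (eventually_lt_nhds (show 1 + 2 * ∫ x in (0 : ℝ)..(ε / 8), FF x <
      1 + ε / 2 by linarith)), hF (DG_lower (show 0 < ε / 2 by positivity)), hev] with T a1 a2 a3
    rw [Mp_sym a3 (by positivity)] at a1
    have a4 : 0 ≤ NS T (ε / 8) := measureReal_nonneg
    rw [Real.dist_eq, abs_lt]
    constructor <;> linarith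
  refine ⟨hDG, fun a ha => ?_⟩
  have h1 := ((hall a ha).sub hDG).div_const 2
  have h2 : (1 + 2 * (∫ x in (0 : ℝ)..a, FF x) - 1) / 2 = ∫ x in (0 : ℝ)..a, FF x := by ring
  rw [h2] at h1
  refine h1.congr' ?_
  filter_upwards [hev] with T hT
  rw [Mp_sym hT ha.le]
  ring


end Pool.Agent.Q85.Rig
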