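import Pool.Agent.Q85.Rig.Var
import Pool.Agent.Y749.AH.Ix

/-! # The second moment of the number of zeros in short intervals -/

set_option autoImplicit false

open MeasureTheory Set Filter Topology

namespace Pool.Agent.Q85.Rig

open Pool.Agent.Y749.Rig Pool.Agent.Y749.AH
open SG (NZ)

/-- the mean square of the number of zeros in the intervals `(t, t + 2πL / log T]`, `t ≤ T` -/
noncomputable def V2 (T L : ℝ) : ℝ :=
  (∫ t in (0 : ℝ)..T, ((NZ (t + 2 * Real.pi * L / Real.log T) : ℝ) - NZ t) ^ 2) / T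

/-- the indicator of the zeros in a short interval -/
noncomputable def jn (h g t : ℝ) : ℝ := (Ico (g - h) g).indicator (fun _ => (1 : ℝ)) t

lemma jn_nonneg (h g t : ℝ) : 0 ≤ jn h g t := indicator_nonneg (fun _ _ => zero_le_one) _

lemma jn_eq (h g t : ℝ) : jn h g t = if t < g ∧ g ≤ t + h then 1 else 0 := by
  unfold jn
  rw [indicator_apply]
  congr 1
  apply propext
  rw [mem_Ico]
  constructor
  · rintro ⟨h1, h2⟩; exact ⟨h2, by linarith⟩
  · rintro ⟨h1, h2⟩; exact ⟨by linarith, h1⟩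

lemma jn_mul (h g g' t : ℝ) : jn h g t * jn h g' t =
    (Ico (max g g' - h) (min g g')).indicator (fun _ => (1 : ℝ)) t := by
  unfold jn
  simp only [indicator_apply, mem_Ico]
  have h0 : (max g g' - h ≤ t ∧ t < min g g') ↔ (g - h ≤ t ∧ t < g) ∧ (g' - h ≤ t ∧ t < g') := by
    rw [lt_min_iff]
    constructor
    · rintro ⟨a, b, c⟩
      exact ⟨⟨by linarith [le_max_left g g'], b⟩, ⟨by linarith [le_max_right g g'], c⟩⟩
    · rintro ⟨⟨a, b⟩, ⟨c, d⟩⟩
      have := max_le (show g ≤ t + h by linarith) (show g' ≤ t + h by linarith)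
      exact ⟨by linarith, b, d⟩
  by_cases h1 : g - h ≤ t ∧ t < g
  · by_cases h2 : g' - h ≤ t ∧ t < g'
    · rw [if_pos h1, if_pos h2, if_pos (h0.2 ⟨h1, h2⟩), one_mul]
    · rw [if_neg h2, if_neg (fun h3 => h2 (h0.1 h3).2), mul_zero]
  · rw [if_neg h1, if_neg (fun h3 => h1 (h0.1 h3).1), zero_mul]

lemma sum_NZ {x S : ℝ} (h : x ≤ S) : (NZ x : ℝ) = ∑ s ∈ ZZ S, mm s * (if s.im ≤ x then 1 else 0) := by
  classical
  rw [NZ_ZZ]
  push_cast
  simp_rw [mul_ite, mul_one, mul_zero]
  rw [← Finset.sum_filter]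
  refine Finset.sum_congr ?_ fun s _ => rfl
  ext s
  rw [Finset.mem_filter, mem_ZZ, mem_ZZ]
  constructor
  · rintro ⟨h1, h2, h3, h4, h5⟩
    exact ⟨⟨h1, h2, h3, h4, h5.trans h⟩, h5⟩
  · rintro ⟨⟨h1, h2, h3, h4, h5⟩, h6⟩
    exact ⟨h1, h2, h3, h4, h6⟩

lemma NZ_sub {t h S : ℝ} (hh : 0 ≤ h) (hS : t + h ≤ S) :
    (NZ (t + h) : ℝ) - NZ t = ∑ s ∈ ZZ S, mm s * jn h s.im t := by
  rw [sum_NZ hS, sum_NZ (show t ≤ S by linarith), ← Finset.sum_sub_distrib]
  refine Finset.sum_congr rfl fun s _ => ?_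
  rw [← mul_sub, jn_eq]
  congr 1
  by_cases h1 : s.im ≤ t
  · rw [if_pos (by linarith), if_pos h1, if_neg (by rintro ⟨h2, -⟩; linarith), sub_self]
  · by_cases h2 : s.im ≤ t + h
    · rw [if_pos h2, if_neg h1, if_pos ⟨not_le.1 h1, h2⟩, sub_zero]
    · rw [if_neg h2, if_neg h1, if_neg (fun h3 => h2 h3.2), sub_zero]

/-- the overlap -/
noncomputable def ov (T h g g' : ℝ) : ℝ := ∫ t in (0 : ℝ)..T, jn h g t * jn h g' t

lemma jn_ii (h g g' a b : ℝ) : IntervalIntegrable (fun t => jn h g t * jn h g' t) volume a b := by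
  simp_rw [jn_mul]
  refine (intervalIntegrable_const (c := (1 : ℝ))).mono_fun
    ((measurable_const.indicator measurableSet_Ico).aestronglyMeasurable) (ae_of_all _ fun x => ?_)
  simp only [Real.norm_eq_abs, abs_one]
  rw [indicator_apply]
  split_ifs <;> simp

lemma ov_eq {T h g g' : ℝ} (hT : 0 ≤ T) : ov T h g g' =
    volume.real (Ioc 0 T ∩ Ico (max g g' - h) (min g g')) := by
  unfold ov
  simp_rw [jn_mul]
  rw [intervalIntegral.integral_of_le hT, setIntegral_indicator measurableSet_Ico,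
    setIntegral_const, smul_eq_mul, mul_one]

lemma ov_nonneg {T h g g' : ℝ} (hT : 0 ≤ T) : 0 ≤ ov T h g g' := by
  rw [ov_eq hT]; exact measureReal_nonneg

lemma mm_eq (g g' h : ℝ) : min g g' - (max g g' - h) = h - |g - g'| := by
  have := max_sub_min_eq_abs g g'
  rw [abs_sub_comm] at this
  linarith [max_sub_min_eq_abs' g g']

lemma vol_ico (a b : ℝ) : volume.real (Ico a b) = max (b - a) 0 := by
  unfold Measure.real
  rw [Real.volume_Ico]
  rcases le_total 0 (b - a) with h3 | h3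
  · rw [ENNReal.toReal_ofReal h3, max_eq_left h3]
  · rw [ENNReal.ofReal_eq_zero.2 h3, max_eq_right h3]
    rfl

lemma ov_le {T h g g' : ℝ} (hT : 0 ≤ T) : ov T h g g' ≤ max (h - |g - g'|) 0 := by
  rw [ov_eq hT, ← mm_eq, ← vol_ico]
  refine measureReal_mono inter_subset_right ?_
  rw [Real.volume_Ico]
  exact ENNReal.ofReal_ne_top

lemma ov_full {T h g g' : ℝ} (hT : 0 ≤ T) (h1 : h ≤ g) (h3 : g ≤ T) :
    max (h - |g - g'|) 0 ≤ ov T h g g' := by
  rw [ov_eq hT, ← mm_eq, ← vol_ico]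
  have hsub : Ioo (max g g' - h) (min g g') ⊆ Ioc 0 T ∩ Ico (max g g' - h) (min g g') := by
    intro x hx
    have e1 := le_max_left g g'
    have e2 := min_le_left g g'
    exact ⟨⟨by linarith [hx.1], by linarith [hx.2]⟩, ⟨hx.1.le, hx.2⟩⟩
  have e1 : volume.real (Ico (max g g' - h) (min g g')) = volume.real (Ioo (max g g' - h) (min g g')) := by
    unfold Measure.real
    rw [Real.volume_Ico, Real.volume_Ioo]
  rw [e1]
  refine measureReal_mono hsub ?_
  exact ((measure_mono inter_subset_left).trans_lt (by rw [Real.volume_Ioc]; exact ENNReal.ofReal_lt_top)).ne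

lemma ov_top {T h g g' : ℝ} (hT : 0 ≤ T) (hh : 0 ≤ h) (h1 : T < g) :
    ov T h g g' ≤ h * ((if T - h < g then 1 else 0) * (if T - h < g' then 1 else 0)) := by
  rw [if_pos (by linarith), one_mul]
  by_cases h2 : T - h < g'
  · rw [if_pos h2, mul_one]
    refine (ov_le hT).trans (max_le ?_ hh)
    linarith [abs_nonneg (g - g')]
  · rw [if_neg h2, mul_zero, ov_eq hT]
    have : Ioc 0 T ∩ Ico (max g g' - h) (min g g') = ∅ := by
      ext x
      simp only [mem_inter_iff, mem_Ioc, mem_Ico, mem_empty_iff_false, iff_false]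
      rintro ⟨⟨a1, a2⟩, ⟨a3, a4⟩⟩
      have e1 := le_max_left g g'
      have e2 := min_le_right g g'
      linarith
    rw [this]
    simp

lemma ov_comm (T h g g' : ℝ) : ov T h g g' = ov T h g' g := by
  unfold ov
  simp_rw [mul_comm]

lemma V2_sum {T h : ℝ} (hT : 0 ≤ T) (hh : 0 ≤ h) (hh1 : h ≤ 1) :
    ∫ t in (0 : ℝ)..T, ((NZ (t + h) : ℝ) - NZ t) ^ 2 =
      ∑ s ∈ ZZ (T + 1), ∑ s' ∈ ZZ (T + 1), mm s * mm s' * ov T h s.im s'.im := by
  have e1 : ∀ t ∈ uIcc 0 T, ((NZ (t + h) : ℝ) - NZ t) ^ 2 =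
      ∑ s ∈ ZZ (T + 1), ∑ s' ∈ ZZ (T + 1), mm s * mm s' * (jn h s.im t * jn h s'.im t) := by
    intro t ht
    rw [uIcc_of_le hT] at ht
    rw [NZ_sub hh (show t + h ≤ T + 1 by linarith [ht.2]), sq, Finset.sum_mul_sum]
    refine Finset.sum_congr rfl fun s _ => Finset.sum_congr rfl fun s' _ => ?_
    ring
  have hi : ∀ s s' : ℂ, IntervalIntegrable
      (fun t => mm s * mm s' * (jn h s.im t * jn h s'.im t)) volume 0 T := fun s s' =>
    (jn_ii h s.im s'.im 0 T).const_mul _
  rw [intervalIntegral.integral_congr e1, intervalIntegral.integral_finset_sum]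
  · refine Finset.sum_congr rfl fun s _ => ?_
    rw [intervalIntegral.integral_finset_sum]
    · refine Finset.sum_congr rfl fun s' _ => ?_
      rw [intervalIntegral.integral_const_mul]
      rfl
    · intro s' _
      exact hi s s'
  · intro s _
    have := IntervalIntegrable.sum (ZZ (T + 1)) (fun s' _ => hi s s')
    refine this.congr ?_
    intro t _
    simp

lemma mo_sum {T : ℝ} (hT : 10 ≤ T) (L : ℝ) : mo (Mp T) L * T =
    ∑ s ∈ ZZ T, ∑ s' ∈ ZZ T, mm s * mm s' *
      max (2 * Real.pi * L / Real.log T - |s.im - s'.im|) 0 := by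
  have hpi := Real.pi_pos
  have hL := one_lt_log (show 3 ≤ T by linarith)
  have hL0 : 0 < Real.log T := by linarith
  have hT0 : 0 < T := by linarith
  unfold mo
  rw [Mp_integral hT]
  unfold RR
  rw [div_mul_eq_mul_div, Finset.sum_mul, Finset.sum_div]
  refine Finset.sum_congr rfl fun s _ => ?_
  rw [Finset.sum_mul, Finset.sum_div]
  refine Finset.sum_congr rfl fun s' _ => ?_
  have e1 : max (2 * Real.pi * L / Real.log T - |s.im - s'.im|) 0 =
      2 * Real.pi / Real.log T * max (L - |(s.im - s'.im) * Real.log T / (2 * Real.pi)|) 0 := by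
    rw [mul_max_of_nonneg _ _ (by positivity), mul_zero]
    congr 1
    rw [abs_div, abs_mul, abs_of_pos hL0, abs_of_pos (show 0 < 2 * Real.pi by positivity)]
    field_simp
  rw [e1]
  unfold nT
  field_simp

lemma im_lower' : ∃ δ : ℝ, 0 < δ ∧ ∀ T : ℝ, ∀ s ∈ ZZ T, δ ≤ s.im := by
  classical
  rcases (ZZ 1).eq_empty_or_nonempty with h | h
  · refine ⟨1, one_pos, fun T s hs => ?_⟩
    by_contra hcon
    push Not at hcon
    have : s ∈ ZZ 1 := by
      rw [mem_ZZ] at hs ⊢
      exact ⟨hs.1, hs.2.1, hs.2.2.1, hs.2.2.2.1, hcon.le⟩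
    rw [h] at this
    exact absurd this (Finset.notMem_empty _)
  · obtain ⟨s₀, hs₀, hmin⟩ := Finset.exists_min_image _ (fun s : ℂ => s.im) h
    refine ⟨min 1 s₀.im, lt_min one_pos (zs_im_pos (mem_ZZ.1 hs₀)), fun T s hs => ?_⟩
    rcases le_or_gt s.im 1 with h1 | h1
    · refine (min_le_right _ _).trans (hmin s ?_)
      rw [mem_ZZ] at hs ⊢
      exact ⟨hs.1, hs.2.1, hs.2.2.1, hs.2.2.2.1, h1⟩
    · exact (min_le_left _ _).trans h1.le

lemma top_count : ∃ C : ℝ, 0 < C ∧ ∀ T : ℝ, 3 ≤ T →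
    (NZ (T + 1) : ℝ) - NZ (T - 1) ≤ C * Real.log T := by
  obtain ⟨C, hC, hz⟩ := H370.zcount H370.good_zeta
  refine ⟨C, hC, fun T hT => ?_⟩
  have h1 := SG.NZ_le_add (T - 1) (T + 1) (by linarith)
  have h2 := hz T hT
  have h3 : (NZ (T + 1) : ℝ) ≤ NZ (T - 1) + H370.NN riemannZeta (T - 1) (T + 1) := by
    exact_mod_cast h1
  linarith

/-- **The second moments of the number of zeros in short intervals.** -/
theorem V2_close {L : ℝ} (hL : 0 ≤ L) {ε : ℝ} (hε : 0 < ε) :
    ∀ᶠ T in atTop, |V2 T L - mo (Mp T) L| ≤ ε := by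
  classical
  have hpi := Real.pi_pos
  obtain ⟨δ, hδ, hlow⟩ := im_lower'
  obtain ⟨C, hC, htop⟩ := top_count
  have hlim : Tendsto (fun T : ℝ => 2 * Real.pi * L * C ^ 2 * (Real.log T / T)) atTop (𝓝 0) := by
    have h1 : Tendsto (fun T : ℝ => Real.log T / T) atTop (𝓝 0) := by
      have := Real.isLittleO_log_id_atTop.tendsto_div_nhds_zero
      simpa using this
    have h2 := h1.const_mul (2 * Real.pi * L * C ^ 2)
    rwa [mul_zero] at h2
  filter_upwards [eventually_ge_atTop 10,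
    Real.tendsto_log_atTop.eventually_ge_atTop (2 * Real.pi * L / (min δ 1)),
    hlim.eventually (eventually_le_nhds hε)] with T hT hT2 hT3
  have hlog := one_lt_log (show 3 ≤ T by linarith)
  have hlog0 : 0 < Real.log T := by linarith
  have hT0 : 0 < T := by linarith
  have hm : 0 < min δ 1 := lt_min hδ one_pos
  obtain ⟨h, hh⟩ : ∃ h : ℝ, h = 2 * Real.pi * L / Real.log T := ⟨_, rfl⟩
  have hh0 : 0 ≤ h := by rw [hh]; positivity
  have hhm : h ≤ min δ 1 := by
    rw [hh, div_le_iff₀ hlog0]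
    rw [div_le_iff₀ hm] at hT2
    linarith
  have hhδ : h ≤ δ := hhm.trans (min_le_left _ _)
  have hh1 : h ≤ 1 := hhm.trans (min_le_right _ _)
  have hsub : ZZ T ⊆ ZZ (T + 1) := ZZ_mono (by linarith)
  have hV : V2 T L * T = ∑ s ∈ ZZ (T + 1), ∑ s' ∈ ZZ (T + 1), mm s * mm s' * ov T h s.im s'.im := by
    unfold V2
    rw [div_mul_cancel₀ _ hT0.ne', ← hh]
    exact V2_sum hT0.le hh0 hh1
  have hM := mo_sum hT L
  rw [← hh] at hM
  have hnn : ∀ s s' : ℂ, 0 ≤ mm s * mm s' * ov T h s.im s'.im := fun s s' =>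
    mul_nonneg (mul_nonneg (mm_nonneg _) (mm_nonneg _)) (ov_nonneg hT0.le)
  have hlower : mo (Mp T) L * T ≤ V2 T L * T := by
    rw [hV, hM]
    calc ∑ s ∈ ZZ T, ∑ s' ∈ ZZ T, mm s * mm s' * max (h - |s.im - s'.im|) 0
        ≤ ∑ s ∈ ZZ T, ∑ s' ∈ ZZ T, mm s * mm s' * ov T h s.im s'.im := by
          refine Finset.sum_le_sum fun s hs => Finset.sum_le_sum fun s' _ => ?_
          apply mul_le_mul_of_nonneg_left _ (mul_nonneg (mm_nonneg _) (mm_nonneg _))
          exact ov_full hT0.le (hhδ.trans (hlow T s hs)) (mem_ZZ.1 hs).2.2.2.2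
      _ ≤ ∑ s ∈ ZZ T, ∑ s' ∈ ZZ (T + 1), mm s * mm s' * ov T h s.im s'.im :=
          Finset.sum_le_sum fun s _ => Finset.sum_le_sum_of_subset_of_nonneg hsub
            fun s' _ _ => hnn s s'
      _ ≤ _ := Finset.sum_le_sum_of_subset_of_nonneg hsub fun s _ _ =>
            Finset.sum_nonneg fun s' _ => hnn s s'
  have hupper : V2 T L * T ≤ mo (Mp T) L * T + h * (C * Real.log T) ^ 2 := by
    have e1 : ∀ s ∈ ZZ (T + 1), ∀ s' ∈ ZZ (T + 1), mm s * mm s' * ov T h s.im s'.im ≤
        (if s.im ≤ T then (if s'.im ≤ T then mm s * mm s' * max (h - |s.im - s'.im|) 0 else 0)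
          else 0) + h * ((mm s * (if T - h < s.im then 1 else 0)) *
            (mm s' * (if T - h < s'.im then 1 else 0))) := by
      intro s _ s' _
      have hmm : 0 ≤ mm s * mm s' := mul_nonneg (mm_nonneg _) (mm_nonneg _)
      have hr : h * ((mm s * (if T - h < s.im then 1 else 0)) *
            (mm s' * (if T - h < s'.im then 1 else 0))) = mm s * mm s' *
              (h * ((if T - h < s.im then 1 else 0) * (if T - h < s'.im then 1 else 0))) := by ring
      rw [hr]
      have hr0 : 0 ≤ h * ((if T - h < s.im then (1 : ℝ) else 0) *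
          (if T - h < s'.im then 1 else 0)) := by
        split_ifs <;> simp [hh0]
      have hr1 := mul_nonneg hmm hr0
      by_cases h1 : s.im ≤ T
      · rw [if_pos h1]
        by_cases h2 : s'.im ≤ T
        · rw [if_pos h2]
          have := mul_le_mul_of_nonneg_left (ov_le (T := T) (h := h) (g := s.im) (g' := s'.im)
            hT0.le) hmm
          linarith
        · rw [if_neg h2, zero_add]
          apply mul_le_mul_of_nonneg_left _ hmm
          rw [ov_comm, mul_comm (if T - h < s.im then (1 : ℝ) else 0)]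
          exact ov_top hT0.le hh0 (not_le.1 h2)
      · rw [if_neg h1, zero_add]
        exact mul_le_mul_of_nonneg_left (ov_top hT0.le hh0 (not_le.1 h1)) hmm
    have e2 : V2 T L * T ≤ (∑ s ∈ ZZ (T + 1), ∑ s' ∈ ZZ (T + 1),
        (if s.im ≤ T then (if s'.im ≤ T then mm s * mm s' * max (h - |s.im - s'.im|) 0 else 0)
          else 0)) + h * ((∑ s ∈ ZZ (T + 1), mm s * (if T - h < s.im then 1 else 0)) *
            ∑ s' ∈ ZZ (T + 1), mm s' * (if T - h < s'.im then 1 else 0)) := by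
      rw [hV, Finset.sum_mul_sum, Finset.mul_sum, ← Finset.sum_add_distrib]
      refine Finset.sum_le_sum fun s hs => ?_
      rw [Finset.mul_sum, ← Finset.sum_add_distrib]
      exact Finset.sum_le_sum fun s' hs' => e1 s hs s' hs'
    have hfil : (ZZ (T + 1)).filter (fun s => s.im ≤ T) = ZZ T := by
      ext s
      rw [Finset.mem_filter, mem_ZZ, mem_ZZ]
      constructor
      · rintro ⟨⟨a1, a2, a3, a4, a5⟩, a6⟩
        exact ⟨a1, a2, a3, a4, a6⟩
      · rintro ⟨a1, a2, a3, a4, a5⟩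
        exact ⟨⟨a1, a2, a3, a4, by linarith⟩, a5⟩
    have e3 : (∑ s ∈ ZZ (T + 1), ∑ s' ∈ ZZ (T + 1),
        (if s.im ≤ T then (if s'.im ≤ T then mm s * mm s' * max (h - |s.im - s'.im|) 0 else 0)
          else 0)) = mo (Mp T) L * T := by
      rw [hM]
      have : ∀ s ∈ ZZ (T + 1), (∑ s' ∈ ZZ (T + 1),
        (if s.im ≤ T then (if s'.im ≤ T then mm s * mm s' * max (h - |s.im - s'.im|) 0 else 0)
          else 0)) = if s.im ≤ T then ∑ s' ∈ ZZ T, mm s * mm s' * max (h - |s.im - s'.im|) 0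
            else 0 := by
        intro s _
        by_cases h1 : s.im ≤ T
        · simp only [if_pos h1]
          rw [← Finset.sum_filter, hfil]
        · simp only [if_neg h1]
          exact Finset.sum_const_zero
      rw [Finset.sum_congr rfl this, ← Finset.sum_filter, hfil]
    have e4 : ∑ s ∈ ZZ (T + 1), mm s * (if T - h < s.im then 1 else 0) ≤ C * Real.log T := by
      refine le_trans ?_ (htop T (by linarith))
      have e5 : (NZ (T + 1) : ℝ) - NZ (T - 1) = ∑ s ∈ ZZ (T + 1), mm s * jn 2 s.im (T - 1) := by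
        have := NZ_sub (t := T - 1) (h := 2) (S := T + 1) (by norm_num) (by linarith)
        rwa [show T - 1 + 2 = T + 1 by ring] at this
      rw [e5]
      refine Finset.sum_le_sum fun s hs => ?_
      apply mul_le_mul_of_nonneg_left _ (mm_nonneg _)
      rw [jn_eq]
      by_cases h1 : T - h < s.im
      · rw [if_pos h1, if_pos ⟨by linarith, by linarith [(mem_ZZ.1 hs).2.2.2.2]⟩]
      · rw [if_neg h1]
        split_ifs <;> norm_num
    have e6 : 0 ≤ ∑ s ∈ ZZ (T + 1), mm s * (if T - h < s.im then 1 else 0) :=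
      Finset.sum_nonneg fun s _ => mul_nonneg (mm_nonneg _) (by split_ifs <;> norm_num)
    rw [e3] at e2
    refine e2.trans ?_
    have := mul_le_mul e4 e4 e6 (by positivity)
    have := mul_le_mul_of_nonneg_left this hh0
    rw [sq]
    linarith
  have hfin : h * (C * Real.log T) ^ 2 ≤ ε * T := by
    have e1 : h * (C * Real.log T) ^ 2 = 2 * Real.pi * L * C ^ 2 * (Real.log T / T) * T := by
      rw [hh]; field_simp
    rw [e1]
    exact mul_le_mul_of_nonneg_right hT3 hT0.le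
  rw [abs_le]
  constructor
  · nlinarith
  · nlinarith

end Pool.Agent.Q85.Rig
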