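import Pool.Agent.Q85.Rig.Fil
import Pool.Agent.Q85.Rig.Var2
import Pool.Agent.Q85.Rig.Dual2

/-! # From the pair correlation conjecture to second moments and to weak convergence -/

set_option autoImplicit false

open MeasureTheory Set Filter Topology
open scoped ENNReal

namespace Pool.Agent.Q85.Rig

open Pool.Agent.Y749.Rig

/-- monotone functions which converge to a Lipschitz function converge locally uniformly -/
lemma polya {g : ℝ → ℝ → ℝ} {f : ℝ → ℝ} {l : Filter ℝ} (hm : ∀ T, Monotone (g T))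
    (hf : ∀ x y, x ≤ y → f y - f x ≤ y - x) (hf0 : Monotone f)
    (h : ∀ a : ℝ, 0 ≤ a → Tendsto (fun T => g T a) l (𝓝 (f a))) (L : ℝ) {ε : ℝ} (hε : 0 < ε) :
    ∀ᶠ T in l, ∀ a ∈ Icc (0 : ℝ) L, |g T a - f a| ≤ ε := by
  obtain ⟨δ, hδ⟩ : ∃ δ : ℝ, δ = ε / 2 := ⟨_, rfl⟩
  have hδ0 : 0 < δ := by rw [hδ]; positivity
  obtain ⟨n, hn⟩ := exists_nat_gt (L / δ)
  rw [div_lt_iff₀ hδ0] at hn
  have hgrid : ∀ᶠ T in l, ∀ k ∈ Finset.range (n + 1), |g T (k * δ) - f (k * δ)| ≤ δ := by
    rw [Filter.eventually_all_finset]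
    intro k _
    have h1 := h (k * δ) (by positivity)
    rw [Metric.tendsto_nhds] at h1
    filter_upwards [h1 δ hδ0] with T hT
    rw [Real.dist_eq] at hT
    exact hT.le
  filter_upwards [hgrid] with T hT a ha
  obtain ⟨k, hk⟩ : ∃ k : ℕ, k = ⌊a / δ⌋₊ := ⟨_, rfl⟩
  have hq0 : 0 ≤ a / δ := div_nonneg ha.1 hδ0.le
  have hk1 : (k : ℝ) * δ ≤ a := by
    have := Nat.floor_le hq0
    rw [← hk, le_div_iff₀ hδ0] at this
    exact this
  have hk2 : a < ((k : ℝ) + 1) * δ := by
    have := Nat.lt_floor_add_one (a / δ)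
    rw [← hk, div_lt_iff₀ hδ0] at this
    exact this
  have hkn : k < n := by
    have h3 : (k : ℝ) * δ < n * δ := by linarith [ha.2]
    exact_mod_cast lt_of_mul_lt_mul_right h3 hδ0.le
  have a1 := abs_le.1 (hT k (Finset.mem_range.2 (by omega)))
  have a2 := abs_le.1 (hT (k + 1) (Finset.mem_range.2 (by omega)))
  push_cast at a2
  have b1 : g T (k * δ) ≤ g T a := hm T hk1
  have b2 : g T a ≤ g T (((k : ℝ) + 1) * δ) := hm T hk2.le
  have c1 := hf _ _ hk1
  have c2 := hf _ _ hk2.le
  have c3 : f (k * δ) ≤ f a := hf0 hk1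
  have c4 : f a ≤ f (((k : ℝ) + 1) * δ) := hf0 hk2.le
  have e : ((k : ℝ) + 1) * δ = k * δ + δ := by ring
  have d1 : f a - f (k * δ) ≤ δ := by linarith
  have d2 : f (((k : ℝ) + 1) * δ) - f a ≤ δ := by linarith
  rw [abs_le]
  constructor <;> linarith

/-- the limits of the second moments -/
theorem mo_fwd {l : Filter ℝ} (hl : l ≤ atTop) (hD : Tendsto DG l (𝓝 1))
    (hN : ∀ a : ℝ, 0 < a → Tendsto (fun T => NS T a) l (𝓝 (∫ x in (0 : ℝ)..a, FF x)))
    {L : ℝ} (hL : 0 ≤ L) : Tendsto (fun T => mo (Mp T) L) l (𝓝 (mo mG L)) := by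
  obtain ⟨C, hC, hB⟩ := Mp_bdd
  have hsfG := mG_sf
  have hmono : Monotone fun a : ℝ => ∫ x in (0 : ℝ)..a, FF x := by
    intro a b hab
    have := intervalIntegral.integral_add_adjacent_intervals (FF_ii 0 a) (FF_ii a b)
    have h2 : 0 ≤ ∫ x in a..b, FF x :=
      intervalIntegral.integral_nonneg hab fun x _ => FF_nonneg x
    simp only
    linarith
  have hG : mo mG L = L * 1 + 2 * ∫ a in (0 : ℝ)..L, ∫ x in (0 : ℝ)..a, FF x := by
    rw [mo_cake mG_bdd hL]
    have e : ∀ a ∈ uIcc 0 L, cu mG a = 2 * (∫ x in (0 : ℝ)..a, FF x) + 1 := by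
      intro a ha
      rw [uIcc_of_le hL] at ha
      unfold cu
      rw [abs_of_nonneg ha.1, mG_sym ha.1]
      ring
    rw [intervalIntegral.integral_congr e, intervalIntegral.integral_add
      (hmono.intervalIntegrable.const_mul _) (by simp), intervalIntegral.integral_const_mul,
      intervalIntegral.integral_const, smul_eq_mul]
    ring
  have hI : Tendsto (fun T => ∫ a in (0 : ℝ)..L, NS T a) l
      (𝓝 (∫ a in (0 : ℝ)..L, ∫ x in (0 : ℝ)..a, FF x)) := by
    rw [Metric.tendsto_nhds]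
    intro ε hε
    have hε' : 0 < ε / (L + 1) := by positivity
    have hp := polya (g := NS) (f := fun a => ∫ x in (0 : ℝ)..a, FF x) (l := l) NS_mono
      (fun x y hxy => by
        have := gF_le hxy
        linarith) hmono (fun a ha => by
        rcases ha.eq_or_lt with h | h
        · rw [← h]
          have : ∀ T, NS T 0 = 0 := fun T => by unfold NS; simp
          simp only [this, intervalIntegral.integral_same]
          exact tendsto_const_nhds
        · exact hN a h) L (show 0 < ε / (2 * (L + 1)) by positivity)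
    filter_upwards [hp] with T hT
    rw [Real.dist_eq, ← intervalIntegral.integral_sub (NS_mono T).intervalIntegrable
      hmono.intervalIntegrable]
    have h1 := intervalIntegral.norm_integral_le_of_norm_le_const (a := 0) (b := L)
      (f := fun a => NS T a - ∫ x in (0 : ℝ)..a, FF x) (C := ε / (2 * (L + 1))) (fun a ha => by
        rw [uIoc_of_le hL] at ha
        rw [Real.norm_eq_abs]
        exact hT a ⟨ha.1.le, ha.2⟩)
    rw [Real.norm_eq_abs, sub_zero, abs_of_nonneg hL] at h1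
    refine lt_of_le_of_lt h1 ?_
    rw [div_mul_eq_mul_div, div_lt_iff₀ (by positivity)]
    nlinarith
  rw [hG]
  refine ((hD.const_mul L).add (hI.const_mul 2)).congr' ?_
  filter_upwards [hl hB, hl (eventually_ge_atTop 10)] with T h1 h2
  rw [NS_cake h2 h1 hL]

end Pool.Agent.Q85.Rig
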