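import Pool.Agent.Q85.Rig.Exist
import Pool.Agent.Q85.Rig.CumF
import Pool.Agent.Y749.AH.Gap2

/-! # Nearest neighbours and non-adjacent pairs -/

set_option autoImplicit false

open MeasureTheory Set Filter Topology
open scoped NNReal ENNReal

namespace Pool.Agent.Q85.Rig

open Pool.Agent.Y749.Rig Pool.Agent.Y749.AH
open SG (ord NZ)

variable {C : ℝ}

/-- the symmetric windows in the situation of `rigid2F` -/
theorem rigid2W {M : ℝ → Measure ℝ} {F : Filter ℝ} (hF : F ≤ atTop) (hC : 2 ≤ C)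
    (hM : ∀ᶠ T in atTop, Bdd C (M T))
    (hE : ∀ᶠ T in atTop, Ev (M T)) {κ : ℝ} (hκ : 0 < κ) (hκ1 : κ ≤ 1)
    (ht : ∀ ψ, Adm κ ψ → Tendsto (fun T => ∫ x, fl ψ x ∂(M T)) atTop (𝓝 (cc ψ)))
    {C' c : ℝ} (hC' : 0 ≤ C') (hc : 0 < c) {l₁ l₂ : ℝ} (hl₁ : 0 < l₁) (hl₂ : 0 < l₂)
    (hir : Irrational (l₁ / l₂))
    (ho : ∀ l : ℝ, (l = l₁ ∨ l = l₂) → ((∀ α : ℝ, 0 < α → ∀ ε : ℝ, 0 < ε → ∀ᶠ T in F,
      (M T).real (Icc α (α + l)) ≤ (∫ x in α..(α + l), FF x) + C' * Real.exp (-(c * α)) + ε) ∨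
      (∀ α : ℝ, 0 < α → ∀ ε : ℝ, 0 < ε → ∀ᶠ T in F,
      (∫ x in α..(α + l), FF x) - C' * Real.exp (-(c * α)) - ε ≤ (M T).real (Icc α (α + l))))) :
    ∀ a : ℝ, 0 < a → Tendsto (fun T => (M T).real (Icc (-a) a)) F
      (𝓝 (1 + 2 * ∫ x in (0 : ℝ)..a, FF x)) := by
  intro a ha
  rw [tendsto_iff_ultrafilter]
  intro U hU'
  have hU : (U : Filter ℝ) ≤ atTop := le_trans hU' hF
  have hC0 : 0 ≤ C := by linarith
  obtain ⟨μ, hsf, hμ⟩ := exists_limit hC0 hM U hU
  have b1 := bdd_limit hU hC0 hM hμ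
  have hsfG := mG_sf
  have b2 : Bdd (4 * C) mG := fun a => (mG_bdd a).trans (ENNReal.ofReal_le_ofReal (by linarith))
  have key : ∀ l, (l = l₁ ∨ l = l₂) → 0 < l → ∀ᵐ x : ℝ, wf μ (l / 2) x = wf mG (l / 2) x := by
    intro l hl hl0
    refine one_lenU hC hM hE hU hμ hκ hκ1 ht hC' hc hl0 ?_
    rcases ho l hl with h | h
    · exact Or.inl fun α hα ε hε => hU' (h α hα ε hε)
    · exact Or.inr fun α hα ε hε => hU' (h α hα ε hε)
  have w1 := key l₁ (Or.inl rfl) hl₁
  have w2 := key l₂ (Or.inr rfl) hl₂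
  have hir2 : Irrational (l₁ / 2 / (l₂ / 2)) := by
    rwa [div_div_div_cancel_right₀ two_ne_zero]
  have hall := fun b (hb : 0 < b) => two_len b1 b2 (by positivity) (by positivity) hir2 w1 w2 hb
  refine cum_lim hC hM hU hμ (ae_of_all _ fun x => ?_) ha
  unfold cu
  exact win_eq b1 b2 hall (by have := abs_nonneg x; linarith)

/-- the number of adjacent pairs with normalised difference in `[a, b]` -/
noncomputable def adjC (T a b : ℝ) : ℕ := by
  classical exact ((II T).filter (fun j => j + 1 ∈ II T ∧ a ≤ xx T (j + 1) j ∧ xx T (j + 1) j ≤ b)).card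

/-- the number of non-adjacent pairs with normalised difference in `[a, b]` -/
noncomputable def nonC (T a b : ℝ) : ℕ := by
  classical exact (((II T) ×ˢ (II T)).filter (fun p : ℕ × ℕ => p.2 + 2 ≤ p.1 ∧
    a ≤ xx T p.1 p.2 ∧ xx T p.1 p.2 ≤ b)).card

/-- all pairs are adjacent or non-adjacent -/
lemma Mp_split (hRH : RiemannHypothesis) {T : ℝ} (hT : 10 ≤ T) {a : ℝ} (ha : 0 < a) (b : ℝ) :
    (Mp T).real (Icc a b) * nT T = adjC T a b + nonC T a b := by
  classical
  have hn := nT_pos hT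
  rw [Mp_card hRH hT measurableSet_Icc, div_mul_cancel₀ _ hn.ne']
  have h1 : ((II T) ×ˢ (II T)).filter (fun p : ℕ × ℕ => xx T p.1 p.2 ∈ Icc a b) =
      ((II T).filter (fun j => j + 1 ∈ II T ∧ a ≤ xx T (j + 1) j ∧ xx T (j + 1) j ≤ b)).image
        (fun j => (j + 1, j)) ∪
      ((II T) ×ˢ (II T)).filter (fun p : ℕ × ℕ => p.2 + 2 ≤ p.1 ∧
        a ≤ xx T p.1 p.2 ∧ xx T p.1 p.2 ≤ b) := by
    ext ⟨i, j⟩
    rw [Finset.mem_union, Finset.mem_image, Finset.mem_filter, Finset.mem_filter,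
      Finset.mem_product]
    simp only [mem_Icc]
    constructor
    · rintro ⟨⟨hi, hj⟩, hx1, hx2⟩
      have hji : j < i := by
        by_contra hcon
        push Not at hcon
        have h2 := xx_nonneg (by linarith : 1 ≤ T) (mem_II.1 hi).1 hcon
        rw [xx_neg] at h2
        linarith
      rcases Nat.lt_or_ge i (j + 2) with h3 | h3
      · left
        have : i = j + 1 := by omega
        subst this
        refine ⟨j, ?_, rfl⟩
        rw [Finset.mem_filter]
        exact ⟨hj, hi, hx1, hx2⟩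
      · right
        exact ⟨⟨hi, hj⟩, h3, hx1, hx2⟩
    · rintro (⟨j', hj', heq⟩ | ⟨h1, h2, h3⟩)
      · rw [Finset.mem_filter] at hj'
        simp only [Prod.mk.injEq] at heq
        obtain ⟨rfl, rfl⟩ := heq
        exact ⟨⟨hj'.2.1, hj'.1⟩, hj'.2.2⟩
      · exact ⟨h1, h3⟩
  rw [h1, Finset.card_union_of_disjoint, Finset.card_image_of_injective]
  · push_cast
    rfl
  · intro x y hxy
    simpa using hxy
  · rw [Finset.disjoint_left]
    rintro ⟨i, j⟩ h2 h3
    rw [Finset.mem_image] at h2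
    rw [Finset.mem_filter] at h3
    obtain ⟨j', -, heq⟩ := h2
    simp only [Prod.mk.injEq] at heq
    have := h3.2.1
    simp only at this
    omega

/-- the adjacent pairs with small difference -/
lemma adj_small (hRH : RiemannHypothesis) {T : ℝ} (hT : 10 ≤ T) {s : ℝ} (hs : 0 ≤ s) :
    2 * (adjC T 0 s : ℝ) + NZ T ≤ (Mp T).real (Icc (-s) s) * nT T := by
  classical
  have hn := nT_pos hT
  rw [Mp_card hRH hT measurableSet_Icc, div_mul_cancel₀ _ hn.ne']
  obtain ⟨A, hA⟩ : ∃ A : Finset ℕ, A = (II T).filter (fun j => j + 1 ∈ II T ∧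
    0 ≤ xx T (j + 1) j ∧ xx T (j + 1) j ≤ s) := ⟨_, rfl⟩
  have hAc : adjC T 0 s = A.card := by
    unfold adjC
    rw [hA]
  have hmem : ∀ j ∈ A, j ∈ II T ∧ j + 1 ∈ II T ∧ 0 ≤ xx T (j + 1) j ∧ xx T (j + 1) j ≤ s := by
    intro j hj
    rw [hA, Finset.mem_filter] at hj
    exact hj
  have hsub : (II T).image (fun j => (j, j)) ∪ (A.image (fun j => (j + 1, j)) ∪
      A.image (fun j => (j, j + 1))) ⊆
      ((II T) ×ˢ (II T)).filter (fun p : ℕ × ℕ => xx T p.1 p.2 ∈ Icc (-s) s) := by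
    intro p hp
    rw [Finset.mem_union, Finset.mem_union, Finset.mem_image, Finset.mem_image,
      Finset.mem_image] at hp
    rw [Finset.mem_filter, Finset.mem_product]
    rcases hp with ⟨j, hj, rfl⟩ | ⟨j, hj, rfl⟩ | ⟨j, hj, rfl⟩
    · refine ⟨⟨hj, hj⟩, ?_⟩
      have : xx T j j = 0 := by unfold xx; simp
      simp only [this]
      exact ⟨by linarith, hs⟩
    · obtain ⟨h1, h2, h3, h4⟩ := hmem j hj
      exact ⟨⟨h2, h1⟩, by simp only; linarith, h4⟩
    · obtain ⟨h1, h2, h3, h4⟩ := hmem j hj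
      refine ⟨⟨h1, h2⟩, ?_⟩
      simp only
      rw [xx_neg]
      exact ⟨by linarith, by linarith⟩
  have hcard := Finset.card_le_card hsub
  rw [Finset.card_union_of_disjoint, Finset.card_union_of_disjoint,
    Finset.card_image_of_injective _ (fun x y hxy => by simpa using hxy),
    Finset.card_image_of_injective _ (fun x y hxy => by simpa using hxy),
    Finset.card_image_of_injective _ (fun x y hxy => by simpa using hxy), ← hAc] at hcard
  · have h1 : ((II T).card : ℝ) + (adjC T 0 s + adjC T 0 s) ≤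
        ((((II T) ×ˢ (II T)).filter (fun p : ℕ × ℕ => xx T p.1 p.2 ∈ Icc (-s) s)).card : ℝ) := by
      exact_mod_cast hcard
    rw [card_II] at h1
    linarith
  · rw [Finset.disjoint_left]
    intro p h1 h2
    rw [Finset.mem_image] at h1 h2
    obtain ⟨j, -, rfl⟩ := h1
    obtain ⟨j', -, h⟩ := h2
    simp only [Prod.mk.injEq] at h
    omega
  · rw [Finset.disjoint_left]
    intro p h1 h2
    rw [Finset.mem_union, Finset.mem_image, Finset.mem_image] at h2
    rw [Finset.mem_image] at h1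
    obtain ⟨j, -, rfl⟩ := h1
    rcases h2 with ⟨j', -, h⟩ | ⟨j', -, h⟩
    · simp only [Prod.mk.injEq] at h
      omega
    · simp only [Prod.mk.injEq] at h
      omega

/-- under RH no zeros are off the line -/
lemma NF_zero (hRH : RiemannHypothesis) (T : ℝ) : NF T = 0 := by
  classical
  unfold NF
  refine Finset.sum_eq_zero fun s hs => ?_
  exfalso
  rw [Finset.mem_filter] at hs
  obtain ⟨h1, h2, h3, h4⟩ := ZZ_line hRH hs.1
  apply hs.2
  rw [← h1]
  simp

lemma NZ_nT : Tendsto (fun T => (NZ T : ℝ) / nT T) atTop (𝓝 1) := by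
  rw [Metric.tendsto_nhds]
  intro ε hε
  filter_upwards [N_asymp (show 0 < ε / 2 by positivity), eventually_ge_atTop 10] with T hT hT10
  have hn := nT_pos hT10
  rw [Real.dist_eq, abs_lt]
  have h1 : 1 - ε / 2 ≤ (NZ T : ℝ) / nT T := by rw [le_div_iff₀ hn]; exact hT.1
  have h2 : (NZ T : ℝ) / nT T ≤ 1 + ε / 2 := by rw [div_le_iff₀ hn]; exact hT.2
  constructor <;> linarith

/-- the distribution function of the adjacent pairs, in terms of the unfolded gaps -/
noncomputable def GG (T b : ℝ) : ℕ := by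
  classical exact ((II T).filter (fun j => dj j ≤ b)).card

lemma GG_mono (T : ℝ) {b b' : ℝ} (h : b ≤ b') : GG T b ≤ GG T b' := by
  classical
  unfold GG
  refine Finset.card_le_card fun j hj => ?_
  rw [Finset.mem_filter] at hj ⊢
  exact ⟨hj.1, hj.2.trans h⟩

/-- comparison of the two normalisations for the gaps, upper bound -/
lemma GG_up (hRH : RiemannHypothesis) {b ε η : ℝ} (hb : 0 ≤ b) (hε : 0 < ε) (hη : 0 < η) :
    ∀ᶠ T in atTop, (GG T b : ℝ) ≤ adjC T 0 (b + ε) + η * NZ T := by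
  classical
  obtain ⟨κ, U, hκ, hU, hex⟩ := except_card hRH hη
  filter_upwards [hex, cmp_close hκ hU.le hε, eventually_ge_atTop 10] with T h1 h2 hT
  have hsub : (II T).filter (fun j => dj j ≤ b) ⊆
      (II T).filter (fun j => j + 1 ∈ II T ∧ 0 ≤ xx T (j + 1) j ∧ xx T (j + 1) j ≤ b + ε) ∪
      (II T).filter (fun j => ¬ (κ * T ≤ ord j ∧ j + 1 ∈ II T ∧ xx T (j + 1) j ≤ U)) := by
    intro j hj
    rw [Finset.mem_filter] at hj
    rw [Finset.mem_union, Finset.mem_filter, Finset.mem_filter]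
    by_cases h3 : κ * T ≤ ord j ∧ j + 1 ∈ II T ∧ xx T (j + 1) j ≤ U
    · left
      have hj1 := (mem_II.1 hj.1).1
      have h4 := h2 (j + 1) j hj1 (Nat.le_succ j) h3.2.1 h3.1 h3.2.2
      have h5 := (abs_le.1 h4).2
      have h6 : dj j = gt (j + 1) - gt j := rfl
      rw [h6] at hj
      exact ⟨hj.1, h3.2.1, xx_nonneg (by linarith) hj1 (Nat.le_succ j), by linarith [hj.2]⟩
    · right
      exact ⟨hj.1, h3⟩
  have h3 := (Finset.card_le_card hsub).trans (Finset.card_union_le _ _)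
  have h4 : (GG T b : ℝ) ≤ adjC T 0 (b + ε) +
      (((II T).filter (fun j => ¬ (κ * T ≤ ord j ∧ j + 1 ∈ II T ∧ xx T (j + 1) j ≤ U))).card : ℝ) := by
    unfold GG adjC
    exact_mod_cast h3
  linarith

/-- comparison of the two normalisations for the gaps, lower bound for the complement -/
lemma GG_low (hRH : RiemannHypothesis) {b ε η : ℝ} (hε : 0 < ε) (hη : 0 < η) {B : ℝ} (hB : 0 < B) :
    ∀ᶠ T in atTop, (NZ T : ℝ) - GG T b ≤ adjC T (b - ε) B + nT T / B + η * NZ T := by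
  classical
  obtain ⟨κ, U, hκ, hU, hex⟩ := except_card hRH hη
  filter_upwards [hex, cmp_close hκ hU.le hε, eventually_ge_atTop 10] with T h1 h2 hT
  have hsub : II T ⊆ (II T).filter (fun j => dj j ≤ b) ∪
      ((II T).filter (fun j => j + 1 ∈ II T ∧ b - ε ≤ xx T (j + 1) j ∧ xx T (j + 1) j ≤ B) ∪
      ((II T).filter (fun j => j + 1 ∈ II T ∧ B < xx T (j + 1) j) ∪
      (II T).filter (fun j => ¬ (κ * T ≤ ord j ∧ j + 1 ∈ II T ∧ xx T (j + 1) j ≤ U)))) := by
    intro j hj
    rw [Finset.mem_union, Finset.mem_union, Finset.mem_union, Finset.mem_filter, Finset.mem_filter,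
      Finset.mem_filter, Finset.mem_filter]
    by_cases h0 : dj j ≤ b
    · left; exact ⟨hj, h0⟩
    push Not at h0
    by_cases h3 : κ * T ≤ ord j ∧ j + 1 ∈ II T ∧ xx T (j + 1) j ≤ U
    · have hj1 := (mem_II.1 hj).1
      have h4 := h2 (j + 1) j hj1 (Nat.le_succ j) h3.2.1 h3.1 h3.2.2
      have h5 := (abs_le.1 h4).1
      have h6 : dj j = gt (j + 1) - gt j := rfl
      rw [h6] at h0
      rcases le_or_gt (xx T (j + 1) j) B with h7 | h7
      · right; left
        exact ⟨hj, h3.2.1, by linarith, h7⟩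
      · right; right; left
        exact ⟨hj, h3.2.1, h7⟩
    · right; right; right
      exact ⟨hj, h3⟩
  have h3 := (Finset.card_le_card hsub).trans ((Finset.card_union_le _ _).trans
    (Nat.add_le_add_left ((Finset.card_union_le _ _).trans
      (Nat.add_le_add_left (Finset.card_union_le _ _) _)) _))
  have h4 : ((II T).card : ℝ) ≤ GG T b + (adjC T (b - ε) B +
      ((((II T).filter (fun j => j + 1 ∈ II T ∧ B < xx T (j + 1) j)).card : ℝ) +
      (((II T).filter (fun j => ¬ (κ * T ≤ ord j ∧ j + 1 ∈ II T ∧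
        xx T (j + 1) j ≤ U))).card : ℝ))) := by
    unfold GG adjC
    exact_mod_cast h3
  rw [card_II] at h4
  have h5 := big_card hT hB
  linarith

end Pool.Agent.Q85.Rig
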