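import Pool.Agent.Q85.Rig.Near

/-! # Nearest neighbours and non-adjacent pairs: the main theorem -/

set_option autoImplicit false

open MeasureTheory Set Filter Topology
open scoped NNReal ENNReal

namespace Pool.Agent.Q85.Rig

open Pool.Agent.Y749.Rig Pool.Agent.Y749.AH
open SG (ord NZ)

section

variable {p : ℝ → ℝ} {c : ℝ}

lemma p_int (hp0 : ∀ s, 0 ≤ p s) (hc : 0 < c)
    (hpc : IntegrableOn (fun s => Real.exp (c * s) * p s) (Ioi 0)) : IntegrableOn p (Ioi 0) := by
  have h1 : AEStronglyMeasurable p (volume.restrict (Ioi 0)) := by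
    have h2 : AEStronglyMeasurable (fun s => Real.exp (-(c * s)) * (Real.exp (c * s) * p s))
        (volume.restrict (Ioi 0)) :=
      (by fun_prop : Continuous fun s : ℝ => Real.exp (-(c * s))).aestronglyMeasurable.mul hpc.1
    refine h2.congr (ae_of_all _ fun s => ?_)
    simp only
    rw [← mul_assoc, ← Real.exp_add, neg_add_cancel, Real.exp_zero, one_mul]
  refine Integrable.mono' hpc h1 ?_
  refine (ae_restrict_iff' measurableSet_Ioi).2 (ae_of_all _ fun s hs => ?_)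
  have hs0 : (0 : ℝ) < s := hs
  rw [Real.norm_eq_abs, abs_of_nonneg (hp0 s)]
  exact le_mul_of_one_le_left (hp0 s) (Real.one_le_exp (by positivity))

lemma p_ii (hp : IntegrableOn p (Ioi 0)) {a b : ℝ} (ha : 0 ≤ a) (hb : 0 ≤ b) :
    IntervalIntegrable p volume a b := by
  rw [intervalIntegrable_iff]
  refine hp.mono_set fun x hx => ?_
  rcases le_total a b with h | h
  · rw [uIoc_of_le h] at hx
    exact lt_of_le_of_lt ha hx.1
  · rw [uIoc_of_ge h] at hx
    exact lt_of_le_of_lt hb hx.1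

lemma p_tail (hp0 : ∀ s, 0 ≤ p s) (hc : 0 < c)
    (hpc : IntegrableOn (fun s => Real.exp (c * s) * p s) (Ioi 0)) {a b : ℝ} (ha : 0 < a)
    (hab : a ≤ b) :
    ∫ s in a..b, p s ≤ (∫ s in Ioi 0, Real.exp (c * s) * p s) * Real.exp (-(c * a)) := by
  have hp := p_int hp0 hc hpc
  have hsub : Ioc a b ⊆ Ioi 0 := fun x hx => ha.trans hx.1
  rw [intervalIntegral.integral_of_le hab, ← integral_mul_const]
  calc ∫ s in Ioc a b, p s ≤ ∫ s in Ioc a b, Real.exp (c * s) * p s * Real.exp (-(c * a)) := by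
        refine setIntegral_mono_on (hp.mono_set hsub) ((hpc.mono_set hsub).mul_const _)
          measurableSet_Ioc fun s hs => ?_
        have h1 : 1 ≤ Real.exp (c * s) * Real.exp (-(c * a)) := by
          rw [← Real.exp_add]
          apply Real.one_le_exp
          nlinarith [hs.1]
        calc p s ≤ p s * (Real.exp (c * s) * Real.exp (-(c * a))) :=
              le_mul_of_one_le_right (hp0 s) h1
          _ = _ := by ring
    _ ≤ ∫ s in Ioi 0, Real.exp (c * s) * p s * Real.exp (-(c * a)) := by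
        refine setIntegral_mono_set (hpc.mul_const _) (ae_of_all _ fun s => ?_)
          (LE.le.eventuallyLE hsub)
        have := hp0 s
        show (0 : ℝ) ≤ _
        positivity

lemma p_le_one (hp0 : ∀ s, 0 ≤ p s) (hp : IntegrableOn p (Ioi 0)) (hp1 : ∫ s in Ioi 0, p s = 1)
    {b : ℝ} (hb : 0 ≤ b) : ∫ s in (0 : ℝ)..b, p s ≤ 1 := by
  rw [intervalIntegral.integral_of_le hb, ← hp1]
  exact setIntegral_mono_set hp (ae_of_all _ fun s => hp0 s)
    (LE.le.eventuallyLE fun x hx => hx.1)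

/-- continuity of the distribution function -/
lemma p_cont (hp : IntegrableOn p (Ioi 0)) {b : ℝ} (hb : 0 ≤ b) {ε : ℝ}
    (hε : 0 < ε) : ∃ δ : ℝ, 0 < δ ∧ ∀ d : ℝ, 0 < d → d < δ → (∫ s in b..(b + d), p s ≤ ε) ∧
      (d ≤ b → ∫ s in (b - d)..b, p s ≤ ε) := by
  -- extend by zero
  obtain ⟨q, hq⟩ : ∃ q : ℝ → ℝ, q = (Ioi (0 : ℝ)).indicator p := ⟨_, rfl⟩
  have hqi : Integrable q := by rw [hq]; exact (integrable_indicator_iff measurableSet_Ioi).2 hp
  have hii : ∀ x y : ℝ, IntervalIntegrable q volume x y := fun x y => hqi.intervalIntegrable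
  have hcont : Continuous fun x => ∫ s in (0 : ℝ)..x, q s :=
    intervalIntegral.continuous_primitive (fun a b => hii a b) 0
  obtain ⟨δ, hδ, h2⟩ := (Metric.continuousAt_iff.1 (hcont.continuousAt (x := b))) ε hε
  have heq : ∀ x y : ℝ, 0 ≤ x → x ≤ y → ∫ s in x..y, q s = ∫ s in x..y, p s := by
    intro x y hx hxy
    rw [intervalIntegral.integral_of_le hxy, intervalIntegral.integral_of_le hxy]
    refine setIntegral_congr_fun measurableSet_Ioc fun s hs => ?_
    rw [hq, indicator_of_mem (show s ∈ Ioi (0 : ℝ) from lt_of_le_of_lt hx hs.1)]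
  refine ⟨δ, hδ, fun d hd hdδ => ⟨?_, fun hdb => ?_⟩⟩
  · have h0 : dist (b + d) b < δ := by
      rw [Real.dist_eq, add_sub_cancel_left, abs_of_pos hd]
      exact hdδ
    have h3 := h2 h0
    rw [Real.dist_eq, intervalIntegral.integral_interval_sub_left (hii _ _) (hii _ _),
      heq _ _ hb (by linarith)] at h3
    exact (abs_lt.1 h3).2.le
  · have h0 : dist (b - d) b < δ := by
      rw [Real.dist_eq, sub_sub_cancel_left, abs_neg, abs_of_pos hd]
      exact hdδ
    have h3 := h2 h0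
    rw [dist_comm, Real.dist_eq, intervalIntegral.integral_interval_sub_left (hii _ _) (hii _ _),
      heq _ _ (by linarith) (by linarith)] at h3
    exact (abs_lt.1 h3).2.le

end

lemma adjC_split {T a m b : ℝ} : adjC T a b ≤ adjC T a m + adjC T m b := by
  classical
  unfold adjC
  refine (Finset.card_le_card ?_).trans (Finset.card_union_le _ _)
  intro j hj
  rw [Finset.mem_filter] at hj
  rw [Finset.mem_union, Finset.mem_filter, Finset.mem_filter]
  rcases le_total (xx T (j + 1) j) m with h | h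
  · left; exact ⟨hj.1, hj.2.1, hj.2.2.1, h⟩
  · right; exact ⟨hj.1, hj.2.1, h, hj.2.2.2⟩

/-- **the main theorem** -/
theorem near_main (hRH : RiemannHypothesis) {p : ℝ → ℝ} (hp0 : ∀ s, 0 ≤ p s)
    (hp1 : ∫ s in Ioi 0, p s = 1) {c : ℝ} (hc : 0 < c)
    (hpc : IntegrableOn (fun s => Real.exp (c * s) * p s) (Ioi 0)) {F : Filter ℝ} (hF : F ≤ atTop)
    (H : ∀ a b : ℝ, 0 < a → a < b → ∀ ε : ℝ, 0 < ε → ∀ᶠ T in F,
      ((∫ u in a..b, FF u) - (∫ u in a..b, p u) - ε) * NZ T ≤ nonC T a b) :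
    (∀ α β : ℝ, 0 < α → α < β →
      Tendsto (fun T => (Mp T).real (Icc α β)) F (𝓝 (∫ x in α..β, FF x))) ∧
    (∀ a : ℝ, 0 < a → Tendsto (fun T => (Mp T).real (Icc (-a) a)) F
      (𝓝 (1 + 2 * ∫ x in (0 : ℝ)..a, FF x))) ∧
    ∀ b : ℝ, 0 < b → Tendsto (fun T => (GG T b : ℝ) / NZ T) F (𝓝 (∫ s in (0 : ℝ)..b, p s)) := by
  have hp := p_int hp0 hc hpc
  obtain ⟨K, hK⟩ : ∃ K : ℝ, K = ∫ s in Ioi 0, Real.exp (c * s) * p s := ⟨_, rfl⟩
  have hK0 : 0 ≤ K := by
    rw [hK]
    exact setIntegral_nonneg measurableSet_Ioi fun s _ => mul_nonneg (Real.exp_pos _).le (hp0 s)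
  have hev : ∀ᶠ T in F, (10 : ℝ) ≤ T := hF (eventually_ge_atTop 10)
  have hNn := NZ_nT.mono_left hF
  have hNn2 : Tendsto (fun T => nT T / (NZ T : ℝ)) F (𝓝 1) := by
    have := hNn.inv₀ one_ne_zero
    rw [inv_one] at this
    refine this.congr fun T => ?_
    rw [inv_div]
  have hNpos : ∀ᶠ T in F, (0 : ℝ) < NZ T := by
    filter_upwards [hF (N_asymp (show (0 : ℝ) < 1 / 2 by norm_num)), hev] with T h1 h2
    have := nT_pos h2
    linarith [h1.1]
  -- the lower bounds for the windows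
  have hlow : ∀ l : ℝ, 0 < l → ∀ α : ℝ, 0 < α → ∀ ε : ℝ, 0 < ε → ∀ᶠ T in F,
      (∫ x in α..(α + l), FF x) - K * Real.exp (-(c * α)) - ε ≤ (Mp T).real (Icc α (α + l)) := by
    intro l hl α hα ε hε
    obtain ⟨I, hI⟩ : ∃ I : ℝ, I = (∫ u in α..(α + l), FF u) - (∫ u in α..(α + l), p u) := ⟨_, rfl⟩
    have h1 := H α (α + l) hα (by linarith) (ε / 2) (by positivity)
    have h2 : Tendsto (fun T => (I - ε / 2) * ((NZ T : ℝ) / nT T)) F (𝓝 ((I - ε / 2) * 1)) :=
      hNn.const_mul _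
    rw [mul_one] at h2
    filter_upwards [h1, h2.eventually (eventually_gt_nhds (show I - ε < I - ε / 2 by linarith)),
      hev] with T a1 a2 a3
    have hn := nT_pos a3
    have a4 := Mp_split hRH a3 hα (α + l)
    have a5 : (0 : ℝ) ≤ adjC T α (α + l) := Nat.cast_nonneg _
    rw [← hI] at a1
    have a6 : (I - ε / 2) * ((NZ T : ℝ) / nT T) ≤ (Mp T).real (Icc α (α + l)) := by
      rw [← mul_div_assoc, div_le_iff₀ hn]
      linarith
    have a7 := p_tail hp0 hc hpc hα (show α ≤ α + l by linarith)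
    rw [← hK] at a7
    linarith
  have hir : Irrational (Real.sqrt 2 / 1) := by rw [div_one]; exact irrational_sqrt_two
  obtain ⟨C, hC, hB⟩ := Mp_bdd
  obtain ⟨κ, hκ, hκ2, hblk⟩ := blk_main
  have hoff : ∀ η : ℝ, 0 < η → ∀ᶠ T : ℝ in atTop, NF T ≤ η * (T * Real.log T) := by
    intro η hη
    filter_upwards [eventually_ge_atTop 10] with T hT
    rw [NF_zero hRH]
    have := Real.log_nonneg (show (1 : ℝ) ≤ T by linarith)
    positivity
  have hEv : ∀ᶠ T in atTop, Ev (Mp T) := by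
    filter_upwards [eventually_ge_atTop 10] with T hT using Mp_ev hT
  have hlow2 : ∀ l : ℝ, (l = Real.sqrt 2 ∨ l = 1) → ((∀ α : ℝ, 0 < α → ∀ ε : ℝ, 0 < ε → ∀ᶠ T in F,
      (Mp T).real (Icc α (α + l)) ≤ (∫ x in α..(α + l), FF x) + K * Real.exp (-(c * α)) + ε) ∨
      (∀ α : ℝ, 0 < α → ∀ ε : ℝ, 0 < ε → ∀ᶠ T in F,
      (∫ x in α..(α + l), FF x) - K * Real.exp (-(c * α)) - ε ≤ (Mp T).real (Icc α (α + l)))) := by
    intro l hl
    right
    refine hlow l ?_
    rcases hl with rfl | rfl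
    · positivity
    · norm_num
  have hpc1 := rigid2F hF hC hB hEv hκ (by linarith) (fun ψ hψ => test_lim hψ (hblk ψ hψ hoff)) hK0
    hc (show 0 < Real.sqrt 2 by positivity) one_pos hir hlow2
  have hpc2 := rigid2W hF hC hB hEv hκ (by linarith) (fun ψ hψ => test_lim hψ (hblk ψ hψ hoff)) hK0
    hc (show 0 < Real.sqrt 2 by positivity) one_pos hir hlow2
  refine ⟨hpc1, hpc2, ?_⟩
  -- upper bounds for the adjacent pairs
  have hadj : ∀ a b : ℝ, 0 < a → a < b → ∀ ε : ℝ, 0 < ε → ∀ᶠ T in F,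
      (adjC T a b : ℝ) ≤ ((∫ s in a..b, p s) + ε) * NZ T := by
    intro a b ha hab ε hε
    have h1 := H a b ha hab (ε / 4) (by positivity)
    have h2 := (hpc1 a b ha hab).eventually (eventually_lt_nhds
      (show ∫ x in a..b, FF x < (∫ x in a..b, FF x) + ε / 4 by linarith))
    have h3 : Tendsto (fun T => ((∫ x in a..b, FF x) + ε / 4) * (nT T / (NZ T : ℝ))) F
        (𝓝 (((∫ x in a..b, FF x) + ε / 4) * 1)) := hNn2.const_mul _
    rw [mul_one] at h3
    filter_upwards [h1, h2, h3.eventually (eventually_lt_nhds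
      (show (∫ x in a..b, FF x) + ε / 4 < (∫ x in a..b, FF x) + ε / 2 by linarith)), hev, hNpos]
      with T a1 a2 a3 a4 a5
    have hn := nT_pos a4
    have a6 := Mp_split hRH a4 ha b
    rw [← mul_div_assoc, div_lt_iff₀ a5] at a3
    have a7 : (Mp T).real (Icc a b) * nT T ≤ ((∫ x in a..b, FF x) + ε / 4) * nT T :=
      mul_le_mul_of_nonneg_right a2.le hn.le
    nlinarith
  have hsm : ∀ s : ℝ, 0 < s → ∀ ε : ℝ, 0 < ε → ∀ᶠ T in F, (adjC T 0 s : ℝ) ≤ (s + ε) * NZ T := by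
    intro s hs ε hε
    have h1 := (hpc2 s hs).eventually (eventually_lt_nhds (show 1 + 2 * (∫ x in (0 : ℝ)..s, FF x) <
      1 + 2 * (∫ x in (0 : ℝ)..s, FF x) + ε by linarith))
    have h2 : (∫ x in (0 : ℝ)..s, FF x) ≤ s := by
      have := gF_le hs.le
      rw [intervalIntegral.integral_same] at this
      linarith
    have h3 : Tendsto (fun T => (1 + 2 * s + ε) * (nT T / (NZ T : ℝ))) F
        (𝓝 ((1 + 2 * s + ε) * 1)) := hNn2.const_mul _
    rw [mul_one] at h3
    filter_upwards [h1, h3.eventually (eventually_lt_nhds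
      (show 1 + 2 * s + ε < 1 + 2 * s + 2 * ε by linarith)), hev, hNpos] with T a1 a2 a3 a4
    have hn := nT_pos a3
    have a5 := adj_small hRH a3 hs.le
    rw [← mul_div_assoc, div_lt_iff₀ a4] at a2
    have a6 : (Mp T).real (Icc (-s) s) * nT T ≤ (1 + 2 * s + ε) * nT T :=
      mul_le_mul_of_nonneg_right (by linarith) hn.le
    nlinarith
  intro b hb
  rw [Metric.tendsto_nhds]
  intro ε hε
  obtain ⟨δ, hδ, hd⟩ := p_cont hp hb.le (show 0 < ε / 8 by positivity)
  obtain ⟨δ', hδ'⟩ : ∃ δ' : ℝ, δ' = min δ (b / 2) / 2 := ⟨_, rfl⟩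
  have hδ0 : 0 < δ' := by rw [hδ']; have := lt_min hδ (show 0 < b / 2 by positivity); positivity
  have hδa : δ' ≤ δ / 2 := by rw [hδ']; have := min_le_left δ (b / 2); linarith
  have hδb : δ' ≤ b / 4 := by rw [hδ']; have := min_le_right δ (b / 2); linarith
  obtain ⟨hd1, hd2⟩ := hd δ' hδ0 (by linarith)
  obtain ⟨s, hs⟩ : ∃ s : ℝ, s = min (ε / 16) (b / 2) := ⟨_, rfl⟩
  have hs0 : 0 < s := by rw [hs]; exact lt_min (by positivity) (by positivity)
  have hsa : s ≤ ε / 16 := by rw [hs]; exact min_le_left _ _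
  have hsb : s ≤ b / 2 := by rw [hs]; exact min_le_right _ _
  obtain ⟨B, hB'⟩ : ∃ B : ℝ, B = b + 32 / ε := ⟨_, rfl⟩
  have hB0 : 0 < B := by rw [hB']; positivity
  have hBb : b < B := by rw [hB']; have : 0 < 32 / ε := by positivity
                         linarith
  have hBε : 1 / B ≤ ε / 32 := by
    rw [div_le_iff₀ hB0, hB']
    have : ε / 32 * (b + 32 / ε) = ε / 32 * b + 1 := by field_simp
    rw [this]
    have : 0 ≤ ε / 32 * b := by positivity
    linarith
  filter_upwards [hF (GG_up hRH hb.le hδ0 (show 0 < ε / 16 by positivity)),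
    hF (GG_low hRH (b := b) hδ0 (show 0 < ε / 16 by positivity) hB0),
    hsm s hs0 (ε / 16) (by positivity),
    hadj s (b + δ') hs0 (by linarith) (ε / 16) (by positivity),
    hadj (b - δ') B (by linarith) (by linarith) (ε / 16) (by positivity), hNpos,
    hNn2.eventually (eventually_lt_nhds (show (1 : ℝ) < 2 by norm_num)), hev]
    with T a1 a2 a3 a4 a5 a6 a7 a8
  rw [div_lt_iff₀ a6] at a7
  -- integrals
  have e1 : ∫ x in s..(b + δ'), p x ≤ (∫ x in (0 : ℝ)..b, p x) + ε / 8 := by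
    have i1 : ∫ x in (0 : ℝ)..(b + δ'), p x = (∫ x in (0 : ℝ)..b, p x) + ∫ x in b..(b + δ'), p x :=
      (intervalIntegral.integral_add_adjacent_intervals (p_ii hp le_rfl hb.le)
        (p_ii hp hb.le (by linarith))).symm
    have i2 : ∫ x in (0 : ℝ)..(b + δ'), p x = (∫ x in (0 : ℝ)..s, p x) + ∫ x in s..(b + δ'), p x :=
      (intervalIntegral.integral_add_adjacent_intervals (p_ii hp le_rfl hs0.le)
        (p_ii hp hs0.le (by linarith))).symm
    have i3 : 0 ≤ ∫ x in (0 : ℝ)..s, p x := intervalIntegral.integral_nonneg hs0.le fun x _ => hp0 x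
    linarith
  have e2 : ∫ x in (b - δ')..B, p x ≤ 1 - (∫ x in (0 : ℝ)..b, p x) + ε / 8 := by
    have i1 : ∫ x in (0 : ℝ)..B, p x = (∫ x in (0 : ℝ)..b, p x) + ∫ x in b..B, p x :=
      (intervalIntegral.integral_add_adjacent_intervals (p_ii hp le_rfl hb.le)
        (p_ii hp hb.le hB0.le)).symm
    have i2 : ∫ x in (b - δ')..B, p x = (∫ x in (b - δ')..b, p x) + ∫ x in b..B, p x :=
      (intervalIntegral.integral_add_adjacent_intervals (p_ii hp (by linarith) hb.le)
        (p_ii hp hb.le hB0.le)).symm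
    have i3 := p_le_one hp0 hp hp1 hB0.le
    have i4 := hd2 (by linarith)
    linarith
  have u1 : (adjC T 0 (b + δ') : ℝ) ≤ adjC T 0 s + adjC T s (b + δ') := by
    exact_mod_cast adjC_split
  have v1 : (GG T b : ℝ) ≤ ((∫ x in (0 : ℝ)..b, p x) + ε / 2) * NZ T := by nlinarith
  have v2 : nT T / B ≤ ε / 16 * NZ T := by
    have : nT T / B = nT T * (1 / B) := by ring
    rw [this]
    have hn : 0 ≤ nT T := (nT_pos a8).le
    calc nT T * (1 / B) ≤ nT T * (ε / 32) := mul_le_mul_of_nonneg_left hBε hn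
      _ ≤ (2 * NZ T) * (ε / 32) := mul_le_mul_of_nonneg_right a7.le (by positivity)
      _ = _ := by ring
  have v3 : (NZ T : ℝ) - GG T b ≤ (1 - (∫ x in (0 : ℝ)..b, p x) + ε / 2) * NZ T := by nlinarith
  have w1 : (GG T b : ℝ) / NZ T ≤ (∫ x in (0 : ℝ)..b, p x) + ε / 2 := by
    rw [div_le_iff₀ a6]; exact v1
  have w2 : (∫ x in (0 : ℝ)..b, p x) - ε / 2 ≤ (GG T b : ℝ) / NZ T := by
    rw [le_div_iff₀ a6]; linarith
  rw [Real.dist_eq, abs_lt]
  constructor <;> linarith

end Pool.Agent.Q85.Rig
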