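import Pool.Agent.Q85.Rig.Near2

/-! # Nearest neighbours and non-adjacent pairs: averages over the index, and the converse -/

set_option autoImplicit false

open MeasureTheory Set Filter Topology
open scoped NNReal ENNReal

namespace Pool.Agent.Q85.Rig

open Pool.Agent.Y749.Rig Pool.Agent.Y749.AH
open SG (ord NZ)

lemma NZ_top : Tendsto NZ atTop atTop :=
  tendsto_atTop_atTop_of_monotone SG.NZ_mono fun n => SG.NZ_unbounded n

/-- the multiplicities are negligible -/
lemma NZ_ord {η : ℝ} (hη : 0 < η) : ∀ᶠ N : ℕ in atTop, (NZ (ord N) : ℝ) ≤ (1 + η) * N := by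
  have hpi := Real.pi_pos
  obtain ⟨e, he⟩ : ∃ e : ℝ, e = min (1 / 8) (η / 32) := ⟨_, rfl⟩
  have he0 : 0 < e := by rw [he]; exact lt_min (by norm_num) (by positivity)
  have he1 : e ≤ 1 / 8 := by rw [he]; exact min_le_left _ _
  have he2 : e ≤ η / 32 := by rw [he]; exact min_le_right _ _
  have h1 := N_asymp he0
  have h2 : Tendsto (fun T : ℝ => (1 - e) * T) atTop atTop :=
    tendsto_id.const_mul_atTop (by linarith)
  have h3 := h2.eventually h1
  have h4 : ∀ᶠ T : ℝ in atTop, -Real.log (1 - e) / e ≤ Real.log T :=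
    Real.tendsto_log_atTop.eventually_ge_atTop _
  have hall := SG.ord_tendsto.eventually (h1.and (h3.and (h4.and (eventually_ge_atTop (20 : ℝ)))))
  filter_upwards [hall, eventually_ge_atTop 1] with N hN hN1
  obtain ⟨a1, a2, a3, a4⟩ := hN
  obtain ⟨T, hT⟩ : ∃ T : ℝ, T = ord N := ⟨_, rfl⟩
  rw [← hT] at a1 a2 a3 a4 ⊢
  have hT0 : 0 < T := by linarith
  have hn := nT_pos (show 10 ≤ T by linarith)
  have hL : 0 < Real.log T := Real.log_pos (by linarith)
  -- the value at `(1 - e) T`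
  have b1 : (NZ ((1 - e) * T) : ℝ) ≤ N := by
    have : NZ ((1 - e) * T) < N := by
      by_contra hcon
      push Not at hcon
      have := (SG.ord_le_iff hN1 _).2 hcon
      rw [← hT] at this
      nlinarith
    exact_mod_cast this.le
  have b2 : (1 - e) * ((1 - e) * nT T) ≤ nT ((1 - e) * T) := by
    have c1 : (1 - e) * Real.log T ≤ Real.log ((1 - e) * T) := by
      rw [Real.log_mul (by linarith) hT0.ne']
      rw [div_le_iff₀ he0] at a3
      linarith
    have c2 : nT ((1 - e) * T) = (1 - e) * T * Real.log ((1 - e) * T) / (2 * Real.pi) := rfl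
    have c3 : (1 - e) * ((1 - e) * nT T) = (1 - e) * T * ((1 - e) * Real.log T) / (2 * Real.pi) := by
      unfold nT; ring
    rw [c2, c3]
    apply div_le_div_of_nonneg_right _ (by positivity)
    apply mul_le_mul_of_nonneg_left c1
    have : 0 < 1 - e := by linarith
    positivity
  have b3 : (1 - e) * ((1 - e) * ((1 - e) * nT T)) ≤ N := by
    have h0 : 0 ≤ 1 - e := by linarith
    calc (1 - e) * ((1 - e) * ((1 - e) * nT T)) ≤ (1 - e) * nT ((1 - e) * T) :=
          mul_le_mul_of_nonneg_left b2 h0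
      _ ≤ NZ ((1 - e) * T) := a2.1
      _ ≤ N := b1
  have b4 : (NZ T : ℝ) ≤ (1 + e) * nT T := a1.2
  have b5 : 1 + e ≤ (1 + η) * ((1 - e) * ((1 - e) * (1 - e))) := by
    have h0 : 1 - 3 * e ≤ (1 - e) * ((1 - e) * (1 - e)) := by nlinarith [sq_nonneg e]
    have h1 : 32 * e ≤ η := by linarith
    have h2 : (1 + 32 * e) * (1 - 3 * e) ≤ (1 + η) * ((1 - e) * ((1 - e) * (1 - e))) := by
      apply mul_le_mul (by linarith) h0 (by linarith) (by linarith)
    nlinarith
  calc (NZ T : ℝ) ≤ (1 + e) * nT T := b4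
    _ ≤ ((1 + η) * ((1 - e) * ((1 - e) * (1 - e)))) * nT T := mul_le_mul_of_nonneg_right b5 hn.le
    _ = (1 + η) * ((1 - e) * ((1 - e) * ((1 - e) * nT T))) := by ring
    _ ≤ (1 + η) * N := mul_le_mul_of_nonneg_left b3 (by linarith)

/-- the number of gaps with index at most `N` -/
noncomputable def CN (N : ℕ) (b : ℝ) : ℕ := by
  classical exact ((Finset.Ioc 0 N).filter (fun j => dj j ≤ b)).card

lemma CN_GG {N : ℕ} (hN : 1 ≤ N) (b : ℝ) :
    CN N b ≤ GG (ord N) b ∧ (GG (ord N) b : ℝ) ≤ CN N b + ((NZ (ord N) : ℝ) - N) := by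
  classical
  have hle := SG.le_NZ_ord hN
  constructor
  · unfold CN GG II
    refine Finset.card_le_card fun j hj => ?_
    rw [Finset.mem_filter, Finset.mem_Ioc] at hj ⊢
    exact ⟨⟨hj.1.1, hj.1.2.trans hle⟩, hj.2⟩
  · have h1 : (II (ord N)).filter (fun j => dj j ≤ b) ⊆
        (Finset.Ioc 0 N).filter (fun j => dj j ≤ b) ∪ Finset.Ioc N (NZ (ord N)) := by
      intro j hj
      unfold II at hj
      rw [Finset.mem_filter, Finset.mem_Ioc] at hj
      rw [Finset.mem_union, Finset.mem_filter, Finset.mem_Ioc, Finset.mem_Ioc]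
      rcases Nat.lt_or_ge N j with h | h
      · right; exact ⟨h, hj.1.2⟩
      · left; exact ⟨⟨hj.1.1, h⟩, hj.2⟩
    have h2 := (Finset.card_le_card h1).trans (Finset.card_union_le _ _)
    rw [Nat.card_Ioc] at h2
    have h3 : GG (ord N) b ≤ CN N b + (NZ (ord N) - N) := h2
    have h4 : (GG (ord N) b : ℝ) ≤ CN N b + ((NZ (ord N) - N : ℕ) : ℝ) := by exact_mod_cast h3
    rwa [Nat.cast_sub hle] at h4

lemma CN_mono (N : ℕ) {b b' : ℝ} (h : b ≤ b') : CN N b ≤ CN N b' := by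
  classical
  unfold CN
  refine Finset.card_le_card fun j hj => ?_
  rw [Finset.mem_filter] at hj ⊢
  exact ⟨hj.1, hj.2.trans h⟩

lemma CN_II (T b : ℝ) : CN (NZ T) b = GG T b := rfl

/-- averages over the index -/
theorem CN_lim {b P : ℝ} (h : Tendsto (fun T => (GG T b : ℝ) / NZ T) atTop (𝓝 P)) :
    Tendsto (fun N : ℕ => (CN N b : ℝ) / N) atTop (𝓝 P) := by
  have h1 := h.comp SG.ord_tendsto
  have hP0 : 0 ≤ P := ge_of_tendsto' h fun T => by positivity
  rw [Metric.tendsto_nhds] at h1 ⊢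
  intro ε hε
  obtain ⟨η, hη⟩ : ∃ η : ℝ, η = min 1 (ε / (4 * (P + 2))) := ⟨_, rfl⟩
  have hη0 : 0 < η := by rw [hη]; exact lt_min one_pos (by positivity)
  have hη1 : η ≤ 1 := by rw [hη]; exact min_le_left _ _
  have hη2 : η * (4 * (P + 2)) ≤ ε := by
    rw [← le_div_iff₀ (by positivity), hη]; exact min_le_right _ _
  filter_upwards [h1 (ε / 8) (by positivity), NZ_ord hη0, h1 1 one_pos, eventually_ge_atTop 1]
    with N a1 a2 a3 a4
  have hN : (1 : ℝ) ≤ N := by exact_mod_cast a4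
  have hle : (N : ℝ) ≤ NZ (ord N) := by exact_mod_cast SG.le_NZ_ord a4
  obtain ⟨u1, u2⟩ := CN_GG a4 b
  have u1' : (CN N b : ℝ) ≤ GG (ord N) b := by exact_mod_cast u1
  simp only [Function.comp] at a1 a3
  rw [Real.dist_eq, abs_lt] at a1 a3
  obtain ⟨g, hg⟩ : ∃ g : ℝ, g = (GG (ord N) b : ℝ) / NZ (ord N) := ⟨_, rfl⟩
  rw [← hg] at a1 a3
  have hNZ : (0 : ℝ) < NZ (ord N) := by linarith
  have hg2 : (GG (ord N) b : ℝ) = g * NZ (ord N) := by rw [hg, div_mul_cancel₀ _ hNZ.ne']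
  have hg0 : 0 ≤ g := by rw [hg]; positivity
  rw [Real.dist_eq, abs_lt]
  constructor
  · have : P - ε < (CN N b : ℝ) / N := by
      rw [lt_div_iff₀ (by linarith)]
      have v1 : g * NZ (ord N) - (NZ (ord N) - N) ≤ CN N b := by rw [← hg2]; linarith
      have v2 : g * N ≤ g * NZ (ord N) := mul_le_mul_of_nonneg_left hle hg0
      have v3 : (NZ (ord N) : ℝ) - N ≤ η * N := by linarith
      have v4 : η ≤ ε / 8 := by nlinarith
      nlinarith
    linarith
  · have : (CN N b : ℝ) / N < P + ε := by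
      rw [div_lt_iff₀ (by linarith)]
      have v1 : (CN N b : ℝ) ≤ g * ((1 + η) * N) := by
        refine u1'.trans ?_
        rw [hg2]
        exact mul_le_mul_of_nonneg_left a2 hg0
      have v2 : g ≤ P + 1 := by linarith
      have v3 : g * (1 + η) < P + ε := by nlinarith
      nlinarith
    linarith

/-- the law of the gaps, for the windows `(a, b]` -/
theorem near_q1 {p : ℝ → ℝ} (hp : IntegrableOn p (Ioi 0))
    (h : ∀ b : ℝ, 0 < b → Tendsto (fun T => (GG T b : ℝ) / NZ T) atTop (𝓝 (∫ s in (0 : ℝ)..b, p s)))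
    {a b : ℝ} (ha : 0 ≤ a) (hab : a < b) :
    Tendsto (fun N : ℕ => ((CN N b : ℝ) - CN N a) / N) atTop (𝓝 (∫ s in a..b, p s)) := by
  have h1 : ∀ b : ℝ, 0 < b → Tendsto (fun N : ℕ => (CN N b : ℝ) / N) atTop
      (𝓝 (∫ s in (0 : ℝ)..b, p s)) := fun b hb => CN_lim (h b hb)
  have h0 : ∀ a : ℝ, 0 ≤ a → Tendsto (fun N : ℕ => (CN N a : ℝ) / N) atTop
      (𝓝 (∫ s in (0 : ℝ)..a, p s)) := by
    intro a ha
    rcases ha.lt_or_eq with h2 | h2
    · exact h1 a h2
    · rw [← h2, intervalIntegral.integral_same, Metric.tendsto_nhds]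
      intro ε hε
      obtain ⟨δ, hδ, hd⟩ := p_cont hp le_rfl (show 0 < ε / 2 by positivity)
      have h3 := (hd (δ / 2) (by positivity) (by linarith)).1
      rw [zero_add] at h3
      filter_upwards [(h1 (δ / 2) (by positivity)).eventually (eventually_lt_nhds
        (show ∫ s in (0 : ℝ)..(δ / 2), p s < ε by linarith))] with N hN
      rw [Real.dist_eq, sub_zero, abs_of_nonneg (by positivity)]
      refine lt_of_le_of_lt ?_ hN
      apply div_le_div_of_nonneg_right _ (Nat.cast_nonneg N)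
      exact_mod_cast CN_mono N (show (0 : ℝ) ≤ δ / 2 by positivity)
  have h4 := (h1 b (by linarith)).sub (h0 a ha)
  rw [intervalIntegral.integral_interval_sub_left (p_ii hp le_rfl (by linarith))
    (p_ii hp le_rfl ha)] at h4
  refine h4.congr fun N => ?_
  rw [sub_div]

/-- **the converse** -/
theorem near_conv (hRH : RiemannHypothesis) {p : ℝ → ℝ} (hp0 : ∀ s, 0 ≤ p s)
    (hp : IntegrableOn p (Ioi 0))
    (hq : ∀ a b : ℝ, 0 ≤ a → a < b →
      Tendsto (fun N : ℕ => ((CN N b : ℝ) - CN N a) / N) atTop (𝓝 (∫ s in a..b, p s)))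
    (hpc : ∀ a b : ℝ, 0 < a → a < b →
      Tendsto (fun T => (Mp T).real (Icc a b) * nT T / NZ T) atTop (𝓝 (∫ x in a..b, FF x)))
    {a b : ℝ} (ha : 0 < a) (hab : a < b) {ε : ℝ} (hε : 0 < ε) : ∀ᶠ T in atTop,
      (∫ u in a..b, FF u) - (∫ u in a..b, p u) - ε ≤ (nonC T a b : ℝ) / NZ T := by
  classical
  obtain ⟨δ₁, hδ₁, hd₁⟩ := p_cont hp ha.le (show 0 < ε / 8 by positivity)
  obtain ⟨δ₂, hδ₂, hd₂⟩ := p_cont hp (show 0 ≤ b by linarith) (show 0 < ε / 8 by positivity)
  obtain ⟨d, hd⟩ : ∃ d : ℝ, d = min (min δ₁ δ₂) a / 4 := ⟨_, rfl⟩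
  have hd0 : 0 < d := by
    rw [hd]
    have := lt_min (lt_min hδ₁ hδ₂) ha
    positivity
  have hda : d ≤ a / 4 := by rw [hd]; have := min_le_right (min δ₁ δ₂) a; linarith
  have hdm : d ≤ min δ₁ δ₂ / 4 := by rw [hd]; have := min_le_left (min δ₁ δ₂) a; linarith
  have hd1 : 2 * d < δ₁ := by have := min_le_left δ₁ δ₂; linarith
  have hd2 : d < δ₂ := by have := min_le_right δ₁ δ₂; linarith
  have i1 := (hd₁ (2 * d) (by positivity) hd1).2 (by linarith)
  have i2 := (hd₂ d hd0 hd2).1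
  obtain ⟨κ, U, hκ, hU, hex⟩ := except_card hRH (show 0 < ε / 8 by positivity)
  have hq2 := (hq (a - 2 * d) (b + d) (by linarith) (by linarith)).comp NZ_top
  have hint : ∫ s in (a - 2 * d)..(b + d), p s ≤ (∫ s in a..b, p s) + ε / 4 := by
    have j1 : ∫ s in (a - 2 * d)..(b + d), p s = (∫ s in (a - 2 * d)..a, p s) +
        ∫ s in a..(b + d), p s :=
      (intervalIntegral.integral_add_adjacent_intervals (p_ii hp (by linarith) (by linarith))
        (p_ii hp (by linarith) (by linarith))).symm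
    have j2 : ∫ s in a..(b + d), p s = (∫ s in a..b, p s) + ∫ s in b..(b + d), p s :=
      (intervalIntegral.integral_add_adjacent_intervals (p_ii hp (by linarith) (by linarith))
        (p_ii hp (by linarith) (by linarith))).symm
    linarith
  have hNpos : ∀ᶠ T in atTop, (0 : ℝ) < NZ T := by
    filter_upwards [NZ_top.eventually_ge_atTop 1] with T hT
    exact_mod_cast hT
  filter_upwards [hex, cmp_close hκ hU.le hd0, eventually_ge_atTop 10,
    hq2.eventually (eventually_lt_nhds (show ∫ s in (a - 2 * d)..(b + d), p s <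
      (∫ s in a..b, p s) + ε / 2 by linarith)),
    (hpc a b ha hab).eventually (eventually_gt_nhds (show (∫ x in a..b, FF x) - ε / 8 <
      ∫ x in a..b, FF x by linarith)), hNpos] with T h1 h2 hT h3 h4 h5
  simp only [Function.comp] at h3
  have hsub : (II T).filter (fun j => j + 1 ∈ II T ∧ a ≤ xx T (j + 1) j ∧ xx T (j + 1) j ≤ b) ⊆
      (((Finset.Ioc 0 (NZ T)).filter (fun j => dj j ≤ b + d)) \
        ((Finset.Ioc 0 (NZ T)).filter (fun j => dj j ≤ a - 2 * d))) ∪
      (II T).filter (fun j => ¬ (κ * T ≤ ord j ∧ j + 1 ∈ II T ∧ xx T (j + 1) j ≤ U)) := by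
    intro j hj
    rw [Finset.mem_filter] at hj
    rw [Finset.mem_union, Finset.mem_sdiff, Finset.mem_filter, Finset.mem_filter, Finset.mem_filter]
    by_cases h6 : κ * T ≤ ord j ∧ j + 1 ∈ II T ∧ xx T (j + 1) j ≤ U
    · left
      have hj1 := (mem_II.1 hj.1).1
      have h7 := abs_le.1 (h2 (j + 1) j hj1 (Nat.le_succ j) h6.2.1 h6.1 h6.2.2)
      have h8 : dj j = gt (j + 1) - gt j := rfl
      refine ⟨⟨hj.1, ?_⟩, fun h9 => ?_⟩
      · rw [h8]; linarith [hj.2.2.2]
      · have h10 := h9.2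
        rw [h8] at h10
        linarith [hj.2.2.1]
    · right
      exact ⟨hj.1, h6⟩
  have h6 := (Finset.card_le_card hsub).trans (Finset.card_union_le _ _)
  have h7 : ((Finset.Ioc 0 (NZ T)).filter (fun j => dj j ≤ a - 2 * d)) ⊆
      ((Finset.Ioc 0 (NZ T)).filter (fun j => dj j ≤ b + d)) := by
    intro j hj
    rw [Finset.mem_filter] at hj ⊢
    exact ⟨hj.1, hj.2.trans (by linarith)⟩
  rw [Finset.card_sdiff_of_subset h7] at h6
  have h8 : CN (NZ T) (a - 2 * d) ≤ CN (NZ T) (b + d) := CN_mono _ (by linarith)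
  have h9 : (adjC T a b : ℝ) ≤ ((CN (NZ T) (b + d) : ℝ) - CN (NZ T) (a - 2 * d)) +
      (((II T).filter (fun j => ¬ (κ * T ≤ ord j ∧ j + 1 ∈ II T ∧ xx T (j + 1) j ≤ U))).card : ℝ) := by
    have h10 : adjC T a b ≤ (CN (NZ T) (b + d) - CN (NZ T) (a - 2 * d)) +
        ((II T).filter (fun j => ¬ (κ * T ≤ ord j ∧ j + 1 ∈ II T ∧ xx T (j + 1) j ≤ U))).card := h6
    have h11 : (adjC T a b : ℝ) ≤ ((CN (NZ T) (b + d) - CN (NZ T) (a - 2 * d) : ℕ) : ℝ) +
      (((II T).filter (fun j => ¬ (κ * T ≤ ord j ∧ j + 1 ∈ II T ∧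
        xx T (j + 1) j ≤ U))).card : ℝ) := by exact_mod_cast h10
    rwa [Nat.cast_sub h8] at h11
  rw [div_lt_iff₀ h5] at h3
  have h10 := Mp_split hRH hT ha b
  have h11 : (nonC T a b : ℝ) = (Mp T).real (Icc a b) * nT T - adjC T a b := by linarith
  rw [h11, sub_div]
  have h12 : (adjC T a b : ℝ) / NZ T ≤ (∫ s in a..b, p s) + ε / 2 + ε / 8 := by
    rw [div_le_iff₀ h5]
    nlinarith
  linarith

end Pool.Agent.Q85.Rig
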