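import Pool.Agent.Q85.Rig.Sum2
import Pool.Agent.W354.LS.Kern

/-! # Zeros off the line, pairs with equal ordinates and lower bounds for the pair correlation -/

set_option autoImplicit false

open MeasureTheory Set Filter Topology

namespace Pool.Agent.Q85.Rig

open Pool.Agent.Y749.Rig Pool.Agent.Y749.AH
open SG (NZ)

lemma mm_pos1 {T : ℝ} {s : ℂ} (hs : s ∈ ZZ T) : 1 ≤ H370.mult riemannZeta s := by
  have h0 := zs_im_pos (mem_ZZ.1 hs)
  rw [mem_ZZ] at hs
  exact H370.Loc.mult_pos' H370.good_zeta h0 hs.1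

lemma refl_mem1 {T : ℝ} {s : ℂ} (hs : s ∈ ZZ T) (h1 : 1 < s.im) :
    1 - (starRingEnd ℂ) s ∈ ZZ T := by
  rw [mem_ZZ] at hs
  have h2 : s ∈ H370.zset riemannZeta 1 T := ⟨hs.2.1, hs.2.2.1, h1, hs.2.2.2.2, hs.1⟩
  have h3 := H370.zset_refl H370.good_zeta le_rfl h2
  rw [mem_ZZ]
  exact ⟨h3.2.2.2.2, h3.1, h3.2.1, by linarith [h3.2.2.1], h3.2.2.2.1⟩

/-- all zeros and the zeros off the line against the pairs of equal ordinates -/
lemma NF_le : ∃ K : ℝ, 0 ≤ K ∧ ∀ T : ℝ, 10 ≤ T →
    (∑ s ∈ ZZ T, mm s) + NF T ≤ DG T * nT T + K := by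
  classical
  refine ⟨2 * ∑ s ∈ ZZ 1, mm s, by
    have := Finset.sum_nonneg (s := ZZ 1) (f := mm) fun s _ => mm_nonneg s
    linarith, fun T hT => ?_⟩
  have hn := nT_pos hT
  have hL := one_lt_log (show 3 ≤ T by linarith)
  have hpi := Real.pi_pos
  obtain ⟨Mn, hMn⟩ : ∃ Mn : ℂ → ℕ, ∀ s, Mn s = ∑ s' ∈ (ZZ T).filter (fun s' => s'.im = s.im),
    H370.mult riemannZeta s' := ⟨_, fun s => rfl⟩
  have hDG : DG T * nT T = ∑ s ∈ ZZ T, mm s * (Mn s : ℝ) := by
    unfold DG
    rw [Mp_real hT (measurableSet_singleton 0), div_mul_cancel₀ _ hn.ne']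
    unfold RR
    refine Finset.sum_congr rfl fun s _ => ?_
    rw [hMn]
    push_cast
    rw [Finset.mul_sum, Finset.sum_filter]
    refine Finset.sum_congr rfl fun s' _ => ?_
    by_cases h : s'.im = s.im
    · rw [if_pos h, Set.indicator_of_mem]
      · rw [mul_one]; rfl
      · rw [h, sub_self, zero_mul, zero_div]; rfl
    · rw [if_neg h, Set.indicator_of_notMem, mul_zero]
      intro h2
      rw [Set.mem_singleton_iff, div_eq_zero_iff, mul_eq_zero, sub_eq_zero] at h2
      rcases h2 with (h2 | h2) | h2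
      · exact h h2.symm
      · linarith
      · linarith
  have hpt : ∀ s ∈ ZZ T, mm s + (if s.re ≠ 1 / 2 then mm s else 0) -
      (if s.im ≤ 1 then 2 * mm s else 0) ≤ mm s * (Mn s : ℝ) := by
    intro s hs
    have h1 := mm_pos1 hs
    have hself : H370.mult riemannZeta s ≤ Mn s := by
      rw [hMn]
      exact Finset.single_le_sum (f := fun s' => H370.mult riemannZeta s')
        (fun _ _ => Nat.zero_le _) (Finset.mem_filter.2 ⟨hs, rfl⟩)
    have hm0 : 0 ≤ mm s := mm_nonneg s
    have hM0 : (0 : ℝ) ≤ Mn s := Nat.cast_nonneg _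
    have hM1 : (1 : ℝ) ≤ Mn s := by exact_mod_cast h1.trans hself
    by_cases hi : s.im ≤ 1
    · rw [if_pos hi]
      have := mul_nonneg hm0 hM0
      split_ifs <;> linarith
    · rw [if_neg hi, sub_zero]
      by_cases hre : s.re = 1 / 2
      · rw [if_neg (not_not.2 hre), add_zero]
        nlinarith
      · rw [if_pos hre]
        have hr := refl_mem1 hs (not_le.1 hi)
        have hne : 1 - (starRingEnd ℂ) s ≠ s := by
          intro h
          have := congrArg Complex.re h
          simp at this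
          apply hre
          linarith
        have hsub : ({1 - (starRingEnd ℂ) s, s} : Finset ℂ) ⊆
            (ZZ T).filter (fun s' => s'.im = s.im) := by
          intro z hz
          rw [Finset.mem_insert, Finset.mem_singleton] at hz
          rcases hz with rfl | rfl
          · exact Finset.mem_filter.2 ⟨hr, by simp⟩
          · exact Finset.mem_filter.2 ⟨hs, rfl⟩
        have h5 : ∑ z ∈ ({1 - (starRingEnd ℂ) s, s} : Finset ℂ), H370.mult riemannZeta z ≤
            Mn s := by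
          rw [hMn]
          exact Finset.sum_le_sum_of_subset hsub
        rw [Finset.sum_pair hne] at h5
        have h6 := mm_pos1 hr
        have h7 : (2 : ℝ) ≤ Mn s := by exact_mod_cast (by omega : 2 ≤ Mn s)
        nlinarith
  have hsum := Finset.sum_le_sum hpt
  rw [← hDG, Finset.sum_sub_distrib, Finset.sum_add_distrib] at hsum
  have hfil : ∑ s ∈ ZZ T, (if s.im ≤ 1 then 2 * mm s else 0) = 2 * ∑ s ∈ ZZ 1, mm s := by
    rw [← Finset.sum_filter, ← Finset.mul_sum]
    congr 2
    ext s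
    rw [Finset.mem_filter, mem_ZZ, mem_ZZ]
    constructor
    · rintro ⟨⟨a1, a2, a3, a4, a5⟩, a6⟩
      exact ⟨a1, a2, a3, a4, a6⟩
    · rintro ⟨a1, a2, a3, a4, a5⟩
      exact ⟨⟨a1, a2, a3, a4, by linarith⟩, a5⟩
  have hNF : ∑ s ∈ ZZ T, (if s.re ≠ 1 / 2 then mm s else 0) = NF T := by
    unfold NF
    rw [Finset.sum_filter]
  rw [hfil, hNF] at hsum
  linarith

lemma nT_tend : Tendsto nT atTop atTop := by
  unfold nT
  have h2 : Tendsto (fun T : ℝ => T * Real.log T) atTop atTop :=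
    tendsto_id.atTop_mul_atTop₀ Real.tendsto_log_atTop
  exact h2.atTop_div_const (by positivity)

/-- if almost all pairs of equal ordinates are trivial, almost all zeros are on the line -/
lemma off_of_DG {F : Filter ℝ} (hF : F ≤ atTop) (h : ∀ ε : ℝ, 0 < ε → ∀ᶠ T in F, DG T ≤ 1 + ε) :
    ∀ η : ℝ, 0 < η → ∀ᶠ T : ℝ in F, NF T ≤ η * (T * Real.log T) := by
  intro η hη
  obtain ⟨K, hK, hK2⟩ := NF_le
  have hpi := Real.pi_gt_three
  filter_upwards [h η hη, hF (NT_lower hη), hF (nT_tend.eventually_ge_atTop (K / η)),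
    hF (eventually_ge_atTop 10)] with T h1 h2 h3 hT
  have hn := nT_pos hT
  have h4 := hK2 T hT
  rw [div_le_iff₀ hη] at h3
  have h5 : DG T * nT T ≤ (1 + η) * nT T := mul_le_mul_of_nonneg_right h1 hn.le
  have h6 : NF T ≤ 3 * (η * nT T) := by linarith
  have h7 : 3 * nT T ≤ T * Real.log T := by
    have hL := one_lt_log (show 3 ≤ T by linarith)
    have : nT T = T * Real.log T / (2 * Real.pi) := rfl
    rw [this]
    have hX : 0 < T * Real.log T := by
      have : 0 < T := by linarith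
      positivity
    rw [mul_div_assoc', div_le_iff₀ (by positivity)]
    nlinarith
  calc NF T ≤ 3 * (η * nT T) := h6
    _ = η * (3 * nT T) := by ring
    _ ≤ _ := mul_le_mul_of_nonneg_left h7 hη.le

lemma sinc_sq_int1 : ∫ t : ℝ, Real.sinc (Real.pi * t) ^ 2 = 1 := by
  have h0 := Pool.Agent.W354.LS.sinc_ft 0
  simp only [zero_mul, mul_zero, Complex.ofReal_zero, zero_mul, Complex.exp_zero, one_mul] at h0
  rw [integral_complex_ofReal, Pool.Agent.W354.LS.tri_zero] at h0
  exact_mod_cast h0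

/-- `x - ∫_0^x F ≤ 1/2` -/
lemma FF_half {x : ℝ} (hx : 0 ≤ x) : x - ∫ u in (0 : ℝ)..x, FF u ≤ 1 / 2 := by
  have hint := Pool.Agent.W354.LS.sinc_fourier_int
  have e1 : ∫ u in (0 : ℝ)..x, FF u = ∫ u in (0 : ℝ)..x, (1 - Real.sinc (Real.pi * u) ^ 2) := by
    refine intervalIntegral.integral_congr_ae ?_
    filter_upwards [Measure.ae_ne volume (0 : ℝ)] with u hu _
    unfold FF
    rw [Real.sinc_of_ne_zero (mul_ne_zero Real.pi_ne_zero hu)]
  have hii : ∀ a b : ℝ, IntervalIntegrable (fun t : ℝ => Real.sinc (Real.pi * t) ^ 2) volume a b :=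
    fun a b => hint.intervalIntegrable
  rw [e1, intervalIntegral.integral_sub (by simp) (hii _ _), intervalIntegral.integral_const]
  have e2 : ∫ u in (-x)..0, Real.sinc (Real.pi * u) ^ 2 = ∫ u in (0 : ℝ)..x,
      Real.sinc (Real.pi * u) ^ 2 := by
    have h1 := intervalIntegral.integral_comp_neg (a := 0) (b := x)
      (fun u : ℝ => Real.sinc (Real.pi * u) ^ 2)
    rw [neg_zero] at h1
    rw [← h1]
    refine intervalIntegral.integral_congr fun u _ => ?_
    show Real.sinc (Real.pi * -u) ^ 2 = Real.sinc (Real.pi * u) ^ 2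
    rw [mul_neg, Real.sinc_neg]
  have e3 := intervalIntegral.integral_add_adjacent_intervals (hii (-x) 0) (hii 0 x)
  have e4 : ∫ u in (-x)..x, Real.sinc (Real.pi * u) ^ 2 ≤ 1 := by
    rw [intervalIntegral.integral_of_le (by linarith), ← sinc_sq_int1]
    exact setIntegral_le_integral hint (Eventually.of_forall fun t => sq_nonneg _)
  rw [e2] at e3
  simp only [smul_eq_mul, mul_one, sub_zero]
  linarith

lemma log_div_small (δ C : ℝ) (hδ : 0 < δ) : ∀ᶠ x : ℝ in atTop,
    1 / Real.pi ^ 2 * Real.log (1 + x) + C ≤ δ * x := by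
  have h2 : (fun x : ℝ => Real.log (1 + x)) =o[atTop] fun x : ℝ => x := by
    have h3 := Real.isLittleO_log_id_atTop.comp_tendsto
      (tendsto_atTop_add_const_left atTop (1 : ℝ) tendsto_id)
    refine (h3.trans_isBigO ?_)
    refine Asymptotics.IsBigO.of_bound 2 ?_
    filter_upwards [eventually_ge_atTop 1] with x hx
    simp only [Function.comp, id, Real.norm_eq_abs]
    rw [abs_of_pos (by linarith), abs_of_pos (by linarith)]
    linarith
  have hpi := Real.pi_gt_three
  filter_upwards [h2.bound (show 0 < δ / 2 by positivity), eventually_ge_atTop 1,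
    eventually_ge_atTop (2 * C / δ)] with x hx hx0 hx1
  rw [Real.norm_eq_abs, Real.norm_eq_abs, abs_of_nonneg (show 0 ≤ x by linarith)] at hx
  have h3 := (le_abs_self _).trans hx
  rw [div_le_iff₀ hδ] at hx1
  have h4 : 1 / Real.pi ^ 2 ≤ 1 := by
    rw [div_le_one (by positivity)]
    nlinarith
  have h5 : 0 ≤ Real.log (1 + x) := Real.log_nonneg (by linarith)
  have h6 : 1 / Real.pi ^ 2 * Real.log (1 + x) ≤ 1 * Real.log (1 + x) :=
    mul_le_mul_of_nonneg_right h4 h5
  nlinarith

/-- **Lower bounds for the pair correlation force almost all pairs of equal ordinates to be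
trivial.** -/
theorem DG_of_lower {F : Filter ℝ} (hF : F ≤ atTop) {C' c a₀ : ℝ} (hc : 0 < c)
    (ho : ∀ a : ℝ, a₀ ≤ a → ∀ ε : ℝ, 0 < ε → ∀ᶠ T in F,
      (∫ x in (0 : ℝ)..a, FF x) - C' * Real.exp (-(c * a)) - ε ≤ NS T a) :
    ∀ ε : ℝ, 0 < ε → ∀ᶠ T in F, DG T ≤ 1 + ε := by
  intro ε hε
  obtain ⟨C, hC, hsum⟩ := sum_rule
  obtain ⟨δ, hδ⟩ : ∃ δ : ℝ, δ = ε / 8 := ⟨_, rfl⟩
  have hδ0 : 0 < δ := by rw [hδ]; positivity
  -- the starting point
  obtain ⟨A, hA⟩ : ∃ A : ℝ, A = max (max a₀ 0) (C' / (c * δ)) := ⟨_, rfl⟩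
  have hA0 : 0 ≤ A := by rw [hA]; exact (le_max_right _ _).trans (le_max_left _ _)
  have hAa : a₀ ≤ A := by rw [hA]; exact (le_max_left _ _).trans (le_max_left _ _)
  have hAC : C' / (c * δ) ≤ A := by rw [hA]; exact le_max_right _ _
  have hexp : ∀ x : ℝ, A ≤ x → C' * Real.exp (-(c * x)) ≤ δ := by
    intro x hx
    have h1 : C' ≤ δ * (c * x) := by
      have h2 : C' / (c * δ) ≤ x := hAC.trans hx
      rw [div_le_iff₀ (by positivity)] at h2
      linarith
    have h3 := Real.add_one_le_exp (c * x)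
    have h4 : C' ≤ δ * Real.exp (c * x) := by nlinarith
    rw [Real.exp_neg, ← div_eq_mul_inv, div_le_iff₀ (Real.exp_pos _)]
    exact h4
  -- the length
  obtain ⟨X, hX1, hX2⟩ : ∃ X : ℝ, 1 ≤ X ∧ ∀ x : ℝ, X ≤ x →
      1 / Real.pi ^ 2 * Real.log (1 + x) + C ≤ δ * x := by
    obtain ⟨X, hX⟩ := eventually_atTop.1 (log_div_small δ C hδ0)
    exact ⟨max X 1, le_max_right _ _, fun x hx => hX x ((le_max_left _ _).trans hx)⟩
  obtain ⟨n, hn⟩ := exists_nat_gt (X / δ)
  rw [div_lt_iff₀ hδ0] at hn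
  obtain ⟨B, hB⟩ : ∃ B : ℝ, B = A + n * δ := ⟨_, rfl⟩
  have hAB : A < B := by rw [hB]; linarith
  have hgrid : ∀ᶠ T in F, ∀ k ∈ Finset.range n,
      (∫ x in (0 : ℝ)..(A + k * δ), FF x) - C' * Real.exp (-(c * (A + k * δ))) - δ ≤
        NS T (A + k * δ) := by
    rw [Filter.eventually_all_finset]
    intro k _
    exact ho _ (hAa.trans (by have : (0 : ℝ) ≤ k * δ := by positivity
                              linarith)) δ hδ0
  filter_upwards [hgrid, hF (hsum A B hA0 hAB), hF (eventually_ge_atTop 10)] with T h1 h2 hT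
  have hptw : ∀ a ∈ Icc A B, a - NS T a ≤ 1 / 2 + 3 * δ := by
    intro a ha
    rcases eq_or_lt_of_le ha.2 with h | h
    · -- the right endpoint
      have hn0 : 0 < n := by
        rcases Nat.eq_zero_or_pos n with h0 | h0
        · rw [h0] at hn; norm_num at hn; linarith
        · exact h0
      have hk := h1 (n - 1) (Finset.mem_range.2 (by omega))
      have hcast : ((n - 1 : ℕ) : ℝ) = n - 1 := by
        rw [Nat.cast_sub hn0]; norm_num
      rw [hcast] at hk
      have hx0 : 0 ≤ A + ((n : ℝ) - 1) * δ := by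
        have : (1 : ℝ) ≤ n := by exact_mod_cast hn0
        have : 0 ≤ ((n : ℝ) - 1) * δ := mul_nonneg (by linarith) hδ0.le
        linarith
      have h3 := FF_half hx0
      have h4 := hexp (A + ((n : ℝ) - 1) * δ) (by
        have : (1 : ℝ) ≤ n := by exact_mod_cast hn0
        have : 0 ≤ ((n : ℝ) - 1) * δ := mul_nonneg (by linarith) hδ0.le
        linarith)
      have h5 : NS T (A + ((n : ℝ) - 1) * δ) ≤ NS T a := NS_mono T (by rw [h, hB]; nlinarith)
      have h6 : a = A + ((n : ℝ) - 1) * δ + δ := by rw [h, hB]; ring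
      linarith
    · obtain ⟨k, hk⟩ : ∃ k : ℕ, k = ⌊(a - A) / δ⌋₊ := ⟨_, rfl⟩
      have hq0 : 0 ≤ (a - A) / δ := div_nonneg (by linarith [ha.1]) hδ0.le
      have hk1 : (k : ℝ) * δ ≤ a - A := by
        have := Nat.floor_le hq0
        rw [← hk, le_div_iff₀ hδ0] at this
        exact this
      have hk2 : a - A < ((k : ℝ) + 1) * δ := by
        have := Nat.lt_floor_add_one ((a - A) / δ)
        rw [← hk, div_lt_iff₀ hδ0] at this
        exact this
      have hkn : k < n := by
        have h3 : (k : ℝ) * δ < n * δ := by linarith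
        exact_mod_cast lt_of_mul_lt_mul_right h3 hδ0.le
      have hk3 := h1 k (Finset.mem_range.2 hkn)
      have hx0 : 0 ≤ A + (k : ℝ) * δ := by positivity
      have h3 := FF_half hx0
      have h4 := hexp (A + (k : ℝ) * δ) (by
        have : (0 : ℝ) ≤ k * δ := by positivity
        linarith)
      have h5 : NS T (A + (k : ℝ) * δ) ≤ NS T a := NS_mono T (by linarith)
      linarith
  have hii : ∀ a b : ℝ, IntervalIntegrable (NS T) volume a b := fun a b =>
    (NS_mono T).intervalIntegrable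
  have hI : ∫ a in A..B, (a - NS T a) ≤ (1 / 2 + 3 * δ) * (B - A) := by
    have h3 : ∫ a in A..B, (a - NS T a) ≤ ∫ a in A..B, (1 / 2 + 3 * δ) :=
      intervalIntegral.integral_mono_on hAB.le
        ((intervalIntegral.intervalIntegrable_id).sub (hii _ _)) (by simp) hptw
    rw [intervalIntegral.integral_const, smul_eq_mul] at h3
    linarith
  have hBA : B - A = n * δ := by rw [hB]; ring
  have hlog : Real.log ((1 + B) / (1 + A)) ≤ Real.log (1 + (B - A)) := by
    apply Real.log_le_log (div_pos (by linarith) (by linarith))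
    rw [div_le_iff₀ (by linarith)]
    nlinarith
  have hfin := hX2 (B - A) (by rw [hBA]; exact hn.le)
  have h6 := (abs_le.1 h2).2
  have h7 : 1 / Real.pi ^ 2 * Real.log ((1 + B) / (1 + A)) ≤
      1 / Real.pi ^ 2 * Real.log (1 + (B - A)) := mul_le_mul_of_nonneg_left hlog (by positivity)
  have hBA0 : 0 < B - A := by linarith
  have h8 : (B - A) * DG T ≤ (B - A) * (1 + 7 * δ) := by nlinarith
  have h9 := le_of_mul_le_mul_left h8 hBA0
  rw [hδ] at h9
  linarith

/-- the windows at positive distances suffice -/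
theorem lower_of_win {F : Filter ℝ}
    (h : ∀ α β : ℝ, 0 < α → α < β →
      Tendsto (fun T => (Mp T).real (Icc α β)) F (𝓝 (∫ x in α..β, FF x))) :
    ∀ a : ℝ, 1 ≤ a → ∀ ε : ℝ, 0 < ε → ∀ᶠ T in F,
      (∫ x in (0 : ℝ)..a, FF x) - 0 * Real.exp (-(1 * a)) - ε ≤ NS T a := by
  intro a ha ε hε
  obtain ⟨d, hd⟩ : ∃ d : ℝ, d = min (ε / 4) (1 / 2) := ⟨_, rfl⟩
  have hd0 : 0 < d := by rw [hd]; exact lt_min (by positivity) (by norm_num)
  have hd1 : d ≤ ε / 4 := by rw [hd]; exact min_le_left _ _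
  have hd2 : d ≤ 1 / 2 := by rw [hd]; exact min_le_right _ _
  have h1 : (∫ x in (0 : ℝ)..a, FF x) = (∫ x in (0 : ℝ)..d, FF x) + ∫ x in d..a, FF x :=
    (intervalIntegral.integral_add_adjacent_intervals (FF_ii _ _) (FF_ii _ _)).symm
  have h2 : ∫ x in (0 : ℝ)..d, FF x ≤ d := by
    have := gF_le hd0.le
    rw [intervalIntegral.integral_same] at this
    linarith
  filter_upwards [(h d a hd0 (by linarith)).eventually (eventually_gt_nhds
    (show (∫ x in d..a, FF x) - ε / 4 < ∫ x in d..a, FF x by linarith))] with T hT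
  have h3 : (Mp T).real (Icc d a) ≤ NS T a := by
    have := Mp_fin T
    refine MeasureTheory.measureReal_mono ?_ (MeasureTheory.measure_ne_top _ _)
    intro x hx
    exact ⟨by linarith [hx.1], hx.2⟩
  rw [zero_mul]
  linarith

/-- **Pair correlation implies that almost all zeros are on the critical line.** -/
theorem off_of_win {F : Filter ℝ} (hF : F ≤ atTop)
    (h : ∀ α β : ℝ, 0 < α → α < β →
      Tendsto (fun T => (Mp T).real (Icc α β)) F (𝓝 (∫ x in α..β, FF x))) :
    ∀ η : ℝ, 0 < η → ∀ᶠ T : ℝ in F, NF T ≤ η * (T * Real.log T) :=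
  off_of_DG hF (DG_of_lower hF one_pos (lower_of_win h))

end Pool.Agent.Q85.Rig
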