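import Pool.Agent.Q85.Rig.Off

/-! # The test function formula along a filter

The proofs of `blk_pt` and `step_pt` follow `Pool.Agent.Y749.Rig.blk_main` and
`Pool.Agent.Y749.Rig.recur`; here the number of zeros off the line is only assumed to be small at
the scale under consideration.
-/

set_option autoImplicit false

open MeasureTheory Set Filter Topology
open scoped NNReal ENNReal

namespace Pool.Agent.Q85.Rig

open Pool.Agent.Y749.Rig
open H370 (Zf mult good_zeta mem_Zf NN zset)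
open TH850.UR (ew)

theorem blk_pt : ∃ κ : ℝ, 0 < κ ∧ κ ≤ 1 / 2 ∧ ∀ ψ : ℝ → ℝ, Adm κ ψ →
    ∀ ε : ℝ, 0 < ε → ∃ η : ℝ, 0 < η ∧ ∀ᶠ q : ℝ in atTop,
      NF (9 / 8 * q) ≤ η * (9 / 8 * q * Real.log (9 / 8 * q)) →
      |RR (fl ψ) (Zf riemannZeta q (9 / 8 * q)) (Zf riemannZeta q (9 / 8 * q)) (Real.log q) -
        q / 8 * (Real.log q / (2 * Real.pi)) * cc ψ| ≤ ε * (q * Real.log q) := by
  classical
  obtain ⟨κ, Cw, Tw, hκ, hκ2, hCw, hTw, hwm⟩ := Pool.Agent.Y749.Rig.wm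
  refine ⟨κ, hκ, hκ2, fun ψ h ε hε => ?_⟩
  obtain ⟨C, hC⟩ := h.dec
  have hC0 : 0 ≤ C := by
    have := (norm_nonneg _).trans (hC 0 0)
    simpa using this
  obtain ⟨C1, T1, hC1, hT1, hblk⟩ := sm_blk
  have hW := W0_nonneg
  have hpi := Real.pi_pos
  -- constants
  obtain ⟨ρ, hρ⟩ : ∃ ρ : ℝ, ρ = ε / (8 * (C * (W0 + 1) * C1 + 1)) := ⟨_, rfl⟩
  have hρ0 : 0 < ρ := by rw [hρ]; positivity
  have hρ1 : C * (ρ * W0 + ρ) * C1 ≤ ε / 8 := by
    have h1 : (C * (W0 + 1) * C1 + 1) * ρ = ε / 8 := by rw [hρ]; field_simp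
    nlinarith
  obtain ⟨R, hR0, hR⟩ : ∃ R : ℝ, 0 < R ∧ WT R ≤ ρ := by
    obtain ⟨R, hR1, hR2⟩ := ((eventually_gt_atTop 0).and
      (WT_tendsto.eventually (ge_mem_nhds hρ0))).exists
    exact ⟨R, hR1, hR2⟩
  obtain ⟨D, hD⟩ : ∃ D : ℝ, D = 6 * C * W0 + 1 := ⟨_, rfl⟩
  have hD0 : 0 < D := by rw [hD]; positivity
  obtain ⟨y, hy⟩ : ∃ y : ℝ, y = (ε / (4 * D)) ^ 2 / Cw := ⟨_, rfl⟩
  have hy0 : 0 < y := by rw [hy]; positivity
  obtain ⟨K, hK⟩ : ∃ K : ℝ, K = 2 * Cw / y := ⟨_, rfl⟩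
  have hK0 : 0 < K := by rw [hK]; positivity
  obtain ⟨η, hη⟩ : ∃ η : ℝ, η = y / (12 * K) := ⟨_, rfl⟩
  have hη0 : 0 < η := by rw [hη]; positivity
  obtain ⟨δ, hδ, hgood⟩ := good_piece h hκ hκ2 (show 0 < ε / (8 * (1 + 1)) by positivity)
  refine ⟨η, hη0, ?_⟩
  filter_upwards [hgood, gap h hδ (show 0 < ε / 8 by positivity),
    eventually_ge_atTop Tw, eventually_ge_atTop T1, rpow_small hδ
      (show (0 : ℝ) < min (1 / 100) (ε / (8 * (|cc ψ| + 1))) by positivity),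
    Real.tendsto_log_atTop.eventually_ge_atTop (2 * Real.pi * R / Real.sqrt ρ + 1)]
    with q ⟨t, H, ht1, ht2, hH, hgd⟩ hgap hq1 hq2 hw1 hLR hofq
  have hq10 : 10 ≤ q := hTw.trans hq1
  have hqp : 0 < q := by linarith
  have hg := hgap t H ht1 ht2 hH
  obtain ⟨L, hL⟩ : ∃ L : ℝ, L = Real.log q := ⟨_, rfl⟩
  have hL1 : 1 < L := by rw [hL]; exact one_lt_log (by linarith)
  have hL0 : 0 < L := by linarith
  obtain ⟨w, hw⟩ : ∃ w : ℝ, w = q ^ (1 - δ) := ⟨_, rfl⟩
  have hwp : 0 < w := by rw [hw]; exact Real.rpow_pos_of_pos hqp _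
  rw [← hw] at ht2 hH hw1
  have hwm1 := hwm q hq1
  have hblkT := hblk q hq2
  rw [← hL] at hg hgd hLR hwm1 hblkT ⊢
  have hw2 : w ≤ 1 / 100 * q := hw1.trans (by gcongr; exact min_le_left _ _)
  have hw3 : w ≤ ε / (8 * (|cc ψ| + 1)) * q := hw1.trans (by gcongr; exact min_le_right _ _)
  obtain ⟨B, hB⟩ : ∃ B : Finset ℂ, B = Zf riemannZeta q (9 / 8 * q) := ⟨_, rfl⟩
  obtain ⟨P, hP⟩ : ∃ P : Finset ℂ, P = Zf riemannZeta t (t + H) := ⟨_, rfl⟩
  rw [← hB] at hg ⊢
  rw [← hP] at hg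
  have hHt : t + H ≤ 9 / 8 * q := by rw [hH]; linarith
  have ht0 : 1 ≤ t := by linarith
  have hPB : P ⊆ B := by
    rw [hP, hB]
    intro s hs
    rw [mem_Zf good_zeta (by linarith)] at hs ⊢
    exact ⟨hs.1, hs.2.1, by linarith [hs.2.2.1], by linarith [hs.2.2.2.1], hs.2.2.2.2⟩
  have hB2 : B ⊆ Zf riemannZeta q (2 * q) := by
    rw [hB]
    intro s hs
    rw [mem_Zf good_zeta (by linarith)] at hs ⊢
    exact ⟨hs.1, hs.2.1, hs.2.2.1, by linarith [hs.2.2.2.1], hs.2.2.2.2⟩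
  have hPre : ∀ s ∈ P, 0 < s.re ∧ s.re < 1 := by
    intro s hs
    rw [hP, mem_Zf good_zeta (by linarith)] at hs
    exact ⟨hs.1, hs.2.1⟩
  -- the complex sum
  have hS := JN_eq h hκ (A := t) (B := t + H) (L := L) ht0
  rw [← hP] at hS
  have hSre := congrArg Complex.re hS
  rw [Complex.ofReal_re] at hSre
  rw [hSre] at hgd
  -- the difference
  have hdiff := diff_sum h hκ hC hC0 hL0 hPre
  have hPm : ∫⁻ t, ENNReal.ofReal (fw P mm L t ^ 2) ≤ ENNReal.ofReal (C1 * q) := by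
    refine le_trans (lintegral_mono fun t => ENNReal.ofReal_le_ofReal ?_) hblkT
    refine pow_le_pow_left₀ (fw_nonneg mm_nonneg t) ?_ 2
    exact fw_mono (hPB.trans hB2) (fun s _ => le_rfl) t mm_nonneg
  have hA1 : ∑ s ∈ P, ∑ s' ∈ P, mm s * mm s' * (C * (1 - Real.exp (-(s.im - s'.im) ^ 2 / 4)) *
        (1 / (1 + ((s.im - s'.im) * L / (2 * Real.pi)) ^ 2))) ≤ ε / 8 * (q * L) := by
    have h1 := RR_split (A := P) (B := P) (L := L) hL0 (Y₁ := C1 * q) (Y₂ := C1 * q) (by positivity)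
      (by positivity) mm_nonneg mm_nonneg hPm hPm
      (K := fun s s' => C * (1 - Real.exp (-(s.im - s'.im) ^ 2 / 4)) *
        (1 / (1 + ((s.im - s'.im) * L / (2 * Real.pi)) ^ 2))) (R := R) (η := C * ρ) (β := C)
      (by positivity) hC0 ?_
    · refine h1.trans ?_
      rw [mul_assoc L, Real.mul_self_sqrt (by positivity)]
      calc (C * ρ * W0 + C * WT R) * (L * (C1 * q)) ≤ (C * ρ * W0 + C * ρ) * (L * (C1 * q)) := by
            gcongr
        _ = C * (ρ * W0 + ρ) * C1 * (q * L) := by ring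
        _ ≤ _ := by gcongr
    · intro s _ s' _
      apply mul_le_mul_of_nonneg_right _ (by positivity)
      have hexp1 : 0 < Real.exp (-(s.im - s'.im) ^ 2 / 4) := Real.exp_pos _
      split_ifs with hh
      · nlinarith
      · push Not at hh
        apply mul_le_mul_of_nonneg_left _ hC0
        have h2 := Real.add_one_le_exp (-(s.im - s'.im) ^ 2 / 4)
        rw [abs_div, abs_mul, abs_of_pos hL0, abs_of_pos (show 0 < 2 * Real.pi by positivity),
          div_lt_iff₀ (by positivity)] at hh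
        have h3 : 2 * Real.pi * R / Real.sqrt ρ ≤ L := by linarith
        have hsρ : 0 < Real.sqrt ρ := Real.sqrt_pos.2 hρ0
        rw [div_le_iff₀ hsρ] at h3
        have h4 : |s.im - s'.im| ≤ Real.sqrt ρ := by
          have h5 : |s.im - s'.im| * L ≤ Real.sqrt ρ * L := by linarith
          exact le_of_mul_le_mul_right h5 hL0
        have h6 : (s.im - s'.im) ^ 2 ≤ ρ := by
          rw [← sq_abs, ← Real.sq_sqrt hρ0.le]
          exact pow_le_pow_left₀ (abs_nonneg _) h4 2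
        linarith
  have hA2 : ∑ s ∈ P.filter (fun s => s.re ≠ 1 / 2), ∑ s' ∈ P, (mm s * ew κ L s) *
        (mm s' * ew κ L s') * (1 / (1 + ((s.im - s'.im) * L / (2 * Real.pi)) ^ 2)) ≤
      W0 * (L * (ε / (4 * D) * q)) := by
    have hsubP : P ⊆ Zf riemannZeta q (2 * q) := hPB.trans hB2
    have hsubF : P.filter (fun s => s.re ≠ 1 / 2) ⊆ Zf riemannZeta q (2 * q) :=
      (Finset.filter_subset _ _).trans hsubP
    have h1 := (hwm1 P hsubP).2
    have h2 := sparse (κ := κ) hL0 hK0 (by positivity) (hwm1 _ hsubF).1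
    have h3 : ∑ s ∈ P.filter (fun s => s.re ≠ 1 / 2), mm s ≤ 3 * η * (q * L) := by
      have h4 : ∑ s ∈ P.filter (fun s => s.re ≠ 1 / 2), mm s ≤ NF (9 / 8 * q) := by
        unfold NF
        refine Finset.sum_le_sum_of_subset_of_nonneg ?_ fun s _ _ => mm_nonneg s
        refine Finset.filter_subset_filter _ ?_
        rw [hP]
        exact Zf_sub_ZZ ht0 hHt
      have h5 : Real.log (9 / 8 * q) ≤ 2 * L := by
        have : Real.log (9 / 8 * q) ≤ Real.log (q ^ 2) := Real.log_le_log (by linarith)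
          (by nlinarith)
        rw [Real.log_pow, ← hL] at this
        exact_mod_cast this
      calc ∑ s ∈ P.filter (fun s => s.re ≠ 1 / 2), mm s ≤ η * (9 / 8 * q * Real.log (9 / 8 * q)) :=
            h4.trans hofq
        _ ≤ η * (9 / 8 * q * (2 * L)) := by gcongr
        _ ≤ _ := by
            have : 0 < η * (q * L) := by positivity
            nlinarith
    have h6 : K * ((∑ s ∈ P.filter (fun s => s.re ≠ 1 / 2), mm s) * (2 / L)) + Cw * q / K ≤ y * q := by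
      have h7 : (∑ s ∈ P.filter (fun s => s.re ≠ 1 / 2), mm s) * (2 / L) ≤ 6 * η * q := by
        calc (∑ s ∈ P.filter (fun s => s.re ≠ 1 / 2), mm s) * (2 / L) ≤
              3 * η * (q * L) * (2 / L) := by gcongr
          _ = 6 * η * q := by field_simp; ring
      have h8 : K * (6 * η * q) = y / 2 * q := by rw [hη]; field_simp; ring
      have h9 : Cw * q / K = y / 2 * q := by rw [hK]; field_simp
      have h10 := mul_le_mul_of_nonneg_left h7 hK0.le
      rw [h8] at h10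
      rw [h9]
      linarith
    have h7 := h2.trans (ENNReal.ofReal_le_ofReal h6)
    have h8 := est_all (A := P.filter (fun s => s.re ≠ 1 / 2)) (B := P) (L := L) hL0 (Y₁ := y * q)
      (Y₂ := Cw * q) (by positivity) (by positivity) (aw_nonneg κ L) (aw_nonneg κ L) h7 h1
    refine h8.trans ?_
    rw [mul_assoc L]
    have h9 : Real.sqrt (y * q) * Real.sqrt (Cw * q) = ε / (4 * D) * q := by
      rw [← Real.sqrt_mul (by positivity)]
      have : y * q * (Cw * q) = (ε / (4 * D) * q) ^ 2 := by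
        rw [hy]; field_simp
      rw [this, Real.sqrt_sq (by positivity)]
    rw [h9]
  -- assembly
  obtain ⟨S, hSd⟩ : ∃ S : ℝ, S = (∑ s ∈ P, ∑ s' ∈ P, (mm s : ℂ) * (mm s' : ℂ) * PS ψ L s s').re :=
    ⟨_, rfl⟩
  rw [← hSd] at hdiff hgd
  have hd2 : |RR (fl ψ) P P L - S| ≤ ε / 8 * (q * L) + 6 * C * (W0 * (L * (ε / (4 * D) * q))) := by
    refine hdiff.trans ?_
    have := mul_le_mul_of_nonneg_left hA2 (show 0 ≤ 6 * C by positivity)
    linarith
  have hd3 : 6 * C * (W0 * (L * (ε / (4 * D) * q))) ≤ ε / 4 * (q * L) := by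
    have h1 : 6 * C * W0 ≤ D := by rw [hD]; linarith
    calc 6 * C * (W0 * (L * (ε / (4 * D) * q))) = (6 * C * W0) * (ε / (4 * D)) * (q * L) := by ring
      _ ≤ D * (ε / (4 * D)) * (q * L) := by gcongr
      _ = ε / 4 * (q * L) := by field_simp
  have hHq : H ≤ q := by rw [hH]; linarith
  have hH0 : 0 ≤ H := by rw [hH]; linarith
  have h2pi : 1 ≤ 2 * Real.pi := by linarith [Real.pi_gt_three]
  have hgd2 : |S - H * L / (2 * Real.pi) * cc ψ| ≤ ε / 8 * (q * L) := by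
    refine hgd.trans ?_
    have h1 : H * L / (2 * Real.pi) ≤ q * L := by
      rw [div_le_iff₀ (by positivity)]
      have : H * L ≤ q * L := by gcongr
      nlinarith [mul_pos hqp hL0]
    calc ε / (8 * (1 + 1)) * (H * L / (2 * Real.pi)) ≤ ε / (8 * (1 + 1)) * (q * L) := by gcongr
      _ ≤ _ := by
          have : 0 < ε * (q * L) := by positivity
          nlinarith
  have hHd : |H * L / (2 * Real.pi) * cc ψ - q / 8 * (L / (2 * Real.pi)) * cc ψ| ≤
      ε / 4 * (q * L) := by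
    have h1 : H * L / (2 * Real.pi) * cc ψ - q / 8 * (L / (2 * Real.pi)) * cc ψ =
        -(2 * w * (L / (2 * Real.pi)) * cc ψ) := by rw [hH]; ring
    rw [h1, abs_neg, abs_mul, abs_of_pos (show 0 < 2 * w * (L / (2 * Real.pi)) by positivity)]
    have h2 : L / (2 * Real.pi) ≤ L := div_le_self hL0.le h2pi
    have h3 : ε / (8 * (|cc ψ| + 1)) * (|cc ψ| + 1) = ε / 8 := by
      have : 0 < |cc ψ| + 1 := by positivity
      field_simp
    calc 2 * w * (L / (2 * Real.pi)) * |cc ψ| ≤ 2 * w * L * |cc ψ| := by gcongr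
      _ ≤ 2 * (ε / (8 * (|cc ψ| + 1)) * q) * L * (|cc ψ| + 1) := by
          gcongr
          linarith
      _ = 2 * (ε / (8 * (|cc ψ| + 1)) * (|cc ψ| + 1)) * (q * L) := by ring
      _ = ε / 4 * (q * L) := by rw [h3]; ring
  have e1 : RR (fl ψ) B B L - q / 8 * (L / (2 * Real.pi)) * cc ψ =
      (RR (fl ψ) B B L - RR (fl ψ) P P L) + (RR (fl ψ) P P L - S) +
      (S - H * L / (2 * Real.pi) * cc ψ) +
      (H * L / (2 * Real.pi) * cc ψ - q / 8 * (L / (2 * Real.pi)) * cc ψ) := by ring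
  rw [e1]
  have t1 := abs_add_le ((RR (fl ψ) B B L - RR (fl ψ) P P L) + (RR (fl ψ) P P L - S) +
      (S - H * L / (2 * Real.pi) * cc ψ))
      (H * L / (2 * Real.pi) * cc ψ - q / 8 * (L / (2 * Real.pi)) * cc ψ)
  have t2 := abs_add_le ((RR (fl ψ) B B L - RR (fl ψ) P P L) + (RR (fl ψ) P P L - S))
      (S - H * L / (2 * Real.pi) * cc ψ)
  have t3 := abs_add_le (RR (fl ψ) B B L - RR (fl ψ) P P L) (RR (fl ψ) P P L - S)
  have hX : 0 < ε * (q * L) := by positivity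
  linarith

/-- the relative error up to `T` -/
noncomputable def dT (ψ : ℝ → ℝ) (c T : ℝ) : ℝ := |RR (fl ψ) (ZZ T) (ZZ T) (Real.log T) -
      T * Real.log T / (2 * Real.pi) * c| / (T * Real.log T)

/-- the relative error in a block -/
noncomputable def eB (ψ : ℝ → ℝ) (c q : ℝ) : ℝ :=
  |RR (fl ψ) (Zf riemannZeta q (9 / 8 * q)) (Zf riemannZeta q (9 / 8 * q)) (Real.log q) -
        q / 8 * (Real.log q / (2 * Real.pi)) * c| / (q * Real.log q)

theorem step_pt {ψ : ℝ → ℝ} {κ : ℝ} (h : Adm κ ψ) (c : ℝ) :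
    (∃ M : ℝ, 0 ≤ M ∧ ∀ᶠ T in atTop, dT ψ c T ≤ M) ∧
    ∀ ε : ℝ, 0 < ε → ∀ᶠ T in atTop,
      dT ψ c T ≤ 8 / 9 * dT ψ c (8 / 9 * T) + 8 / 9 * eB ψ c (8 / 9 * T) + ε := by
  classical
  obtain ⟨d, hd⟩ : ∃ d : ℝ → ℝ, ∀ T, d T = |RR (fl ψ) (ZZ T) (ZZ T) (Real.log T) -
      T * Real.log T / (2 * Real.pi) * c| / (T * Real.log T) := ⟨_, fun T => rfl⟩
  obtain ⟨b, hbd⟩ := fl_bound h
  have hb0 : 0 ≤ b := by
    have := (abs_nonneg _).trans (hbd 0)
    simpa using this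
  obtain ⟨C, T0, hC, hT0, hsm⟩ := sm_all
  have hpi := Real.pi_pos
  have hM : ∀ᶠ T in atTop, d T ≤ b * W0 * C + |c| / (2 * Real.pi) := by
    filter_upwards [eventually_ge_atTop T0] with T hT
    have hT10 : 10 ≤ T := hT0.trans hT
    have hL := one_lt_log (show 3 ≤ T by linarith)
    have hTp : 0 < T := by linarith
    have hLp : 0 < Real.log T := by linarith
    rw [hd, div_le_iff₀ (by positivity)]
    have h1 := RR_le (A := ZZ T) (B := ZZ T) hLp (Y₁ := C * T) (Y₂ := C * T) (by positivity)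
      (by positivity) (hsm T hT) (hsm T hT) hb0 hbd
    rw [mul_assoc (Real.log T), Real.mul_self_sqrt (by positivity)] at h1
    refine (abs_sub _ _).trans ?_
    have h2 : |T * Real.log T / (2 * Real.pi) * c| = T * Real.log T * (|c| / (2 * Real.pi)) := by
      rw [abs_mul, abs_of_pos (show 0 < T * Real.log T / (2 * Real.pi) by positivity)]
      ring
    rw [h2]
    linarith
  have hdd : d = dT ψ c := by
    funext T
    rw [hd]; rfl
  refine ⟨⟨b * W0 * C + |c| / (2 * Real.pi), by have := W0_nonneg; positivity, by rw [← hdd]; exact hM⟩, ?_⟩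
  rw [← hdd]
  · intro ε hε
    obtain ⟨e, he⟩ : ∃ e : ℝ, e = ε / 5 := ⟨_, rfl⟩
    have he0 : 0 < e := by rw [he]; positivity
    have h89 : Tendsto (fun T : ℝ => 8 / 9 * T) atTop atTop :=
      tendsto_id.const_mul_atTop (by norm_num)
    filter_upwards [dil h he0, h89.eventually (cross h he0),
      eventually_ge_atTop 20, Real.tendsto_log_atTop.eventually_ge_atTop (|c| / e + 1)]
      with T h1 h2 hT hLc
    obtain ⟨q, hq⟩ : ∃ q : ℝ, q = 8 / 9 * T := ⟨_, rfl⟩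
    have hTq : T = 9 / 8 * q := by rw [hq]; ring
    have hq17 : 17 ≤ q := by rw [hq]; linarith
    have hqp : 0 < q := by linarith
    have hTp : 0 < T := by linarith
    rw [← hq] at h1 h2 ⊢
    obtain ⟨E, hEd⟩ : ∃ E : ℝ, E = eB ψ c q := ⟨_, rfl⟩
    rw [← hEd]
    have hlq : 0 < Real.log q := Real.log_pos (by linarith)
    have hE : 0 ≤ E := by
      rw [hEd]; unfold eB
      exact div_nonneg (abs_nonneg _) (by positivity)
    have h3 : |RR (fl ψ) (Zf riemannZeta q (9 / 8 * q)) (Zf riemannZeta q (9 / 8 * q)) (Real.log q) -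
        q / 8 * (Real.log q / (2 * Real.pi)) * c| ≤ (E + e) * (q * Real.log q) := by
      have h4 : |RR (fl ψ) (Zf riemannZeta q (9 / 8 * q)) (Zf riemannZeta q (9 / 8 * q)) (Real.log q) -
        q / 8 * (Real.log q / (2 * Real.pi)) * c| = E * (q * Real.log q) := by
        rw [hEd]; unfold eB
        rw [div_mul_cancel₀ _ (by positivity)]
      rw [h4]
      exact mul_le_mul_of_nonneg_right (by linarith) (by positivity)
    obtain ⟨L, hL⟩ : ∃ L : ℝ, L = Real.log T := ⟨_, rfl⟩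
    obtain ⟨L', hL'⟩ : ∃ L' : ℝ, L' = Real.log q := ⟨_, rfl⟩
    obtain ⟨l, hl⟩ : ∃ l : ℝ, l = Real.log (9 / 8) := ⟨_, rfl⟩
    have hl0 : 0 < l := by rw [hl]; exact log98.1
    have hl1 : l ≤ 1 / 8 := by rw [hl]; exact log98.2
    have hLL : L' = L - l := by
      rw [hL', hL, hl, hq]; exact log_ratio hTp
    have hL'1 : 1 < L' := by rw [hL']; exact one_lt_log (by linarith)
    have hL1 : 1 < L := by linarith
    rw [hd, hd, ← hL, ← hL']
    rw [← hL, ← hL'] at h1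
    rw [← hL'] at h2 h3
    rw [← hL] at hLc
    -- decomposition
    have hdec : RR (fl ψ) (ZZ T) (ZZ T) L' = RR (fl ψ) (ZZ q) (ZZ q) L' +
        2 * RR (fl ψ) (ZZ q) (Zf riemannZeta q (9 / 8 * q)) L' +
        RR (fl ψ) (Zf riemannZeta q (9 / 8 * q)) (Zf riemannZeta q (9 / 8 * q)) L' := by
      rw [ZZ_split (q := q) (T := T) (by linarith) (by linarith), ← hTq]
      exact RR_union (ZZ_disj (by linarith)) fun x => fl_even x
    obtain ⟨R1, hR1⟩ : ∃ R1 : ℝ, R1 = RR (fl ψ) (ZZ T) (ZZ T) L := ⟨_, rfl⟩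
    obtain ⟨R2, hR2⟩ : ∃ R2 : ℝ, R2 = RR (fl ψ) (ZZ T) (ZZ T) L' := ⟨_, rfl⟩
    obtain ⟨R3, hR3⟩ : ∃ R3 : ℝ, R3 = RR (fl ψ) (ZZ q) (ZZ q) L' := ⟨_, rfl⟩
    obtain ⟨R4, hR4⟩ : ∃ R4 : ℝ, R4 = RR (fl ψ) (ZZ q) (Zf riemannZeta q (9 / 8 * q)) L' :=
      ⟨_, rfl⟩
    obtain ⟨R5, hR5⟩ : ∃ R5 : ℝ, R5 = RR (fl ψ) (Zf riemannZeta q (9 / 8 * q))
      (Zf riemannZeta q (9 / 8 * q)) L' := ⟨_, rfl⟩
    rw [← hR1, ← hR2] at h1
    rw [← hR4] at h2
    rw [← hR5] at h3
    rw [← hR2, ← hR3, ← hR4, ← hR5] at hdec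
    rw [← hR1, ← hR3]
    have hX : 0 < T * L := by positivity
    have hY : 0 < q * L' := by positivity
    have hYX : q * L' ≤ 8 / 9 * (T * L) := by
      rw [hTq]
      nlinarith
    obtain ⟨D, hD⟩ : ∃ D : ℝ, D = |R3 - q * L' / (2 * Real.pi) * c| := ⟨_, rfl⟩
    rw [← hD]
    have hD0 : 0 ≤ D := by rw [hD]; exact abs_nonneg _
    have hmain : |R1 - T * L / (2 * Real.pi) * c| ≤ e * (T * L) + D + 2 * (e * (q * L')) +
        (E + e) * (q * L') + e * (T * L) := by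
      have e1 : R1 - T * L / (2 * Real.pi) * c = (R1 - R2) + (R3 - q * L' / (2 * Real.pi) * c) +
          2 * R4 + (R5 - q / 8 * (L' / (2 * Real.pi)) * c) - T * l / (2 * Real.pi) * c := by
        rw [hdec, hLL, hTq]; ring
      have e2 : |T * l / (2 * Real.pi) * c| ≤ e * (T * L) := by
        rw [abs_mul, abs_of_pos (show 0 < T * l / (2 * Real.pi) by positivity)]
        have h5 : |c| / e ≤ L := by linarith
        rw [div_le_iff₀ he0] at h5
        have h6 : T * l / (2 * Real.pi) ≤ T := by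
          rw [div_le_iff₀ (by positivity)]
          have := Real.pi_gt_three
          nlinarith
        calc T * l / (2 * Real.pi) * |c| ≤ T * |c| := by gcongr
          _ ≤ T * (L * e) := by gcongr
          _ = _ := by ring
      rw [e1]
      have t1 := abs_add_le ((R1 - R2) + (R3 - q * L' / (2 * Real.pi) * c) +
          2 * R4 + (R5 - q / 8 * (L' / (2 * Real.pi)) * c)) (-(T * l / (2 * Real.pi) * c))
      have t2 := abs_add_le ((R1 - R2) + (R3 - q * L' / (2 * Real.pi) * c) +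
          2 * R4) (R5 - q / 8 * (L' / (2 * Real.pi)) * c)
      have t3 := abs_add_le ((R1 - R2) + (R3 - q * L' / (2 * Real.pi) * c)) (2 * R4)
      have t4 := abs_add_le (R1 - R2) (R3 - q * L' / (2 * Real.pi) * c)
      rw [abs_neg, ← sub_eq_add_neg] at t1
      have t5 : |2 * R4| = 2 * |R4| := by rw [abs_mul, abs_of_pos (by norm_num : (0:ℝ) < 2)]
      rw [t5] at t3
      rw [← hD] at t4
      linarith
    rw [div_le_iff₀ hX]
    have hD2 : D ≤ 8 / 9 * (D / (q * L')) * (T * L) := by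
      have : D = D / (q * L') * (q * L') := by field_simp
      calc D = D / (q * L') * (q * L') := this
        _ ≤ D / (q * L') * (8 / 9 * (T * L)) := by gcongr
        _ = _ := by ring
    have hE2 : (E + e) * (q * L') ≤ (E + e) * (8 / 9 * (T * L)) := by gcongr
    have he2 : e * (q * L') ≤ e * (8 / 9 * (T * L)) := by gcongr
    have hεe : ε = 5 * e := by rw [he]; ring
    rw [hεe]
    have heX : 0 < e * (T * L) := by positivity
    calc |R1 - T * L / (2 * Real.pi) * c| ≤ _ := hmain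
      _ ≤ e * (T * L) + 8 / 9 * (D / (q * L')) * (T * L) + 2 * (e * (8 / 9 * (T * L))) +
          (E + e) * (8 / 9 * (T * L)) + e * (T * L) := by linarith
      _ ≤ _ := by
        have : (8 / 9 * (D / (q * L')) + 8 / 9 * E + 5 * e) * (T * L) =
          8 / 9 * (D / (q * L')) * (T * L) + 8 / 9 * (E * (T * L)) + 5 * (e * (T * L)) := by ring
        rw [this]
        have : (E + e) * (8 / 9 * (T * L)) = 8 / 9 * (E * (T * L)) + 8 / 9 * (e * (T * L)) := by ring
        rw [this]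
        linarith


lemma eB_nonneg (ψ : ℝ → ℝ) (c : ℝ) {q : ℝ} (hq : 1 < q) : 0 ≤ eB ψ c q := by
  unfold eB
  have := Real.log_pos hq
  exact div_nonneg (abs_nonneg _) (by positivity)

/-- the iterated recursion -/
theorem iter_pt {ψ : ℝ → ℝ} {κ : ℝ} (h : Adm κ ψ) (c : ℝ) : ∃ M : ℝ, 0 ≤ M ∧ ∀ n : ℕ, ∀ ε : ℝ,
    0 < ε → ∀ᶠ T in atTop, dT ψ c T ≤ (8 / 9) ^ n * M +
      ∑ k ∈ Finset.range n, (8 / 9) ^ (k + 1) * eB ψ c ((8 / 9) ^ (k + 1) * T) + ε := by
  obtain ⟨⟨M, hM0, hM⟩, hs⟩ := step_pt h c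
  refine ⟨M, hM0, fun n => ?_⟩
  induction n with
  | zero =>
    intro ε hε
    filter_upwards [hM] with T hT
    simp only [pow_zero, one_mul, Finset.range_zero, Finset.sum_empty]
    linarith
  | succ n ih =>
    intro ε hε
    have h1 : Tendsto (fun T : ℝ => 8 / 9 * T) atTop atTop :=
      tendsto_id.const_mul_atTop (by norm_num)
    filter_upwards [hs (ε / 2) (by positivity), h1.eventually (ih (ε / 2) (by positivity))]
      with T h2 h3
    rw [Finset.sum_range_succ']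
    have e1 : ∑ k ∈ Finset.range n, (8 / 9 : ℝ) ^ (k + 1 + 1) * eB ψ c ((8 / 9) ^ (k + 1 + 1) * T) =
        8 / 9 * ∑ k ∈ Finset.range n, (8 / 9) ^ (k + 1) * eB ψ c ((8 / 9) ^ (k + 1) * (8 / 9 * T)) := by
      rw [Finset.mul_sum]
      refine Finset.sum_congr rfl fun k _ => ?_
      rw [show (8 / 9 : ℝ) ^ (k + 1 + 1) * T = (8 / 9) ^ (k + 1) * (8 / 9 * T) by ring]
      ring
    rw [e1]
    simp only [zero_add, pow_one]
    rw [pow_succ]
    linarith

/-- **The test function formula at a single height.** -/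
theorem test_pt : ∃ κ : ℝ, 0 < κ ∧ κ ≤ 1 / 2 ∧ ∀ ψ : ℝ → ℝ, Adm κ ψ →
    ∀ ε : ℝ, 0 < ε → ∃ η : ℝ, 0 < η ∧ ∀ᶠ T : ℝ in atTop, NF T ≤ η * (T * Real.log T) →
      |(∫ x, fl ψ x ∂(Mp T)) - cc ψ| ≤ ε := by
  obtain ⟨κ, hκ, hκ2, hblk⟩ := blk_pt
  refine ⟨κ, hκ, hκ2, fun ψ h ε hε => ?_⟩
  have hpi := Real.pi_pos
  obtain ⟨M, hM, hit⟩ := iter_pt h (cc ψ)
  obtain ⟨e, he⟩ : ∃ e : ℝ, e = ε / (20 * (2 * Real.pi)) := ⟨_, rfl⟩
  have he0 : 0 < e := by rw [he]; positivity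
  obtain ⟨η, hη, hq⟩ := hblk ψ h e he0
  obtain ⟨n, hn⟩ := exists_pow_lt_of_lt_one (show 0 < e / (M + 1) by positivity)
    (show (8 / 9 : ℝ) < 1 by norm_num)
  obtain ⟨r, hr⟩ : ∃ r : ℝ, r = (8 / 9 : ℝ) ^ n := ⟨_, rfl⟩
  have hr0 : 0 < r := by rw [hr]; positivity
  have hr1 : r ≤ 1 := by rw [hr]; exact pow_le_one₀ (by norm_num) (by norm_num)
  refine ⟨η * r / 2, by positivity, ?_⟩
  have hall : ∀ᶠ T : ℝ in atTop, ∀ k ∈ Finset.range n,
      NF (9 / 8 * ((8 / 9) ^ (k + 1) * T)) ≤ η * (9 / 8 * ((8 / 9) ^ (k + 1) * T) *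
        Real.log (9 / 8 * ((8 / 9) ^ (k + 1) * T))) →
      |RR (fl ψ) (Zf riemannZeta ((8 / 9) ^ (k + 1) * T) (9 / 8 * ((8 / 9) ^ (k + 1) * T)))
        (Zf riemannZeta ((8 / 9) ^ (k + 1) * T) (9 / 8 * ((8 / 9) ^ (k + 1) * T)))
          (Real.log ((8 / 9) ^ (k + 1) * T)) -
        ((8 / 9) ^ (k + 1) * T) / 8 * (Real.log ((8 / 9) ^ (k + 1) * T) / (2 * Real.pi)) * cc ψ| ≤
        e * (((8 / 9) ^ (k + 1) * T) * Real.log ((8 / 9) ^ (k + 1) * T)) := by
    rw [Filter.eventually_all_finset]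
    intro k _
    have h1 : Tendsto (fun T : ℝ => (8 / 9) ^ (k + 1) * T) atTop atTop :=
      tendsto_id.const_mul_atTop (by positivity)
    exact h1.eventually hq
  filter_upwards [hit n e he0, hall, eventually_ge_atTop 10, eventually_ge_atTop (10 / r),
    Real.tendsto_log_atTop.eventually_ge_atTop (2 * Real.log (1 / r))]
    with T h1 h2 hT hTr hTl hNF
  have hTp : 0 < T := by linarith
  have hL := one_lt_log (show 3 ≤ T by linarith)
  rw [div_le_iff₀ hr0] at hTr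
  have hb : ∀ k ∈ Finset.range n, eB ψ (cc ψ) ((8 / 9) ^ (k + 1) * T) ≤ e := by
    intro k hk
    have hkn : k < n := Finset.mem_range.1 hk
    have hp : r ≤ (8 / 9 : ℝ) ^ (k + 1) := by
      rw [hr]
      exact pow_le_pow_of_le_one (by norm_num) (by norm_num) (by omega)
    have hp1 : (8 / 9 : ℝ) ^ (k + 1) ≤ 8 / 9 := by
      calc (8 / 9 : ℝ) ^ (k + 1) = (8 / 9) ^ k * (8 / 9) := pow_succ _ _
        _ ≤ 1 * (8 / 9) := by
            gcongr
            exact pow_le_one₀ (by norm_num) (by norm_num)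
        _ = 8 / 9 := one_mul _
    obtain ⟨q, hqd⟩ : ∃ q : ℝ, q = (8 / 9 : ℝ) ^ (k + 1) * T := ⟨_, rfl⟩
    have hq10 : 10 ≤ q := by
      rw [hqd]
      have : T * r ≤ (8 / 9 : ℝ) ^ (k + 1) * T := by nlinarith
      linarith
    have h3 := h2 k hk
    rw [← hqd] at h3 ⊢
    have hqT : 9 / 8 * q ≤ T := by rw [hqd]; nlinarith
    have hqr : r * T ≤ 9 / 8 * q := by rw [hqd]; nlinarith
    have hlq : 0 < Real.log q := Real.log_pos (by linarith)
    have hlog : Real.log T / 2 ≤ Real.log (9 / 8 * q) := by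
      have h4 : Real.log (r * T) ≤ Real.log (9 / 8 * q) := Real.log_le_log (by positivity) hqr
      rw [Real.log_mul hr0.ne' hTp.ne'] at h4
      rw [one_div, Real.log_inv] at hTl
      linarith
    have hmono : NF (9 / 8 * q) ≤ NF T := by
      unfold NF
      refine Finset.sum_le_sum_of_subset_of_nonneg ?_ fun s _ _ => mm_nonneg s
      refine Finset.filter_subset_filter _ ?_
      intro s hs
      rw [mem_ZZ] at hs ⊢
      exact ⟨hs.1, hs.2.1, hs.2.2.1, hs.2.2.2.1, hs.2.2.2.2.trans hqT⟩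
    have h5 : NF (9 / 8 * q) ≤ η * (9 / 8 * q * Real.log (9 / 8 * q)) := by
      refine hmono.trans (hNF.trans ?_)
      have h6 : r * T * (Real.log T / 2) ≤ 9 / 8 * q * Real.log (9 / 8 * q) :=
        mul_le_mul hqr hlog (by linarith) (by positivity)
      calc η * r / 2 * (T * Real.log T) = η * (r * T * (Real.log T / 2)) := by ring
        _ ≤ _ := mul_le_mul_of_nonneg_left h6 hη.le
    have h6 := h3 h5
    unfold eB
    rw [div_le_iff₀ (by positivity)]
    exact h6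
  have hsum : ∑ k ∈ Finset.range n, (8 / 9 : ℝ) ^ (k + 1) * eB ψ (cc ψ) ((8 / 9) ^ (k + 1) * T) ≤
      8 * e := by
    have h3 : ∑ k ∈ Finset.range n, (8 / 9 : ℝ) ^ (k + 1) * eB ψ (cc ψ) ((8 / 9) ^ (k + 1) * T) ≤
        ∑ k ∈ Finset.range n, (8 / 9 : ℝ) ^ (k + 1) * e :=
      Finset.sum_le_sum fun k hk => mul_le_mul_of_nonneg_left (hb k hk) (by positivity)
    have h4 : ∑ k ∈ Finset.range n, (8 / 9 : ℝ) ^ (k + 1) * e = 8 * (1 - (8 / 9) ^ n) * e := by
      clear h2 h1 hall hb hn hr h3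
      induction n with
      | zero => simp
      | succ n ih =>
        rw [Finset.sum_range_succ, ih, pow_succ]
        ring
    rw [h4] at h3
    have h5 : 0 < (8 / 9 : ℝ) ^ n := by positivity
    nlinarith
  have hMn : (8 / 9 : ℝ) ^ n * M ≤ e := by
    have h3 : (8 / 9 : ℝ) ^ n * M ≤ e / (M + 1) * M := by gcongr
    have h4 : e / (M + 1) * M ≤ e := by
      rw [div_mul_eq_mul_div, div_le_iff₀ (by positivity)]
      nlinarith
    linarith
  have hd : dT ψ (cc ψ) T ≤ 10 * e := by linarith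
  unfold dT at hd
  rw [div_le_iff₀ (by positivity)] at hd
  have hn' := nT_pos hT
  rw [Mp_integral hT]
  have e1 : RR (fl ψ) (ZZ T) (ZZ T) (Real.log T) / nT T - cc ψ =
      (RR (fl ψ) (ZZ T) (ZZ T) (Real.log T) - nT T * cc ψ) / nT T := by
    field_simp
  rw [e1, abs_div, abs_of_pos hn', div_le_iff₀ hn']
  have e2 : nT T = T * Real.log T / (2 * Real.pi) := rfl
  refine (le_of_eq (by rw [e2])).trans (hd.trans ?_)
  have e3 : 10 * e * (T * Real.log T) = ε / 2 * nT T := by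
    rw [he, e2]; field_simp; ring
  rw [e3]
  nlinarith

end Pool.Agent.Q85.Rig
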