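import Pool.Agent.Q85.Rig.Var2
import Pool.Agent.Q85.Rig.CumF
import Pool.Agent.TH850.UV.NVh

/-! # The sum rule for the pair correlation measure -/

set_option autoImplicit false

open MeasureTheory Set Filter Topology

namespace Pool.Agent.Q85.Rig

open Pool.Agent.Y749.Rig Pool.Agent.Y749.AH
open SG (NZ)

lemma cnt_NZ {t h : ℝ} (ht : 0 < t) (hh : 0 ≤ h) :
    (Pool.Agent.TH850.UV.cnt t h : ℝ) = (NZ (t + h) : ℝ) - NZ t := by
  classical
  set F := (SG.ZS_finite (t + h)).toFinset with hF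
  have hset : {s : ℂ | s ∈ Pool.Agent.TH850.UR.zeros ∧ (t < s.im ∧ s.im ≤ t + h)} =
      (F.filter fun s => t < s.im : Finset ℂ) := by
    ext s
    simp only [mem_ofPred_eq, Finset.coe_filter, hF, Set.Finite.mem_toFinset,
      Pool.Agent.TH850.UR.zeros, SG.ZS]
    constructor
    · rintro ⟨⟨a1, a2, a3⟩, a4, a5⟩
      exact ⟨⟨a1, a2, a3, ht.trans a4, a5⟩, a4⟩
    · rintro ⟨⟨a1, a2, a3, _, a5⟩, a4⟩
      exact ⟨⟨a1, a2, a3⟩, a4, a5⟩
  have h1 : Pool.Agent.TH850.UV.cnt t h = ∑ s ∈ F.filter (fun s => t < s.im), SG.zmult s := by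
    unfold Pool.Agent.TH850.UV.cnt
    rw [hset]
    exact finsum_mem_coe_finset _ _
  have h2 : NZ t = ∑ s ∈ F.filter (fun s => ¬ t < s.im), SG.zmult s := by
    rw [SG.NZ_eq]
    congr 1
    ext s
    rw [Finset.mem_filter, Set.Finite.mem_toFinset, hF, Set.Finite.mem_toFinset]
    constructor
    · rintro ⟨a1, a2, a3, a4, a5⟩
      exact ⟨⟨a1, a2, a3, a4, by linarith⟩, not_lt.mpr a5⟩
    · rintro ⟨⟨a1, a2, a3, a4, a5⟩, a6⟩
      exact ⟨a1, a2, a3, a4, not_lt.mp a6⟩
  have h3 : NZ (t + h) = Pool.Agent.TH850.UV.cnt t h + NZ t := by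
    rw [h1, h2, SG.NZ_eq, Finset.sum_filter_add_sum_filter_not]
  rw [h3]
  push_cast
  ring

/-- the number of zeros in a short interval -/
noncomputable def xn (T L t : ℝ) : ℝ := (NZ (t + 2 * Real.pi * L / Real.log T) : ℝ) - NZ t

lemma NZr_mono : Monotone fun t : ℝ => (NZ t : ℝ) := fun _ _ h => Nat.cast_le.2 (SG.NZ_mono h)

lemma xn_meas (T L : ℝ) : Measurable (xn T L) := by
  unfold xn
  exact (NZr_mono.measurable.comp (measurable_id.add_const _)).sub NZr_mono.measurable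

lemma xn_nonneg {T L : ℝ} (hT : 1 < T) (hL : 0 ≤ L) (t : ℝ) : 0 ≤ xn T L t := by
  unfold xn
  have h1 : 0 ≤ 2 * Real.pi * L / Real.log T := by
    have := Real.log_pos hT
    have := Real.pi_pos
    positivity
  have h2 : (NZ t : ℝ) ≤ NZ (t + 2 * Real.pi * L / Real.log T) := NZr_mono (by linarith)
  linarith

/-- interval integrability of functions of the count -/
lemma xn_ii (T L : ℝ) {f : ℝ → ℝ} (hf : Continuous f) (a b : ℝ) :
    IntervalIntegrable (fun t => f (xn T L t)) volume a b := by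
  obtain ⟨h, hh⟩ : ∃ h : ℝ, h = 2 * Real.pi * L / Real.log T := ⟨_, rfl⟩
  obtain ⟨K, hK⟩ : ∃ K : ℝ, K = (NZ (|a| + |b| + |h|) : ℝ) := ⟨_, rfl⟩
  have hb : ∀ t ∈ uIoc a b, |xn T L t| ≤ K := by
    intro t ht
    have h1 : t ≤ |a| + |b| := by
      have : t ≤ max a b := ht.2
      refine this.trans (max_le ?_ ?_)
      · linarith [le_abs_self a, abs_nonneg b]
      · linarith [le_abs_self b, abs_nonneg a]
    have h2 : (NZ t : ℝ) ≤ K := by rw [hK]; exact NZr_mono (by linarith [abs_nonneg h])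
    have h3 : (NZ (t + h) : ℝ) ≤ K := by rw [hK]; exact NZr_mono (by linarith [le_abs_self h])
    have h4 : (0 : ℝ) ≤ NZ t := Nat.cast_nonneg _
    have h5 : (0 : ℝ) ≤ NZ (t + h) := Nat.cast_nonneg _
    unfold xn
    rw [← hh, abs_le]
    constructor <;> linarith
  obtain ⟨M, hM⟩ := (isCompact_Icc (a := -K) (b := K)).exists_bound_of_continuousOn hf.continuousOn
  rw [intervalIntegrable_iff]
  refine Integrable.mono' (g := fun _ => M) ?_ (hf.measurable.comp (xn_meas T L)).aestronglyMeasurable ?_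
  · exact integrableOn_const (by rw [Set.uIoc, Real.volume_Ioc]; exact ENNReal.ofReal_ne_top)
  · refine (ae_restrict_iff' measurableSet_uIoc).2 (ae_of_all _ fun t ht => ?_)
    exact hM _ (abs_le.1 (hb t ht))

lemma log_split {T : ℝ} (hT : 0 < T) (k : ℕ) :
    Real.log (T / 2 ^ k) = Real.log T - k * Real.log 2 := by
  rw [Real.log_div hT.ne' (by positivity), Real.log_pow]

/-- one dyadic block -/
lemma blk_var : ∃ C : ℝ, 0 < C ∧ ∀ L : ℝ, 0 < L → ∀ k : ℕ, ∀ᶠ T in atTop,
    |(∫ t in (T / 2 ^ (k + 1))..(T / 2 ^ k), (xn T L t - L) ^ 2) -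
      T / 2 ^ (k + 1) / Real.pi ^ 2 * Real.log (1 + L)| ≤ C * (T / 2 ^ (k + 1)) := by
  obtain ⟨C₀, T0, hC₀, hT0, hnv⟩ := Pool.Agent.TH850.UV.nv2 1 le_rfl
  refine ⟨C₀ + 2, by linarith, fun L hL k => ?_⟩
  have hpi := Real.pi_gt_three
  obtain ⟨K, hK⟩ : ∃ K : ℝ, K = ((k + 1 : ℕ) : ℝ) * Real.log 2 := ⟨_, rfl⟩
  have hK0 : 0 < K := by
    rw [hK]
    have := Real.log_pos (show (1 : ℝ) < 2 by norm_num)
    positivity
  obtain ⟨E, hE⟩ : ∃ E : ℝ, E = C₀ + Real.log (1 + L) + (1 + L) + 1 := ⟨_, rfl⟩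
  have hlL : 0 ≤ Real.log (1 + L) := Real.log_nonneg (by linarith)
  have hE0 : 0 < E := by rw [hE]; linarith
  have hp : (0 : ℝ) < 2 ^ (k + 1) := by positivity
  filter_upwards [eventually_ge_atTop (T0 * 2 ^ (k + 1)),
    Real.tendsto_log_atTop.eventually_ge_atTop (K + L ^ 2 + 1),
    Real.tendsto_log_atTop.eventually_ge_atTop (L * K * E)] with T hT hT2 hT3
  obtain ⟨T', hT'⟩ : ∃ T' : ℝ, T' = T / 2 ^ (k + 1) := ⟨_, rfl⟩
  have hTT : T / 2 ^ k = 2 * T' := by
    rw [hT', pow_succ]; field_simp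
  have hT'0 : T0 ≤ T' := by rw [hT', le_div_iff₀ hp]; exact hT
  have hT'p : 0 < T' := by linarith
  have hTp : 0 < T := by
    have : T = T' * 2 ^ (k + 1) := by rw [hT']; field_simp
    rw [this]; positivity
  have hlog : Real.log T' = Real.log T - K := by rw [hT', log_split hTp, hK]
  have hlT : 0 < Real.log T := by nlinarith [sq_nonneg L]
  have hlT' : 0 < Real.log T' := by rw [hlog]; nlinarith [sq_nonneg L]
  obtain ⟨a, ha⟩ : ∃ a : ℝ, a = L * Real.log T' / Real.log T := ⟨_, rfl⟩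
  have ha0 : 0 < a := by rw [ha]; positivity
  obtain ⟨η, hη⟩ : ∃ η : ℝ, η = L - a := ⟨_, rfl⟩
  have hη2 : η = L * K / Real.log T := by
    rw [hη, ha, hlog]; field_simp; ring
  have hη0 : 0 ≤ η := by rw [hη2]; positivity
  have hηE : η * E ≤ 1 := by
    rw [hη2, div_mul_eq_mul_div, div_le_one hlT]
    exact hT3
  have hE1 : 1 ≤ E := by rw [hE]; linarith
  have hη1 : η ≤ 1 := by nlinarith
  have haL : a ≤ L := by linarith
  have hcond : a * Real.log a ≤ 1 * Real.log T' := by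
    have h1 : Real.log a ≤ a := (Real.log_le_sub_one_of_pos ha0).trans (by linarith)
    have h2 : a * Real.log a ≤ a * a := mul_le_mul_of_nonneg_left h1 ha0.le
    have h3 : a * a ≤ L * L := mul_le_mul haL haL ha0.le hL.le
    rw [hlog]
    nlinarith
  obtain ⟨-, h4⟩ := hnv T' hT'0 a ha0 hcond
  have hh : 2 * Real.pi * a / Real.log T' = 2 * Real.pi * L / Real.log T := by
    rw [ha]; field_simp
  have hh0 : 0 ≤ 2 * Real.pi * L / Real.log T := by positivity
  have e1 : ∫ t in T'..(2 * T'),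
      ((Pool.Agent.TH850.UV.cnt t (2 * Real.pi * a / Real.log T') : ℝ) - a) ^ 2 =
      ∫ t in T'..(2 * T'), (xn T L t - a) ^ 2 := by
    refine intervalIntegral.integral_congr fun t ht => ?_
    rw [uIcc_of_le (by linarith)] at ht
    rw [hh, cnt_NZ (by linarith [ht.1]) hh0]
    rfl
  rw [e1] at h4
  rw [hTT, ← hT']
  have hS := abs_le.1 h4
  obtain ⟨S, hSd⟩ : ∃ S : ℝ, S = ∫ t in T'..(2 * T'), (xn T L t - a) ^ 2 := ⟨_, rfl⟩
  rw [← hSd] at hS
  -- comparison of the two integrals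
  have i1 : IntervalIntegrable (fun t => (xn T L t - a) ^ 2) volume T' (2 * T') :=
    xn_ii T L (f := fun x => (x - a) ^ 2) (by fun_prop) _ _
  have i2 : IntervalIntegrable (fun t => (xn T L t - L) ^ 2) volume T' (2 * T') :=
    xn_ii T L (f := fun x => (x - L) ^ 2) (by fun_prop) _ _
  have i3 : IntervalIntegrable (fun t => η * ((xn T L t - a) ^ 2 + (1 + L))) volume T' (2 * T') :=
    xn_ii T L (f := fun x => η * ((x - a) ^ 2 + (1 + L))) (by fun_prop) _ _
  have e3 : ∫ t in T'..(2 * T'), η * ((xn T L t - a) ^ 2 + (1 + L)) = η * (S + (1 + L) * T') := by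
    rw [intervalIntegral.integral_const_mul, intervalIntegral.integral_add i1 (by simp), ← hSd,
      intervalIntegral.integral_const, smul_eq_mul]
    ring
  have hpt : ∀ t, |(xn T L t - L) ^ 2 - (xn T L t - a) ^ 2| ≤ η * ((xn T L t - a) ^ 2 + (1 + L)) := by
    intro t
    have e4 : (xn T L t - L) ^ 2 - (xn T L t - a) ^ 2 = -(η * (2 * (xn T L t - a) - η)) := by
      rw [hη]; ring
    rw [e4, abs_neg, abs_mul, abs_of_nonneg hη0]
    apply mul_le_mul_of_nonneg_left _ hη0
    have h5 : |2 * (xn T L t - a) - η| ≤ 2 * |xn T L t - a| + η := by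
      refine (abs_sub _ _).trans ?_
      rw [abs_mul, abs_of_nonneg hη0, abs_two]
    have h6 : 2 * |xn T L t - a| ≤ (xn T L t - a) ^ 2 + 1 := by
      rw [← sq_abs (xn T L t - a)]
      nlinarith [sq_nonneg (|xn T L t - a| - 1)]
    have h7 : η ≤ L := by linarith
    linarith
  have hcmp : |(∫ t in T'..(2 * T'), (xn T L t - L) ^ 2) - S| ≤ η * (S + (1 + L) * T') := by
    rw [hSd, ← intervalIntegral.integral_sub i2 i1, ← hSd, ← e3]
    refine (intervalIntegral.abs_integral_le_integral_abs (by linarith)).trans ?_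
    exact intervalIntegral.integral_mono_on (by linarith) (i2.sub i1).abs i3 fun t _ => hpt t
  have hpi2 : 1 ≤ Real.pi ^ 2 := by nlinarith
  have hla : 0 ≤ Real.log (1 + a) := Real.log_nonneg (by linarith)
  have hlaL : Real.log (1 + a) ≤ Real.log (1 + L) := Real.log_le_log (by linarith) (by linarith)
  have hTpi : T' / Real.pi ^ 2 ≤ T' := div_le_self hT'p.le hpi2
  have hTpi0 : 0 ≤ T' / Real.pi ^ 2 := by positivity
  have hSle : S ≤ T' * (C₀ + Real.log (1 + L)) := by
    have : T' / Real.pi ^ 2 * Real.log (1 + a) ≤ T' * Real.log (1 + L) :=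
      mul_le_mul hTpi hlaL hla hT'p.le
    linarith [hS.2]
  have hmain : η * (S + (1 + L) * T') ≤ T' := by
    have h5 : S + (1 + L) * T' ≤ T' * E := by rw [hE]; nlinarith
    calc η * (S + (1 + L) * T') ≤ η * (T' * E) := mul_le_mul_of_nonneg_left h5 hη0
      _ = T' * (η * E) := by ring
      _ ≤ T' * 1 := mul_le_mul_of_nonneg_left hηE hT'p.le
      _ = T' := mul_one _
  have hlogd : Real.log (1 + L) - Real.log (1 + a) ≤ 1 := by
    have h5 : Real.log (1 + L) ≤ Real.log (1 + a) + (L - a) := by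
      have h6 : 1 + L = (1 + a) * (1 + (L - a) / (1 + a)) := by field_simp; ring
      rw [h6, Real.log_mul (by linarith) (by
        have : 0 ≤ (L - a) / (1 + a) := by
          apply div_nonneg <;> linarith
        linarith)]
      have h7 : 0 ≤ (L - a) / (1 + a) := by apply div_nonneg <;> linarith
      have h8 : Real.log (1 + (L - a) / (1 + a)) ≤ (L - a) / (1 + a) := by
        have := Real.log_le_sub_one_of_pos (show 0 < 1 + (L - a) / (1 + a) by linarith)
        linarith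
      have h9 : (L - a) / (1 + a) ≤ L - a := div_le_self (by linarith) (by linarith)
      linarith
    linarith
  have hlogm : |T' / Real.pi ^ 2 * Real.log (1 + a) - T' / Real.pi ^ 2 * Real.log (1 + L)| ≤ T' := by
    rw [← mul_sub, abs_mul, abs_of_nonneg hTpi0]
    have : |Real.log (1 + a) - Real.log (1 + L)| ≤ 1 := by
      rw [abs_le]; constructor <;> linarith
    calc T' / Real.pi ^ 2 * |Real.log (1 + a) - Real.log (1 + L)| ≤ T' * 1 :=
          mul_le_mul hTpi this (abs_nonneg _) hT'p.le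
      _ = T' := mul_one _
  have c1 := abs_le.1 hcmp
  have c2 := abs_le.1 hlogm
  rw [abs_le]
  constructor <;> nlinarith [hS.1, hS.2, c1.1, c1.2, c2.1, c2.2]

end Pool.Agent.Q85.Rig
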