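import Pool.Agent.Q85.Rig.Sum

/-! # The sum rule: assembly -/

set_option autoImplicit false

open MeasureTheory Set Filter Topology

namespace Pool.Agent.Q85.Rig

open Pool.Agent.Y749.Rig Pool.Agent.Y749.AH
open SG (NZ)

variable {C : ℝ} {μ : Measure ℝ}

lemma sq_ii (T L : ℝ) (a b : ℝ) : IntervalIntegrable (fun t => (xn T L t - L) ^ 2) volume a b :=
  xn_ii T L (f := fun x => (x - L) ^ 2) (by fun_prop) _ _

/-- all dyadic blocks -/
lemma blks_var : ∃ C : ℝ, 0 < C ∧ ∀ L : ℝ, 0 < L → ∀ K : ℕ, ∀ᶠ T in atTop,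
    |(∫ t in (T / 2 ^ K)..T, (xn T L t - L) ^ 2) -
      (T - T / 2 ^ K) / Real.pi ^ 2 * Real.log (1 + L)| ≤ C * (T - T / 2 ^ K) := by
  obtain ⟨C, hC, h⟩ := blk_var
  refine ⟨C, hC, fun L hL K => ?_⟩
  induction K with
  | zero => exact Eventually.of_forall fun T => by simp
  | succ K ih =>
    filter_upwards [ih, h L hL K] with T h1 h2
    have e1 : ∫ t in (T / 2 ^ (K + 1))..T, (xn T L t - L) ^ 2 =
        (∫ t in (T / 2 ^ (K + 1))..(T / 2 ^ K), (xn T L t - L) ^ 2) +
        ∫ t in (T / 2 ^ K)..T, (xn T L t - L) ^ 2 :=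
      (intervalIntegral.integral_add_adjacent_intervals (sq_ii _ _ _ _) (sq_ii _ _ _ _)).symm
    have e2 : T - T / 2 ^ (K + 1) = (T - T / 2 ^ K) + T / 2 ^ (K + 1) := by
      rw [pow_succ]; field_simp; ring
    rw [e1, e2]
    have e3 : (∫ t in (T / 2 ^ (K + 1))..(T / 2 ^ K), (xn T L t - L) ^ 2) +
        (∫ t in (T / 2 ^ K)..T, (xn T L t - L) ^ 2) -
        ((T - T / 2 ^ K) + T / 2 ^ (K + 1)) / Real.pi ^ 2 * Real.log (1 + L) =
        ((∫ t in (T / 2 ^ (K + 1))..(T / 2 ^ K), (xn T L t - L) ^ 2) -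
          T / 2 ^ (K + 1) / Real.pi ^ 2 * Real.log (1 + L)) +
        ((∫ t in (T / 2 ^ K)..T, (xn T L t - L) ^ 2) -
          (T - T / 2 ^ K) / Real.pi ^ 2 * Real.log (1 + L)) := by ring
    rw [e3]
    refine (abs_add_le _ _).trans ?_
    linarith

lemma mo_le (hC : 0 ≤ C) (h : Bdd C μ) {L : ℝ} (hL : 0 ≤ L) : mo μ L ≤ L * ((2 * L + 2) * C) := by
  have h1 : mo μ L ≤ L * cu μ L := by
    unfold mo cu
    rw [abs_of_nonneg hL]
    have e : L * μ.real (Icc (-L) L) = ∫ x, (Icc (-L) L).indicator (fun _ => L) x ∂μ := by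
      rw [integral_indicator measurableSet_Icc, setIntegral_const, smul_eq_mul, mul_comm]
    rw [e]
    refine integral_mono (h.integrable hC (tri_cont L) (tri_qd L)) ?_ fun x => ?_
    · rw [integrable_indicator_iff measurableSet_Icc]
      exact integrableOn_const (h.lt_top _ _).ne
    · simp only
      by_cases hx : x ∈ Icc (-L) L
      · rw [indicator_of_mem hx]
        exact max_le (by linarith [abs_nonneg x]) hL
      · rw [indicator_of_notMem hx]
        apply max_le _ le_rfl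
        by_contra hcon
        push Not at hcon
        exact hx (abs_le.1 (by linarith))
  refine h1.trans (mul_le_mul_of_nonneg_left ?_ hL)
  have := cu_le hC h L
  rwa [abs_of_nonneg hL] at this

/-- the remaining part -/
lemma rem_var {L : ℝ} (hL : 0 < L) : ∃ B : ℝ, 0 < B ∧ ∀ K : ℕ, ∀ᶠ T in atTop,
    ∫ t in (0 : ℝ)..(T / 2 ^ K), (xn T L t - L) ^ 2 ≤ B * (T / 2 ^ K) := by
  obtain ⟨C, hC, hB⟩ := Mp_bdd
  refine ⟨L * ((2 * L + 2) * C) + 1 + L ^ 2, by positivity, fun K => ?_⟩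
  have hp : (0 : ℝ) < 2 ^ K := by positivity
  have hlim : Tendsto (fun T : ℝ => T / 2 ^ K) atTop atTop := tendsto_id.atTop_div_const hp
  filter_upwards [hlim.eventually (hB.and (V2_close hL.le one_pos)),
    eventually_ge_atTop (3 * 2 ^ K)] with T h1 hT
  obtain ⟨T', hT'⟩ : ∃ T' : ℝ, T' = T / 2 ^ K := ⟨_, rfl⟩
  rw [← hT'] at h1 ⊢
  obtain ⟨hb, hv⟩ := h1
  have hT3 : 3 ≤ T' := by rw [hT', le_div_iff₀ hp]; exact hT
  have hTT : T' ≤ T := by
    rw [hT']
    apply div_le_self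
    · nlinarith
    · exact one_le_pow₀ (by norm_num)
  have hl' : 0 < Real.log T' := Real.log_pos (by linarith)
  have hll : Real.log T' ≤ Real.log T := Real.log_le_log (by linarith) hTT
  have hpi := Real.pi_pos
  have hxx : ∀ t, xn T L t ≤ xn T' L t := by
    intro t
    unfold xn
    have : 2 * Real.pi * L / Real.log T ≤ 2 * Real.pi * L / Real.log T' :=
      div_le_div_of_nonneg_left (by positivity) hl' hll
    have h2 : (NZ (t + 2 * Real.pi * L / Real.log T) : ℝ) ≤
      NZ (t + 2 * Real.pi * L / Real.log T') := NZr_mono (by linarith)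
    linarith
  have hx0 : ∀ t, 0 ≤ xn T L t := xn_nonneg (by linarith) hL.le
  have i1 : IntervalIntegrable (fun t => (xn T' L t) ^ 2) volume 0 T' :=
    xn_ii T' L (f := fun x => x ^ 2) (by fun_prop) _ _
  calc ∫ t in (0 : ℝ)..T', (xn T L t - L) ^ 2 ≤ ∫ t in (0 : ℝ)..T', ((xn T' L t) ^ 2 + L ^ 2) := by
        refine intervalIntegral.integral_mono_on (by linarith) (sq_ii _ _ _ _)
          (i1.add (by simp)) fun t _ => ?_
        have h3 := hxx t
        have h4 := hx0 t
        nlinarith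
    _ = V2 T' L * T' + L ^ 2 * T' := by
        rw [intervalIntegral.integral_add i1 (by simp), intervalIntegral.integral_const, smul_eq_mul]
        have : V2 T' L * T' = ∫ t in (0 : ℝ)..T', (xn T' L t) ^ 2 := by
          unfold V2
          rw [div_mul_cancel₀ _ (by linarith)]
          rfl
        rw [this]
        ring
    _ ≤ (L * ((2 * L + 2) * C) + 1 + L ^ 2) * T' := by
        have h5 := (abs_le.1 hv).2
        have h6 := mo_le (by linarith) hb hL.le
        have h7 : V2 T' L ≤ L * ((2 * L + 2) * C) + 1 := by linarith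
        nlinarith

/-- the mean square -/
lemma var_all : ∃ C : ℝ, 0 < C ∧ ∀ L : ℝ, 0 < L → ∀ᶠ T in atTop,
    |(∫ t in (0 : ℝ)..T, (xn T L t - L) ^ 2) - T / Real.pi ^ 2 * Real.log (1 + L)| ≤ C * T := by
  obtain ⟨C, hC, h⟩ := blks_var
  refine ⟨C + 1, by linarith, fun L hL => ?_⟩
  obtain ⟨B, hB, hrem⟩ := rem_var hL
  have hlL : 0 ≤ Real.log (1 + L) := Real.log_nonneg (by linarith)
  obtain ⟨K, hK⟩ := pow_unbounded_of_one_lt (B + Real.log (1 + L)) (show (1 : ℝ) < 2 by norm_num)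
  filter_upwards [h L hL K, hrem K, eventually_ge_atTop 10] with T h1 h2 hT
  have hp : (0 : ℝ) < 2 ^ K := by positivity
  obtain ⟨S, hS⟩ : ∃ S : ℝ, S = T / 2 ^ K := ⟨_, rfl⟩
  rw [← hS] at h1 h2
  have hS0 : 0 < S := by rw [hS]; positivity
  have hTS : T = S * 2 ^ K := by rw [hS]; field_simp
  have hpi2 : 1 ≤ Real.pi ^ 2 := by nlinarith [Real.pi_gt_three]
  have e1 : ∫ t in (0 : ℝ)..T, (xn T L t - L) ^ 2 =
      (∫ t in (0 : ℝ)..S, (xn T L t - L) ^ 2) + ∫ t in S..T, (xn T L t - L) ^ 2 :=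
    (intervalIntegral.integral_add_adjacent_intervals (sq_ii _ _ _ _) (sq_ii _ _ _ _)).symm
  have h3 : 0 ≤ ∫ t in (0 : ℝ)..S, (xn T L t - L) ^ 2 :=
    intervalIntegral.integral_nonneg hS0.le fun t _ => sq_nonneg _
  have h4 : B * S ≤ T := by
    rw [hTS]; nlinarith
  have h5 : 0 ≤ S / Real.pi ^ 2 * Real.log (1 + L) := by positivity
  have h6 : S / Real.pi ^ 2 * Real.log (1 + L) ≤ T := by
    have : S / Real.pi ^ 2 ≤ S := div_le_self hS0.le hpi2
    calc S / Real.pi ^ 2 * Real.log (1 + L) ≤ S * Real.log (1 + L) :=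
          mul_le_mul_of_nonneg_right this hlL
      _ ≤ T := by rw [hTS]; nlinarith
  have h7 := abs_le.1 h1
  have h8 : (T - S) / Real.pi ^ 2 * Real.log (1 + L) =
      T / Real.pi ^ 2 * Real.log (1 + L) - S / Real.pi ^ 2 * Real.log (1 + L) := by ring
  rw [h8] at h7
  have h9 : C * (T - S) ≤ C * T := by nlinarith
  rw [e1, abs_le]
  constructor <;> linarith [h7.1, h7.2]

/-- the mean -/
lemma mean_x {L : ℝ} (hL : 0 < L) {ε : ℝ} (hε : 0 < ε) :
    ∀ᶠ T in atTop, |(∫ t in (0 : ℝ)..T, xn T L t) - L * T| ≤ ε * T := by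
  have hpi := Real.pi_pos
  obtain ⟨C, hC, htop⟩ := top_count
  obtain ⟨e, he⟩ : ∃ e : ℝ, e = ε / (4 * L) := ⟨_, rfl⟩
  have he0 : 0 < e := by rw [he]; positivity
  have heL : e * L = ε / 4 := by rw [he]; field_simp
  filter_upwards [N_asymp he0, eventually_ge_atTop 10,
    Real.tendsto_log_atTop.eventually_ge_atTop (2 * Real.pi * L),
    eventually_ge_atTop (4 * (2 * Real.pi * L * C) / ε),
    eventually_ge_atTop (4 * (NZ 1 : ℝ) / ε)] with T hN hT hT2 hT3 hT4
  have hlog := one_lt_log (show 3 ≤ T by linarith)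
  have hlog0 : 0 < Real.log T := by linarith
  obtain ⟨h, hh⟩ : ∃ h : ℝ, h = 2 * Real.pi * L / Real.log T := ⟨_, rfl⟩
  have hh0 : 0 < h := by rw [hh]; positivity
  have hh1 : h ≤ 1 := by rw [hh, div_le_one hlog0]; exact hT2
  have hii : ∀ a b : ℝ, IntervalIntegrable (fun t : ℝ => (NZ t : ℝ)) volume a b := fun a b =>
    NZr_mono.intervalIntegrable
  have hii2 : IntervalIntegrable (fun t : ℝ => (NZ (t + h) : ℝ)) volume 0 T :=
    (NZr_mono.comp (fun a b hab => by linarith : Monotone fun t : ℝ => t + h)).intervalIntegrable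
  have e1 : ∫ t in (0 : ℝ)..T, xn T L t = (∫ t in T..(T + h), (NZ t : ℝ)) -
      ∫ t in (0 : ℝ)..h, (NZ t : ℝ) := by
    unfold xn
    rw [← hh, intervalIntegral.integral_sub hii2 (hii _ _),
      intervalIntegral.integral_comp_add_right (fun t => (NZ t : ℝ)), zero_add]
    have a1 := intervalIntegral.integral_add_adjacent_intervals (hii 0 h) (hii h (T + h))
    have a2 := intervalIntegral.integral_add_adjacent_intervals (hii 0 T) (hii T (T + h))
    linarith
  have b1 : 0 ≤ ∫ t in (0 : ℝ)..h, (NZ t : ℝ) :=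
    intervalIntegral.integral_nonneg hh0.le fun t _ => Nat.cast_nonneg _
  have b2 : ∫ t in (0 : ℝ)..h, (NZ t : ℝ) ≤ ε / 4 * T := by
    have c1 : ∫ t in (0 : ℝ)..h, (NZ t : ℝ) ≤ ∫ t in (0 : ℝ)..h, (NZ 1 : ℝ) :=
      intervalIntegral.integral_mono_on hh0.le (hii _ _) (by simp) fun t ht =>
        NZr_mono (by linarith [ht.2])
    rw [intervalIntegral.integral_const, smul_eq_mul, sub_zero] at c1
    have c2 : (0 : ℝ) ≤ NZ 1 := Nat.cast_nonneg _
    have c3 : h * (NZ 1 : ℝ) ≤ NZ 1 := by nlinarith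
    have c4 : (NZ 1 : ℝ) ≤ ε / 4 * T := by
      rw [div_le_iff₀ hε] at hT4
      linarith
    linarith
  have b3 : h * NZ T ≤ ∫ t in T..(T + h), (NZ t : ℝ) := by
    have c1 : ∫ t in T..(T + h), (NZ T : ℝ) ≤ ∫ t in T..(T + h), (NZ t : ℝ) :=
      intervalIntegral.integral_mono_on (by linarith) (by simp) (hii _ _) fun t ht =>
        NZr_mono (by linarith [ht.1])
    rwa [intervalIntegral.integral_const, smul_eq_mul, add_sub_cancel_left] at c1
  have b4 : ∫ t in T..(T + h), (NZ t : ℝ) ≤ h * NZ (T + 1) := by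
    have c1 : ∫ t in T..(T + h), (NZ t : ℝ) ≤ ∫ t in T..(T + h), (NZ (T + 1) : ℝ) :=
      intervalIntegral.integral_mono_on (by linarith) (hii _ _) (by simp) fun t ht =>
        NZr_mono (by linarith [ht.2])
    rwa [intervalIntegral.integral_const, smul_eq_mul, add_sub_cancel_left] at c1
  have hnL : h * nT T = L * T := by
    rw [hh]; unfold nT; field_simp
  have b5 : h * NZ (T + 1) ≤ h * NZ T + ε / 4 * T := by
    have c1 := htop T (by linarith)
    have c2 : (NZ (T - 1) : ℝ) ≤ NZ T := NZr_mono (by linarith)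
    have c3 : h * (C * Real.log T) = 2 * Real.pi * L * C := by rw [hh]; field_simp
    have c4 : 2 * Real.pi * L * C ≤ ε / 4 * T := by
      rw [div_le_iff₀ hε] at hT3
      linarith
    have c5 := mul_le_mul_of_nonneg_left (show (NZ (T + 1) : ℝ) ≤ NZ T + C * Real.log T by
      linarith) hh0.le
    rw [mul_add, c3] at c5
    linarith
  have b6 : h * NZ T ≤ (1 + e) * (L * T) := by
    have := mul_le_mul_of_nonneg_left hN.2 hh0.le
    nlinarith
  have b7 : (1 - e) * (L * T) ≤ h * NZ T := by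
    have := mul_le_mul_of_nonneg_left hN.1 hh0.le
    nlinarith
  have b8 : e * (L * T) = ε / 4 * T := by rw [← mul_assoc, heL]
  have hT0 : 0 < ε * T := by positivity
  rw [e1, abs_le]
  constructor <;> nlinarith

/-- the second moment, with a bounded error -/
lemma V2_asym : ∃ C : ℝ, 0 < C ∧ ∀ L : ℝ, 0 < L → ∀ᶠ T in atTop,
    |V2 T L - L ^ 2 - 1 / Real.pi ^ 2 * Real.log (1 + L)| ≤ C := by
  obtain ⟨C, hC, h⟩ := var_all
  refine ⟨C + 1, by linarith, fun L hL => ?_⟩
  filter_upwards [h L hL, mean_x hL (show 0 < 1 / (2 * L) by positivity),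
    eventually_ge_atTop 10] with T h1 h2 hT
  have hT0 : 0 < T := by linarith
  have i1 : IntervalIntegrable (fun t => xn T L t) volume 0 T :=
    xn_ii T L (f := fun x => x) (by fun_prop) _ _
  have e1 : V2 T L * T = (∫ t in (0 : ℝ)..T, (xn T L t - L) ^ 2) +
      2 * L * (∫ t in (0 : ℝ)..T, xn T L t) - L ^ 2 * T := by
    have e2 : V2 T L * T = ∫ t in (0 : ℝ)..T, (xn T L t) ^ 2 := by
      unfold V2
      rw [div_mul_cancel₀ _ (by linarith)]
      rfl
    have e3 : ∀ t, (xn T L t) ^ 2 = (xn T L t - L) ^ 2 + 2 * L * xn T L t - L ^ 2 := fun t => by ring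
    rw [e2]
    simp_rw [e3]
    rw [intervalIntegral.integral_sub ((sq_ii _ _ _ _).add (i1.const_mul _)) (by simp),
      intervalIntegral.integral_add (sq_ii _ _ _ _) (i1.const_mul _),
      intervalIntegral.integral_const_mul, intervalIntegral.integral_const, smul_eq_mul]
    ring
  have h3 := abs_le.1 h1
  have h4 := abs_le.1 h2
  have e4 : 2 * L * (1 / (2 * L) * T) = T := by field_simp
  have k1 := mul_le_mul_of_nonneg_left h4.1 (show 0 ≤ 2 * L by positivity)
  have k2 := mul_le_mul_of_nonneg_left h4.2 (show 0 ≤ 2 * L by positivity)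
  rw [e4] at k2
  rw [mul_neg, e4] at k1
  have e5 : V2 T L * T - L ^ 2 * T - 1 / Real.pi ^ 2 * Real.log (1 + L) * T =
      ((∫ t in (0 : ℝ)..T, (xn T L t - L) ^ 2) - T / Real.pi ^ 2 * Real.log (1 + L)) +
      2 * L * ((∫ t in (0 : ℝ)..T, xn T L t) - L * T) := by
    rw [e1]; ring
  have h5 : |V2 T L - L ^ 2 - 1 / Real.pi ^ 2 * Real.log (1 + L)| * T ≤ (C + 1) * T := by
    rw [← abs_of_pos hT0, ← abs_mul, abs_of_pos hT0, sub_mul, sub_mul, e5, abs_le]
    constructor <;> linarith [h3.1, h3.2]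
  exact le_of_mul_le_mul_right h5 hT0

/-- the layer cake formula -/
lemma mo_cake [SFinite μ] (h : Bdd C μ) {L : ℝ} (hL : 0 ≤ L) :
    mo μ L = ∫ a in (0 : ℝ)..L, cu μ a := by
  obtain ⟨K, hK⟩ : ∃ K : Set ℝ, K = Icc (-L) L := ⟨_, rfl⟩
  obtain ⟨J, hJ⟩ : ∃ J : Set ℝ, J = Icc 0 L := ⟨_, rfl⟩
  have hfin : IsFiniteMeasure (μ.restrict K) := by
    refine ⟨?_⟩
    rw [Measure.restrict_apply_univ, hK]
    exact h.lt_top _ _
  have hfinJ : IsFiniteMeasure ((volume : Measure ℝ).restrict J) := by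
    refine ⟨?_⟩
    rw [Measure.restrict_apply_univ, hJ]
    exact measure_Icc_lt_top
  have hS := cS_meas
  obtain ⟨f, hf⟩ : ∃ f : ℝ → ℝ → ℝ, ∀ x z, f x z = (Icc (-|x|) |x|).indicator
      (fun _ => (1 : ℝ)) z := ⟨_, fun x z => rfl⟩
  have hf2 : Function.uncurry f = {p : ℝ × ℝ | |p.2| ≤ |p.1|}.indicator
      (fun _ => (1 : ℝ)) := by
    ext p
    rw [Function.uncurry, hf]
    by_cases hp : p.2 ∈ Icc (-|p.1|) |p.1|
    · rw [indicator_of_mem hp, indicator_of_mem (show p ∈ {p : ℝ × ℝ | |p.2| ≤ |p.1|} from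
        abs_le.2 hp)]
    · rw [indicator_of_notMem hp, indicator_of_notMem (show p ∉ {p : ℝ × ℝ | |p.2| ≤ |p.1|} from
        fun h => hp (abs_le.1 h))]
  have hint : Integrable (Function.uncurry f) ((volume.restrict J).prod (μ.restrict K)) := by
    rw [hf2, integrable_indicator_iff hS]
    exact integrableOn_const (measure_ne_top _ _)
  have e1 : ∀ x ∈ J, cu μ x = ∫ z, f x z ∂(μ.restrict K) := by
    intro x hx
    rw [hJ] at hx
    have : Icc (-|x|) |x| ⊆ K := by
      rw [hK, abs_of_nonneg hx.1]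
      exact Icc_subset_Icc (by linarith [hx.2]) hx.2
    simp_rw [hf]
    rw [integral_indicator measurableSet_Icc, setIntegral_const, smul_eq_mul, mul_one]
    unfold cu Measure.real
    rw [Measure.restrict_apply measurableSet_Icc, inter_eq_left.2 this]
  have e2 : ∀ z, ∫ x in J, f x z = max (L - |z|) 0 := by
    intro z
    have : ∀ x ∈ J, f x z = (Icc |z| L).indicator (fun _ => (1 : ℝ)) x := by
      intro x hx
      rw [hJ] at hx
      rw [hf, abs_of_nonneg hx.1]
      by_cases hz : z ∈ Icc (-x) x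
      · rw [indicator_of_mem hz, indicator_of_mem]
        exact ⟨abs_le.2 hz, hx.2⟩
      · rw [indicator_of_notMem hz, indicator_of_notMem]
        intro hx'
        exact hz (abs_le.1 hx'.1)
    rw [setIntegral_congr_fun (by rw [hJ]; exact measurableSet_Icc) this,
      integral_indicator measurableSet_Icc, setIntegral_const, smul_eq_mul, mul_one]
    unfold Measure.real
    rw [Measure.restrict_apply measurableSet_Icc, hJ, inter_eq_left.2
      (Icc_subset_Icc (abs_nonneg z) le_rfl), Real.volume_Icc]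
    rcases le_total 0 (L - |z|) with h3 | h3
    · rw [ENNReal.toReal_ofReal h3, max_eq_left h3]
    · rw [ENNReal.ofReal_eq_zero.2 h3, max_eq_right h3]
      rfl
  calc mo μ L = ∫ z in K, max (L - |z|) 0 ∂μ := by
        unfold mo
        refine (setIntegral_eq_integral_of_forall_compl_eq_zero fun z hz => ?_).symm
        rw [hK] at hz
        apply max_eq_right
        by_contra hcon
        push Not at hcon
        exact hz (abs_le.1 (by linarith))
    _ = ∫ z, (∫ x in J, f x z) ∂(μ.restrict K) := by simp_rw [e2]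
    _ = ∫ x in J, ∫ z, f x z ∂(μ.restrict K) := (integral_integral_swap hint).symm
    _ = ∫ x in J, cu μ x := by
        refine (setIntegral_congr_fun (by rw [hJ]; exact measurableSet_Icc) fun x hx => e1 x hx).symm
    _ = ∫ a in (0 : ℝ)..L, cu μ a := by
        rw [intervalIntegral.integral_of_le hL, hJ, integral_Icc_eq_integral_Ioc]

lemma NS_mono (T : ℝ) : Monotone (NS T) := by
  intro a b hab
  have := Mp_fin T
  exact measureReal_mono (Ioc_subset_Ioc_right hab) (measure_ne_top _ _)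

lemma NS_cake {T : ℝ} (hT : 10 ≤ T) (hb : Bdd C (Mp T)) {L : ℝ} (hL : 0 ≤ L) :
    mo (Mp T) L = L * DG T + 2 * ∫ a in (0 : ℝ)..L, NS T a := by
  have := Mp_sfin T
  rw [mo_cake hb hL]
  have e : ∀ a ∈ uIcc 0 L, cu (Mp T) a = 2 * NS T a + DG T := by
    intro a ha
    rw [uIcc_of_le hL] at ha
    unfold cu
    rw [abs_of_nonneg ha.1, Mp_sym hT ha.1]
  rw [intervalIntegral.integral_congr e, intervalIntegral.integral_add
    ((NS_mono T).intervalIntegrable.const_mul _) (by simp), intervalIntegral.integral_const_mul,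
    intervalIntegral.integral_const, smul_eq_mul]
  ring

/-- **The sum rule.** -/
theorem sum_rule : ∃ C : ℝ, 0 < C ∧ ∀ A B : ℝ, 0 ≤ A → A < B → ∀ᶠ T in atTop,
    |(B - A) * DG T - 2 * (∫ a in A..B, (a - NS T a)) -
      1 / Real.pi ^ 2 * Real.log ((1 + B) / (1 + A))| ≤ C := by
  obtain ⟨C, hC, h⟩ := V2_asym
  obtain ⟨Cb, hCb, hBd⟩ := Mp_bdd
  have hmo : ∀ L : ℝ, 0 ≤ L → ∀ᶠ T in atTop,
      |mo (Mp T) L - L ^ 2 - 1 / Real.pi ^ 2 * Real.log (1 + L)| ≤ C + 1 := by
    intro L hL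
    rcases hL.eq_or_lt with h0 | h0
    · refine Eventually.of_forall fun T => ?_
      have : mo (Mp T) 0 = 0 := by
        unfold mo
        have e : ∀ x : ℝ, max (0 - |x|) 0 = 0 := fun x => max_eq_right (by linarith [abs_nonneg x])
        simp_rw [e]
        simp
      rw [← h0, this]
      norm_num
      linarith
    · filter_upwards [h L h0, V2_close hL one_pos] with T h1 h2
      have e : mo (Mp T) L - L ^ 2 - 1 / Real.pi ^ 2 * Real.log (1 + L) =
        (V2 T L - L ^ 2 - 1 / Real.pi ^ 2 * Real.log (1 + L)) - (V2 T L - mo (Mp T) L) := by ring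
      rw [e]
      refine (abs_sub _ _).trans ?_
      linarith
  refine ⟨2 * (C + 1), by linarith, fun A B hA hAB => ?_⟩
  filter_upwards [hmo A hA, hmo B (by linarith), hBd, eventually_ge_atTop 10] with T h1 h2 hb hT
  rw [NS_cake hT hb hA] at h1
  rw [NS_cake hT hb (by linarith)] at h2
  have hii : ∀ a b : ℝ, IntervalIntegrable (NS T) volume a b := fun a b =>
    (NS_mono T).intervalIntegrable
  have e1 := intervalIntegral.integral_add_adjacent_intervals (hii 0 A) (hii A B)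
  have e2 : ∫ a in A..B, (a - NS T a) = (B ^ 2 - A ^ 2) / 2 - ∫ a in A..B, NS T a := by
    rw [intervalIntegral.integral_sub (by simp) (hii _ _), integral_id]
  have e3 : Real.log ((1 + B) / (1 + A)) = Real.log (1 + B) - Real.log (1 + A) :=
    Real.log_div (by linarith) (by linarith)
  rw [e2, e3]
  have k1 := abs_le.1 h1
  have k2 := abs_le.1 h2
  have e4 : (B - A) * DG T - 2 * ((B ^ 2 - A ^ 2) / 2 - ∫ a in A..B, NS T a) -
      1 / Real.pi ^ 2 * (Real.log (1 + B) - Real.log (1 + A)) =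
      (B * DG T + 2 * (∫ a in (0 : ℝ)..B, NS T a) - B ^ 2 - 1 / Real.pi ^ 2 * Real.log (1 + B)) -
      (A * DG T + 2 * (∫ a in (0 : ℝ)..A, NS T a) - A ^ 2 - 1 / Real.pi ^ 2 * Real.log (1 + A)) := by
    rw [← e1]; ring
  rw [e4]
  refine (abs_sub _ _).trans ?_
  linarith

end Pool.Agent.Q85.Rig
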