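import Pool.Agent.Q85.Rig.Pt

/-! # Transfer: families whose zeros off the line are only controlled along a filter -/

set_option autoImplicit false

open MeasureTheory Set Filter Topology

namespace Pool.Agent.Q85.Rig

open Pool.Agent.Y749.Rig

/-- the size of the scale -/
noncomputable def vT (T : ℝ) : ℝ := (⌊min T (T * Real.log T / (NF T + 1))⌋₊ : ℝ)

/-- the coding of the scales -/
noncomputable def uT (T : ℝ) : ℝ := vT T + T / (1 + T)

lemma NF_nonneg (T : ℝ) : 0 ≤ NF T := by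
  unfold NF
  exact Finset.sum_nonneg fun s _ => mm_nonneg s

lemma uT_inj {T T' : ℝ} (h : 10 ≤ T) (h' : 10 ≤ T') (he : uT T = uT T') : T = T' := by
  have f1 : ∀ T : ℝ, 10 ≤ T → Int.fract (uT T) = T / (1 + T) := by
    intro T hT
    unfold uT vT
    rw [Int.fract_natCast_add, Int.fract_eq_self]
    constructor
    · positivity
    · rw [div_lt_one (by linarith)]; linarith
  have h1 : T / (1 + T) = T' / (1 + T') := by rw [← f1 T h, ← f1 T' h', he]
  rw [div_eq_div_iff (by linarith) (by linarith)] at h1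
  linarith

open Classical in
/-- the re-indexed family -/
noncomputable def Mt (s : ℝ) : Measure ℝ :=
  if h : ∃ T : ℝ, 10 ≤ T ∧ uT T = s then Mp h.choose else mG

lemma Mt_uT {T : ℝ} (hT : 10 ≤ T) : Mt (uT T) = Mp T := by
  unfold Mt
  have h : ∃ T' : ℝ, 10 ≤ T' ∧ uT T' = uT T := ⟨T, hT, rfl⟩
  rw [dif_pos h, uT_inj h.choose_spec.1 hT h.choose_spec.2]

/-- a property of the re-indexed family -/
lemma Mt_cases {P : Measure ℝ → Prop} (hG : P mG) {n T₀ : ℝ} (hn : 0 < n)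
    (h : ∀ T : ℝ, T₀ ≤ T → 10 ≤ T → NF T ≤ 1 / n * (T * Real.log T) → P (Mp T)) :
    ∀ᶠ s : ℝ in atTop, P (Mt s) := by
  filter_upwards [eventually_ge_atTop (max (max T₀ n) 10 + 1)] with s hs
  unfold Mt
  split_ifs with hex
  · obtain ⟨h10, hu⟩ := hex.choose_spec
    obtain ⟨T, hT⟩ : ∃ T : ℝ, T = hex.choose := ⟨_, rfl⟩
    rw [← hT] at h10 hu ⊢
    have hq : T / (1 + T) < 1 := by rw [div_lt_one (by linarith)]; linarith
    have hv : max (max T₀ n) 10 < vT T := by
      unfold uT at hu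
      linarith
    have hlog := one_lt_log (show 3 ≤ T by linarith)
    have hN := NF_nonneg T
    have hm0 : 0 ≤ min T (T * Real.log T / (NF T + 1)) :=
      le_min (by linarith) (by positivity)
    have h1 : vT T ≤ min T (T * Real.log T / (NF T + 1)) := Nat.floor_le hm0
    have h2 : vT T ≤ T := h1.trans (min_le_left _ _)
    have h3 : vT T ≤ T * Real.log T / (NF T + 1) := h1.trans (min_le_right _ _)
    rw [le_div_iff₀ (by linarith)] at h3
    have h4 : T₀ ≤ T := ((le_max_left _ _).trans (le_max_left _ _)).trans (hv.le.trans h2)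
    have h5 : n ≤ vT T := ((le_max_right _ _).trans (le_max_left _ _)).trans hv.le
    refine h T h4 h10 ?_
    rw [one_div, ← div_eq_inv_mul, le_div_iff₀ hn]
    nlinarith
  · exact hG

lemma uT_tend {F : Filter ℝ} (hF : F ≤ atTop)
    (hoff : ∀ η : ℝ, 0 < η → ∀ᶠ T : ℝ in F, NF T ≤ η * (T * Real.log T)) :
    Tendsto uT F atTop := by
  rw [tendsto_atTop]
  intro b
  obtain ⟨n, hn⟩ := exists_nat_gt (max b 1)
  have hnb : b < n := (le_max_left _ _).trans_lt hn
  have hn1 : (1 : ℝ) < n := (le_max_right _ _).trans_lt hn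
  have hTT : Tendsto (fun T : ℝ => T * Real.log T) atTop atTop :=
    tendsto_id.atTop_mul_atTop₀ Real.tendsto_log_atTop
  filter_upwards [hoff (1 / (2 * n)) (by positivity), hF (eventually_ge_atTop (n : ℝ)),
    hF (eventually_ge_atTop 10), hF (hTT.eventually_ge_atTop (2 * n))] with T h1 h2 hT h3
  have hN := NF_nonneg T
  have h4 : (n : ℝ) * (NF T + 1) ≤ T * Real.log T := by
    have h5 : (n : ℝ) * NF T ≤ T * Real.log T / 2 := by
      have := mul_le_mul_of_nonneg_left h1 (show (0 : ℝ) ≤ n by linarith)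
      rwa [show (n : ℝ) * (1 / (2 * n) * (T * Real.log T)) = T * Real.log T / 2 by
        field_simp] at this
    linarith
  have h5 : (n : ℝ) ≤ vT T := by
    unfold vT
    refine Nat.cast_le.2 (Nat.le_floor (le_min h2 ?_))
    rw [le_div_iff₀ (by linarith)]
    exact h4
  have h6 : 0 ≤ T / (1 + T) := by positivity
  unfold uT
  linarith

/-- **Transfer.** -/
theorem transfer : ∃ κ C : ℝ, 0 < κ ∧ κ ≤ 1 / 2 ∧ 2 ≤ C ∧ (∀ᶠ T in atTop, Bdd C (Mp T)) ∧
    (∀ᶠ s in atTop, Bdd C (Mt s)) ∧ (∀ᶠ s in atTop, Ev (Mt s)) ∧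
    (∀ ψ, Adm κ ψ → Tendsto (fun s => ∫ x, fl ψ x ∂(Mt s)) atTop (𝓝 (cc ψ))) := by
  obtain ⟨κ, hκ, hκ2, ht⟩ := test_pt
  obtain ⟨C, hC, hB⟩ := Mp_bdd
  have hmG : Bdd C mG := fun a => (mG_bdd a).trans (ENNReal.ofReal_le_ofReal hC)
  refine ⟨κ, C, hκ, hκ2, hC, hB, ?_, ?_, fun ψ hψ => ?_⟩
  · obtain ⟨T₀, hT₀⟩ := eventually_atTop.1 hB
    exact Mt_cases (P := fun m => Bdd C m) hmG one_pos fun T h1 _ _ => hT₀ T h1
  · exact Mt_cases (P := fun m => Ev m) mG_ev one_pos (T₀ := 10) fun T _ h10 _ => Mp_ev h10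
  · rw [Metric.tendsto_nhds]
    intro ε hε
    obtain ⟨η, hη, hev⟩ := ht ψ hψ (ε / 2) (by positivity)
    obtain ⟨T₀, hT₀⟩ := eventually_atTop.1 hev
    refine Mt_cases (P := fun m => dist (∫ x, fl ψ x ∂m) (cc ψ) < ε) ?_
      (n := 1 / η) (T₀ := T₀) (by positivity) fun T h1 _ h2 => ?_
    · rw [mG_test hψ (by linarith), dist_self]
      exact hε
    · rw [one_div_one_div] at h2
      rw [Real.dist_eq]
      have := hT₀ T h1 h2
      linarith

/-- re-indexing statements along a filter -/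
lemma ev_map {F : Filter ℝ} (hF : F ≤ atTop) {P : Measure ℝ → Prop} :
    (∀ᶠ s in Filter.map uT F, P (Mt s)) ↔ ∀ᶠ T in F, P (Mp T) := by
  rw [eventually_map]
  refine eventually_congr ?_
  filter_upwards [hF (eventually_ge_atTop 10)] with T hT
  rw [Mt_uT hT]

lemma tend_map {F : Filter ℝ} (hF : F ≤ atTop) {f : Measure ℝ → ℝ} {y : ℝ} :
    Tendsto (fun s => f (Mt s)) (Filter.map uT F) (𝓝 y) ↔ Tendsto (fun T => f (Mp T)) F (𝓝 y) := by
  rw [tendsto_map'_iff]
  refine tendsto_congr' ?_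
  filter_upwards [hF (eventually_ge_atTop 10)] with T hT
  show f (Mt (uT T)) = f (Mp T)
  rw [Mt_uT hT]

end Pool.Agent.Q85.Rig
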